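import Pool.Agent.Lib.MP_a80c92_pr.Defs

/-! # JOB AdmA: the exponential moments of `k(x)/x dx` for admissible `k`

PROOF. Put `m x = e^{lam x} k x` (antitone, positive on `(0, ∞)`, limit `L ≥ 0`, `m ≥ L`), measurable
on `(0,∞)` up to null sets (`aemeasurable_restrict_of_antitoneOn`). `J_levyOf`:
`levyOf` restricted to `Ioi 1` has density `kR x / x` (the other part lives on `Iio 0`), so
`J = ∫⁻_{x>1} ofReal (e^{sx} kR x / x) = ∫⁻_{x>1} ofReal (e^{-(lam-s)x} m x / x)`
(`lintegral_withDensity_eq_lintegral_mul₀`...).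
`adm_J_lt` (`s < lam`): `m x / x ≤ m 1` for `x > 1`, exponential integral finite.
`adm_J_top` (`s > lam`, `ε = s - lam`): by `slow` with `ε/2` there are `x_0 > 1` with
`e^{ε x_0/2} m x_0` as large as we like; the sup over `(1, R]` is finite (`m ≤ m 1`), so `x_0` can be
taken `≥ R` for any `R`. On `[x_0 - 1, x_0]` (`x_0 ≥ 3`): `e^{εx} m x / x ≥ e^{ε(x_0-1)} m x_0 / x_0
≥ e^{-ε} (e^{ε x_0/2}/x_0) (e^{ε x_0/2} m x_0)` which is as large as we like
(`e^{εx/2}/x → ∞`). So `J ≥` any number. -/

open MeasureTheory Set Filter Topology ProbabilityTheory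
open scoped ENNReal NNReal

namespace Pool.Agent.Lib.MP_a80c92_pr

theorem adma_restrict (kR kL : ℝ → ℝ) :
    (levyOf kR kL).restrict (Ioi 1) =
      (volume.restrict (Ioi 1)).withDensity (fun x => ENNReal.ofReal (kR x / x)) := by
  unfold levyOf
  rw [Measure.restrict_add, restrict_withDensity measurableSet_Ioi,
    restrict_withDensity measurableSet_Ioi,
    Measure.restrict_restrict measurableSet_Ioi, Measure.restrict_restrict measurableSet_Ioi]
  have h1 : Ioi (1 : ℝ) ∩ Ioi 0 = Ioi 1 := inter_eq_left.2 fun x hx => by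
    have : (1 : ℝ) < x := hx
    exact show (0 : ℝ) < x by linarith
  have h2 : Ioi (1 : ℝ) ∩ Iio 0 = ∅ := by
    ext x
    simp only [mem_inter_iff, mem_Ioi, mem_Iio, mem_empty_iff_false, iff_false, not_and, not_lt]
    intro h
    linarith
  rw [h1, h2, Measure.restrict_empty, withDensity_zero_left, add_zero]

theorem adma_meas (k : ℝ → ℝ) (lam L : ℝ) (hk : Adm k lam L) :
    AEMeasurable k (volume.restrict (Ioi 1)) := by
  have h1 : AntitoneOn (fun x => Real.exp (lam * x) * k x) (Ioi 1) :=
    hk.anti.mono (Ioi_subset_Ioi zero_le_one)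
  have h2 : AEMeasurable (fun x => Real.exp (lam * x) * k x) (volume.restrict (Ioi 1)) :=
    aemeasurable_restrict_of_antitoneOn measurableSet_Ioi h1
  have h3 : AEMeasurable (fun x => Real.exp (-(lam * x)) * (Real.exp (lam * x) * k x))
      (volume.restrict (Ioi 1)) :=
    (Measurable.aemeasurable (by fun_prop)).mul h2
  refine h3.congr (Filter.Eventually.of_forall fun x => ?_)
  simp only
  rw [← mul_assoc, ← Real.exp_add, neg_add_cancel, Real.exp_zero, one_mul]

theorem J_levyOf (kR kL : ℝ → ℝ) (lam L : ℝ) (hk : Adm kR lam L) (s : ℝ) :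
    J (levyOf kR kL) s =
      ∫⁻ x in Ioi (1 : ℝ), ENNReal.ofReal (Real.exp (s * x) * (kR x / x)) := by
  unfold J
  have hm := adma_meas kR lam L hk
  have hm2 : AEMeasurable (fun x => ENNReal.ofReal (kR x / x)) (volume.restrict (Ioi 1)) :=
    (hm.div measurable_id.aemeasurable).ennreal_ofReal
  rw [adma_restrict, lintegral_withDensity_eq_lintegral_mul₀ hm2
    (Measurable.aemeasurable (by fun_prop))]
  refine setLIntegral_congr_fun measurableSet_Ioi fun x hx => ?_
  simp only [Pi.mul_apply]
  rw [mul_comm, ← ENNReal.ofReal_mul (Real.exp_pos _).le]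

/-- The integrand in terms of `m`. -/
theorem adma_rw (k : ℝ → ℝ) (lam s x : ℝ) :
    Real.exp (s * x) * (k x / x) =
      Real.exp (-(lam - s) * x) * ((Real.exp (lam * x) * k x) / x) := by
  have : Real.exp (s * x) = Real.exp (-(lam - s) * x) * Real.exp (lam * x) := by
    rw [← Real.exp_add]; congr 1; ring
  rw [this]; ring

theorem adm_J_lt (kR kL : ℝ → ℝ) (lam L : ℝ) (hk : Adm kR lam L) (s : ℝ) (hs : s < lam) :
    J (levyOf kR kL) s < ∞ := by
  rw [J_levyOf kR kL lam L hk s]
  have hint : IntegrableOn (fun x => Real.exp (-(lam - s) * x) * (Real.exp (lam * 1) * kR 1))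
      (Ioi 1) := (exp_neg_integrableOn_Ioi 1 (by linarith : 0 < lam - s)).mul_const _
  refine lt_of_le_of_lt (setLIntegral_mono' measurableSet_Ioi fun x hx => ?_)
    hint.lintegral_lt_top
  apply ENNReal.ofReal_le_ofReal
  have hx' : (1 : ℝ) < x := hx
  have hm : Real.exp (lam * x) * kR x ≤ Real.exp (lam * 1) * kR 1 :=
    hk.anti (show (0 : ℝ) < 1 from one_pos) (show (0 : ℝ) < x by linarith) hx'.le
  have hp : 0 < Real.exp (lam * x) * kR x := mul_pos (Real.exp_pos _) (hk.pos x (by linarith))
  rw [adma_rw kR lam s x]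
  refine mul_le_mul_of_nonneg_left ?_ (Real.exp_pos _).le
  exact (div_le_self hp.le hx'.le).trans hm

theorem adm_J_top (kR kL : ℝ → ℝ) (lam L : ℝ) (hk : Adm kR lam L) (s : ℝ) (hs : lam < s) :
    J (levyOf kR kL) s = ∞ := by
  by_contra hne
  set ε := s - lam with hε
  have hε0 : 0 < ε := by linarith
  set m : ℝ → ℝ := fun x => Real.exp (lam * x) * kR x with hm
  have hmpos : ∀ x, 0 < x → 0 < m x := fun x hx => mul_pos (Real.exp_pos _) (hk.pos x hx)
  have hmanti : ∀ x y, 0 < x → x ≤ y → m y ≤ m x := fun x y hx hxy =>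
    hk.anti (show (0 : ℝ) < x from hx) (show (0 : ℝ) < y from hx.trans_le hxy) hxy
  -- lower bound of `J`
  have low : ∀ x, 3 < x → Real.exp (ε * (x - 1)) * (m x / x) ≤ (J (levyOf kR kL) s).toReal := by
    intro x hx
    have h1 : ENNReal.ofReal (Real.exp (ε * (x - 1)) * (m x / x)) ≤ J (levyOf kR kL) s := by
      rw [J_levyOf kR kL lam L hk s]
      calc ENNReal.ofReal (Real.exp (ε * (x - 1)) * (m x / x))
          = ∫⁻ _ in Ioc (x - 1) x, ENNReal.ofReal (Real.exp (ε * (x - 1)) * (m x / x)) := by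
            rw [setLIntegral_const, Real.volume_Ioc]
            simp
        _ ≤ ∫⁻ y in Ioc (x - 1) x, ENNReal.ofReal (Real.exp (s * y) * (kR y / y)) := by
            refine setLIntegral_mono' measurableSet_Ioc fun y hy => ?_
            apply ENNReal.ofReal_le_ofReal
            rw [adma_rw kR lam s y]
            have hy1 : x - 1 < y := hy.1
            have hy2 : y ≤ x := hy.2
            have hy0 : 0 < y := by linarith
            have k1 : Real.exp (ε * (x - 1)) ≤ Real.exp (-(lam - s) * y) := by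
              apply Real.exp_le_exp.2
              have : -(lam - s) = ε := by rw [hε]; ring
              rw [this]
              exact mul_le_mul_of_nonneg_left hy1.le hε0.le
            have k2 : m x / x ≤ m y / y :=
              div_le_div₀ (hmpos y hy0).le (hmanti y x hy0 hy2) hy0 hy2
            exact mul_le_mul k1 k2 (div_pos (hmpos x (by linarith)) (by linarith)).le
              (Real.exp_pos _).le
        _ ≤ ∫⁻ y in Ioi (1 : ℝ), ENNReal.ofReal (Real.exp (s * y) * (kR y / y)) := by
            refine lintegral_mono_set fun y hy => ?_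
            have : x - 1 < y := hy.1
            exact show (1 : ℝ) < y by linarith
    exact (ENNReal.ofReal_le_iff_le_toReal hne).1 h1
  set C := (J (levyOf kR kL) s).toReal with hC
  apply hk.slow (ε / 2) (by linarith)
  refine ⟨max (C * Real.exp ε * (2 / ε)) (Real.exp (ε / 2 * 3) * m 1), ?_⟩
  rintro y ⟨x, hx, rfl⟩
  have hx1 : (1 : ℝ) < x := hx
  have hx0 : 0 < x := by linarith
  change Real.exp (ε / 2 * x) * m x ≤ _
  rcases le_or_gt x 3 with h3 | h3
  · refine le_max_of_le_right ?_
    refine mul_le_mul ?_ (hmanti 1 x one_pos hx1.le) (hmpos x hx0).le (Real.exp_pos _).le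
    exact Real.exp_le_exp.2 (mul_le_mul_of_nonneg_left h3 (by linarith))
  · refine le_max_of_le_left ?_
    have h4 := low x h3
    have h5 : ε / 2 * x ≤ Real.exp (ε / 2 * x) := by
      have := Real.add_one_le_exp (ε / 2 * x); linarith
    have e1 : Real.exp (ε * (x - 1)) =
        Real.exp (ε / 2 * x) * Real.exp (ε / 2 * x) * Real.exp (-ε) := by
      rw [← Real.exp_add, ← Real.exp_add]; congr 1; ring
    have h6 : (Real.exp (ε / 2 * x) * m x) * (ε / 2 * Real.exp (-ε)) ≤ C := by
      refine le_trans ?_ h4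
      rw [e1]
      have h7 : (ε / 2 * x) * (Real.exp (ε / 2 * x) * Real.exp (-ε) * (m x / x)) ≤
          Real.exp (ε / 2 * x) * (Real.exp (ε / 2 * x) * Real.exp (-ε) * (m x / x)) :=
        mul_le_mul_of_nonneg_right h5
          (mul_nonneg (by positivity) (div_pos (hmpos x hx0) hx0).le)
      have e2 : (ε / 2 * x) * (Real.exp (ε / 2 * x) * Real.exp (-ε) * (m x / x)) =
          (Real.exp (ε / 2 * x) * m x) * (ε / 2 * Real.exp (-ε)) := by
        field_simp
      rw [← e2]
      calc _ ≤ _ := h7
        _ = _ := by ring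
    have h8 : 0 < ε / 2 * Real.exp (-ε) := by positivity
    have e3 : C * Real.exp ε * (2 / ε) = C / (ε / 2 * Real.exp (-ε)) := by
      rw [Real.exp_neg]; field_simp
    rw [e3, le_div_iff₀ h8]
    exact h6

end Pool.Agent.Lib.MP_a80c92_pr
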