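import Pool.Agent.Lib.MP_a80c92_pr.AdmA

/-! # JOB AdmB: logarithmic upper bound of `J`, necessity in the class

PROOF. `m x = e^{lam x} kR x`.
`adm_J_le`: `ε = lam - s ∈ (0, lam]`. Choose `X > 1` with `m x ≤ L + η` for `x ≥ X`. Then (`J_levyOf`)
`J(s) = ∫_1^∞ e^{-εx} m x / x dx ≤ m 1 log X + (L+η) ∫_1^∞ e^{-εx}/x dx`, and
`∫_1^∞ e^{-εx}/x dx ≤ ∫_1^{1/ε} dx/x + ε ∫_{1/ε}^∞ e^{-εx} dx ≤ log(1/ε) + 1` if `ε < 1`; if `ε ≥ 1` it
is at most `∫_1^∞ e^{-x} dx ≤ 1 ≤ log(1/ε) + 1 + |log lam|`. So in all cases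
`≤ log(1/ε) + 1 + |log lam|`. (`L ≥ 0`.)
`adm_nec`: from `NecSide`: some `s0 > 0` with `J s0 < ∞`, so `lam ≥ s0 > 0` (`adm_J_top`). Then with
`C` from `NecSide` (its hypotheses hold by `adm_J_lt`, `adm_J_top`) and `adm_J_le`:
`(1 - L - η) log(1/(lam-s)) ≤ C + C'` for all `0 ≤ s < lam`; `s → lam`: `1 - L - η ≤ 0` for all
`η > 0`. -/

open MeasureTheory Set Filter Topology ProbabilityTheory
open scoped ENNReal NNReal

namespace Pool.Agent.Lib.MP_a80c92_pr

private theorem AdmB_log (c Y : ℝ) (hc : 0 ≤ c) (hY : 1 ≤ Y) :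
    ∫⁻ x in Ioc 1 Y, ENNReal.ofReal (c / x) = ENNReal.ofReal (c * Real.log Y) := by
  have h1 : ContinuousOn (fun x : ℝ => c / x) (Icc 1 Y) :=
    continuousOn_const.div continuousOn_id fun x hx => (one_pos.trans_le hx.1).ne'
  have h2 : IntegrableOn (fun x : ℝ => c / x) (Ioc 1 Y) := (h1.integrableOn_Icc).mono_set Ioc_subset_Icc_self
  have h3 : 0 ≤ᵐ[volume.restrict (Ioc 1 Y)] fun x : ℝ => c / x := by
    refine (ae_restrict_iff' measurableSet_Ioc).2 (ae_of_all _ fun x hx => ?_)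
    exact div_nonneg hc (one_pos.trans hx.1).le
  rw [← ofReal_integral_eq_lintegral_ofReal h2 h3]
  congr 1
  rw [← intervalIntegral.integral_of_le hY]
  have h4 : ∀ x : ℝ, c / x = c * (1 / x) := fun x => by ring
  simp only [h4]
  rw [intervalIntegral.integral_const_mul, integral_one_div_of_pos one_pos (one_pos.trans_le hY), div_one]

private theorem AdmB_exp (c ε : ℝ) (hc : 0 ≤ c) (hε : 0 < ε) :
    ∫⁻ x in Ioi (1 : ℝ), ENNReal.ofReal (c * (ε * Real.exp (-ε * x))) ≤ ENNReal.ofReal c := by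
  have h1 : IntegrableOn (fun x : ℝ => c * (ε * Real.exp (-ε * x))) (Ioi 1) :=
    ((integrableOn_exp_mul_Ioi (neg_lt_zero.2 hε) 1).const_mul ε).const_mul c
  have h3 : 0 ≤ᵐ[volume.restrict (Ioi (1 : ℝ))] fun x : ℝ => c * (ε * Real.exp (-ε * x)) :=
    ae_of_all _ fun x => mul_nonneg hc (mul_nonneg hε.le (Real.exp_pos _).le)
  rw [← ofReal_integral_eq_lintegral_ofReal h1 h3]
  refine ENNReal.ofReal_le_ofReal ?_
  rw [integral_const_mul, integral_const_mul, integral_exp_mul_Ioi (neg_lt_zero.2 hε) 1]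
  have h4 : ε * (-Real.exp (-ε * 1) / -ε) = Real.exp (-ε) := by
    rw [mul_one]
    field_simp
  rw [h4]
  have h5 : Real.exp (-ε) ≤ 1 := Real.exp_le_one_iff.2 (by linarith)
  calc c * Real.exp (-ε) ≤ c * 1 := mul_le_mul_of_nonneg_left h5 hc
    _ = c := mul_one c

theorem adm_J_le (kR kL : ℝ → ℝ) (lam L : ℝ) (hk : Adm kR lam L) (hlam : 0 < lam) (η : ℝ)
    (hη : 0 < η) :
    ∃ C : ℝ, ∀ s, 0 ≤ s → s < lam →
      (J (levyOf kR kL) s).toReal ≤ C + (L + η) * Real.log (1 / (lam - s)) := by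
  have hL : 0 ≤ L := by
    refine ge_of_tendsto hk.lim ?_
    filter_upwards [eventually_gt_atTop (0 : ℝ)] with x hx
    exact mul_nonneg (Real.exp_pos _).le (hk.pos x hx).le
  obtain ⟨X, hX1, hX⟩ : ∃ X : ℝ, 1 ≤ X ∧ ∀ x, X ≤ x → Real.exp (lam * x) * kR x ≤ L + η := by
    have h1 : ∀ᶠ x in atTop, Real.exp (lam * x) * kR x < L + η := hk.lim.eventually (Iio_mem_nhds (by linarith))
    obtain ⟨X, hX⟩ := eventually_atTop.1 h1
    exact ⟨max 1 X, le_max_left _ _, fun x hx => (hX x ((le_max_right _ _).trans hx)).le⟩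
  obtain ⟨m1, hm1⟩ : ∃ m1, m1 = Real.exp (lam * 1) * kR 1 := ⟨_, rfl⟩
  have hm1p : 0 ≤ m1 := by
    rw [hm1]
    exact mul_nonneg (Real.exp_pos _).le (hk.pos 1 one_pos).le
  have hanti : ∀ x, 1 ≤ x → Real.exp (lam * x) * kR x ≤ m1 := by
    intro x hx
    rw [hm1]
    exact hk.anti (mem_Ioi.2 one_pos) (mem_Ioi.2 (one_pos.trans_le hx)) hx
  refine ⟨m1 * Real.log X + (L + η) * (|Real.log lam| + 1), fun s hs hsl => ?_⟩
  obtain ⟨ε, hε⟩ : ∃ ε, ε = lam - s := ⟨_, rfl⟩
  have hε0 : 0 < ε := by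
    rw [hε]
    linarith
  have hεl : ε ≤ lam := by
    rw [hε]
    linarith
  rw [← hε]
  obtain ⟨Y, hY⟩ : ∃ Y, Y = max 1 (1 / ε) := ⟨_, rfl⟩
  have hY1 : 1 ≤ Y := by
    rw [hY]
    exact le_max_left _ _
  have hYε : 1 / ε ≤ Y := by
    rw [hY]
    exact le_max_right _ _
  have hlogY : Real.log Y ≤ Real.log (1 / ε) + |Real.log lam| := by
    rcases le_total 1 (1 / ε) with h1 | h1
    · rw [hY, max_eq_right h1]
      have := abs_nonneg (Real.log lam)
      linarith
    · rw [hY, max_eq_left h1, Real.log_one, one_div, Real.log_inv]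
      have h2 : Real.log ε ≤ Real.log lam := Real.log_le_log hε0 hεl
      have h3 := le_abs_self (Real.log lam)
      linarith
  have hLη : 0 ≤ L + η := by linarith
  have hlogX0 : 0 ≤ Real.log X := Real.log_nonneg hX1
  have hlogY0 : 0 ≤ Real.log Y := Real.log_nonneg hY1
  have hJ : J (levyOf kR kL) s ≤ ENNReal.ofReal (m1 * Real.log X + (L + η) * Real.log Y + (L + η)) := by
    rw [J_levyOf kR kL lam L hk s, ENNReal.ofReal_add (add_nonneg (mul_nonneg hm1p hlogX0) (mul_nonneg hLη hlogY0)) hLη,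
      ENNReal.ofReal_add (mul_nonneg hm1p hlogX0) (mul_nonneg hLη hlogY0),
      ← AdmB_log m1 X hm1p hX1, ← AdmB_log (L + η) Y hLη hY1]
    refine le_trans ?_ (add_le_add_right (AdmB_exp (L + η) ε hLη hε0) _)
    have hmd : ∀ c : ℝ, Measurable fun x : ℝ => ENNReal.ofReal (c / x) := fun c =>
      (measurable_const.div measurable_id).ennreal_ofReal
    have hA : ∀ c Z : ℝ, ∫⁻ x in Ioc 1 Z, ENNReal.ofReal (c / x) =
        ∫⁻ x in Ioi (1 : ℝ), (Ioc 1 Z).indicator (fun x => ENNReal.ofReal (c / x)) x := by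
      intro c Z
      rw [lintegral_indicator measurableSet_Ioc, Measure.restrict_restrict measurableSet_Ioc,
        inter_eq_left.2 Ioc_subset_Ioi_self]
    have hm2 : Measurable fun a : ℝ => (Ioc 1 X).indicator (fun x => ENNReal.ofReal (m1 / x)) a +
        (Ioc 1 Y).indicator (fun x => ENNReal.ofReal ((L + η) / x)) a :=
      ((hmd m1).indicator measurableSet_Ioc).add ((hmd (L + η)).indicator measurableSet_Ioc)
    rw [hA, hA, ← lintegral_add_left ((hmd m1).indicator measurableSet_Ioc), ← lintegral_add_left hm2]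
    refine setLIntegral_mono' measurableSet_Ioi fun x hx => ?_
    have hx1 : 1 < x := hx
    have hx0 : 0 < x := one_pos.trans hx1
    have hval : Real.exp (s * x) * (kR x / x) = (Real.exp (lam * x) * kR x) * Real.exp (-ε * x) / x := by
      have h1 : s * x = lam * x + -ε * x := by
        rw [hε]
        ring
      rw [h1, Real.exp_add]
      ring
    have hE0 : 0 < Real.exp (-ε * x) := Real.exp_pos _
    have hE1 : Real.exp (-ε * x) ≤ 1 := by
      rw [Real.exp_le_one_iff]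
      have := mul_pos hε0 hx0
      linarith
    rw [hval]
    by_cases h1 : x ≤ X
    · have h2 : (Ioc 1 X).indicator (fun x => ENNReal.ofReal (m1 / x)) x = ENNReal.ofReal (m1 / x) :=
        indicator_of_mem (mem_Ioc.2 ⟨hx1, h1⟩) _
      rw [h2]
      refine le_trans ?_ (le_self_add.trans le_self_add)
      refine ENNReal.ofReal_le_ofReal (div_le_div_of_nonneg_right ?_ hx0.le)
      calc (Real.exp (lam * x) * kR x) * Real.exp (-ε * x) ≤ m1 * 1 :=
            mul_le_mul (hanti x hx1.le) hE1 hE0.le hm1p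
        _ = m1 := mul_one _
    · have h1' : X < x := not_le.1 h1
      have h3 : Real.exp (lam * x) * kR x ≤ L + η := hX x h1'.le
      by_cases h4 : x ≤ Y
      · have h2 : (Ioc 1 Y).indicator (fun x => ENNReal.ofReal ((L + η) / x)) x = ENNReal.ofReal ((L + η) / x) :=
          indicator_of_mem (mem_Ioc.2 ⟨hx1, h4⟩) _
        rw [h2]
        refine le_trans ?_ (le_add_self.trans le_self_add)
        refine ENNReal.ofReal_le_ofReal (div_le_div_of_nonneg_right ?_ hx0.le)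
        calc (Real.exp (lam * x) * kR x) * Real.exp (-ε * x) ≤ (L + η) * 1 :=
              mul_le_mul h3 hE1 hE0.le hLη
          _ = L + η := mul_one _
      · have h4' : Y < x := not_le.1 h4
        refine le_trans ?_ le_add_self
        refine ENNReal.ofReal_le_ofReal ?_
        have h5 : 1 / x ≤ ε := by
          rw [div_le_iff₀ hx0]
          have h6 : 1 / ε < x := hYε.trans_lt h4'
          rw [div_lt_iff₀ hε0] at h6
          linarith
        calc (Real.exp (lam * x) * kR x) * Real.exp (-ε * x) / x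
            = (Real.exp (lam * x) * kR x) * (Real.exp (-ε * x) * (1 / x)) := by ring
          _ ≤ (L + η) * (Real.exp (-ε * x) * ε) :=
            mul_le_mul h3 (mul_le_mul_of_nonneg_left h5 hE0.le)
              (mul_nonneg hE0.le (div_nonneg zero_le_one hx0.le)) hLη
          _ = (L + η) * (ε * Real.exp (-ε * x)) := by ring
  have h1 := ENNReal.toReal_le_of_le_ofReal
    (add_nonneg (add_nonneg (mul_nonneg hm1p hlogX0) (mul_nonneg hLη hlogY0)) hLη) hJ
  have h2 : (L + η) * Real.log Y ≤ (L + η) * (Real.log (1 / ε) + |Real.log lam|) := mul_le_mul_of_nonneg_left hlogY hLη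
  have h3 : m1 * Real.log X + (L + η) * (|Real.log lam| + 1) + (L + η) * Real.log (1 / ε) =
    m1 * Real.log X + (L + η) * (Real.log (1 / ε) + |Real.log lam|) + (L + η) := by ring
  rw [h3]
  linarith

theorem adm_nec (kR kL : ℝ → ℝ) (lam L : ℝ) (hk : Adm kR lam L)
    (hN : NecSide (levyOf kR kL)) : 0 < lam ∧ 1 ≤ L := by
  obtain ⟨⟨s0, hs0, hJ0⟩, hN2⟩ := hN
  have hlam : 0 < lam := by
    by_contra hc
    have h1 := adm_J_top kR kL lam L hk s0 (by linarith)
    rw [h1] at hJ0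
    exact lt_irrefl _ hJ0
  refine ⟨hlam, le_of_forall_pos_le_add fun η hη => ?_⟩
  obtain ⟨C, hC⟩ := hN2 lam hlam (fun s hs => adm_J_lt kR kL lam L hk s hs) (fun s hs => adm_J_top kR kL lam L hk s hs)
  obtain ⟨C', hC'⟩ := adm_J_le kR kL lam L hk hlam η hη
  by_contra hcon
  have hd : 0 < 1 - (L + η) := by linarith
  obtain ⟨M, hM⟩ : ∃ M, M = (C + C' + 1) / (1 - (L + η)) := ⟨_, rfl⟩
  obtain ⟨δ, hδ⟩ : ∃ δ, δ = min lam (Real.exp (-M)) := ⟨_, rfl⟩
  have hδ0 : 0 < δ := by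
    rw [hδ]
    exact lt_min hlam (Real.exp_pos _)
  have hδl : δ ≤ lam := by
    rw [hδ]
    exact min_le_left _ _
  have hδM : δ ≤ Real.exp (-M) := by
    rw [hδ]
    exact min_le_right _ _
  have h1 := hC (lam - δ) (by linarith) (by linarith)
  have h2 := hC' (lam - δ) (by linarith) (by linarith)
  rw [sub_sub_cancel] at h1 h2
  have h3 : M ≤ Real.log (1 / δ) := by
    rw [one_div, Real.log_inv]
    have h4 := Real.log_le_log hδ0 hδM
    rw [Real.log_exp] at h4
    linarith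
  have h5 : (1 - (L + η)) * M ≤ (1 - (L + η)) * Real.log (1 / δ) := mul_le_mul_of_nonneg_left h3 hd.le
  have h6 : (1 - (L + η)) * M = C + C' + 1 := by
    rw [hM]
    field_simp
  nlinarith

end Pool.Agent.Lib.MP_a80c92_pr
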