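import Pool.Agent.Lib.MP_a80c92_pr.Defs

/-! # JOB LkA: the Lévy-Khinchin integrand; Taylor bounds; reflection; Poisson limit

PROOF. `|e^{iy} - 1| ≤ 2`, `|e^{iy} - 1 - iy| ≤ y^2` (Mathlib: `Complex.norm_exp_sub_one_sub_id_le`
for small arguments, or `Real`-integral; simplest: for `|y| ≤ 1` the Mathlib bound, for `|y| > 1`:
`≤ 2 + |y| ≤ 3 y^2`), so `‖lk t x‖ ≤ (2 + 3 t^2) min 1 (x^2)`. Integrability of `lk t` by
comparison. `lk_neg` by `abs_neg`. `integral_lk_split`: `ν {0} = 0` and `univ = Ioi 0 ∪ Iio 0 ∪ {0}`;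
the part on `Iio 0` is transported by `x ↦ -x` (`integral_map`, `MeasurableEmbedding` of `neg`).
`isLevy_neg`: `lintegral_map`. `tendsto_poisson`: with `u = dl N * t`:
`c (e^{iu} + e^{-iu} - 2)`, `|e^{iu} + e^{-iu} - 2 + u^2| ≤ C |u|^3`-type bound or
`2 cos u - 2 = -4 sin(u/2)^2` and `sin(u/2)/(u/2) → 1`; `c u^2 = s2 t^2/2`. -/

open MeasureTheory Set Filter Topology ProbabilityTheory
open scoped ENNReal NNReal

namespace Pool.Agent.Lib.MP_a80c92_pr

private theorem lkA_bd (y : ℝ) : ‖Complex.exp ((y : ℂ) * Complex.I) - 1 - (y : ℂ) * Complex.I‖ ≤ 3 * y ^ 2 := by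
  have hn : ‖Complex.exp ((y : ℂ) * Complex.I)‖ = 1 := Complex.norm_exp_ofReal_mul_I _
  have hy : ‖(y : ℂ) * Complex.I‖ = |y| := by
    rw [norm_mul, Complex.norm_I, mul_one, Complex.norm_real, Real.norm_eq_abs]
  have hy2 : 0 ≤ y ^ 2 := sq_nonneg y
  by_cases h1 : |y| ≤ 1
  · have h2 := Complex.norm_exp_sub_one_sub_id_le (x := (y : ℂ) * Complex.I) (by rw [hy]; exact h1)
    rw [hy, sq_abs] at h2
    linarith
  · have h1' : 1 < |y| := not_le.1 h1
    refine (norm_sub_le _ _).trans ?_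
    rw [hy]
    have h3 := norm_sub_le (Complex.exp ((y : ℂ) * Complex.I)) 1
    rw [hn, norm_one] at h3
    have h4 : y ^ 2 = |y| ^ 2 := (sq_abs y).symm
    rw [h4]
    nlinarith

theorem measurable_lk (t : ℝ) : Measurable (lk t) := by
  unfold lk
  have h1 : Measurable fun x : ℝ => (t * x * Complex.I : ℂ) :=
    ((measurable_const.mul Complex.measurable_ofReal).mul measurable_const)
  refine ((Complex.measurable_exp.comp h1).sub measurable_const).sub ?_
  exact Measurable.ite (measurableSet_lt continuous_abs.measurable measurable_const) h1 measurable_const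

theorem norm_lk_le (t x : ℝ) : ‖lk t x‖ ≤ (2 + 3 * t ^ 2) * min 1 (x ^ 2) := by
  have hI : (t * x * Complex.I : ℂ) = ((t * x : ℝ) : ℂ) * Complex.I := by
    rw [Complex.ofReal_mul]
  have hn : ‖Complex.exp (((t * x : ℝ) : ℂ) * Complex.I)‖ = 1 := Complex.norm_exp_ofReal_mul_I _
  have ht : 0 ≤ t ^ 2 := sq_nonneg t
  unfold lk
  rw [hI]
  by_cases h1 : |x| < 1
  · rw [if_pos h1]
    have hx2 : x ^ 2 ≤ 1 := by
      rw [← sq_abs]
      exact pow_le_one₀ (abs_nonneg x) h1.le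
    rw [min_eq_right hx2]
    have h2 : ‖Complex.exp (((t * x : ℝ) : ℂ) * Complex.I) - 1 - ((t * x : ℝ) : ℂ) * Complex.I‖ ≤ 3 * (t * x) ^ 2 :=
      lkA_bd (t * x)
    refine h2.trans ?_
    have h3 : 0 ≤ x ^ 2 := sq_nonneg x
    nlinarith
  · rw [if_neg h1, sub_zero]
    have hx2 : 1 ≤ x ^ 2 := by
      rw [← sq_abs]
      exact one_le_pow₀ (not_lt.1 h1)
    rw [min_eq_left hx2, mul_one]
    refine (norm_sub_le _ _).trans ?_
    rw [hn, norm_one]
    linarith

theorem integrable_min (ν : Measure ℝ) (h : IsLevy ν) :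
    Integrable (fun x : ℝ => min 1 (x ^ 2)) ν := by
  refine ⟨(measurable_const.min (measurable_id.pow_const 2)).aestronglyMeasurable, ?_⟩
  rw [hasFiniteIntegral_iff_ofReal (ae_of_all _ fun x => le_min zero_le_one (sq_nonneg x))]
  exact h.fin

theorem integrable_lk (ν : Measure ℝ) (h : IsLevy ν) (t : ℝ) : Integrable (lk t) ν := by
  exact ((integrable_min ν h).const_mul (2 + 3 * t ^ 2)).mono' (measurable_lk t).aestronglyMeasurable
    (ae_of_all _ fun x => norm_lk_le t x)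

theorem lk_neg (t x : ℝ) : lk t (-x) = lk (-t) x := by
  unfold lk
  have h1 : (t : ℂ) * ((-x : ℝ) : ℂ) * Complex.I = ((-t : ℝ) : ℂ) * x * Complex.I := by
    push_cast
    ring
  rw [abs_neg, h1]

theorem isLevy_neg (ν : Measure ℝ) (h : IsLevy ν) : IsLevy (ν.map (fun x => -x)) := by
  constructor
  · rw [Measure.map_apply measurable_neg (measurableSet_singleton 0)]
    have h1 : (fun x : ℝ => -x) ⁻¹' {0} = {0} := by
      ext x
      simp
    rw [h1]
    exact h.zero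
  · rw [lintegral_map (f := fun x : ℝ => ENNReal.ofReal (min 1 (x ^ 2))) (g := fun x : ℝ => -x)
      ((measurable_const.min (measurable_id.pow_const 2)).ennreal_ofReal) measurable_neg]
    have h1 : ∀ x : ℝ, ENNReal.ofReal (min 1 ((-x) ^ 2)) = ENNReal.ofReal (min 1 (x ^ 2)) := by
      intro x
      rw [neg_sq]
    rw [lintegral_congr h1]
    exact h.fin

theorem integral_lk_split (ν : Measure ℝ) (h : IsLevy ν) (t : ℝ) :
    ∫ x, lk t x ∂ν =
      (∫ x in Ioi 0, lk t x ∂ν) + ∫ x in Ioi 0, lk (-t) x ∂(ν.map (fun x => -x)) := by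
  rw [← integral_add_compl measurableSet_Ioi (integrable_lk ν h t), compl_Ioi]
  congr 1
  rw [setIntegral_map measurableSet_Ioi (measurable_lk (-t)).aestronglyMeasurable measurable_neg.aemeasurable]
  have h1 : (fun x : ℝ => -x) ⁻¹' (Ioi 0) = Iio 0 := by
    ext x
    simp
  rw [h1]
  have h2 : ∀ x : ℝ, lk (-t) (-x) = lk t x := by
    intro x
    rw [lk_neg, neg_neg]
  simp only [h2]
  rw [Measure.restrict_congr_set (Iio_ae_eq_Iic' h.zero)]

theorem tendsto_poisson (s2 t : ℝ) :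
    Tendsto (fun N : ℕ =>
      ((s2 / (2 * dl N ^ 2) : ℝ) : ℂ) * (Complex.exp (dl N * t * Complex.I) - 1) +
      ((s2 / (2 * dl N ^ 2) : ℝ) : ℂ) * (Complex.exp (dl N * (-t) * Complex.I) - 1))
      atTop (𝓝 (-(s2 * t ^ 2 / 2) : ℂ)) := by
  have hd0 : ∀ N : ℕ, dl N ≠ 0 := by
    intro N
    unfold dl
    have h1 : (0 : ℝ) < (N : ℝ) + 1 := by positivity
    exact (div_pos one_pos h1).ne'
  have hdl : Tendsto dl atTop (𝓝[≠] 0) :=
    tendsto_nhdsWithin_iff.2 ⟨tendsto_one_div_add_atTop_nhds_zero_nat, Eventually.of_forall fun N => hd0 N⟩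
  have hder : HasDerivAt (fun u : ℝ => Real.sin (u * (t / 2))) (t / 2) 0 := by
    have h1 := ((hasDerivAt_id (0 : ℝ)).mul_const (t / 2)).sin
    simp only [id, zero_mul, Real.cos_zero, one_mul] at h1
    exact h1
  have hs := (hder.tendsto_slope_zero).comp hdl
  have hs2 : Tendsto (fun N : ℕ => (-2 * s2) * ((dl N)⁻¹ * Real.sin (dl N * (t / 2))) ^ 2) atTop
      (𝓝 ((-2 * s2) * (t / 2) ^ 2)) := by
    refine Tendsto.const_mul _ (Tendsto.pow ?_ 2)
    refine hs.congr fun N => ?_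
    simp only [Function.comp_apply, zero_add, zero_mul, Real.sin_zero, sub_zero, smul_eq_mul]
  have hs3 := (Complex.continuous_ofReal.tendsto ((-2 * s2) * (t / 2) ^ 2)).comp hs2
  have e1 : (((-2 * s2) * (t / 2) ^ 2 : ℝ) : ℂ) = -(s2 * t ^ 2 / 2) := by
    push_cast
    ring
  rw [e1] at hs3
  refine hs3.congr fun N => ?_
  have hN := hd0 N
  have h1 : Complex.exp (dl N * t * Complex.I) + Complex.exp (dl N * (-t) * Complex.I) =
      ((2 * Real.cos (dl N * t) : ℝ) : ℂ) := by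
    rw [Complex.ofReal_mul, Complex.ofReal_cos, Complex.cos, Complex.ofReal_mul]
    push_cast
    have h2 : (dl N : ℂ) * (-t) * Complex.I = -((dl N : ℂ) * t) * Complex.I := by ring
    rw [h2]
    ring
  have h3 : Real.cos (dl N * t) = 1 - 2 * Real.sin (dl N * (t / 2)) ^ 2 := by
    have h4 := Real.cos_two_mul (dl N * (t / 2))
    have h5 := Real.sin_sq_add_cos_sq (dl N * (t / 2))
    have h6 : 2 * (dl N * (t / 2)) = dl N * t := by ring
    rw [h6] at h4
    rw [h4]
    linarith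
  have h7 : (((s2 / (2 * dl N ^ 2) : ℝ) : ℂ) * (Complex.exp (dl N * t * Complex.I) - 1) +
      ((s2 / (2 * dl N ^ 2) : ℝ) : ℂ) * (Complex.exp (dl N * (-t) * Complex.I) - 1)) =
      ((s2 / (2 * dl N ^ 2) * (2 * Real.cos (dl N * t) - 2) : ℝ) : ℂ) := by
    rw [Complex.ofReal_mul, Complex.ofReal_sub, ← h1]
    push_cast
    ring
  rw [h7, Function.comp_apply, h3]
  congr 1
  field_simp
  ring

end Pool.Agent.Lib.MP_a80c92_pr
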