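import Pool.Agent.Lib.MP_a80c92_pr.CPb
import Pool.Agent.Lib.MP_a80c92_pr.LkA

/-! # JOB App: approximation of an infinitely divisible law by compound Poisson laws

PROOF. `ν (An n) < ∞` and `ν (Ioi 1) < ∞`: `min 1 (x^2) ≥ dl n ^ 2 > 0` on `An n` (`dl n ≤ 1`).
The characteristic function of `Yapp ∗ CP (ν|_{Ioi 1})` is (`charFun_conv`, `charFun_dirac`,
`charFun_gaussianReal`, `charFun_CP`) the exponential of
`i g_n t - s2 t^2/2 + ∫_{An n ∩ Iic 1} (e^{itx}-1) dν + ∫_{Ioi 1} (e^{itx}-1) dν`, and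
`An n = (An n ∩ Iic 1) ∪ Ioi 1` (disjoint; `Ioi 1 ⊂ An n` as `dl n ≤ 1`); with
`g_n = g - ∫_{An n ∩ {|x|<1}} x dν` this is `i g t - s2 t^2/2 + ∫_{An n} lk t x dν`, and
`∫_{An n} lk t dν → ∫ lk t dν` by dominated convergence (`An n` increases to `{x ≠ 0}`,
`ν {0} = 0`, or `lk t 0 = 0`; `integrable_lk`). `s2 = (s2.toNNReal : ℝ)` as `s2 ≥ 0`. -/

open MeasureTheory Set Filter Topology ProbabilityTheory
open scoped ENNReal NNReal

namespace Pool.Agent.Lib.MP_a80c92_pr

theorem app_dl_pos (n : ℕ) : 0 < dl n := by unfold dl; positivity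

theorem app_dl_le (n : ℕ) : dl n ≤ 1 := by
  unfold dl
  rw [div_le_one (by positivity)]
  have : (0 : ℝ) ≤ n := Nat.cast_nonneg n
  linarith

theorem measurableSet_An (n : ℕ) : MeasurableSet (An n) :=
  measurableSet_lt measurable_const measurable_id.abs

theorem An_mono : Monotone An := by
  intro m n hmn x hx
  have hx' : dl m < |x| := hx
  have h1 : dl n ≤ dl m := by
    unfold dl
    have : (m : ℝ) ≤ n := by exact_mod_cast hmn
    exact one_div_le_one_div_of_le (by positivity) (by linarith)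
  exact lt_of_le_of_lt h1 hx'

theorem iUnion_An : (⋃ n, An n) = {(0 : ℝ)}ᶜ := by
  ext x
  simp only [mem_iUnion, mem_compl_iff, mem_singleton_iff]
  constructor
  · rintro ⟨n, hn⟩ rfl
    have hn' : dl n < |(0 : ℝ)| := hn
    rw [abs_zero] at hn'
    exact absurd (app_dl_pos n) (not_lt.2 hn'.le)
  · intro hx
    have hx' : 0 < |x| := abs_pos.2 hx
    obtain ⟨n, hn⟩ := exists_nat_one_div_lt hx'
    exact ⟨n, hn⟩

theorem measure_An_lt_top (ν : Measure ℝ) (h : IsLevy ν) (n : ℕ) : ν (An n) < ∞ := by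
  have h1 := mul_meas_ge_le_lintegral₀ (μ := ν)
    (f := fun x : ℝ => ENNReal.ofReal (min 1 (x ^ 2)))
    (Measurable.aemeasurable (by fun_prop)) (ENNReal.ofReal (dl n ^ 2))
  have hsub : An n ⊆ {x : ℝ | ENNReal.ofReal (dl n ^ 2) ≤ ENNReal.ofReal (min 1 (x ^ 2))} := by
    intro x hx
    have hx' : dl n < |x| := hx
    have hp := app_dl_pos n
    refine ENNReal.ofReal_le_ofReal (le_min ?_ ?_)
    · exact pow_le_one₀ hp.le (app_dl_le n)
    · rw [← sq_abs x]; exact pow_le_pow_left₀ hp.le hx'.le 2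
  by_contra hcon
  have htop : ν {x : ℝ | ENNReal.ofReal (dl n ^ 2) ≤ ENNReal.ofReal (min 1 (x ^ 2))} = ∞ := by
    have := measure_mono (μ := ν) hsub
    rw [not_lt_top_iff.1 hcon] at this
    exact top_le_iff.1 this
  rw [htop, ENNReal.mul_top (by
    have := app_dl_pos n
    simp only [ne_eq, ENNReal.ofReal_eq_zero, not_le]; positivity), top_le_iff] at h1
  exact h.fin.ne h1

theorem isFinite_r1 (ν : Measure ℝ) (h : IsLevy ν) (n : ℕ) :
    IsFiniteMeasure (ν.restrict (An n ∩ Iic 1)) := by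
  constructor
  rw [Measure.restrict_apply_univ]
  exact (measure_mono inter_subset_left).trans_lt (measure_An_lt_top ν h n)

theorem Ioi_sub_An (n : ℕ) : Ioi (1 : ℝ) ⊆ An n := by
  intro x hx
  have hx' : 1 < x := hx
  have : dl n < |x| := by rw [abs_of_pos (by linarith)]; exact (app_dl_le n).trans_lt hx'
  exact this

theorem isFinite_r2 (ν : Measure ℝ) (h : IsLevy ν) : IsFiniteMeasure (ν.restrict (Ioi 1)) := by
  constructor
  rw [Measure.restrict_apply_univ]
  exact (measure_mono (Ioi_sub_An 0)).trans_lt (measure_An_lt_top ν h 0)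

theorem isProb_Yapp (g s2 : ℝ) (ν : Measure ℝ) (h : IsLevy ν) (n : ℕ) :
    IsProbabilityMeasure (Yapp g s2 ν n) := by
  have := isFinite_r1 ν h n
  unfold Yapp
  infer_instance

theorem app_norm_e (t x : ℝ) : ‖Complex.exp (t * x * Complex.I) - 1‖ ≤ 2 := by
  have : (t : ℂ) * x * Complex.I = ((t * x : ℝ) : ℂ) * Complex.I := by push_cast; ring
  calc ‖Complex.exp (t * x * Complex.I) - 1‖ ≤ ‖Complex.exp (t * x * Complex.I)‖ + ‖(1 : ℂ)‖ :=
        norm_sub_le _ _
    _ = 2 := by rw [this, Complex.norm_exp_ofReal_mul_I]; norm_num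

theorem app_exponent (g : ℝ) (ν : Measure ℝ) (h : IsLevy ν) (n : ℕ) (t : ℝ) :
    ((gn g ν n : ℝ) : ℂ) * t * Complex.I +
      ((∫ x in An n ∩ Iic 1, (Complex.exp (t * x * Complex.I) - 1) ∂ν) +
        ∫ x in Ioi (1 : ℝ), (Complex.exp (t * x * Complex.I) - 1) ∂ν) =
      g * t * Complex.I + ∫ x in An n, lk t x ∂ν := by
  have hA := measurableSet_An n
  have hAf := measure_An_lt_top ν h n
  have hfin : IsFiniteMeasure (ν.restrict (An n)) := ⟨by rwa [Measure.restrict_apply_univ]⟩
  have hme : Measurable (fun x : ℝ => Complex.exp (t * x * Complex.I) - 1) := by fun_prop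
  have hi : IntegrableOn (fun x : ℝ => Complex.exp (t * x * Complex.I) - 1) (An n) ν :=
    (integrable_const (2 : ℝ)).mono' hme.aestronglyMeasurable
      (Filter.Eventually.of_forall fun x => app_norm_e t x)
  have hset : An n = (An n ∩ Iic 1) ∪ Ioi 1 := by
    ext x
    simp only [mem_union, mem_inter_iff, mem_Iic, mem_Ioi]
    constructor
    · intro hx
      rcases le_or_gt x 1 with h1 | h1
      · exact Or.inl ⟨hx, h1⟩
      · exact Or.inr h1
    · rintro (hx | hx)
      · exact hx.1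
      · exact Ioi_sub_An n hx
  have h1 : (∫ x in An n ∩ Iic 1, (Complex.exp (t * x * Complex.I) - 1) ∂ν) +
      ∫ x in Ioi (1 : ℝ), (Complex.exp (t * x * Complex.I) - 1) ∂ν =
      ∫ x in An n, (Complex.exp (t * x * Complex.I) - 1) ∂ν := by
    rw [← setIntegral_union _ measurableSet_Ioi (hi.mono_set inter_subset_left)
      (hi.mono_set (Ioi_sub_An n)), ← hset]
    rw [Set.disjoint_left]
    rintro x ⟨_, hx⟩ hx'
    have h1 : x ≤ 1 := hx
    have h2 : 1 < x := hx'
    exact absurd h1 (not_le.2 h2)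
  have hB : MeasurableSet {x : ℝ | |x| < 1} := measurableSet_lt measurable_id.abs measurable_const
  have hi2 : IntegrableOn (fun x : ℝ => if |x| < 1 then (t : ℂ) * x * Complex.I else 0)
      (An n) ν := by
    have hm : Measurable (fun x : ℝ => if |x| < 1 then (t : ℂ) * x * Complex.I else 0) :=
      Measurable.ite hB (by fun_prop) measurable_const
    refine (integrable_const (|t|)).mono' hm.aestronglyMeasurable
      (Filter.Eventually.of_forall fun x => ?_)
    split_ifs with hx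
    · rw [norm_mul, norm_mul, Complex.norm_I, mul_one, Complex.norm_real, Complex.norm_real,
        Real.norm_eq_abs, Real.norm_eq_abs]
      exact mul_le_of_le_one_right (abs_nonneg t) hx.le
    · simp
  have h2 : ∫ x in An n, lk t x ∂ν = (∫ x in An n, (Complex.exp (t * x * Complex.I) - 1) ∂ν) -
      ∫ x in An n, (if |x| < 1 then (t : ℂ) * x * Complex.I else 0) ∂ν := by
    rw [← integral_sub hi hi2]
    rfl
  have h3 : ∫ x in An n, (if |x| < 1 then (t : ℂ) * x * Complex.I else 0) ∂ν =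
      ((∫ x in An n ∩ {x : ℝ | |x| < 1}, x ∂ν : ℝ) : ℂ) * t * Complex.I := by
    have e : (fun x : ℝ => if |x| < 1 then (t : ℂ) * x * Complex.I else 0) =
        Set.indicator {x : ℝ | |x| < 1} (fun x : ℝ => (t : ℂ) * x * Complex.I) := by
      funext x
      by_cases hx : |x| < 1
      · rw [if_pos hx, Set.indicator_of_mem (by exact hx)]
      · rw [if_neg hx, Set.indicator_of_notMem (by exact hx)]
    rw [e, setIntegral_indicator hB, integral_mul_const, integral_const_mul]
    rw [integral_complex_ofReal]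
    ring
  rw [h1, h2, h3]
  unfold gn
  push_cast
  ring

theorem app_charFun (g s2 : ℝ) (hs2 : 0 ≤ s2) (ν : Measure ℝ) (h : IsLevy ν) (n : ℕ) (t : ℝ) :
    charFun (Yapp g s2 ν n ∗ CP (ν.restrict (Ioi 1))) t =
      Complex.exp (g * t * Complex.I - s2 * t ^ 2 / 2 + ∫ x in An n, lk t x ∂ν) := by
  have i1 := isFinite_r1 ν h n
  have i2 := isFinite_r2 ν h
  have iY := isProb_Yapp g s2 ν h n
  rw [charFun_conv]
  unfold Yapp
  rw [charFun_conv, charFun_conv, charFun_CP, charFun_CP, charFun_gaussianReal,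
    charFun_apply_real, integral_dirac, ← Complex.exp_add, ← Complex.exp_add, ← Complex.exp_add]
  congr 1
  have key := app_exponent g ν h n t
  rw [Real.coe_toNNReal s2 hs2]
  push_cast at key ⊢
  linear_combination key

theorem tendsto_app (μ : Measure ℝ) (g s2 : ℝ) (ν : Measure ℝ) (h : HasTriple μ g s2 ν)
    (t : ℝ) :
    Tendsto (fun n => charFun (Yapp g s2 ν n ∗ CP (ν.restrict (Ioi 1))) t) atTop
      (𝓝 (charFun μ t)) := by
  have hi := integrable_lk ν h.levy t
  have h1 : Tendsto (fun n => ∫ x in An n, lk t x ∂ν) atTop (𝓝 (∫ x, lk t x ∂ν)) := by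
    have h2 := tendsto_setIntegral_of_monotone (μ := ν) (f := lk t) measurableSet_An An_mono
      hi.integrableOn
    rw [iUnion_An] at h2
    have h3 : ∫ x in {(0 : ℝ)}ᶜ, lk t x ∂ν = ∫ x, lk t x ∂ν := by
      refine setIntegral_eq_integral_of_forall_compl_eq_zero fun x hx => ?_
      have : x = 0 := by simpa using hx
      rw [this]; simp [lk]
    rwa [h3] at h2
  rw [h.cf]
  have h4 : Tendsto (fun n => Complex.exp (g * t * Complex.I - s2 * t ^ 2 / 2 +
      ∫ x in An n, lk t x ∂ν)) atTop (𝓝 (Complex.exp (g * t * Complex.I - s2 * t ^ 2 / 2 +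
      ∫ x, lk t x ∂ν))) :=
    (Complex.continuous_exp.tendsto _).comp (tendsto_const_nhds.add h1)
  refine h4.congr fun n => ?_
  rw [app_charFun g s2 h.s2_nonneg ν h.levy n t]

end Pool.Agent.Lib.MP_a80c92_pr
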