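import Pool.Agent.Lib.MP_a80c92_pr.Defs

/-! # JOB CPa: compound Poisson laws, lintegral part

PROOF. `lintegral_conv : ∫⁻ z, f z ∂(μ ∗ ν) = ∫⁻ x, ∫⁻ y, f (x + y) ∂ν ∂μ` (Mathlib,
MeasureTheory/Group/Convolution.lean). Induction gives `lintegral_cpow`; `lintegral_sum_measure`
and `lintegral_smul_measure` give `lintegral_CP`. The case `c = 1`:
`∑' n, (n!)⁻¹ |m|^n = exp |m|` in `ℝ≥0∞` (from `Real.exp` as a sum:
`NormedSpace.expSeries_div_hasSum_exp` / `Real.hasSum_exp`..., `ENNReal.ofReal_tsum_of_nonneg`),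
times `exp (-|m|)` is `1`. `lintegral_CP_ofReal`: the integral of `c` is the finite real number
`A = ∫ c dm ≥ 0`, the sum is `ofReal (exp A)`, and `∫ (c - 1) dm = A - |m|`.
`smul_le_CP`: the measure `Measure.sum f` is at least each `f n`
(`Measure.le_sum`), the term `n = 1` is `(1!)⁻¹ • (dirac 0 ∗ m) = m`
(`Measure.dirac_zero_conv`). `CP_zero_measure`: `cpow 0 (n+1) = 0` (`conv_zero`). -/

open MeasureTheory Set Filter Topology ProbabilityTheory
open scoped ENNReal NNReal

namespace Pool.Agent.Lib.MP_a80c92_pr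

variable {M : Type*} [AddCommMonoid M] [MeasurableSpace M] [MeasurableAdd₂ M]

theorem cpa_tsum (A : ℝ) (hA : 0 ≤ A) :
    ∑' n : ℕ, ((n.factorial : ℝ≥0∞)⁻¹) * (ENNReal.ofReal A) ^ n =
      ENNReal.ofReal (Real.exp A) := by
  have h := NormedSpace.expSeries_div_hasSum_exp (A : ℝ)
  have h1 : Real.exp A = ∑' n : ℕ, A ^ n / (n.factorial : ℝ) := by
    rw [h.tsum_eq, Real.exp_eq_exp_ℝ]
  rw [h1, ENNReal.ofReal_tsum_of_nonneg (fun n => by positivity) h.summable]
  refine tsum_congr fun n => ?_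
  rw [div_eq_mul_inv, ENNReal.ofReal_mul (by positivity), ENNReal.ofReal_pow hA,
    ENNReal.ofReal_inv_of_pos (by positivity), ENNReal.ofReal_natCast, mul_comm]

instance isFiniteMeasure_cpow (m : Measure M) [IsFiniteMeasure m] (n : ℕ) :
    IsFiniteMeasure (cpow m n) := by
  induction n with
  | zero => unfold cpow; infer_instance
  | succ n ih => unfold cpow; infer_instance

theorem lintegral_cpow (m : Measure M) [IsFiniteMeasure m] (c : M → ℝ≥0∞) (hc : Measurable c)
    (h0 : c 0 = 1) (hadd : ∀ x y, c (x + y) = c x * c y) (n : ℕ) :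
    ∫⁻ x, c x ∂(cpow m n) = (∫⁻ x, c x ∂m) ^ n := by
  induction n with
  | zero => unfold cpow; rw [lintegral_dirac' 0 hc, h0, pow_zero]
  | succ n ih =>
    rw [cpow, Measure.lintegral_conv hc]
    simp only [hadd]
    have : ∀ x : M, ∫⁻ y, c x * c y ∂m = c x * ∫⁻ y, c y ∂m := fun x =>
      lintegral_const_mul _ hc
    simp only [this]
    rw [lintegral_mul_const _ hc, ih, pow_succ]

theorem lintegral_CP (m : Measure M) [IsFiniteMeasure m] (c : M → ℝ≥0∞) (hc : Measurable c)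
    (h0 : c 0 = 1) (hadd : ∀ x y, c (x + y) = c x * c y) :
    ∫⁻ x, c x ∂(CP m) = ENNReal.ofReal (Real.exp (-(m.real univ))) *
      ∑' n : ℕ, ((n.factorial : ℝ≥0∞)⁻¹) * (∫⁻ x, c x ∂m) ^ n := by
  unfold CP
  rw [lintegral_smul_measure, lintegral_sum_measure, smul_eq_mul]
  congr 1
  refine tsum_congr fun n => ?_
  rw [lintegral_smul_measure, lintegral_cpow m c hc h0 hadd n, smul_eq_mul]

theorem cpa_lintegral_ofReal (m : Measure M) [IsFiniteMeasure m] (c : M → ℝ≥0∞)
    (hc : Measurable c) (h0 : c 0 = 1) (hadd : ∀ x y, c (x + y) = c x * c y) (A : ℝ)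
    (hA : 0 ≤ A) (h : ∫⁻ x, c x ∂m = ENNReal.ofReal A) :
    ∫⁻ x, c x ∂(CP m) = ENNReal.ofReal (Real.exp (A - m.real univ)) := by
  rw [lintegral_CP m c hc h0 hadd, h, cpa_tsum A hA, ← ENNReal.ofReal_mul (Real.exp_pos _).le,
    ← Real.exp_add]
  congr 2
  ring

instance isProbabilityMeasure_CP (m : Measure M) [IsFiniteMeasure m] :
    IsProbabilityMeasure (CP m) := by
  constructor
  have h := cpa_lintegral_ofReal m (fun _ => 1) measurable_const rfl (by simp) (m.real univ)
    measureReal_nonneg (by simp [Measure.real, ENNReal.ofReal_toReal (measure_ne_top m univ)])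
  simpa using h

theorem lintegral_CP_ofReal (m : Measure M) [IsFiniteMeasure m] (c : M → ℝ) (hc : Measurable c)
    (hpos : ∀ x, 0 ≤ c x) (h0 : c 0 = 1) (hadd : ∀ x y, c (x + y) = c x * c y)
    (hint : Integrable c m) :
    ∫⁻ x, ENNReal.ofReal (c x) ∂(CP m) =
      ENNReal.ofReal (Real.exp (∫ x, (c x - 1) ∂m)) := by
  have h := cpa_lintegral_ofReal m (fun x => ENNReal.ofReal (c x)) hc.ennreal_ofReal
    (by simp [h0]) (fun x y => by rw [hadd, ENNReal.ofReal_mul (hpos x)]) (∫ x, c x ∂m)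
    (integral_nonneg hpos)
    (ofReal_integral_eq_lintegral_ofReal hint (Filter.Eventually.of_forall hpos)).symm
  rw [h]
  congr 2
  rw [integral_sub hint (integrable_const 1)]
  simp

theorem smul_le_CP (m : Measure M) [IsFiniteMeasure m] :
    ENNReal.ofReal (Real.exp (-(m.real univ))) • m ≤ CP m := by
  unfold CP
  have h1 : ((Nat.factorial 1 : ℝ≥0∞)⁻¹) • cpow m 1 = m := by
    simp [cpow]
  have h2 : m ≤ Measure.sum (fun n : ℕ => ((n.factorial : ℝ≥0∞)⁻¹) • cpow m n) := by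
    have := Measure.le_sum (fun n : ℕ => ((n.factorial : ℝ≥0∞)⁻¹) • cpow m n) 1
    rwa [h1] at this
  gcongr

theorem CP_zero_measure : CP (0 : Measure M) = Measure.dirac 0 := by
  unfold CP
  have h1 : (fun n : ℕ => ((n.factorial : ℝ≥0∞)⁻¹) • cpow (0 : Measure M) n) =
      fun n => if n = 0 then Measure.dirac 0 else 0 := by
    funext n
    cases n with
    | zero => simp [cpow]
    | succ n => simp [cpow]
  rw [h1]
  ext s hs
  rw [Measure.smul_apply, Measure.sum_apply _ hs]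
  rw [tsum_eq_single 0 (by intro n hn; simp [hn])]
  simp

end Pool.Agent.Lib.MP_a80c92_pr
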