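import Pool.Agent.Lib.MP_a80c92_pr.CPa

/-! # JOB CPb: compound Poisson laws, characters

PROOF. `c` is bounded by one and measurable, so integrable for every finite measure.
Induction over `n`: `∫ c d(cpow m n) = (∫ c dm)^n` (`integral_conv` if it exists, else
`Measure.conv` is the image of the product measure under addition: `integral_map`,
`integral_prod_mul`; see the proof of `charFun_conv` in
Mathlib/MeasureTheory/Measure/CharacteristicFunction/Basic.lean).
`Measure.sum` : `integral_sum_measure` / `hasSum_integral_measure` (integrability on the sum from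
finiteness of `CP m`, or of `Measure.sum ...` by `lintegral_CP` with `c = 1`), scalar factors by
`integral_smul_measure`. The sum `∑ (∫ c dm)^n / n! = exp (∫ c dm)`
(`NormedSpace.expSeries_div_hasSum_exp`, `Complex.exp_eq_exp_ℂ`), and
`∫ (c - 1) dm = ∫ c dm - |m|`.
`CP_map`: not needed. `zcf_*`: `zcf` of the image of `CP m` (`m` on `ℕ`) under the cast is the
integral of the character `j ↦ exp (u j I)` (`integral_map`, then `integral_CP`).
`charFun_CP`: `charFun_apply_real`, then `integral_CP` with `c x = exp (t x I)`. -/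

open MeasureTheory Set Filter Topology ProbabilityTheory
open scoped ENNReal NNReal

namespace Pool.Agent.Lib.MP_a80c92_pr

theorem CPb_int {M : Type*} [MeasurableSpace M] (μ : Measure M) [IsFiniteMeasure μ] {c : M → ℂ}
    (hc : Measurable c) (hb : ∀ x, ‖c x‖ ≤ 1) : Integrable c μ :=
  Integrable.mono' (integrable_const (1 : ℝ)) hc.aestronglyMeasurable (ae_of_all _ hb)

theorem CPb_cpow {M : Type*} [AddCommMonoid M] [MeasurableSpace M] [MeasurableAdd₂ M]
    (m : Measure M) [IsFiniteMeasure m] (c : M → ℂ) (hc : Measurable c)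
    (h0 : c 0 = 1) (hadd : ∀ x y, c (x + y) = c x * c y) (hb : ∀ x, ‖c x‖ ≤ 1) (n : ℕ) :
    ∫ x, c x ∂(cpow m n) = (∫ x, c x ∂m) ^ n := by
  induction n with
  | zero =>
    rw [pow_zero]
    change ∫ x, c x ∂(Measure.dirac 0) = 1
    rw [integral_dirac' c 0 hc.stronglyMeasurable, h0]
  | succ n ih =>
    change ∫ x, c x ∂(cpow m n ∗ m) = _
    rw [integral_conv (CPb_int _ hc hb)]
    have h1 : ∀ x, ∫ y, c (x + y) ∂m = c x * ∫ y, c y ∂m := by
      intro x
      rw [← integral_const_mul]
      simp only [hadd]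
    simp only [h1]
    rw [integral_mul_const, ih, pow_succ]

theorem integral_CP {M : Type*} [AddCommMonoid M] [MeasurableSpace M] [MeasurableAdd₂ M]
    (m : Measure M) [IsFiniteMeasure m] (c : M → ℂ) (hc : Measurable c)
    (h0 : c 0 = 1) (hadd : ∀ x y, c (x + y) = c x * c y) (hb : ∀ x, ‖c x‖ ≤ 1) :
    ∫ x, c x ∂(CP m) = Complex.exp (∫ x, (c x - 1) ∂m) := by
  obtain ⟨μs, hμs⟩ : ∃ μs, μs = Measure.sum (fun n : ℕ => ((n.factorial : ℝ≥0∞)⁻¹) • cpow m n) := ⟨_, rfl⟩
  have hCP : CP m = ENNReal.ofReal (Real.exp (-(m.real univ))) • μs := by rw [hμs, CP]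
  have hpos : 0 < Real.exp (-(m.real univ)) := Real.exp_pos _
  have hfin : μs univ < ∞ := by
    rw [lt_top_iff_ne_top]
    intro htop
    have h1 : (CP m) univ = 1 := measure_univ
    rw [hCP, Measure.smul_apply, smul_eq_mul, htop, ENNReal.mul_top (ENNReal.ofReal_pos.2 hpos).ne'] at h1
    exact ENNReal.top_ne_one h1
  have : IsFiniteMeasure μs := ⟨hfin⟩
  have hint : Integrable c μs := CPb_int μs hc hb
  have h2 : HasSum (fun n : ℕ => (∫ x, c x ∂m) ^ n / (n.factorial : ℂ)) (∫ x, c x ∂μs) := by
    rw [hμs] at hint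
    have h3 := hasSum_integral_measure hint
    rw [← hμs] at h3
    have h4 : (fun n : ℕ => ∫ x, c x ∂(((n.factorial : ℝ≥0∞)⁻¹) • cpow m n)) =
        fun n : ℕ => (∫ x, c x ∂m) ^ n / (n.factorial : ℂ) := by
      funext n
      rw [integral_smul_measure, CPb_cpow m c hc h0 hadd hb, ENNReal.toReal_inv, ENNReal.toReal_natCast,
        Complex.real_smul, Complex.ofReal_inv, Complex.ofReal_natCast, div_eq_mul_inv, mul_comm]
    rw [h4] at h3
    exact h3
  have h5 : ∫ x, c x ∂μs = Complex.exp (∫ x, c x ∂m) := by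
    have h6 := NormedSpace.expSeries_div_hasSum_exp (∫ x, c x ∂m)
    rw [← Complex.exp_eq_exp_ℂ] at h6
    exact h2.unique h6
  have h7 : ∫ x, (c x - 1) ∂m = (∫ x, c x ∂m) - (m.real univ : ℂ) := by
    rw [integral_sub (CPb_int m hc hb) (integrable_const _), integral_const, Complex.real_smul, mul_one]
  rw [hCP, integral_smul_measure, h5, ENNReal.toReal_ofReal hpos.le, h7, Complex.real_smul,
    Complex.ofReal_exp, ← Complex.exp_add, Complex.ofReal_neg]
  congr 1
  ring

theorem charFun_CP (m : Measure ℝ) [IsFiniteMeasure m] (t : ℝ) :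
    charFun (CP m) t = Complex.exp (∫ x : ℝ, (Complex.exp (t * x * Complex.I) - 1) ∂m) := by
  rw [charFun_apply_real]
  refine integral_CP m (fun x : ℝ => Complex.exp (t * x * Complex.I)) (by fun_prop) ?_ ?_ ?_
  · simp
  · intro x y
    rw [← Complex.exp_add]
    congr 1
    push_cast
    ring
  · intro x
    have h : (t * x * Complex.I : ℂ) = ((t * x : ℝ) : ℂ) * Complex.I := by push_cast; ring
    rw [h, Complex.norm_exp_ofReal_mul_I]

theorem zcf_CP_cast (m : Measure ℕ) [IsFiniteMeasure m] (u : ℝ) :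
    zcf ((CP m).map (fun n : ℕ => (n : ℤ))) u =
      Complex.exp (∫ j : ℕ, (Complex.exp (u * j * Complex.I) - 1) ∂m) := by
  unfold zcf
  rw [integral_map Measurable.of_discrete.aemeasurable Measurable.of_discrete.aestronglyMeasurable]
  refine Eq.trans ?_ (integral_CP m (fun j : ℕ => Complex.exp (u * j * Complex.I)) Measurable.of_discrete ?_ ?_ ?_)
  · refine integral_congr_ae (ae_of_all _ fun j => ?_)
    simp
  · simp
  · intro x y
    rw [← Complex.exp_add]
    congr 1
    push_cast
    ring
  · intro x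
    have h : (u * x * Complex.I : ℂ) = ((u * x : ℝ) : ℂ) * Complex.I := by push_cast; ring
    rw [h, Complex.norm_exp_ofReal_mul_I]

theorem zcf_conv (Y Z : Measure ℤ) [IsProbabilityMeasure Y] [IsProbabilityMeasure Z] (u : ℝ) :
    zcf (Y ∗ Z) u = zcf Y u * zcf Z u := by
  have hb : ∀ n : ℤ, ‖Complex.exp (u * n * Complex.I)‖ ≤ 1 := by
    intro n
    have h : (u * n * Complex.I : ℂ) = ((u * n : ℝ) : ℂ) * Complex.I := by push_cast; ring
    rw [h, Complex.norm_exp_ofReal_mul_I]
  unfold zcf
  rw [integral_conv (CPb_int _ Measurable.of_discrete hb)]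
  have h1 : ∀ x : ℤ, ∫ y : ℤ, Complex.exp (u * (x + y : ℤ) * Complex.I) ∂Z =
      Complex.exp (u * x * Complex.I) * ∫ y : ℤ, Complex.exp (u * y * Complex.I) ∂Z := by
    intro x
    rw [← integral_const_mul]
    refine integral_congr_ae (ae_of_all _ fun y => ?_)
    change Complex.exp (u * (x + y : ℤ) * Complex.I) =
      Complex.exp (u * x * Complex.I) * Complex.exp (u * y * Complex.I)
    rw [← Complex.exp_add]
    congr 1
    push_cast
    ring
  simp only [h1]
  rw [integral_mul_const]

theorem zcf_neg (Y : Measure ℤ) [IsProbabilityMeasure Y] (u : ℝ) :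
    zcf (Y.map (fun n : ℤ => -n)) u = zcf Y (-u) := by
  unfold zcf
  rw [integral_map Measurable.of_discrete.aemeasurable Measurable.of_discrete.aestronglyMeasurable]
  refine integral_congr_ae (ae_of_all _ fun n => ?_)
  change Complex.exp (u * ((-n : ℤ) : ℂ) * Complex.I) = Complex.exp (((-u : ℝ) : ℂ) * n * Complex.I)
  congr 1
  push_cast
  ring

theorem charFun_lattice (Y : Measure ℤ) [IsProbabilityMeasure Y] (b δ t : ℝ) :
    charFun (Y.map (fun z : ℤ => b + δ * (z : ℝ))) t =
      Complex.exp (b * t * Complex.I) * zcf Y (δ * t) := by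
  rw [charFun_apply_real]
  unfold zcf
  rw [integral_map Measurable.of_discrete.aemeasurable (by fun_prop), ← integral_const_mul]
  refine integral_congr_ae (ae_of_all _ fun n => ?_)
  change Complex.exp (t * ((b + δ * (n : ℝ) : ℝ) : ℂ) * Complex.I) =
    Complex.exp (b * t * Complex.I) * Complex.exp (((δ * t : ℝ) : ℂ) * n * Complex.I)
  rw [← Complex.exp_add]
  congr 1
  push_cast
  ring

end Pool.Agent.Lib.MP_a80c92_pr
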