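import Pool.Agent.Lib.MP_a80c92_pr.CPa

/-! # JOB CPc: compound Poisson laws on `ℕ`: Mecke formula, recursion

PROOF. For measurable `φ : ℕ → ℝ≥0∞` (everything on `ℕ` is measurable):
`∫⁻ x·φ(x) d(cpow m k) = k ∫⁻∫⁻ y φ(x+y) dm(y) d(cpow m (k-1))(x)`, by induction on `k`:
`cpow m (k+1) = cpow m k ∗ m` (`lintegral_conv`):
`∫⁻∫⁻ (x+y) φ(x+y) dm(y) dcpow_k(x) = ∫⁻∫⁻ y φ(x+y) dm(y) dcpow_k(x)
  + ∫⁻ [∫⁻ x φ(x+y) dcpow_k(x)] dm(y)` (`lintegral_lintegral_swap`), and the inner integral is by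
induction (for `φ(· + y)`) `k ∫⁻∫⁻ z φ(x+z+y) dm(z) dcpow_{k-1}(x)`, so that after one more
exchange the second term is `k ∫⁻∫⁻ z φ(x+z) dm(z) dcpow_k(x)`; together `(k+1) ...`.
Summation with `e^{-|m|}/k!`, `k · (1/k!) = 1/(k-1)!`, index shift: `mecke`.
`CP_rec`: `φ` = indicator of `{n}`: the left side is `n · CP m {n}`; the right side is
`∫⁻ y (CP m){x : x + y = n} dm(y) = ∑_{y ≤ n} y m{y} CP m {n-y}` (`lintegral_countable'`, or
`lintegral_count`-type lemmas; the term `y = 0` vanishes).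
`CP_apply_zero`: `cpow m k {0} = 0` for `k ≥ 1` if `m {0} = 0` (`x + y = 0` in `ℕ` forces
`y = 0`), and `cpow m 0 {0} = 1`. -/

open MeasureTheory Set Filter Topology ProbabilityTheory
open scoped ENNReal NNReal

namespace Pool.Agent.Lib.MP_a80c92_pr

theorem cpc_cpow (m : Measure ℕ) [IsFiniteMeasure m] (k : ℕ) (φ : ℕ → ℝ≥0∞) :
    ∫⁻ x, (x : ℝ≥0∞) * φ x ∂(cpow m (k + 1)) =
      ((k + 1 : ℕ) : ℝ≥0∞) * ∫⁻ x, ∫⁻ y, (y : ℝ≥0∞) * φ (x + y) ∂m ∂(cpow m k) := by
  induction k generalizing φ with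
  | zero =>
    have e1 : cpow m (0 + 1) = Measure.dirac 0 ∗ m := rfl
    have e0 : cpow m 0 = Measure.dirac 0 := rfl
    rw [e1, e0, Measure.lintegral_conv (measurable_of_countable _),
      lintegral_dirac' _ (measurable_of_countable _),
      lintegral_dirac' _ (measurable_of_countable _)]
    simp
  | succ k ih =>
    rw [cpow, Measure.lintegral_conv (measurable_of_countable _)]
    have h1 : ∀ x : ℕ, ∫⁻ y, ((x + y : ℕ) : ℝ≥0∞) * φ (x + y) ∂m =
        ∫⁻ y, (x : ℝ≥0∞) * φ (x + y) ∂m + ∫⁻ y, (y : ℝ≥0∞) * φ (x + y) ∂m := by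
      intro x
      rw [← lintegral_add_left (measurable_of_countable _)]
      refine lintegral_congr fun y => ?_
      push_cast; ring
    simp only [h1]
    rw [lintegral_add_left (measurable_of_countable _)]
    rw [lintegral_lintegral_swap (measurable_of_countable _).aemeasurable]
    have h2 : ∀ y : ℕ, ∫⁻ x, (x : ℝ≥0∞) * φ (x + y) ∂(cpow m (k + 1)) =
        ((k + 1 : ℕ) : ℝ≥0∞) * ∫⁻ x, ∫⁻ z, (z : ℝ≥0∞) * φ (x + z + y) ∂m ∂(cpow m k) :=
      fun y => ih (fun x => φ (x + y))
    simp only [h2]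
    rw [lintegral_const_mul _ (measurable_of_countable _)]
    have h3 : ∫⁻ y, ∫⁻ x, ∫⁻ z, (z : ℝ≥0∞) * φ (x + z + y) ∂m ∂(cpow m k) ∂m =
        ∫⁻ x, ∫⁻ z, (z : ℝ≥0∞) * φ (x + z) ∂m ∂(cpow m (k + 1)) := by
      rw [cpow, Measure.lintegral_conv (measurable_of_countable _),
        lintegral_lintegral_swap (measurable_of_countable _).aemeasurable]
      refine lintegral_congr fun x => lintegral_congr fun y => lintegral_congr fun z => ?_
      rw [add_right_comm]
    rw [h3]
    push_cast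
    ring

theorem mecke (m : Measure ℕ) [IsFiniteMeasure m] (φ : ℕ → ℝ≥0∞) :
    ∫⁻ x, (x : ℝ≥0∞) * φ x ∂(CP m) =
      ∫⁻ x, ∫⁻ y, (y : ℝ≥0∞) * φ (x + y) ∂m ∂(CP m) := by
  unfold CP
  rw [lintegral_smul_measure, lintegral_sum_measure, lintegral_smul_measure,
    lintegral_sum_measure]
  congr 1
  rw [tsum_eq_zero_add' (ENNReal.summable)]
  have h0 : ∫⁻ x, (x : ℝ≥0∞) * φ x ∂(((Nat.factorial 0 : ℝ≥0∞)⁻¹) • cpow m 0) = 0 := by
    rw [lintegral_smul_measure, cpow, lintegral_dirac' _ (measurable_of_countable _)]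
    simp
  rw [h0, zero_add]
  refine tsum_congr fun k => ?_
  rw [lintegral_smul_measure, lintegral_smul_measure, cpc_cpow, smul_eq_mul, smul_eq_mul,
    ← mul_assoc]
  congr 1
  rw [Nat.factorial_succ, Nat.cast_mul, ENNReal.mul_inv (Or.inl (by positivity))
    (Or.inl (ENNReal.natCast_ne_top _)), mul_assoc, mul_comm ((k.factorial : ℝ≥0∞)⁻¹), ← mul_assoc,
    ENNReal.inv_mul_cancel (by positivity) (ENNReal.natCast_ne_top _), one_mul]

theorem CP_rec (m : Measure ℕ) [IsFiniteMeasure m] (n : ℕ) :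
    (n : ℝ≥0∞) * CP m {n} =
      ∑ j ∈ Finset.range n, ((j + 1 : ℕ) : ℝ≥0∞) * m {j + 1} * CP m {n - (j + 1)} := by
  have h := mecke m (Set.indicator {n} 1)
  have hl : ∫⁻ x, (x : ℝ≥0∞) * Set.indicator {n} 1 x ∂(CP m) = (n : ℝ≥0∞) * CP m {n} := by
    have e : (fun x : ℕ => (x : ℝ≥0∞) * Set.indicator {n} 1 x) =
        fun x => (n : ℝ≥0∞) * Set.indicator {n} (1 : ℕ → ℝ≥0∞) x := by
      funext x
      by_cases hx : x = n
      · rw [hx]
      · rw [Set.indicator_of_notMem (by simpa using hx)]; simp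
    rw [e, lintegral_const_mul _ (measurable_of_countable _),
      lintegral_indicator_one (measurableSet_singleton n)]
  rw [hl, lintegral_lintegral_swap (measurable_of_countable _).aemeasurable] at h
  rw [h, lintegral_countable']
  have e2 : ∀ y : ℕ, (∫⁻ x, (y : ℝ≥0∞) * Set.indicator {n} (1 : ℕ → ℝ≥0∞) (x + y) ∂(CP m)) =
      if y ≤ n then (y : ℝ≥0∞) * CP m {n - y} else 0 := by
    intro y
    rw [lintegral_const_mul _ (measurable_of_countable _)]
    split_ifs with hy
    · congr 1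
      have : (fun x : ℕ => Set.indicator {n} (1 : ℕ → ℝ≥0∞) (x + y)) =
          Set.indicator {n - y} 1 := by
        funext x
        by_cases hx : x = n - y
        · subst hx
          rw [Set.indicator_of_mem (by simp; omega), Set.indicator_of_mem (by simp)]
          rfl
        · rw [Set.indicator_of_notMem (by simp; omega), Set.indicator_of_notMem (by simpa using hx)]
      rw [this, lintegral_indicator_one (measurableSet_singleton _)]
    · have : (fun x : ℕ => Set.indicator {n} (1 : ℕ → ℝ≥0∞) (x + y)) = fun _ => 0 := by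
        funext x
        rw [Set.indicator_of_notMem (by simp; omega)]
      rw [this]; simp
  simp only [e2]
  rw [tsum_eq_sum (s := Finset.range (n + 1))
    (by intro y hy; rw [if_neg (by simpa using hy)]; simp), Finset.sum_range_succ']
  simp only [Nat.cast_zero, zero_mul, ite_self, add_zero]
  refine Finset.sum_congr rfl fun j hj => ?_
  rw [if_pos (by have := Finset.mem_range.1 hj; omega)]
  ring

theorem CP_rec_real (m : Measure ℕ) [IsFiniteMeasure m] (n : ℕ) :
    (n : ℝ) * (CP m).real {n} =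
      ∑ j ∈ Finset.range n,
        (((j + 1 : ℕ) : ℝ) * m.real {j + 1}) * (CP m).real {n - (j + 1)} := by
  have h := congrArg ENNReal.toReal (CP_rec m n)
  rw [ENNReal.toReal_mul, ENNReal.toReal_natCast, ENNReal.toReal_sum] at h
  · rw [Measure.real, h]
    refine Finset.sum_congr rfl fun j _ => ?_
    rw [ENNReal.toReal_mul, ENNReal.toReal_mul, ENNReal.toReal_natCast]
    rfl
  · intro j _
    exact ENNReal.mul_ne_top (ENNReal.mul_ne_top (ENNReal.natCast_ne_top _) (measure_ne_top _ _))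
      (measure_ne_top _ _)

theorem CP_apply_zero (m : Measure ℕ) [IsFiniteMeasure m] (h0 : m {0} = 0) :
    CP m {0} = ENNReal.ofReal (Real.exp (-(m.real univ))) := by
  have hk : ∀ k : ℕ, cpow m (k + 1) {0} = 0 := by
    intro k
    rw [cpow, ← lintegral_indicator_one (measurableSet_singleton 0),
      Measure.lintegral_conv (measurable_of_countable _)]
    have : ∀ x : ℕ, ∫⁻ y, Set.indicator {0} (1 : ℕ → ℝ≥0∞) (x + y) ∂m = 0 := by
      intro x
      refine le_antisymm ?_ bot_le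
      calc ∫⁻ y, Set.indicator {0} (1 : ℕ → ℝ≥0∞) (x + y) ∂m
          ≤ ∫⁻ y, Set.indicator {0} (1 : ℕ → ℝ≥0∞) y ∂m := by
            refine lintegral_mono fun y => ?_
            by_cases hy : y = 0
            · subst hy
              rw [Set.indicator_of_mem (s := {0}) (a := 0) (by simp)]
              exact Set.indicator_le_self' (by simp) _
            · rw [Set.indicator_of_notMem (by simp; omega)]; exact bot_le
        _ = 0 := by rw [lintegral_indicator_one (measurableSet_singleton _), h0]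
    simp only [this, lintegral_zero]
  unfold CP
  rw [Measure.smul_apply, Measure.sum_apply _ (measurableSet_singleton 0),
    tsum_eq_single 0]
  · simp [cpow]
  · intro n hn
    obtain ⟨k, rfl⟩ := Nat.exists_eq_succ_of_ne_zero hn
    rw [Measure.smul_apply, Nat.succ_eq_add_one, hk]; simp

end Pool.Agent.Lib.MP_a80c92_pr
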