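import Pool.Agent.Lib.MP_a80c92_pr.DUa

/-! # JOB Ceil: lattice approximation of a unimodal law is unimodal

PROOF of `DU_disc`. `F = dfn G`, `p n = (disc δ G).real {n} = G.real (Ioc ((n-1)δ) (nδ)) =
F(nδ) - F((n-1)δ)` (`Int.ceil_eq_iff`). `F` is right continuous and monotone, convex on `Iio a`,
concave on `Ioi a`, hence (right continuity at `a`) also concave on `Ici a`.
Let `m = ⌈a/δ⌉`, so `(m-1)δ < a ≤ mδ`. For `n ≤ m-1`: `(n-2)δ, (n-1)δ, nδ < a`, so
`p (n-1) ≤ p n` (midpoint convexity). For `n ≥ m+2`: `(n-2)δ ≥ a`, so `p n ≤ p (n-1)`.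
The cell `m`: `θ = (a - (m-1)δ)/δ ∈ (0,1]`. For `x ∈ ((m-1)δ, a)`, convexity on
`(m-2)δ < (m-1)δ < x`: `F x - F((m-1)δ) ≥ (x-(m-1)δ)/δ · p(m-1)`; `x → a-` and `F a ≥ F x`:
`F a - F((m-1)δ) ≥ θ p(m-1)`. Concavity on `a ≤ mδ < (m+1)δ`:
`F(mδ) - F a ≥ (mδ - a)/δ · p(m+1) = (1-θ) p(m+1)`. So `p m ≥ θ p(m-1) + (1-θ) p(m+1)
≥ min`. If `p m ≥ p (m+1)` and `p m ≥ p (m-1)`: mode `m`. If `p m < p (m+1)`, then
`p m ≥ p (m-1)`: mode `m+1`. If `p m < p(m-1)` then `p m ≥ p (m+1)`: mode `m-1`.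
PROOF of `tendsto_zcf_disc`: `zcf (disc δ G) (δ t) = ∫ exp(i t δ ⌈x/δ⌉) dG(x)` (`integral_map`),
`δ ⌈x/δ⌉ → x` as `δ = dl N → 0` (`0 ≤ δ⌈x/δ⌉ - x < δ`), dominated convergence with bound 1. -/

open MeasureTheory Set Filter Topology ProbabilityTheory
open scoped ENNReal NNReal

namespace Pool.Agent.Lib.MP_a80c92_pr

theorem measurable_ceil_div (δ : ℝ) : Measurable (fun x : ℝ => ⌈x / δ⌉) :=
  (measurable_id.div_const δ).ceil

instance isProb_disc (G : Measure ℝ) [IsProbabilityMeasure G] (δ : ℝ) :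
    IsProbabilityMeasure (disc δ G) :=
  Measure.isProbabilityMeasure_map (measurable_ceil_div δ).aemeasurable

theorem ceil_Ioc (G : Measure ℝ) [IsProbabilityMeasure G] (a b : ℝ) (hab : a ≤ b) :
    G.real (Ioc a b) = dfn G b - dfn G a := by
  unfold dfn
  have h : Iic b = Iic a ∪ Ioc a b := (Iic_union_Ioc_eq_Iic hab).symm
  rw [h, measureReal_union (by
    rw [Set.disjoint_left]; intro x hx hx'; exact absurd hx (not_le.2 hx'.1)) measurableSet_Ioc]
  ring

theorem disc_real (G : Measure ℝ) [IsProbabilityMeasure G] (δ : ℝ) (hδ : 0 < δ) (n : ℤ) :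
    (disc δ G).real {n} = dfn G ((n : ℝ) * δ) - dfn G (((n : ℝ) - 1) * δ) := by
  rw [← ceil_Ioc G _ _ (by nlinarith)]
  unfold disc
  rw [map_measureReal_apply (measurable_ceil_div δ) (measurableSet_singleton n)]
  congr 1
  ext x
  simp only [mem_preimage, mem_singleton_iff, mem_Ioc, Int.ceil_eq_iff]
  rw [lt_div_iff₀ hδ, div_le_iff₀ hδ]

theorem dfn_mono (G : Measure ℝ) [IsProbabilityMeasure G] : Monotone (dfn G) :=
  fun _ _ h => measureReal_mono (Iic_subset_Iic.2 h)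

theorem dfn_right (G : Measure ℝ) [IsProbabilityMeasure G] (a : ℝ) :
    ContinuousWithinAt (dfn G) (Ici a) a := by
  have h := (cdf G).right_continuous a
  have e : (cdf G : ℝ → ℝ) = dfn G := by
    funext x; rw [cdf_eq_real]; rfl
  rwa [e] at h

theorem ceil_concave (G : Measure ℝ) [IsProbabilityMeasure G] (a : ℝ)
    (h : ConcaveOn ℝ (Ioi a) (dfn G)) (x y z : ℝ) (hx : a ≤ x) (hxy : x < y) (hyz : y < z) :
    (y - x) * (dfn G z - dfn G y) ≤ (z - y) * (dfn G y - dfn G x) := by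
  have key : ∀ x', a < x' → x' < y →
      (y - x') * (dfn G z - dfn G y) ≤ (z - y) * (dfn G y - dfn G x') := by
    intro x' hx' hxy'
    have h1 := h.slope_anti_adjacent (show x' ∈ Ioi a from hx')
      (show z ∈ Ioi a from hx'.trans (hxy'.trans hyz)) hxy' hyz
    rw [div_le_div_iff₀ (by linarith) (by linarith)] at h1
    linarith
  rcases hx.eq_or_lt with hxa | hxa
  · subst hxa
    have t1 : Tendsto (fun x' => (z - y) * (dfn G y - dfn G x')) (𝓝[>] a)
        (𝓝 ((z - y) * (dfn G y - dfn G a))) := by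
      have := (dfn_right G a).mono_left (nhdsWithin_mono a Ioi_subset_Ici_self)
      exact tendsto_const_nhds.mul (tendsto_const_nhds.sub this)
    have t2 : Tendsto (fun x' => (y - x') * (dfn G z - dfn G y)) (𝓝[>] a)
        (𝓝 ((y - a) * (dfn G z - dfn G y))) := by
      refine Tendsto.mul (tendsto_const_nhds.sub ?_) tendsto_const_nhds
      exact tendsto_id.mono_left nhdsWithin_le_nhds
    refine le_of_tendsto_of_tendsto t2 t1 ?_
    filter_upwards [Ioo_mem_nhdsGT hxy] with x' hx'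
    exact key x' hx'.1 hx'.2
  · exact key x hxa hxy

theorem DU_disc (G : Measure ℝ) [IsProbabilityMeasure G] (h : Unimodal G) (δ : ℝ)
    (hδ : 0 < δ) : DU (disc δ G) := by
  obtain ⟨a, hc, hcc⟩ := h
  set F := dfn G with hF
  have hFm := dfn_mono G
  set p : ℤ → ℝ := fun n => (disc δ G).real {n} with hp
  have hpf : ∀ n : ℤ, p n = F ((n : ℝ) * δ) - F (((n : ℝ) - 1) * δ) := disc_real G δ hδ
  set m : ℤ := ⌈a / δ⌉ with hm
  have hm1 : ((m : ℝ) - 1) * δ < a := by
    have := Int.ceil_lt_add_one (a / δ)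
    rw [← hm] at this
    have h2 : (m : ℝ) - 1 < a / δ := by linarith
    rwa [lt_div_iff₀ hδ] at h2
  have hm2 : a ≤ (m : ℝ) * δ := by
    have := Int.le_ceil (a / δ)
    rw [← hm, div_le_iff₀ hδ] at this
    exact this
  -- before the mode
  have s1 : ∀ n : ℤ, n ≤ m - 1 → p (n - 1) ≤ p n := by
    intro n hn
    have hn' : (n : ℝ) ≤ m - 1 := by exact_mod_cast hn
    have l3 : (n : ℝ) * δ < a := lt_of_le_of_lt (mul_le_mul_of_nonneg_right hn' hδ.le) hm1
    have l1 : ((n : ℝ) - 2) * δ < ((n : ℝ) - 1) * δ := by nlinarith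
    have l2 : ((n : ℝ) - 1) * δ < (n : ℝ) * δ := by nlinarith
    have h1 := hc.slope_mono_adjacent (show ((n : ℝ) - 2) * δ ∈ Iio a from (l1.trans l2).trans l3)
      (show (n : ℝ) * δ ∈ Iio a from l3) l1 l2
    have d1 : ((n : ℝ) - 1) * δ - ((n : ℝ) - 2) * δ = δ := by ring
    have d2 : (n : ℝ) * δ - ((n : ℝ) - 1) * δ = δ := by ring
    rw [d1, d2, div_le_div_iff_of_pos_right hδ] at h1
    rw [hpf, hpf]
    push_cast
    have e1 : ((n : ℝ) - 1 - 1) = (n : ℝ) - 2 := by ring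
    rw [e1]; linarith
  have s2 : ∀ n : ℤ, m + 2 ≤ n → p n ≤ p (n - 1) := by
    intro n hn
    have hn' : (m : ℝ) + 2 ≤ n := by exact_mod_cast hn
    have l0 : a ≤ ((n : ℝ) - 2) * δ :=
      hm2.trans (mul_le_mul_of_nonneg_right (by linarith) hδ.le)
    have l1 : ((n : ℝ) - 2) * δ < ((n : ℝ) - 1) * δ := by nlinarith
    have l2 : ((n : ℝ) - 1) * δ < (n : ℝ) * δ := by nlinarith
    have h1 := ceil_concave G a hcc _ _ _ l0 l1 l2
    have d1 : ((n : ℝ) - 1) * δ - ((n : ℝ) - 2) * δ = δ := by ring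
    have d2 : (n : ℝ) * δ - ((n : ℝ) - 1) * δ = δ := by ring
    rw [d1, d2] at h1
    have h2 := le_of_mul_le_mul_left h1 hδ
    rw [hpf, hpf]
    push_cast
    have e1 : ((n : ℝ) - 1 - 1) = (n : ℝ) - 2 := by ring
    rw [e1]; exact h2
  -- the cell of the mode
  have c1 : (a - ((m : ℝ) - 1) * δ) * p (m - 1) ≤ δ * (F a - F (((m : ℝ) - 1) * δ)) := by
    have key : ∀ x, ((m : ℝ) - 1) * δ < x → x < a →
        (x - ((m : ℝ) - 1) * δ) * p (m - 1) ≤ δ * (F a - F (((m : ℝ) - 1) * δ)) := by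
      intro x hx hxa
      have l1 : ((m : ℝ) - 2) * δ < ((m : ℝ) - 1) * δ := by nlinarith
      have h1 := hc.slope_mono_adjacent
        (show ((m : ℝ) - 2) * δ ∈ Iio a from (l1.trans hx).trans hxa)
        (show x ∈ Iio a from hxa) l1 hx
      have d1 : ((m : ℝ) - 1) * δ - ((m : ℝ) - 2) * δ = δ := by ring
      rw [d1, div_le_div_iff₀ hδ (by linarith)] at h1
      have e2 : p (m - 1) = F (((m : ℝ) - 1) * δ) - F (((m : ℝ) - 2) * δ) := by
        rw [hpf]; push_cast
        have e1 : ((m : ℝ) - 1 - 1) = (m : ℝ) - 2 := by ring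
        rw [e1]
      rw [e2]
      have h3 : F x ≤ F a := hFm hxa.le
      nlinarith
    have t1 : Tendsto (fun x => (x - ((m : ℝ) - 1) * δ) * p (m - 1)) (𝓝[<] a)
        (𝓝 ((a - ((m : ℝ) - 1) * δ) * p (m - 1))) := by
      refine Tendsto.mul (Tendsto.sub ?_ tendsto_const_nhds) tendsto_const_nhds
      exact tendsto_id.mono_left nhdsWithin_le_nhds
    refine le_of_tendsto t1 ?_
    filter_upwards [Ioo_mem_nhdsLT hm1] with x hx
    exact key x hx.1 hx.2
  have c2 : ((m : ℝ) * δ - a) * p (m + 1) ≤ δ * (F ((m : ℝ) * δ) - F a) := by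
    rcases hm2.eq_or_lt with h0 | h0
    · rw [← h0]; simp
    · have l2 : (m : ℝ) * δ < ((m : ℝ) + 1) * δ := by nlinarith
      have h1 := ceil_concave G a hcc a _ _ le_rfl h0 l2
      have d2 : ((m : ℝ) + 1) * δ - (m : ℝ) * δ = δ := by ring
      rw [d2] at h1
      have e2 : p (m + 1) = F (((m : ℝ) + 1) * δ) - F ((m : ℝ) * δ) := by
        rw [hpf]; push_cast
        have e1 : ((m : ℝ) + 1 - 1) = (m : ℝ) := by ring
        rw [e1]
      rw [e2]; exact h1
  have c3 : (a - ((m : ℝ) - 1) * δ) * p (m - 1) + ((m : ℝ) * δ - a) * p (m + 1) ≤ δ * p m := by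
    rw [hpf m]; linarith
  have c4 : ¬ (p m < p (m - 1) ∧ p m < p (m + 1)) := by
    rintro ⟨g1, g2⟩
    have k1 : 0 < a - ((m : ℝ) - 1) * δ := by linarith
    have k2 : 0 ≤ (m : ℝ) * δ - a := by linarith
    have k3 := mul_lt_mul_of_pos_left g1 k1
    have k4 := mul_le_mul_of_nonneg_left g2.le k2
    have k5 : (a - ((m : ℝ) - 1) * δ) * p m + ((m : ℝ) * δ - a) * p m = δ * p m := by ring
    linarith
  have hDU : ∀ b : ℤ, (∀ n, n ≤ b → p (n - 1) ≤ p n) → (∀ n, b < n → p n ≤ p (n - 1)) →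
      DU (disc δ G) := fun b h1 h2 => ⟨b, dua_mono p b h1, dua_anti p b h2⟩
  rcases lt_or_ge (p m) (p (m + 1)) with g1 | g1
  · -- mode m + 1
    have g2 : p (m - 1) ≤ p m := by
      by_contra g; exact c4 ⟨not_le.1 g, g1⟩
    refine hDU (m + 1) (fun n hn => ?_) (fun n hn => s2 n (by omega))
    rcases (show n ≤ m - 1 ∨ n = m ∨ n = m + 1 by omega) with h | h | h
    · exact s1 n h
    · rw [h]; exact g2
    · rw [h]
      have : m + 1 - 1 = m := by ring
      rw [this]; exact g1.le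
  · rcases lt_or_ge (p m) (p (m - 1)) with g2 | g2
    · refine hDU (m - 1) (fun n hn => s1 n hn) (fun n hn => ?_)
      rcases (show m + 2 ≤ n ∨ n = m ∨ n = m + 1 by omega) with h | h | h
      · exact s2 n h
      · rw [h]; exact g2.le
      · rw [h]
        have : m + 1 - 1 = m := by ring
        rw [this]; exact g1
    · refine hDU m (fun n hn => ?_) (fun n hn => ?_)
      · rcases (show n ≤ m - 1 ∨ n = m by omega) with h | h
        · exact s1 n h
        · rw [h]; exact g2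
      · rcases (show m + 2 ≤ n ∨ n = m + 1 by omega) with h | h
        · exact s2 n h
        · rw [h]
          have : m + 1 - 1 = m := by ring
          rw [this]; exact g1

theorem tendsto_zcf_disc (G : Measure ℝ) [IsProbabilityMeasure G] (t : ℝ) :
    Tendsto (fun N : ℕ => zcf (disc (dl N) G) (dl N * t)) atTop (𝓝 (charFun G t)) := by
  have hdl : Tendsto dl atTop (𝓝 0) := by
    unfold dl; exact tendsto_one_div_add_atTop_nhds_zero_nat
  have hpos : ∀ N, 0 < dl N := fun N => by unfold dl; positivity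
  have e : ∀ N : ℕ, zcf (disc (dl N) G) (dl N * t) =
      ∫ x : ℝ, Complex.exp (((dl N * t : ℝ) : ℂ) * ((⌈x / dl N⌉ : ℤ) : ℂ) * Complex.I) ∂G := by
    intro N
    unfold zcf disc
    rw [integral_map (measurable_ceil_div _).aemeasurable
      (measurable_of_countable _).aestronglyMeasurable]
  simp only [e]
  rw [charFun_apply_real]
  refine tendsto_integral_of_dominated_convergence (fun _ => (1 : ℝ)) ?_ (integrable_const _) ?_ ?_
  · intro N
    have := measurable_ceil_div (dl N)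
    have h2 : Measurable (fun x : ℝ => Complex.exp (((dl N * t : ℝ) : ℂ) *
        ((⌈x / dl N⌉ : ℤ) : ℂ) * Complex.I)) :=
      (measurable_of_countable (fun n : ℤ => Complex.exp (((dl N * t : ℝ) : ℂ) *
        ((n : ℤ) : ℂ) * Complex.I))).comp this
    exact h2.aestronglyMeasurable
  · intro N
    refine Filter.Eventually.of_forall fun x => ?_
    have : ((dl N * t : ℝ) : ℂ) * ((⌈x / dl N⌉ : ℤ) : ℂ) * Complex.I =
        ((dl N * t * (⌈x / dl N⌉ : ℝ) : ℝ) : ℂ) * Complex.I := by push_cast; ring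
    rw [this, Complex.norm_exp_ofReal_mul_I]
  · refine Filter.Eventually.of_forall fun x => ?_
    have h1 : Tendsto (fun N => dl N * (⌈x / dl N⌉ : ℝ)) atTop (𝓝 x) := by
      have lo : ∀ N, x ≤ dl N * (⌈x / dl N⌉ : ℝ) := fun N => by
        have := Int.le_ceil (x / dl N)
        rw [div_le_iff₀ (hpos N)] at this; linarith
      have hi : ∀ N, dl N * (⌈x / dl N⌉ : ℝ) ≤ x + dl N := fun N => by
        have h3 := (Int.ceil_lt_add_one (x / dl N)).le
        have h4 := mul_le_mul_of_nonneg_left h3 (hpos N).le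
        rw [mul_add, mul_div_cancel₀ _ (hpos N).ne'] at h4
        linarith
      refine tendsto_of_tendsto_of_tendsto_of_le_of_le tendsto_const_nhds ?_ lo hi
      simpa using tendsto_const_nhds.add hdl
    have h2 : Tendsto (fun N => Complex.exp (((t * (dl N * (⌈x / dl N⌉ : ℝ)) : ℝ) : ℂ) *
        Complex.I)) atTop (𝓝 (Complex.exp (((t * x : ℝ) : ℂ) * Complex.I))) := by
      have hc : Continuous (fun y : ℝ => Complex.exp (((t * y : ℝ) : ℂ) * Complex.I)) := by
        fun_prop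
      exact (hc.tendsto x).comp h1
    have e2 : Complex.exp ((t : ℂ) * (x : ℂ) * Complex.I) =
        Complex.exp (((t * x : ℝ) : ℂ) * Complex.I) := by push_cast; rfl
    rw [e2]
    refine h2.congr fun N => ?_
    congr 1
    push_cast
    ring

end Pool.Agent.Lib.MP_a80c92_pr
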