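import Pool.Agent.Lib.MP_a80c92_pr.Defs

/-! # JOB ClsA: membership in the class

PROOF. `adm_cond`: `Adm k lam L` and `Cond k` give `0 < lam` and `1 ≤ L`: `k` is not zero, so there are
`lam' > 0`, `L' ≥ 1` with `e^{lam' x} k x → L'`. With `m x = e^{lam x} k x`, `e^{lam' x} k x =
e^{(lam'-lam) x} m x`. If `lam' > lam` this is unbounded near infinity (`slow`; `m` is bounded on
`(1, R]`), impossible; if `lam' < lam` it tends to `0` (`m` bounded), impossible; so `lam' = lam`
and `L' = L`. `adm_goodK`: `m ≥ L ≥ 1` (antitone with limit `L`). -/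

open MeasureTheory Set Filter Topology ProbabilityTheory
open scoped ENNReal NNReal

namespace Pool.Agent.Lib.MP_a80c92_pr

theorem adm_cond (k : ℝ → ℝ) (lam L : ℝ) (hk : Adm k lam L) (h : Cond k) :
    0 < lam ∧ 1 ≤ L := by
  rcases h with h | ⟨lam', L', h1, h2, h3⟩
  · exfalso
    have h4 := hk.pos 1 one_pos
    rw [h 1 one_pos] at h4
    exact lt_irrefl _ h4
  have hm1 : ∀ x : ℝ, 1 ≤ x → Real.exp (lam * x) * k x ≤ Real.exp (lam * 1) * k 1 := by
    intro x hx
    exact hk.anti (mem_Ioi.2 one_pos) (mem_Ioi.2 (lt_of_lt_of_le one_pos hx)) hx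
  have hm0 : ∀ x : ℝ, 1 ≤ x → 0 ≤ Real.exp (lam * x) * k x := fun x hx =>
    mul_nonneg (Real.exp_pos _).le (hk.pos x (lt_of_lt_of_le one_pos hx)).le
  have hg : ∀ x : ℝ, Real.exp (lam' * x) * k x = Real.exp ((lam' - lam) * x) * (Real.exp (lam * x) * k x) := by
    intro x
    rw [← mul_assoc, ← Real.exp_add]
    congr 2
    ring
  rcases lt_trichotomy lam' lam with hlt | heq | hgt
  · exfalso
    have h4 : Tendsto (fun x => Real.exp (lam' * x) * k x) atTop (𝓝 0) := by
      have h5 : Tendsto (fun x : ℝ => Real.exp ((lam' - lam) * x) * (Real.exp (lam * 1) * k 1)) atTop (𝓝 0) := by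
        have h6 : Tendsto (fun x : ℝ => Real.exp ((lam' - lam) * x)) atTop (𝓝 0) :=
          Real.tendsto_exp_atBot.comp (tendsto_id.const_mul_atTop_of_neg (by linarith))
        have h7 := h6.mul_const (Real.exp (lam * 1) * k 1)
        rw [zero_mul] at h7
        exact h7
      refine tendsto_of_tendsto_of_tendsto_of_le_of_le' tendsto_const_nhds h5 ?_ ?_
      · filter_upwards [eventually_ge_atTop (1 : ℝ)] with x hx
        rw [hg]
        exact mul_nonneg (Real.exp_pos _).le (hm0 x hx)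
      · filter_upwards [eventually_ge_atTop (1 : ℝ)] with x hx
        rw [hg]
        exact mul_le_mul_of_nonneg_left (hm1 x hx) (Real.exp_pos _).le
    have h5 := tendsto_nhds_unique h3 h4
    linarith
  · subst heq
    have h4 := tendsto_nhds_unique h3 hk.lim
    exact ⟨h1, by rw [← h4]; exact h2⟩
  · exfalso
    refine hk.slow (lam' - lam) (by linarith) ?_
    have h4 : ∀ᶠ x in atTop, Real.exp (lam' * x) * k x < L' + 1 := h3.eventually (gt_mem_nhds (by linarith))
    obtain ⟨R, hR⟩ := eventually_atTop.1 h4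
    refine ⟨max (L' + 1) (Real.exp ((lam' - lam) * R) * (Real.exp (lam * 1) * k 1)), ?_⟩
    rintro _ ⟨x, hx, rfl⟩
    have hx1 : (1 : ℝ) ≤ x := (mem_Ioi.1 hx).le
    show Real.exp ((lam' - lam) * x) * (Real.exp (lam * x) * k x) ≤ _
    rcases le_or_gt R x with h5 | h5
    · rw [← hg]
      exact le_trans (hR x h5).le (le_max_left _ _)
    · refine le_trans ?_ (le_max_right _ _)
      refine mul_le_mul ?_ (hm1 x hx1) (hm0 x hx1) (Real.exp_pos _).le
      exact Real.exp_le_exp.2 (mul_le_mul_of_nonneg_left h5.le (by linarith))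

theorem adm_goodK (k : ℝ → ℝ) (lam L : ℝ) (hk : Adm k lam L) (hL : 1 ≤ L) :
    GoodK k lam := by
  refine ⟨hk.anti, fun x hx => le_trans hL ?_⟩
  refine le_of_tendsto hk.lim ?_
  filter_upwards [eventually_ge_atTop x] with y hy
  exact hk.anti (mem_Ioi.2 hx) (mem_Ioi.2 (lt_of_lt_of_le hx hy)) hy

end Pool.Agent.Lib.MP_a80c92_pr
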