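import Pool.Agent.Lib.MP_a80c92_pr.Defs

/-! # JOB ClsB: log-convex functions belong to the class

PROOF. `h = log k` convex on `(0, ∞)`. If some slope `(h y - h x)/(y - x) ≥ 0`
(`0 < x < y`), then `h z ≥ h y` for `z ≥ y`, so `k ≥ c > 0` on `[y, ∞)` and `∫_{x>max(1,y)} k x/x = ∞`,
contradicting `IsLevy (levyOf kR kL)` (`min 1 x^2 = 1` there; `log k` convex → `k` continuous on
`(0, ∞)`, measurable). So all slopes are negative; `κ = sSup` of the slopes, `lam = -κ ≥ 0`.
`m = e^{lam x} k`, `log m = h + lam x` has slopes `≤ 0`: antitone, positive, so it has a limit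
`L ≥ 0`. `slow`: given `ε`, some slope over `(x1, x2)` is `> κ - ε/2`, so for `x ≥ x2`
`h x ≥ h x2 + (κ - ε/2)(x - x2)`, i.e. `e^{εx} m x ≥ c e^{εx/2}`, unbounded. -/

open MeasureTheory Set Filter Topology ProbabilityTheory
open scoped ENNReal NNReal

namespace Pool.Agent.Lib.MP_a80c92_pr

private theorem ClsB_slope (k : ℝ → ℝ) (h : LogConvexK k) (x y z : ℝ) (hx : 0 < x) (hxy : x < y)
    (hyz : y < z) : (Real.log (k y) - Real.log (k x)) / (y - x) ≤
      (Real.log (k z) - Real.log (k y)) / (z - y) :=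
  h.conv.slope_mono_adjacent (mem_Ioi.2 hx) (mem_Ioi.2 ((hx.trans hxy).trans hyz)) hxy hyz

private theorem ClsB_inv (c M : ℝ) (hc : 0 < c) (hM : 0 < M) :
    ∫⁻ x in Ioi M, ENNReal.ofReal (c / x) = ∞ := by
  by_contra hne
  have hfin : ∫⁻ x in Ioi M, ENNReal.ofReal (c / x) < ∞ := lt_top_iff_ne_top.2 hne
  have hint : IntegrableOn (fun x : ℝ => c / x) (Ioi M) := by
    refine ⟨(measurable_const.div measurable_id).aestronglyMeasurable, ?_⟩
    rw [hasFiniteIntegral_iff_ofReal]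
    · exact hfin
    · refine (ae_restrict_iff' measurableSet_Ioi).2 (Filter.Eventually.of_forall fun x hx => ?_)
      have : 0 < x := hM.trans hx
      positivity
  have h2 : IntegrableOn (fun x : ℝ => x⁻¹) (Ioi M) := by
    have h3 : IntegrableOn (fun x : ℝ => c⁻¹ * (c / x)) (Ioi M) := Integrable.const_mul hint c⁻¹
    have h4 : (fun x : ℝ => c⁻¹ * (c / x)) = fun x : ℝ => x⁻¹ := by
      funext x
      rw [div_eq_mul_inv, ← mul_assoc, inv_mul_cancel₀ hc.ne', one_mul]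
    rw [h4] at h3
    exact h3
  exact not_integrableOn_Ioi_inv h2

theorem slope_neg (kR kL : ℝ → ℝ) (h : LogConvexK kR) (hlev : IsLevy (levyOf kR kL))
    (x y : ℝ) (hx : 0 < x) (hxy : x < y) : Real.log (kR y) < Real.log (kR x) := by
  by_contra hcon
  push Not at hcon
  have hy : 0 < y := hx.trans hxy
  have hky : 0 < kR y := h.pos y hy
  have hge : ∀ z, y < z → kR y ≤ kR z := by
    intro z hz
    have h1 := ClsB_slope kR h x y z hx hxy hz
    have h2 : 0 ≤ (Real.log (kR y) - Real.log (kR x)) / (y - x) :=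
      div_nonneg (by linarith) (by linarith)
    have h3 : 0 ≤ (Real.log (kR z) - Real.log (kR y)) / (z - y) := h2.trans h1
    have h4 : 0 ≤ Real.log (kR z) - Real.log (kR y) := by
      have h5 := mul_nonneg h3 (sub_pos.2 hz).le
      rwa [div_mul_cancel₀ _ (sub_pos.2 hz).ne'] at h5
    exact (Real.log_le_log_iff hky (h.pos z (hy.trans hz))).1 (by linarith)
  obtain ⟨M, hM⟩ : ∃ M : ℝ, M = max 1 y := ⟨_, rfl⟩
  have hM1 : 1 ≤ M := hM ▸ le_max_left _ _
  have hMy : y ≤ M := hM ▸ le_max_right _ _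
  have hM0 : 0 < M := by linarith
  have hinf : (levyOf kR kL) (Ioi M) = ∞ := by
    rw [eq_top_iff]
    calc ∞ = ∫⁻ x in Ioi M, ENNReal.ofReal (kR y / x) := (ClsB_inv _ _ hky hM0).symm
      _ ≤ ∫⁻ x in Ioi M, ENNReal.ofReal (kR x / x) := by
          refine setLIntegral_mono' measurableSet_Ioi fun z hz => ?_
          have hz' : M < z := hz
          have hz0 : 0 < z := hM0.trans hz'
          exact ENNReal.ofReal_le_ofReal (div_le_div_of_nonneg_right (hge z (by linarith)) hz0.le)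
      _ = ((volume.restrict (Ioi 0)).withDensity (fun x => ENNReal.ofReal (kR x / x))) (Ioi M) := by
          rw [withDensity_apply _ measurableSet_Ioi, Measure.restrict_restrict measurableSet_Ioi,
            Set.inter_eq_left.2 (Ioi_subset_Ioi hM0.le)]
      _ ≤ (levyOf kR kL) (Ioi M) := by
          rw [levyOf, Measure.add_apply]
          exact le_self_add
  have hbig : ∫⁻ x, ENNReal.ofReal (min 1 (x ^ 2)) ∂(levyOf kR kL) = ∞ := by
    rw [eq_top_iff, ← hinf]
    calc (levyOf kR kL) (Ioi M) = ∫⁻ _x in Ioi M, 1 ∂(levyOf kR kL) := by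
          rw [setLIntegral_one]
      _ ≤ ∫⁻ x in Ioi M, ENNReal.ofReal (min 1 (x ^ 2)) ∂(levyOf kR kL) := by
          refine setLIntegral_mono' measurableSet_Ioi fun z hz => ?_
          have hz' : M < z := hz
          have h1 : (1 : ℝ) ≤ z ^ 2 := by nlinarith
          rw [min_eq_left h1, ENNReal.ofReal_one]
      _ ≤ ∫⁻ x, ENNReal.ofReal (min 1 (x ^ 2)) ∂(levyOf kR kL) := setLIntegral_le_lintegral _ _
  exact absurd hbig hlev.fin.ne

theorem logconvex_adm (kR kL : ℝ → ℝ) (h : LogConvexK kR) (hlev : IsLevy (levyOf kR kL)) :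
    ∃ lam L : ℝ, Adm kR lam L := by
  obtain ⟨S, hS⟩ : ∃ S : Set ℝ, S = {s : ℝ | ∃ x y : ℝ, 0 < x ∧ x < y ∧
      s = (Real.log (kR y) - Real.log (kR x)) / (y - x)} := ⟨_, rfl⟩
  have hS0 : ∀ s ∈ S, s ≤ 0 := by
    intro s hs
    rw [hS] at hs
    obtain ⟨x, y, hx, hxy, rfl⟩ := hs
    have h1 := slope_neg kR kL h hlev x y hx hxy
    exact div_nonpos_of_nonpos_of_nonneg (by linarith) (by linarith)
  have hbdd : BddAbove S := ⟨0, hS0⟩
  have hmem : ∀ x y : ℝ, 0 < x → x < y →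
      (Real.log (kR y) - Real.log (kR x)) / (y - x) ∈ S := by
    intro x y hx hxy
    rw [hS]
    exact ⟨x, y, hx, hxy, rfl⟩
  have hne : S.Nonempty := ⟨_, hmem 1 2 one_pos one_lt_two⟩
  obtain ⟨κ, hκ⟩ : ∃ κ : ℝ, κ = sSup S := ⟨_, rfl⟩
  have hκ0 : κ ≤ 0 := by
    rw [hκ]
    exact csSup_le hne hS0
  have hle : ∀ x y : ℝ, 0 < x → x < y →
      Real.log (kR y) - Real.log (kR x) ≤ κ * (y - x) := by
    intro x y hx hxy
    have h1 : (Real.log (kR y) - Real.log (kR x)) / (y - x) ≤ κ := by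
      rw [hκ]
      exact le_csSup hbdd (hmem x y hx hxy)
    rwa [div_le_iff₀ (sub_pos.2 hxy)] at h1
  have hexp : ∀ x, 0 < x → Real.exp (-κ * x) * kR x = Real.exp (-κ * x + Real.log (kR x)) := by
    intro x hx
    rw [Real.exp_add, Real.exp_log (h.pos x hx)]
  have hanti : AntitoneOn (fun x => Real.exp (-κ * x) * kR x) (Ioi 0) := by
    intro x hx y hy hxy
    have hx' : 0 < x := hx
    have hy' : 0 < y := hy
    simp only
    rw [hexp x hx', hexp y hy']
    rcases hxy.lt_or_eq with hlt | heq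
    · refine Real.exp_le_exp.2 ?_
      have h1 := hle x y hx' hlt
      nlinarith
    · rw [heq]
  obtain ⟨L, hL⟩ : ∃ L : ℝ, Tendsto (fun x => Real.exp (-κ * x) * kR x) atTop (𝓝 L) := by
    have h1 : Antitone (fun x : ℝ => Real.exp (-κ * max x 1) * kR (max x 1)) := by
      intro x y hxy
      refine hanti (mem_Ioi.2 ?_) (mem_Ioi.2 ?_) (max_le_max_right 1 hxy)
      · exact lt_of_lt_of_le one_pos (le_max_right _ _)
      · exact lt_of_lt_of_le one_pos (le_max_right _ _)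
    have h2 : BddBelow (range (fun x : ℝ => Real.exp (-κ * max x 1) * kR (max x 1))) := by
      refine ⟨0, ?_⟩
      rintro _ ⟨x, rfl⟩
      have h3 : 0 < max x 1 := lt_of_lt_of_le one_pos (le_max_right _ _)
      have h4 := h.pos _ h3
      positivity
    refine ⟨_, (tendsto_atTop_ciInf h1 h2).congr' ?_⟩
    filter_upwards [eventually_ge_atTop (1 : ℝ)] with x hx
    rw [max_eq_left hx]
  refine ⟨-κ, L, by linarith, h.pos, hanti, hL, ?_⟩
  intro ε hε hb
  obtain ⟨s, hs, hsκ⟩ := exists_lt_of_lt_csSup hne (show κ - ε / 2 < sSup S by rw [← hκ]; linarith)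
  rw [hS] at hs
  obtain ⟨x1, x2, hx1, hx12, rfl⟩ := hs
  have hx2 : 0 < x2 := hx1.trans hx12
  obtain ⟨C, hC⟩ := hb
  have hlow : ∀ x, x2 < x → 1 < x →
      ε / 2 * x + (Real.log (kR x2) - (κ - ε / 2) * x2) ≤ Real.log C := by
    intro x hx hx1'
    have hx0 : 0 < x := hx2.trans hx
    have h1 := ClsB_slope kR h x1 x2 x hx1 hx12 hx
    have h2 : (κ - ε / 2) * (x - x2) ≤ Real.log (kR x) - Real.log (kR x2) := by
      have h3 : κ - ε / 2 ≤ (Real.log (kR x) - Real.log (kR x2)) / (x - x2) := hsκ.le.trans h1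
      rwa [le_div_iff₀ (sub_pos.2 hx)] at h3
    have h4 : Real.exp (ε * x) * (Real.exp (-κ * x) * kR x) ≤ C :=
      hC ⟨x, mem_Ioi.2 hx1', rfl⟩
    rw [hexp x hx0, ← Real.exp_add] at h4
    have h5 : ε * x + (-κ * x + Real.log (kR x)) ≤ Real.log C := by
      rw [← Real.exp_le_exp]
      have hC0 : 0 < C := lt_of_lt_of_le (Real.exp_pos _) h4
      rw [Real.exp_log hC0]
      exact h4
    nlinarith
  obtain ⟨D, hD⟩ : ∃ D : ℝ, D = Real.log (kR x2) - (κ - ε / 2) * x2 := ⟨_, rfl⟩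
  obtain ⟨x, hx⟩ : ∃ x : ℝ, x = max (max (x2 + 1) 2) (2 * (Real.log C - D + 1) / ε) := ⟨_, rfl⟩
  have ha : x2 + 1 ≤ x := hx ▸ (le_max_left _ _).trans (le_max_left _ _)
  have hb' : 2 ≤ x := hx ▸ (le_max_right _ _).trans (le_max_left _ _)
  have hc : 2 * (Real.log C - D + 1) / ε ≤ x := hx ▸ le_max_right _ _
  rw [div_le_iff₀ hε] at hc
  have hfin := hlow x (by linarith) (by linarith)
  rw [← hD] at hfin
  nlinarith

end Pool.Agent.Lib.MP_a80c92_pr
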