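import Pool.Agent.Lib.MP_a80c92_pr.Defs

/-! # JOB ClsC: Laplace transforms belong to the class

PROOF. `U (Iio b) = 0`, so `e^{bx} lap U x = ∫ e^{-x(u-b)} dU(u)` with `u ≥ b` a.e.: antitone on
`(0, ∞)`, positive (`U ≠ 0`), `→ U {b}` as `x → ∞` (dominated convergence, dominated by the integrand
at `x = 1`, pointwise limit the indicator of `{b}`); `U {b} < ∞` as `e^{-u}` is integrable.
`slow`: `e^{εx} e^{bx} lap U x ≥ e^{εx} e^{-xε/2} U.real [b, b+ε/2)`, with
`0 < U [b, b+ε/2) < ∞`: unbounded on `(1, ∞)`. -/

open MeasureTheory Set Filter Topology ProbabilityTheory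
open scoped ENNReal NNReal

namespace Pool.Agent.Lib.MP_a80c92_pr

private theorem ClsC_eq (U : Measure ℝ) (b x : ℝ) :
    Real.exp (b * x) * lap U x = ∫ u, Real.exp (-(x * (u - b))) ∂U := by
  unfold lap
  rw [← integral_const_mul]
  refine integral_congr_ae (Eventually.of_forall fun u => ?_)
  change Real.exp (b * x) * Real.exp (-(x * u)) = Real.exp (-(x * (u - b)))
  rw [← Real.exp_add]
  congr 1
  ring

private theorem ClsC_int (U : Measure ℝ) (b : ℝ)
    (hint : ∀ x : ℝ, 0 < x → Integrable (fun u => Real.exp (-(x * u))) U) {x : ℝ} (hx : 0 < x) :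
    Integrable (fun u => Real.exp (-(x * (u - b)))) U := by
  have h1 := (hint x hx).const_mul (Real.exp (b * x))
  refine h1.congr (Eventually.of_forall fun u => ?_)
  change Real.exp (b * x) * Real.exp (-(x * u)) = Real.exp (-(x * (u - b)))
  rw [← Real.exp_add]
  congr 1
  ring

theorem lap_adm (U : Measure ℝ) (b : ℝ) (hb0 : 0 ≤ b) (hb : U (Iio b) = 0)
    (hb1 : ∀ ε : ℝ, 0 < ε → 0 < U (Iio (b + ε)))
    (hint : ∀ x : ℝ, 0 < x → Integrable (fun u => Real.exp (-(x * u))) U) :
    Adm (lap U) b (U.real {b}) := by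
  have hae : ∀ᵐ u ∂U, b ≤ u := by
    rw [ae_iff]
    have h1 : {a : ℝ | ¬ b ≤ a} = Iio b := by
      ext a
      simp
    rw [h1, hb]
  have hint' : ∀ {x : ℝ}, 0 < x → Integrable (fun u => Real.exp (-(x * (u - b)))) U := fun hx =>
    ClsC_int U b hint hx
  have hfin : ∀ c : ℝ, U (Iio c) < ∞ := by
    intro c
    have h1 : Integrable (fun u => Real.exp (-((1 : ℝ) * u))) U := hint 1 one_pos
    have h2 := h1.measure_ge_lt_top (Real.exp_pos (-c))
    refine lt_of_le_of_lt (measure_mono ?_) h2
    intro u hu
    change Real.exp (-c) ≤ Real.exp (-(1 * u))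
    apply Real.exp_le_exp.2
    have h3 : u < c := hu
    linarith
  refine ⟨hb0, ?_, ?_, ?_, ?_⟩
  · intro x hx
    change 0 < ∫ u, Real.exp (-(x * u)) ∂U
    rw [integral_pos_iff_support_of_nonneg (fun u => (Real.exp_pos _).le) (hint x hx)]
    have h1 : Function.support (fun u => Real.exp (-(x * u))) = univ := by
      ext u
      simp [Function.mem_support, (Real.exp_pos _).ne']
    rw [h1]
    exact lt_of_lt_of_le (hb1 1 one_pos) (measure_mono (subset_univ _))
  · intro x hx y hy hxy
    change Real.exp (b * y) * lap U y ≤ Real.exp (b * x) * lap U x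
    rw [ClsC_eq, ClsC_eq]
    refine integral_mono_ae (hint' hy) (hint' hx) ?_
    filter_upwards [hae] with u hu
    apply Real.exp_le_exp.2
    have h1 : x * (u - b) ≤ y * (u - b) := mul_le_mul_of_nonneg_right hxy (by linarith)
    linarith
  · have h1 : (fun x => Real.exp (b * x) * lap U x) = fun x => ∫ u, Real.exp (-(x * (u - b))) ∂U :=
      funext fun x => ClsC_eq U b x
    rw [h1]
    have h2 : U.real {b} = ∫ u, ({b} : Set ℝ).indicator 1 u ∂U := by
      rw [integral_indicator_one (measurableSet_singleton b)]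
    rw [h2]
    refine tendsto_integral_filter_of_dominated_convergence (fun u => Real.exp (-((1 : ℝ) * (u - b)))) ?_ ?_ ?_ ?_
    · filter_upwards [eventually_gt_atTop (0 : ℝ)] with x hx
      exact (hint' hx).aestronglyMeasurable
    · filter_upwards [eventually_ge_atTop (1 : ℝ)] with x hx
      filter_upwards [hae] with u hu
      rw [Real.norm_eq_abs, abs_of_pos (Real.exp_pos _)]
      apply Real.exp_le_exp.2
      have h3 : 1 * (u - b) ≤ x * (u - b) := mul_le_mul_of_nonneg_right hx (by linarith)
      linarith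
    · exact hint' one_pos
    · filter_upwards [hae] with u hu
      rcases hu.eq_or_lt with h3 | h3
      · subst h3
        have h4 : (fun x : ℝ => Real.exp (-(x * (b - b)))) = fun _ => (1 : ℝ) := by
          funext x
          rw [sub_self, mul_zero, neg_zero, Real.exp_zero]
        rw [h4, indicator_of_mem (mem_singleton b)]
        exact tendsto_const_nhds
      · rw [indicator_of_notMem (by simp [h3.ne'])]
        have h4 : Tendsto (fun x : ℝ => x * (u - b)) atTop atTop :=
          tendsto_id.atTop_mul_const (by linarith)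
        exact Real.tendsto_exp_neg_atTop_nhds_zero.comp h4
  · rintro ε hε ⟨B, hB⟩
    have hc : 0 < U.real (Iio (b + ε / 2)) :=
      ENNReal.toReal_pos (hb1 (ε / 2) (by linarith)).ne' (hfin _).ne
    have h1 : ∀ x : ℝ, 1 < x → Real.exp (x * (ε / 2)) * U.real (Iio (b + ε / 2)) ≤ B := by
      intro x hx
      have hx0 : 0 < x := by linarith
      have h2 : Real.exp (ε * x) * (Real.exp (b * x) * lap U x) ≤ B := hB ⟨x, hx, rfl⟩
      refine le_trans ?_ h2
      rw [ClsC_eq]
      have h3 : U.real (Iio (b + ε / 2)) * Real.exp (-(x * (ε / 2))) ≤ ∫ u, Real.exp (-(x * (u - b))) ∂U := by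
        have h4 : ∫ _ in Iio (b + ε / 2), Real.exp (-(x * (ε / 2))) ∂U =
            U.real (Iio (b + ε / 2)) * Real.exp (-(x * (ε / 2))) := by
          rw [setIntegral_const, smul_eq_mul]
        rw [← h4]
        refine le_trans ?_ (setIntegral_le_integral (s := Iio (b + ε / 2)) (hint' hx0)
          (Eventually.of_forall fun u => (Real.exp_pos _).le))
        refine setIntegral_mono_on (integrableOn_const (hfin _).ne) (hint' hx0).integrableOn measurableSet_Iio
          fun u hu => ?_
        apply Real.exp_le_exp.2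
        have h5 : u < b + ε / 2 := hu
        have h6 : x * (u - b) ≤ x * (ε / 2) := mul_le_mul_of_nonneg_left (by linarith) hx0.le
        linarith
      calc Real.exp (x * (ε / 2)) * U.real (Iio (b + ε / 2))
          = Real.exp (ε * x) * (U.real (Iio (b + ε / 2)) * Real.exp (-(x * (ε / 2)))) := by
            have h4 : Real.exp (x * (ε / 2)) = Real.exp (ε * x) * Real.exp (-(x * (ε / 2))) := by
              rw [← Real.exp_add]
              congr 1
              ring
            rw [h4]
            ring
        _ ≤ _ := mul_le_mul_of_nonneg_left h3 (Real.exp_pos _).le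
    have h2 : Tendsto (fun x : ℝ => Real.exp (x * (ε / 2)) * U.real (Iio (b + ε / 2))) atTop atTop :=
      (Real.tendsto_exp_atTop.comp (tendsto_id.atTop_mul_const (by linarith : 0 < ε / 2))).atTop_mul_const hc
    obtain ⟨x, hx1, hx2⟩ := ((h2.eventually_gt_atTop B).and (eventually_gt_atTop (1 : ℝ))).exists
    exact absurd (h1 x hx2) (not_le.2 hx1)

end Pool.Agent.Lib.MP_a80c92_pr
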