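import Pool.Agent.Lib.MP_a80c92_pr.Defs

/-! # JOB DUa: log-concave laws preserve discrete unimodality

PROOF. Write `q n = Q.real {n}` (`n : ℕ`), `g k = G.real {k}` (`k : ℤ`), mode `a` of `g`. Sequence
form: the law `H = (Q.map cast) ∗ G` has `H.real {n} = ∑' i : ℕ, q i * g (n - i)` (countable
measures; all sums are summable since `q` is summable and `0 ≤ g ≤ 1`).
So `D n := H{n} - H{n-1} = ∑' i, q i * d (n - i)`, `d k = g k - g (k-1)`, `d k ≥ 0` for `k ≤ a`,
`d k ≤ 0` for `k > a`.
(1) `n ≤ a`: all `n - i ≤ a`, so `D n ≥ 0`.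
(2) `n ≥ a`, `i0 = n - a ≥ 0`, `r = q (i0 + 1)/ q i0 > 0`. Ratios `q (i+1)/q i` are nonincreasing.
For `k ≤ a`, `i = n - k ≥ i0`: `q (i+1) ≤ r q i`, `d k ≥ 0`. For `k > a`, `0 ≤ i = n - k < i0`:
`q (i+1) ≥ r q i`, `d k ≤ 0`; for `k = n + 1 > a`: the term `q 0 d (n+1) ≤ 0` appears only in
`D (n+1)`. Hence `D (n+1) = ∑_{i ≥ 0} q (i+1) d (n - i) + q 0 d (n+1) ≤ r ∑ q i d (n-i) = r D n`.
(3) So once `D n ≤ 0` for an `n ≥ a` then `D ≤ 0` afterwards. Such an `n` exists (otherwise
`H{n}` is nondecreasing and positive somewhere for `n ≥ a`, not summable; if all `D n > 0` for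
`n ≥ a` then `H{a} < H{a+1} ≤ ...` contradicts finiteness). Let `b ≥ a` be minimal with
`D (b+1) ≤ 0`; then `H{·}` is nondecreasing on `(-∞, b]` and nonincreasing on `[b, ∞)`.
The reflection, composition and `dirac 0` are simple
(`Measure.map_conv`.., `conv_assoc`; `(G.map neg).real {n} = G.real {-n}`). -/

open MeasureTheory Set Filter Topology ProbabilityTheory
open scoped ENNReal NNReal

namespace Pool.Agent.Lib.MP_a80c92_pr

theorem conv_apply_int (Q : Measure ℕ) [IsProbabilityMeasure Q] (G : Measure ℤ)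
    [IsProbabilityMeasure G] (n : ℤ) :
    ((Q.map (fun i : ℕ => (i : ℤ))) ∗ G).real {n} =
      ∑' i : ℕ, Q.real {i} * G.real {n - (i : ℤ)} := by
  have h1 : ((Q.map (fun i : ℕ => (i : ℤ))) ∗ G) {n} = ∑' i : ℕ, Q {i} * G {n - (i : ℤ)} := by
    have h := Measure.lintegral_conv (μ := Q.map (fun i : ℕ => (i : ℤ))) (ν := G)
      (f := Set.indicator {n} 1) (measurable_of_countable _)
    rw [lintegral_indicator_one (measurableSet_singleton n)] at h
    rw [h, lintegral_map (measurable_of_countable _) (by fun_prop), lintegral_countable']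
    refine tsum_congr fun i => ?_
    rw [mul_comm]
    congr 1
    have h2 : (fun y : ℤ => Set.indicator {n} (1 : ℤ → ℝ≥0∞) ((i : ℤ) + y)) =
        Set.indicator {n - (i : ℤ)} 1 := by
      funext y
      by_cases hy : y = n - (i : ℤ)
      · subst hy; simp
      · have : (i : ℤ) + y ≠ n := by omega
        rw [Set.indicator_of_notMem (by simpa using this),
          Set.indicator_of_notMem (by simpa using hy)]
    rw [h2, lintegral_indicator_one (measurableSet_singleton _)]
  unfold Measure.real
  rw [h1, ENNReal.tsum_toReal_eq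
    (fun i => ENNReal.mul_ne_top (measure_ne_top _ _) (measure_ne_top _ _))]
  simp [ENNReal.toReal_mul]

theorem dua_summable {α : Type*} [Countable α] [MeasurableSpace α] [MeasurableSingletonClass α]
    (Q : Measure α) [IsProbabilityMeasure Q] : Summable (fun i : α => Q.real {i}) := by
  have h : ∑' i : α, Q {i} = 1 := by
    have h := lintegral_countable' (μ := Q) (fun _ : α => (1 : ℝ≥0∞))
    simp only [lintegral_const, measure_univ, mul_one, one_mul] at h
    exact h.symm
  exact ENNReal.summable_toReal (by rw [h]; exact ENNReal.one_ne_top)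

theorem dua_mono (H : ℤ → ℝ) (b : ℤ) (h : ∀ n, n ≤ b → H (n - 1) ≤ H n) :
    MonotoneOn H (Iic b) := by
  intro x _ y hy hxy
  have key : ∀ k : ℕ, x + k ≤ b → H x ≤ H (x + k) := by
    intro k
    induction k with
    | zero => intro _; simp
    | succ k ih =>
      intro hk
      push_cast at hk ⊢
      have h1 := ih (by omega)
      have h2 := h (x + (k + 1)) (by omega)
      have e : x + ((k : ℤ) + 1) - 1 = x + k := by ring
      rw [e] at h2
      exact h1.trans h2
  have := key (y - x).toNat (by rw [Int.toNat_of_nonneg (by omega)]; simpa using hy)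
  rw [Int.toNat_of_nonneg (by omega)] at this
  simpa using this

theorem dua_anti (H : ℤ → ℝ) (b : ℤ) (h : ∀ n, b < n → H n ≤ H (n - 1)) :
    AntitoneOn H (Ici b) := by
  intro x hx y _ hxy
  have key : ∀ k : ℕ, H (x + k) ≤ H x := by
    intro k
    induction k with
    | zero => simp
    | succ k ih =>
      push_cast
      have hx' : b ≤ x := hx
      have h2 := h (x + (k + 1)) (by omega)
      have e : x + ((k : ℤ) + 1) - 1 = x + k := by ring
      rw [e] at h2
      exact h2.trans ih
  have := key (y - x).toNat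
  rw [Int.toNat_of_nonneg (by omega)] at this
  simpa using this

theorem dua_ratio (q : ℕ → ℝ) (hpos : ∀ n, 0 < q n) (hlc : ∀ n, q (n + 2) * q n ≤ q (n + 1) ^ 2)
    (i j : ℕ) (hij : i ≤ j) : q (j + 1) * q i ≤ q (i + 1) * q j := by
  induction j, hij using Nat.le_induction with
  | base => exact le_refl _
  | succ j hj ih =>
    have h1 := hlc j
    have h2 : q (j + 2) * q j * q i ≤ q (j + 1) ^ 2 * q i :=
      mul_le_mul_of_nonneg_right h1 (hpos i).le
    have h3 : q (j + 1) * (q (j + 1) * q i) ≤ q (j + 1) * (q (i + 1) * q j) :=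
      mul_le_mul_of_nonneg_left ih (hpos _).le
    have h4 : (q (j + 2) * q i) * q j ≤ (q (i + 1) * q (j + 1)) * q j := by nlinarith
    exact le_of_mul_le_mul_right h4 (hpos j)

theorem SDU_of_LC (Q : Measure ℕ) [IsProbabilityMeasure Q] (h : LC Q) :
    SDU (Q.map (fun i : ℕ => (i : ℤ))) := by
  intro G hG hGu
  obtain ⟨a, hmono, hanti⟩ := hGu
  obtain ⟨hpos, hlc⟩ := h
  have hQm : IsProbabilityMeasure (Q.map (fun i : ℕ => (i : ℤ))) :=
    Measure.isProbabilityMeasure_map (by fun_prop)
  set q : ℕ → ℝ := fun i => Q.real {i} with hq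
  set g : ℤ → ℝ := fun k => G.real {k} with hg
  set H : ℤ → ℝ := fun n => ((Q.map (fun i : ℕ => (i : ℤ))) ∗ G).real {n} with hH
  have hqs : Summable q := dua_summable Q
  have hg1 : ∀ k, |g k| ≤ 1 := fun k => by
    simp only [hg]
    rw [abs_of_nonneg measureReal_nonneg]; exact measureReal_le_one
  have hsum : ∀ n : ℤ, Summable (fun i : ℕ => q i * g (n - (i : ℤ))) := fun n => by
    refine Summable.of_norm_bounded hqs fun i => ?_
    rw [Real.norm_eq_abs, abs_mul, abs_of_pos (hpos i)]
    exact mul_le_of_le_one_right (hpos i).le (hg1 _)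
  have hHf : ∀ n, H n = ∑' i : ℕ, q i * g (n - (i : ℤ)) := fun n => conv_apply_int Q G n
  let d : ℤ → ℝ := fun k => g k - g (k - 1)
  have hdpos : ∀ k, k ≤ a → 0 ≤ d k := fun k hk => by
    have : g (k - 1) ≤ g k := hmono (show k - 1 ≤ a by omega) (show k ≤ a from hk) (by omega)
    simp only [d]; linarith
  have hdneg : ∀ k, a < k → d k ≤ 0 := fun k hk => by
    have : g k ≤ g (k - 1) := hanti (show a ≤ k - 1 by omega) (show a ≤ k by omega) (by omega)
    simp only [d]; linarith
  let D : ℤ → ℝ := fun n => H n - H (n - 1)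
  have hDs : ∀ n : ℤ, Summable (fun i : ℕ => q i * d (n - (i : ℤ))) := fun n => by
    have h1 := (hsum n).sub (hsum (n - 1))
    refine h1.congr fun i => ?_
    simp only [d]
    have e : n - 1 - (i : ℤ) = n - (i : ℤ) - 1 := by ring
    rw [e]; ring
  have hDf : ∀ n : ℤ, D n = ∑' i : ℕ, q i * d (n - (i : ℤ)) := fun n => by
    simp only [D]
    rw [hHf, hHf, ← (hsum n).tsum_sub (hsum (n - 1))]
    refine tsum_congr fun i => ?_
    simp only [d]
    have e : n - 1 - (i : ℤ) = n - (i : ℤ) - 1 := by ring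
    rw [e]; ring
  have step1 : ∀ n, n ≤ a → 0 ≤ D n := fun n hn => by
    rw [hDf]
    exact tsum_nonneg fun i => mul_nonneg (hpos i).le (hdpos _ (by omega))
  have step2 : ∀ n, a ≤ n → D n ≤ 0 → D (n + 1) ≤ 0 := by
    intro n hn hD
    obtain ⟨i0, hi0⟩ : ∃ i0 : ℕ, (i0 : ℤ) = n - a := ⟨(n - a).toNat, Int.toNat_of_nonneg (by omega)⟩
    have hr : 0 < q (i0 + 1) / q i0 := div_pos (hpos _) (hpos _)
    have hterm : ∀ i : ℕ, q (i + 1) * d (n - (i : ℤ)) ≤
        q (i0 + 1) / q i0 * (q i * d (n - (i : ℤ))) := by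
      intro i
      rcases le_or_gt i0 i with hi | hi
      · have hd := hdpos (n - (i : ℤ)) (by omega)
        have h1 := dua_ratio q hpos hlc i0 i hi
        have h2 : q (i + 1) ≤ q (i0 + 1) / q i0 * q i := by
          rw [div_mul_eq_mul_div, le_div_iff₀ (hpos _)]; exact h1
        calc q (i + 1) * d (n - (i : ℤ)) ≤ (q (i0 + 1) / q i0 * q i) * d (n - (i : ℤ)) :=
              mul_le_mul_of_nonneg_right h2 hd
          _ = _ := by ring
      · have hd := hdneg (n - (i : ℤ)) (by omega)
        have h1 := dua_ratio q hpos hlc i i0 hi.le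
        have h2 : q (i0 + 1) / q i0 * q i ≤ q (i + 1) := by
          rw [div_mul_eq_mul_div, div_le_iff₀ (hpos _)]; exact h1
        calc q (i + 1) * d (n - (i : ℤ)) ≤ (q (i0 + 1) / q i0 * q i) * d (n - (i : ℤ)) :=
              mul_le_mul_of_nonpos_right h2 hd
          _ = _ := by ring
    have e1 : D (n + 1) = q 0 * d (n + 1) + ∑' i : ℕ, q (i + 1) * d (n - (i : ℤ)) := by
      rw [hDf, (hDs (n + 1)).tsum_eq_zero_add]
      congr 1
      · simp
      · refine tsum_congr fun i => ?_
        congr 2
        push_cast; ring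
    have hs1 : Summable (fun i : ℕ => q (i + 1) * d (n - (i : ℤ))) := by
      have := (summable_nat_add_iff 1).2 (hDs (n + 1))
      refine this.congr fun i => ?_
      congr 2
      push_cast; ring
    have h3 : ∑' i : ℕ, q (i + 1) * d (n - (i : ℤ)) ≤
        ∑' i : ℕ, q (i0 + 1) / q i0 * (q i * d (n - (i : ℤ))) :=
      hs1.tsum_le_tsum hterm ((hDs n).mul_left _)
    rw [tsum_mul_left, ← hDf] at h3
    have h4 : q (i0 + 1) / q i0 * D n ≤ 0 := mul_nonpos_of_nonneg_of_nonpos hr.le hD
    have h5 : q 0 * d (n + 1) ≤ 0 :=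
      mul_nonpos_of_nonneg_of_nonpos (hpos 0).le (hdneg _ (by omega))
    rw [e1]; linarith
  have step3 : ∃ k : ℕ, D (a + k) ≤ 0 := by
    by_contra hcon
    push_neg at hcon
    have hHs : Summable H := dua_summable _
    have hH0 : ∀ n, 0 ≤ H n := fun n => measureReal_nonneg
    have hinc : ∀ k : ℕ, H a ≤ H (a + k) := by
      intro k
      induction k with
      | zero => simp
      | succ k ih =>
        have := hcon (k + 1)
        simp only [D] at this
        push_cast at this ⊢
        have e : a + ((k : ℤ) + 1) - 1 = a + k := by ring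
        rw [e] at this
        linarith
    have hHa : 0 < H a := by
      have := hcon 0
      simp only [D, Nat.cast_zero, add_zero] at this
      have := hH0 (a - 1)
      linarith
    have hs : Summable (fun k : ℕ => H (a + k)) :=
      hHs.comp_injective (i := fun k : ℕ => a + (k : ℤ)) (fun x y hxy => by simpa using hxy)
    have ht := hs.tendsto_atTop_zero
    have := ge_of_tendsto' ht hinc
    linarith
  classical
  obtain ⟨k, hk, hmin⟩ : ∃ k : ℕ, D (a + k) ≤ 0 ∧ ∀ m < k, ¬ D (a + m) ≤ 0 :=
    ⟨Nat.find step3, Nat.find_spec step3, fun m hm => Nat.find_min step3 hm⟩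
  have hge : ∀ m : ℕ, D (a + k + m) ≤ 0 := by
    intro m
    induction m with
    | zero => simpa using hk
    | succ m ih =>
      have := step2 (a + k + m) (by omega) ih
      push_cast
      rw [← add_assoc]; exact this
  refine ⟨a + k - 1, ?_, ?_⟩
  · apply dua_mono
    intro n hn
    have : 0 ≤ D n := by
      rcases le_or_gt n a with h1 | h1
      · exact step1 n h1
      · obtain ⟨m, hm⟩ : ∃ m : ℕ, (m : ℤ) = n - a :=
          ⟨(n - a).toNat, Int.toNat_of_nonneg (by omega)⟩
        have := hmin m (by omega)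
        rw [hm] at this
        push_neg at this
        have e : a + (n - a) = n := by ring
        rw [e] at this
        exact this.le
    simp only [D] at this
    linarith
  · apply dua_anti
    intro n hn
    obtain ⟨m, hm⟩ : ∃ m : ℕ, (m : ℤ) = n - (a + k) :=
      ⟨(n - (a + k)).toNat, Int.toNat_of_nonneg (by omega)⟩
    have := hge m
    rw [hm] at this
    have e : a + k + (n - (a + k)) = n := by ring
    rw [e] at this
    simp only [D] at this
    linarith

end Pool.Agent.Lib.MP_a80c92_pr
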