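import Pool.Agent.Lib.MP_a80c92_pr.Defs

/-! # JOB DUb: closure properties of discrete strong unimodality

PROOF. `(G.map neg).real {n} = G.real {-n}` (`map_measureReal_apply`), monotone on `(-∞, a]`
becomes antitone on `[-a, ∞)`; `(Q.map neg) ∗ G = (Q ∗ (G.map neg)).map neg`
(`Measure.map_conv_addMonoidHom`-type lemma, or directly from the definition of `conv`);
`SDU_conv`: associativity `conv_assoc`; `SDU_dirac`: `Measure.dirac_zero_conv`. -/

open MeasureTheory Set Filter Topology ProbabilityTheory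
open scoped ENNReal NNReal

namespace Pool.Agent.Lib.MP_a80c92_pr

theorem DU_neg (G : Measure ℤ) [IsProbabilityMeasure G] (h : DU G) :
    DU (G.map (fun n : ℤ => -n)) := by
  obtain ⟨a, hm, ha⟩ := h
  have hv : ∀ n : ℤ, (G.map (fun n : ℤ => -n)).real {n} = G.real {-n} := by
    intro n
    rw [map_measureReal_apply measurable_neg (MeasurableSet.singleton n)]
    refine congrArg G.real (Set.ext fun k => ?_)
    rw [Set.mem_preimage, Set.mem_singleton_iff, Set.mem_singleton_iff]
    constructor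
    · intro hk
      rw [← hk, neg_neg]
    · intro hk
      rw [hk, neg_neg]
  refine ⟨-a, fun m hm' n hn' hmn => ?_, fun m hm' n hn' hmn => ?_⟩
  · show (G.map (fun n : ℤ => -n)).real {m} ≤ (G.map (fun n : ℤ => -n)).real {n}
    rw [hv, hv]
    have h1 : m ≤ -a := hm'
    have h2 : n ≤ -a := hn'
    exact ha (show a ≤ -n by omega) (show a ≤ -m by omega) (by omega)
  · show (G.map (fun n : ℤ => -n)).real {n} ≤ (G.map (fun n : ℤ => -n)).real {m}
    rw [hv, hv]
    have h1 : -a ≤ m := hm'
    have h2 : -a ≤ n := hn'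
    exact hm (show -n ≤ a by omega) (show -m ≤ a by omega) (by omega)

private theorem DUb_map_neg (μ ν : Measure ℤ) [SFinite μ] [SFinite ν] :
    (μ ∗ ν).map (fun n : ℤ => -n) = (μ.map (fun n : ℤ => -n)) ∗ (ν.map (fun n : ℤ => -n)) :=
  Measure.map_conv_addMonoidHom (negAddMonoidHom : ℤ →+ ℤ) measurable_neg

private theorem DUb_neg_neg (μ : Measure ℤ) :
    (μ.map (fun n : ℤ => -n)).map (fun n : ℤ => -n) = μ := by
  rw [Measure.map_map measurable_neg measurable_neg]
  have h : ((fun n : ℤ => -n) ∘ fun n : ℤ => -n) = id := by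
    funext n
    exact neg_neg n
  rw [h, Measure.map_id]

theorem SDU_neg (Q : Measure ℤ) [IsProbabilityMeasure Q] (h : SDU Q) :
    SDU (Q.map (fun n : ℤ => -n)) := by
  intro G hG hGU
  have hG' : IsProbabilityMeasure (G.map (fun n : ℤ => -n)) :=
    Measure.isProbabilityMeasure_map measurable_neg.aemeasurable
  have h1 : (Q.map (fun n : ℤ => -n)) ∗ G = (Q ∗ (G.map (fun n : ℤ => -n))).map (fun n : ℤ => -n) := by
    rw [DUb_map_neg, DUb_neg_neg]
  rw [h1]
  exact DU_neg _ (h _ hG' (DU_neg G hGU))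

theorem SDU_conv (Q R : Measure ℤ) [IsProbabilityMeasure Q] [IsProbabilityMeasure R]
    (hQ : SDU Q) (hR : SDU R) : SDU (Q ∗ R) := by
  intro G hG hGU
  rw [Measure.conv_assoc]
  exact hQ _ inferInstance (hR G hG hGU)

theorem SDU_dirac : SDU (Measure.dirac 0) := by
  intro G hG hGU
  rw [Measure.dirac_zero_conv]
  exact hGU

end Pool.Agent.Lib.MP_a80c92_pr
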