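import Mathlib

/-! # Strongly unimodal infinitely divisible laws: definitions

Everything is about Borel measures on the real line. -/

open MeasureTheory Set Filter Topology ProbabilityTheory
open scoped ENNReal NNReal

namespace Pool.Agent.Lib.MP_a80c92_pr

/-- The distribution function `x ↦ μ((-∞, x])`. -/
noncomputable def dfn (μ : Measure ℝ) (x : ℝ) : ℝ := μ.real (Iic x)

/-- A law is unimodal if for some `a` (a mode) its distribution function is convex on `(-∞, a)`
and concave on `(a, ∞)`. -/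
def Unimodal (μ : Measure ℝ) : Prop :=
  ∃ a : ℝ, ConvexOn ℝ (Iio a) (dfn μ) ∧ ConcaveOn ℝ (Ioi a) (dfn μ)

/-- A law `μ` is strongly unimodal if `μ ∗ G` is unimodal for every unimodal probability
measure `G`. -/
def StronglyUnimodal (μ : Measure ℝ) : Prop :=
  ∀ G : Measure ℝ, IsProbabilityMeasure G → Unimodal G → Unimodal (μ ∗ G)

/-- Lévy measures: no mass at `0` and `∫ min(1, x²) ν(dx) < ∞`. -/
structure IsLevy (ν : Measure ℝ) : Prop where
  zero : ν {0} = 0
  fin : ∫⁻ x, ENNReal.ofReal (min 1 (x ^ 2)) ∂ν < ∞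

/-- The Lévy-Khinchin integrand `e^{itx} - 1 - itx 1_{|x| < 1}`. -/
noncomputable def lk (t x : ℝ) : ℂ :=
  Complex.exp (t * x * Complex.I) - 1 - (if |x| < 1 then t * x * Complex.I else 0)

/-- `μ` has the Lévy-Khinchin triple `(g, s2, ν)`. -/
structure HasTriple (μ : Measure ℝ) (g s2 : ℝ) (ν : Measure ℝ) : Prop where
  s2_nonneg : 0 ≤ s2
  levy : IsLevy ν
  cf : ∀ t : ℝ, charFun μ t =
    Complex.exp (g * t * Complex.I - s2 * t ^ 2 / 2 + ∫ x, lk t x ∂ν)

/-- The measure with density `kR(x)/x` on `(0, ∞)` and `kL(|x|)/|x|` on `(-∞, 0)`. -/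
noncomputable def levyOf (kR kL : ℝ → ℝ) : Measure ℝ :=
  (volume.restrict (Ioi 0)).withDensity (fun x => ENNReal.ofReal (kR x / x)) +
  (volume.restrict (Iio 0)).withDensity (fun x => ENNReal.ofReal (kL (-x) / (-x)))

/-- The class of functions `k(x) = e^{-lam x} m(x)` on `(0, ∞)`, `lam ≥ 0`, where `m > 0` is
nonincreasing with limit `L` at infinity and does not decay exponentially: for every `ε > 0` the
function `e^{ε x} m(x)` is unbounded on `(1, ∞)`. -/
structure Adm (k : ℝ → ℝ) (lam L : ℝ) : Prop where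
  lam_nonneg : 0 ≤ lam
  pos : ∀ x, 0 < x → 0 < k x
  anti : AntitoneOn (fun x => Real.exp (lam * x) * k x) (Ioi 0)
  lim : Tendsto (fun x => Real.exp (lam * x) * k x) atTop (𝓝 L)
  slow : ∀ ε : ℝ, 0 < ε →
    ¬ BddAbove ((fun x => Real.exp (ε * x) * (Real.exp (lam * x) * k x)) '' Ioi 1)

/-! ### Compound Poisson laws on an additive monoid -/

section CP
variable {M : Type*} [AddCommMonoid M] [MeasurableSpace M]

/-- Convolution powers. -/
noncomputable def cpow (m : Measure M) : ℕ → Measure M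
  | 0 => Measure.dirac 0
  | n + 1 => cpow m n ∗ m

/-- The compound Poisson law `e^{-|m|} ∑ m^{*n} / n!`. -/
noncomputable def CP (m : Measure M) : Measure M :=
  ENNReal.ofReal (Real.exp (-(m.real univ))) •
    Measure.sum (fun n : ℕ => ((n.factorial : ℝ≥0∞)⁻¹) • cpow m n)

end CP

/-! ### Lattice laws -/

/-- Log-concave laws on `ℕ` without zeros. -/
def LC (Q : Measure ℕ) : Prop :=
  (∀ n : ℕ, 0 < Q.real {n}) ∧ ∀ n : ℕ, Q.real {n + 2} * Q.real {n} ≤ Q.real {n + 1} ^ 2

/-- Discrete unimodality. -/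
def DU (Y : Measure ℤ) : Prop :=
  ∃ a : ℤ, MonotoneOn (fun n : ℤ => Y.real {n}) (Iic a) ∧
    AntitoneOn (fun n : ℤ => Y.real {n}) (Ici a)

/-- Discrete strong unimodality. -/
def SDU (Q : Measure ℤ) : Prop :=
  ∀ G : Measure ℤ, IsProbabilityMeasure G → DU G → DU (Q ∗ G)

/-- The characteristic function of a law on `ℤ`. -/
noncomputable def zcf (Y : Measure ℤ) (u : ℝ) : ℂ :=
  ∫ n : ℤ, Complex.exp (u * n * Complex.I) ∂Y

/-- The mesh `1 / (N + 1)`. -/
noncomputable def dl (N : ℕ) : ℝ := 1 / ((N : ℝ) + 1)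

/-- Lattice approximation (rounding up) of a law on the line. -/
noncomputable def disc (δ : ℝ) (G : Measure ℝ) : Measure ℤ := G.map (fun x => ⌈x / δ⌉)

/-- Rounding down to the lattice `δ ℕ`. -/
noncomputable def lf (δ x : ℝ) : ℝ := δ * (⌊x / δ⌋₊ : ℝ)

/-- Lattice approximation of the part of `ν` on `[δ, ∞)`: the mass at `j` is
`e^{lam δ} ∫_{[jδ, (j+1)δ)} x/(jδ) ν(dx)`. -/
noncomputable def latm (lam δ : ℝ) (ν : Measure ℝ) : Measure ℕ :=
  ((ν.restrict (Ici δ)).withDensity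
    (fun x => ENNReal.ofReal (Real.exp (lam * δ) * (x / lf δ x)))).map (fun x => ⌊x / δ⌋₊)

/-- The drift correction of the lattice approximation. -/
noncomputable def bdr (lam δ : ℝ) (ν : Measure ℝ) : ℝ :=
  -∫ j : ℕ, (if δ * (j : ℝ) < 1 then δ * (j : ℝ) else 0) ∂(latm lam δ ν)

/-- `k(x) = e^{-lam x} m(x)` on `(0, ∞)` with `m ≥ 1` nonincreasing. -/
structure GoodK (k : ℝ → ℝ) (lam : ℝ) : Prop where
  anti : AntitoneOn (fun x => Real.exp (lam * x) * k x) (Ioi 0)
  ge : ∀ x, 0 < x → 1 ≤ Real.exp (lam * x) * k x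

/-! ### Exponential moments -/

/-- The exponential moment of `ν` on `(1, ∞)`. -/
noncomputable def J (ν : Measure ℝ) (s : ℝ) : ℝ≥0∞ :=
  ∫⁻ x in Ioi 1, ENNReal.ofReal (Real.exp (s * x)) ∂ν

/-- The annulus `1/(n+1) < |x|`. -/
def An (n : ℕ) : Set ℝ := {x : ℝ | dl n < |x|}

/-- Compensated drift. -/
noncomputable def gn (g : ℝ) (ν : Measure ℝ) (n : ℕ) : ℝ :=
  g - ∫ x in An n ∩ {x : ℝ | |x| < 1}, x ∂ν

/-- The law of the part of the process with jumps in `An n`, `≤ 1`. -/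
noncomputable def Yapp (g s2 : ℝ) (ν : Measure ℝ) (n : ℕ) : Measure ℝ :=
  Measure.dirac (gn g ν n) ∗ (gaussianReal 0 (Real.toNNReal s2) ∗
    CP (ν.restrict (An n ∩ Iic 1)))

/-- Density of `μ ∗ N(0,1)`. -/
noncomputable def gd (μ : Measure ℝ) (x : ℝ) : ℝ := ∫ y, gaussianPDFReal 0 1 (x - y) ∂μ

/-- The real Lévy-Khinchin integrand. -/
noncomputable def ek (s x : ℝ) : ℝ := Real.exp (s * x) - 1 - (if |x| < 1 then s * x else 0)

/-- Test laws: mixtures of two uniform laws (up to normalisation). -/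
noncomputable def tl (c1 a1 b1 c2 a2 b2 : ℝ) : Measure ℝ :=
  ENNReal.ofReal c1 • volume.restrict (Ioc a1 b1) +
    ENNReal.ofReal c2 • volume.restrict (Ioc a2 b2)

/-- Positive continuous integrable functions that are log-concave (four point form). -/
structure PosLC (f : ℝ → ℝ) : Prop where
  cont : Continuous f
  pos : ∀ x, 0 < f x
  lc : ∀ x y t : ℝ, x < y → 0 < t → f x * f (y + t) ≤ f (x + t) * f y
  int : Integrable f

/-- The necessary condition on one side: exponential moments and, if they are not all finite, a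
logarithmic lower bound at the critical exponent. -/
def NecSide (ν : Measure ℝ) : Prop :=
  (∃ s : ℝ, 0 < s ∧ J ν s < ∞) ∧
  ∀ lam : ℝ, 0 < lam → (∀ s, s < lam → J ν s < ∞) → (∀ s, lam < s → J ν s = ∞) →
    ∃ C : ℝ, ∀ s, 0 ≤ s → s < lam → Real.log (1 / (lam - s)) - C ≤ (J ν s).toReal

/-- Positive log-convex functions on `(0, ∞)`. -/
structure LogConvexK (k : ℝ → ℝ) : Prop where
  pos : ∀ x, 0 < x → 0 < k x
  conv : ConvexOn ℝ (Ioi 0) (fun x => Real.log (k x))

/-- The Laplace transform of a measure. -/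
noncomputable def lap (U : Measure ℝ) (x : ℝ) : ℝ := ∫ u, Real.exp (-(x * u)) ∂U

/-- The condition on one side: `k = 0` on `(0, ∞)`, or `e^{lam x} k(x)` tends to a number `L ≥ 1`
for some `lam > 0`. -/
def Cond (k : ℝ → ℝ) : Prop :=
  (∀ x, 0 < x → k x = 0) ∨
    ∃ lam L : ℝ, 0 < lam ∧ 1 ≤ L ∧ Tendsto (fun x => Real.exp (lam * x) * k x) atTop (𝓝 L)

end Pool.Agent.Lib.MP_a80c92_pr
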