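import Pool.Agent.Lib.MP_a80c92_pr.Defs

/-! # Definitions for part 2 (Theorem F and Theorem N) -/

open MeasureTheory Set Filter Topology ProbabilityTheory
open scoped ENNReal NNReal

namespace Pool.Agent.Lib.MP_a80c92_pr

/-! ### Theorem F -/

/-- The exponential law with parameter `lam`. -/
noncomputable def exL (lam : ℝ) : Measure ℝ :=
  (volume.restrict (Ioi 0)).withDensity (fun x => ENNReal.ofReal (lam * Real.exp (-(lam * x))))

/-- Positive log-concave laws on `ℤ`. -/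
def LCZ (Q : Measure ℤ) : Prop :=
  (∀ n : ℤ, 0 < Q.real {n}) ∧ ∀ n : ℤ, Q.real {n + 1} * Q.real {n - 1} ≤ Q.real {n} ^ 2

/-- `e^{(x y - y²/2)/v}`. -/
noncomputable def gx (v x y : ℝ) : ℝ := Real.exp ((x * y - y ^ 2 / 2) / v)

/-- `E e^{(x Y - Y²/2)/v}`. -/
noncomputable def g0 (v : ℝ) (P : Measure ℝ) (x : ℝ) : ℝ := ∫ y, gx v x y ∂P

/-- `E Y e^{(x Y - Y²/2)/v}`. -/
noncomputable def g1 (v : ℝ) (P : Measure ℝ) (x : ℝ) : ℝ := ∫ y, y * gx v x y ∂P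

/-- `E Y² e^{(x Y - Y²/2)/v}`. -/
noncomputable def g2 (v : ℝ) (P : Measure ℝ) (x : ℝ) : ℝ := ∫ y, y ^ 2 * gx v x y ∂P

/-- The density of `P ∗ N(0, v)`. -/
noncomputable def hd (v : ℝ) (P : Measure ℝ) (x : ℝ) : ℝ :=
  Real.exp (-(x ^ 2) / (2 * v)) / Real.sqrt (2 * Real.pi * v) * g0 v P x

/-- The logarithmic derivative of `hd v P`. -/
noncomputable def ell (v : ℝ) (P : Measure ℝ) (x : ℝ) : ℝ := -(x - g1 v P x / g0 v P x) / v

/-- `h > 0` with continuous logarithmic derivative `l`, nonincreasing on `[-s, s]`, `≤ -lam` to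
the right of `s` and `≥ lam` to the left of `-s`. -/
structure Steep (h l : ℝ → ℝ) (s lam : ℝ) : Prop where
  pos : ∀ x, 0 < h x
  der : ∀ x, HasDerivAt h (l x * h x) x
  cont : Continuous l
  anti : AntitoneOn l (Icc (-s) s)
  right : ∀ x, s ≤ x → l x ≤ -lam
  left : ∀ x, x ≤ -s → lam ≤ l x

/-- Centred compound Poisson law. -/
noncomputable def ccp (r : Measure ℝ) : Measure ℝ := (CP r).map (fun z => z - ∫ y, y ∂r)

/-- Finite jump measure with jumps at most `b` and second moment at most `V`. -/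
structure BJ (r : Measure ℝ) (b V : ℝ) : Prop where
  fin : IsFiniteMeasure r
  supp : ∀ᵐ y ∂r, |y| ≤ b
  var : ∫ y, y ^ 2 ∂r ≤ V

/-- Bound of `E e^{θ|Y|}`. -/
noncomputable def Kc (b V θ : ℝ) : ℝ := 2 * Real.exp (V * θ ^ 2 * Real.exp (|θ| * b))

noncomputable def Ac (b V : ℝ) : ℝ := Real.log (2 * Kc b V 1)

noncomputable def c2c (b lam : ℝ) : ℝ := (lam + 2) * Real.exp ((lam + 1) * b)

noncomputable def u0c (b V lam : ℝ) : ℝ := 2 * V * (1 + c2c b lam * b + c2c b lam) + 1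

noncomputable def v0c (b V lam : ℝ) : ℝ :=
  max (max (1 + b) (1 + u0c b V lam))
    (4 * Kc b V (lam + 2) * Real.exp ((lam + 1) * Ac b V + Ac b V ^ 2 / 2))

/-- `w_u(y) = 1 - u / max(y, u)`. -/
noncomputable def wu (u y : ℝ) : ℝ := 1 - u / max y u

/-- `∫_{-∞}^x e^{lam y} h(y) dy`. -/
noncomputable def HH (lam : ℝ) (h : ℝ → ℝ) (x : ℝ) : ℝ := ∫ y in Iic x, Real.exp (lam * y) * h y

/-- The density of `Exp(lam) ∗ h`. -/
noncomputable def cvR (lam : ℝ) (h : ℝ → ℝ) (x : ℝ) : ℝ :=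
  lam * Real.exp (-(lam * x)) * HH lam h x

/-- `∫_x^∞ e^{-lam y} h(y) dy`. -/
noncomputable def KK (lam : ℝ) (h : ℝ → ℝ) (x : ℝ) : ℝ :=
  ∫ y in Ioi x, Real.exp (-(lam * y)) * h y

/-- The density of `(-Exp(lam)) ∗ h`. -/
noncomputable def cvL (lam : ℝ) (h : ℝ → ℝ) (x : ℝ) : ℝ :=
  lam * Real.exp (lam * x) * KK lam h x

/-! ### Theorem N -/

/-- `θ` is an interior point of the exponential moment domain of `ν`. -/
def InDom (ν : Measure ℝ) (θ : ℝ) : Prop :=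
  ∃ ε : ℝ, 0 < ε ∧
    ∫⁻ x in {x : ℝ | 1 < |x|}, ENNReal.ofReal (Real.exp (θ * x + ε * |x|)) ∂ν < ∞

/-- `s2 t²/2 + ∫ (1 - cos tx) e^{θx} ν(dx)`. -/
noncomputable def Psi (s2 : ℝ) (ν : Measure ℝ) (θ t : ℝ) : ℝ :=
  s2 * t ^ 2 / 2 + ∫ x, (1 - Real.cos (t * x)) * Real.exp (θ * x) ∂ν

/-- `s2 + ∫ x² e^{θx} ν(dx)`. -/
noncomputable def Vt (s2 : ℝ) (ν : Measure ℝ) (θ : ℝ) : ℝ :=
  s2 + ∫ x, x ^ 2 * Real.exp (θ * x) ∂ν

/-- The complex Lévy-Khinchin integrand. -/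
noncomputable def ckx (z : ℂ) (x : ℝ) : ℂ :=
  Complex.exp (z * x) - 1 - (if |x| < 1 then z * x else 0)

/-- The complex exponent `g z + s2 z²/2 + ∫ (e^{zx} - 1 - zx 1_{|x|<1}) ν(dx)`. -/
noncomputable def psiC (g s2 : ℝ) (ν : Measure ℝ) (z : ℂ) : ℂ :=
  g * z + s2 * z ^ 2 / 2 + ∫ x, ckx z x ∂ν

/-- The normalised exponential tilt of a density. -/
noncomputable def tiltf (θ : ℝ) (f : ℝ → ℝ) (x : ℝ) : ℝ :=
  Real.exp (θ * x) * f x / ∫ y, Real.exp (θ * y) * f y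

end Pool.Agent.Lib.MP_a80c92_pr
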