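import Pool.Agent.Lib.MP_a80c92_pr.LkA

/-! # JOB Ek: the real Lévy-Khinchin integrand

PROOF. Bounds of `ek s x` for `0 ≤ s ≤ Λ`: `|x| < 1`: `|e^{sx}-1-sx| ≤ s^2 x^2 e^{s}`
(for all real `y`, `|e^y - 1 - y| ≤ y^2 e^{|y|}`); `x ≥ 1`: `0 ≤ ek ≤ e^{sx}`;
`x ≤ -1`: `-1 ≤ ek ≤ 0`. So `ek s` is integrable if `J ν s < ∞` (`ν {1} < ∞` since
`min 1 1 = 1`; `Ici 1 = {1} ∪ Ioi 1`),
and `∫ ek s dν ≤ Λ^2 e^Λ ∫ min 1 x^2 dν + e^Λ ν{1} + J(s)`: `ek_bound`. -/

open MeasureTheory Set Filter Topology ProbabilityTheory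
open scoped ENNReal NNReal

namespace Pool.Agent.Lib.MP_a80c92_pr

private theorem Ek_taylor (y : ℝ) : |Real.exp y - 1 - y| ≤ y ^ 2 * Real.exp |y| := by
  have h0 : 0 ≤ Real.exp y - 1 - y := by
    have := Real.add_one_le_exp y
    linarith
  rw [abs_of_nonneg h0]
  have h1 : Real.exp y - 1 ≤ y * Real.exp y := by
    have h2 := Real.add_one_le_exp (-y)
    have h3 := mul_le_mul_of_nonneg_right h2 (Real.exp_pos y).le
    rw [← Real.exp_add, neg_add_cancel, Real.exp_zero] at h3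
    linarith
  rcases le_total 0 y with hy | hy
  · rw [abs_of_nonneg hy]
    have h2 : y * (Real.exp y - 1) ≤ y * (y * Real.exp y) := mul_le_mul_of_nonneg_left h1 hy
    nlinarith
  · have h2 : y ≤ Real.exp y - 1 := by linarith
    have h3 : y * (Real.exp y - 1) ≤ y * y := mul_le_mul_of_nonpos_left h2 hy
    have h4 : 1 ≤ Real.exp |y| := Real.one_le_exp (abs_nonneg y)
    have h5 : 0 ≤ y ^ 2 := sq_nonneg y
    nlinarith

private theorem Ek_bd (s Λ x : ℝ) (hs : 0 ≤ s) (hsΛ : s ≤ Λ) :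
    |ek s x| ≤ (Λ ^ 2 * Real.exp Λ + 1 + Real.exp Λ) * min 1 (x ^ 2) +
      (Ioi (1 : ℝ)).indicator (fun x => Real.exp (s * x)) x := by
  have hΛ : 0 ≤ Λ := hs.trans hsΛ
  have hC0 : 0 ≤ Λ ^ 2 * Real.exp Λ := mul_nonneg (sq_nonneg _) (Real.exp_pos _).le
  have hC1 : 0 ≤ Real.exp Λ := (Real.exp_pos _).le
  have hind : 0 ≤ (Ioi (1 : ℝ)).indicator (fun x => Real.exp (s * x)) x :=
    indicator_nonneg (fun x _ => (Real.exp_pos _).le) x
  unfold ek
  by_cases h1 : |x| < 1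
  · rw [if_pos h1]
    have hx2 : x ^ 2 ≤ 1 := by
      rw [← sq_abs]
      exact pow_le_one₀ (abs_nonneg x) h1.le
    rw [min_eq_right hx2]
    have h2 := Ek_taylor (s * x)
    have h3 : |s * x| ≤ Λ := by
      rw [abs_mul, abs_of_nonneg hs]
      calc s * |x| ≤ s * 1 := mul_le_mul_of_nonneg_left h1.le hs
        _ ≤ Λ := by rw [mul_one]; exact hsΛ
    have h4 : Real.exp |s * x| ≤ Real.exp Λ := Real.exp_le_exp.2 h3
    have h5 : (s * x) ^ 2 ≤ Λ ^ 2 * x ^ 2 := by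
      rw [mul_pow]
      exact mul_le_mul_of_nonneg_right (pow_le_pow_left₀ hs hsΛ 2) (sq_nonneg x)
    have h6 : (s * x) ^ 2 * Real.exp |s * x| ≤ (Λ ^ 2 * x ^ 2) * Real.exp Λ :=
      mul_le_mul h5 h4 (Real.exp_pos _).le (mul_nonneg (sq_nonneg _) (sq_nonneg _))
    have h7 : 0 ≤ x ^ 2 := sq_nonneg x
    have h8 : 0 ≤ (1 + Real.exp Λ) * x ^ 2 := mul_nonneg (by linarith) h7
    have h9 : (Λ ^ 2 * Real.exp Λ + 1 + Real.exp Λ) * x ^ 2 =
      (Λ ^ 2 * x ^ 2) * Real.exp Λ + (1 + Real.exp Λ) * x ^ 2 := by ring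
    rw [h9]
    linarith
  · rw [if_neg h1, sub_zero]
    have h1' : 1 ≤ |x| := not_lt.1 h1
    have hx2 : 1 ≤ x ^ 2 := by
      rw [← sq_abs]
      exact one_le_pow₀ h1'
    rw [min_eq_left hx2, mul_one]
    rcases le_total 0 x with hx | hx
    · rw [abs_of_nonneg hx] at h1'
      have h2 : 0 ≤ Real.exp (s * x) - 1 := by
        have := Real.one_le_exp (mul_nonneg hs hx)
        linarith
      rw [abs_of_nonneg h2]
      rcases h1'.lt_or_eq with h3 | h3
      · have h4 : (Ioi (1 : ℝ)).indicator (fun x => Real.exp (s * x)) x = Real.exp (s * x) :=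
          indicator_of_mem h3 _
        rw [h4]
        linarith
      · have h4 : Real.exp (s * x) ≤ Real.exp Λ := by
          rw [← h3, mul_one]
          exact Real.exp_le_exp.2 hsΛ
        linarith
    · have h2 : Real.exp (s * x) ≤ 1 := by
        rw [Real.exp_le_one_iff]
        exact mul_nonpos_of_nonneg_of_nonpos hs hx
      have h3 : 0 < Real.exp (s * x) := Real.exp_pos _
      rw [abs_of_nonpos (by linarith)]
      linarith

private theorem Ek_intOn (ν : Measure ℝ) (s : ℝ) (hJ : J ν s < ∞) :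
    IntegrableOn (fun x => Real.exp (s * x)) (Ioi (1 : ℝ)) ν := by
  refine ⟨(Real.measurable_exp.comp (measurable_const.mul measurable_id)).aestronglyMeasurable, ?_⟩
  rw [hasFiniteIntegral_iff_ofReal (ae_of_all _ fun x => (Real.exp_pos _).le)]
  exact hJ

private theorem Ek_int (ν : Measure ℝ) (h : IsLevy ν) (s Λ : ℝ) (hJ : J ν s < ∞) :
    Integrable (fun x => (Λ ^ 2 * Real.exp Λ + 1 + Real.exp Λ) * min 1 (x ^ 2) +
      (Ioi (1 : ℝ)).indicator (fun x => Real.exp (s * x)) x) ν :=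
  ((integrable_min ν h).const_mul _).add ((integrable_indicator_iff measurableSet_Ioi).2 (Ek_intOn ν s hJ))

theorem integrable_ek (ν : Measure ℝ) (h : IsLevy ν) (s : ℝ) (hs : 0 ≤ s)
    (hJ : J ν s < ∞) : Integrable (ek s) ν := by
  have hme : Measurable (ek s) := by
    unfold ek
    refine ((Real.measurable_exp.comp (measurable_const.mul measurable_id)).sub measurable_const).sub ?_
    exact Measurable.ite (measurableSet_lt continuous_abs.measurable measurable_const) (measurable_const.mul measurable_id)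
      measurable_const
  exact (Ek_int ν h s s hJ).mono' hme.aestronglyMeasurable (ae_of_all _ fun x => Ek_bd s s x hs le_rfl)

theorem ek_bound (ν : Measure ℝ) (h : IsLevy ν) (Λ : ℝ) (hΛ : 0 ≤ Λ) :
    ∃ C : ℝ, ∀ s, 0 ≤ s → s ≤ Λ → J ν s < ∞ → ∫ x, ek s x ∂ν ≤ C + (J ν s).toReal := by
  refine ⟨(Λ ^ 2 * Real.exp Λ + 1 + Real.exp Λ) * ∫ x, min 1 (x ^ 2) ∂ν, fun s hs hsΛ hJ => ?_⟩
  have h1 : ∫ x, ek s x ∂ν ≤ ∫ x, ((Λ ^ 2 * Real.exp Λ + 1 + Real.exp Λ) * min 1 (x ^ 2) +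
      (Ioi (1 : ℝ)).indicator (fun x => Real.exp (s * x)) x) ∂ν := by
    refine integral_mono_ae (integrable_ek ν h s hs hJ) (Ek_int ν h s Λ hJ) (ae_of_all _ fun x => ?_)
    exact (le_abs_self _).trans (Ek_bd s Λ x hs hsΛ)
  refine h1.trans ?_
  have h2 : Integrable ((Ioi (1 : ℝ)).indicator (fun x => Real.exp (s * x))) ν :=
    (integrable_indicator_iff measurableSet_Ioi).2 (Ek_intOn ν s hJ)
  have h3 : Measurable fun x : ℝ => Real.exp (s * x) := Real.measurable_exp.comp (measurable_const.mul measurable_id)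
  have h4 : ∫ x in Ioi (1 : ℝ), Real.exp (s * x) ∂ν = (J ν s).toReal :=
    integral_eq_lintegral_of_nonneg_ae (ae_of_all _ fun x => (Real.exp_pos _).le) h3.aestronglyMeasurable
  rw [integral_add ((integrable_min ν h).const_mul _) h2, integral_const_mul, integral_indicator measurableSet_Ioi, h4]

end Pool.Agent.Lib.MP_a80c92_pr
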