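import Pool.Agent.Lib.MP_a80c92_pr.Defs

/-! # JOB LimA: Lévy continuity theorem in the form used here

PROOF. `ProbabilityMeasure.tendsto_iff_tendsto_charFun` (Mathlib, LevyConvergence.lean) gives weak
convergence. `ProbabilityMeasure.tendsto_iff_forall_integral_tendsto` for bounded continuous
functions; `ProbabilityMeasure.tendsto_measure_of_null_frontier_of_tendsto'` for `Iic x`
(frontier `{x}`); `frontier_Iic`. Continuous nonnegative `f` (Fatou): for every `K` the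
function `min (f x) K` is bounded and continuous, its integral converges and is at most
`B n`, so `∫ min(f,K) dμ ≤ lim B n`; monotone convergence in `K` (`lintegral_iSup` or
`lintegral_tendsto_of_tendsto_of_monotone`). -/

open MeasureTheory Set Filter Topology ProbabilityTheory
open scoped ENNReal NNReal

namespace Pool.Agent.Lib.MP_a80c92_pr

variable (μs : ℕ → Measure ℝ) (μ : Measure ℝ) [∀ n, IsProbabilityMeasure (μs n)]
  [IsProbabilityMeasure μ]

private theorem limA_weak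
    (h : ∀ t : ℝ, Tendsto (fun n => charFun (μs n) t) atTop (𝓝 (charFun μ t))) :
    ∃ (ρs : ℕ → ProbabilityMeasure ℝ) (ρ : ProbabilityMeasure ℝ), (∀ n, (ρs n : Measure ℝ) = μs n) ∧
      (ρ : Measure ℝ) = μ ∧ Tendsto ρs atTop (𝓝 ρ) := by
  obtain ⟨ρs, h1⟩ : ∃ ρs : ℕ → ProbabilityMeasure ℝ, ∀ n, (ρs n : Measure ℝ) = μs n :=
    ⟨fun n => ⟨μs n, inferInstance⟩, fun n => rfl⟩
  obtain ⟨ρ, h2⟩ : ∃ ρ : ProbabilityMeasure ℝ, (ρ : Measure ℝ) = μ := ⟨⟨μ, inferInstance⟩, rfl⟩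
  refine ⟨ρs, ρ, h1, h2, ProbabilityMeasure.tendsto_iff_tendsto_charFun.2 ?_⟩
  simp only [h1, h2]
  exact h

theorem tendsto_integral_of_charFun
    (h : ∀ t : ℝ, Tendsto (fun n => charFun (μs n) t) atTop (𝓝 (charFun μ t)))
    (f : ℝ → ℝ) (hf : Continuous f) (C : ℝ) (hC : ∀ x, |f x| ≤ C) :
    Tendsto (fun n => ∫ x, f x ∂(μs n)) atTop (𝓝 (∫ x, f x ∂μ)) := by
  obtain ⟨ρs, ρ, h1, h2, h3⟩ := limA_weak μs μ h
  have h4 := ProbabilityMeasure.tendsto_iff_forall_integral_tendsto.1 h3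
    (BoundedContinuousFunction.ofNormedAddCommGroup f hf C hC)
  simp only [h1, h2] at h4
  exact h4

theorem tendsto_dfn_of_charFun
    (h : ∀ t : ℝ, Tendsto (fun n => charFun (μs n) t) atTop (𝓝 (charFun μ t)))
    (x : ℝ) (hx : μ {x} = 0) :
    Tendsto (fun n => dfn (μs n) x) atTop (𝓝 (dfn μ x)) := by
  obtain ⟨ρs, ρ, h1, h2, h3⟩ := limA_weak μs μ h
  have h4 := ProbabilityMeasure.tendsto_measure_of_null_frontier_of_tendsto' h3 (E := Iic x) (by
    rw [frontier_Iic, h2]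
    exact hx)
  simp only [h1, h2] at h4
  exact (ENNReal.tendsto_toReal (measure_ne_top μ (Iic x))).comp h4

theorem lintegral_le_of_charFun
    (h : ∀ t : ℝ, Tendsto (fun n => charFun (μs n) t) atTop (𝓝 (charFun μ t)))
    (f : ℝ → ℝ) (hf : Continuous f) (h0 : ∀ x, 0 ≤ f x) (B : ℕ → ℝ) (b : ℝ)
    (hB : ∀ n, ∫⁻ x, ENNReal.ofReal (f x) ∂(μs n) ≤ ENNReal.ofReal (B n))
    (hb : Tendsto B atTop (𝓝 b)) :
    ∫⁻ x, ENNReal.ofReal (f x) ∂μ ≤ ENNReal.ofReal b := by
  have hgc : ∀ K : ℕ, Continuous fun x => min (f x) (K : ℝ) := fun K => hf.min continuous_const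
  have hg0 : ∀ (K : ℕ) (x : ℝ), 0 ≤ min (f x) (K : ℝ) := fun K x => le_min (h0 x) (Nat.cast_nonneg K)
  have hgb : ∀ (K : ℕ) (x : ℝ), |min (f x) (K : ℝ)| ≤ K := fun K x => by
    rw [abs_of_nonneg (hg0 K x)]
    exact min_le_right _ _
  have hint : ∀ (K : ℕ) (ρ : Measure ℝ) [IsProbabilityMeasure ρ], Integrable (fun x => min (f x) (K : ℝ)) ρ :=
    fun K ρ _ => Integrable.of_bound (hgc K).aestronglyMeasurable (K : ℝ) (ae_of_all _ fun x => hgb K x)
  have key : ∀ K : ℕ, ∫⁻ x, ENNReal.ofReal (min (f x) (K : ℝ)) ∂μ ≤ ENNReal.ofReal b := by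
    intro K
    rw [← ofReal_integral_eq_lintegral_ofReal (hint K μ) (ae_of_all _ fun x => hg0 K x)]
    have h1 := tendsto_integral_of_charFun μs μ h (fun x => min (f x) (K : ℝ)) (hgc K) K (hgb K)
    refine le_of_tendsto_of_tendsto' (ENNReal.tendsto_ofReal h1) (ENNReal.tendsto_ofReal hb) fun n => ?_
    rw [ofReal_integral_eq_lintegral_ofReal (hint K (μs n)) (ae_of_all _ fun x => hg0 K x)]
    refine le_trans (lintegral_mono fun x => ?_) (hB n)
    exact ENNReal.ofReal_le_ofReal (min_le_left _ _)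
  have hlim : Tendsto (fun K : ℕ => ∫⁻ x, ENNReal.ofReal (min (f x) (K : ℝ)) ∂μ) atTop
      (𝓝 (∫⁻ x, ENNReal.ofReal (f x) ∂μ)) := by
    refine lintegral_tendsto_of_tendsto_of_monotone
      (fun K => ((hgc K).measurable.ennreal_ofReal).aemeasurable) (ae_of_all _ fun x => ?_) (ae_of_all _ fun x => ?_)
    · intro K L hKL
      exact ENNReal.ofReal_le_ofReal (min_le_min_left _ (Nat.cast_le.2 hKL))
    · obtain ⟨K₀, hK₀⟩ := exists_nat_ge (f x)
      refine tendsto_const_nhds.congr' ?_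
      filter_upwards [eventually_ge_atTop K₀] with K hK
      have h1 : f x ≤ (K : ℝ) := hK₀.trans (Nat.cast_le.2 hK)
      rw [min_eq_left h1]
  exact le_of_tendsto' hlim key

end Pool.Agent.Lib.MP_a80c92_pr
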