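import Pool.Agent.Lib.MP_a80c92_pr.App
import Pool.Agent.Lib.MP_a80c92_pr.LimA

/-! # JOB ExpLow: finite exponential moments of the law give `J < ∞`

PROOF. `Y_n = Yapp g s2 ν n`, `Z = CP (ν.restrict (Ioi 1))`, `X_n = Y_n ∗ Z → μ`
(`tendsto_app`).
Step 1: there is `a > 0` with `Y_n (Ioi (-a)) ≥ 1/2` eventually. Choose `a > 0` with
`μ {-a/2} = 0` (all but countably many), `dfn μ (-a/2) < 1/4` and `Z (Ioi (a/2)) ≤ 1/4`. If
`y ≤ -a` and `z ≤ a/2` then `y + z ≤ -a/2`; so `Y_n (Iic (-a)) ≤ X_n (Iic (-a/2)) + Z (Ioi (a/2))`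
(`X_n` is the image of the product; or `Y(Iic (-a)) Z(Iic (a/2)) ≤ X_n(Iic(-a/2))` and
`Z(Iic (a/2)) ≥ 3/4`, so `Y_n(Iic(-a)) ≤ (4/3)(1/4) < 1/2`), and `dfn X_n (-a/2) → dfn μ (-a/2)`
(`tendsto_dfn_of_charFun`).
Step 2: for `K > 0` let `ψ x = min (e^{sx}) K`: bounded, continuous, nondecreasing. For such `n`:
`∫ ψ dX_n = ∫∫ ψ(y+z) dY_n dZ ≥ Y_n(Ioi (-a)) ∫ ψ(z - a) dZ ≥ (1/2) ∫ ψ(z-a) dZ(z)`. Limit `n → ∞`
(`tendsto_integral_of_charFun`): `∫ ψ dμ ≥ (1/2) ∫ ψ(z-a) dZ`; as `ψ ≤ e^{sx}`: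
`∫⁻ e^{sx} dμ ≥ (1/2) ∫⁻ ofReal (min (e^{s(z-a)}) K) dZ` for every `K`; monotone convergence `K → ∞`:
`∫⁻ e^{sx} dμ ≥ (1/2) e^{-sa} ∫⁻ e^{sz} dZ`.
Step 3: `smul_le_CP`: `Z ≥ e^{-|ν_1|} ν.restrict (Ioi 1)`, so the last integral is at least
`e^{-|ν_1|} J ν s`. Hence `J ν s < ∞`. -/

open MeasureTheory Set Filter Topology ProbabilityTheory
open scoped ENNReal NNReal

namespace Pool.Agent.Lib.MP_a80c92_pr

theorem explow_atom (μ : Measure ℝ) [IsProbabilityMeasure μ] (R : ℝ) :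
    ∃ r : ℝ, R < r ∧ μ {-r} = 0 := by
  have hc : {y : ℝ | 0 < μ {y}}.Countable := by
    have key := Measure.countable_meas_pos_of_disjoint_iUnion (μ := μ)
      (As := fun y : ℝ => {y}) (fun y => measurableSet_singleton y)
      (fun a b hab => Set.disjoint_singleton.2 hab)
    exact key
  have hd : Dense {y : ℝ | 0 < μ {y}}ᶜ := hc.dense_compl ℝ
  obtain ⟨y, hy, hy2⟩ := hd.exists_mem_open (isOpen_Iio (a := -R)) ⟨-R - 1, by simp⟩
  refine ⟨-y, by have : y < -R := hy2; linarith, ?_⟩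
  have h3 : ¬ (0 < μ {y}) := hy
  rw [neg_neg]
  exact nonpos_iff_eq_zero.1 (not_lt.1 h3)

theorem explow_cdf (μ : Measure ℝ) [IsProbabilityMeasure μ] : (cdf μ : ℝ → ℝ) = dfn μ := by
  funext x; rw [cdf_eq_real]; rfl

theorem explow_conv_mass (Y Z : Measure ℝ) [IsProbabilityMeasure Y] [IsProbabilityMeasure Z]
    (u v : ℝ) : Y.real (Iic u) * Z.real (Iic v) ≤ (Y ∗ Z).real (Iic (u + v)) := by
  have h : Y (Iic u) * Z (Iic v) ≤ (Y ∗ Z) (Iic (u + v)) := by
    unfold Measure.conv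
    rw [Measure.map_apply (by fun_prop) measurableSet_Iic, ← Measure.prod_prod]
    refine measure_mono ?_
    rintro ⟨x, y⟩ ⟨hx, hy⟩
    have hx' : x ≤ u := hx
    have hy' : y ≤ v := hy
    have : x + y ≤ u + v := add_le_add hx' hy'
    exact this
  unfold Measure.real
  rw [← ENNReal.toReal_mul]
  exact ENNReal.toReal_mono (measure_ne_top _ _) h

theorem Yapp_mass (μ : Measure ℝ) [IsProbabilityMeasure μ] (g s2 : ℝ) (ν : Measure ℝ)
    (h : HasTriple μ g s2 ν) :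
    ∃ a : ℝ, 0 < a ∧ ∀ᶠ n in atTop, (1 / 2 : ℝ) ≤ (Yapp g s2 ν n).real (Ioi (-a)) := by
  have i2 := isFinite_r2 ν h.levy
  have iY := isProb_Yapp g s2 ν h.levy
  set Z := CP (ν.restrict (Ioi 1)) with hZ
  have t1 : Tendsto (dfn μ) atBot (𝓝 0) := by
    rw [← explow_cdf]; exact tendsto_cdf_atBot μ
  have t2 : Tendsto (dfn Z) atTop (𝓝 1) := by
    rw [← explow_cdf]; exact tendsto_cdf_atTop Z
  obtain ⟨R1, hR1⟩ := (t1.eventually (gt_mem_nhds (show (0 : ℝ) < 1 / 4 by norm_num))).exists_forall_of_atBot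
  obtain ⟨R2, hR2⟩ := (t2.eventually (lt_mem_nhds (show (3 / 4 : ℝ) < 1 by norm_num))).exists_forall_of_atTop
  obtain ⟨r, hr, hr0⟩ := explow_atom μ (max (max (-R1) R2) 1)
  have r1 : -r ≤ R1 := by
    have := (le_max_left (-R1) R2).trans ((le_max_left (max (-R1) R2) 1).trans hr.le); linarith
  have r2 : R2 ≤ r := (le_max_right (-R1) R2).trans ((le_max_left _ 1).trans hr.le)
  have r3 : 0 < r := lt_of_lt_of_le one_pos ((le_max_right _ 1).trans hr.le)
  have g1 := hR1 (-r) r1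
  have g2 := hR2 r r2
  refine ⟨2 * r, by linarith, ?_⟩
  have t3 := tendsto_dfn_of_charFun (fun n => Yapp g s2 ν n ∗ Z) μ
    (fun t => tendsto_app μ g s2 ν h t) (-r) hr0
  filter_upwards [t3.eventually (gt_mem_nhds g1)] with n hn
  have k1 := explow_conv_mass (Yapp g s2 ν n) Z (-(2 * r)) r
  have e1 : -(2 * r) + r = -r := by ring
  rw [e1] at k1
  have hn' : (Yapp g s2 ν n ∗ Z).real (Iic (-r)) < 1 / 4 := hn
  have g2' : 3 / 4 < Z.real (Iic r) := g2
  have hy0 : 0 ≤ (Yapp g s2 ν n).real (Iic (-(2 * r))) := measureReal_nonneg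
  have k2 : (Yapp g s2 ν n).real (Iic (-(2 * r))) ≤ 1 / 2 := by nlinarith
  have k3 : (Yapp g s2 ν n).real (Ioi (-(2 * r))) =
      1 - (Yapp g s2 ν n).real (Iic (-(2 * r))) := by
    rw [← Set.compl_Iic, probReal_compl_eq_one_sub measurableSet_Iic]
  rw [k3]; linarith

theorem J_lt_top (μ : Measure ℝ) [IsProbabilityMeasure μ] (g s2 : ℝ) (ν : Measure ℝ)
    (h : HasTriple μ g s2 ν) (s : ℝ) (hs : 0 < s)
    (hE : ∫⁻ x, ENNReal.ofReal (Real.exp (s * x)) ∂μ < ∞) : J ν s < ∞ := by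
  have i2 := isFinite_r2 ν h.levy
  have iY := isProb_Yapp g s2 ν h.levy
  set Z := CP (ν.restrict (Ioi 1)) with hZ
  obtain ⟨a, ha, hmass⟩ := Yapp_mass μ g s2 ν h
  -- truncated inequality
  have trunc : ∀ K : ℕ, ENNReal.ofReal (1 / 2) *
      ∫⁻ z, ENNReal.ofReal (min (Real.exp (s * (z - a))) (K : ℝ)) ∂Z ≤
      ∫⁻ x, ENNReal.ofReal (Real.exp (s * x)) ∂μ := by
    intro K
    let ψ : ℝ → ℝ := fun x => min (Real.exp (s * x)) (K : ℝ)
    have hψc : Continuous ψ := by fun_prop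
    have hψ0 : ∀ x, 0 ≤ ψ x := fun x => le_min (Real.exp_pos _).le (Nat.cast_nonneg K)
    have hψb : ∀ x, |ψ x| ≤ K := fun x => by
      rw [abs_of_nonneg (hψ0 x)]; exact min_le_right _ _
    have hψm : Monotone ψ := fun x y hxy =>
      min_le_min_right _ (Real.exp_le_exp.2 (mul_le_mul_of_nonneg_left hxy hs.le))
    have hint : ∀ (ρ : Measure ℝ) [IsProbabilityMeasure ρ], Integrable ψ ρ := fun ρ _ =>
      (integrable_const (K : ℝ)).mono' hψc.aestronglyMeasurable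
        (Filter.Eventually.of_forall fun x => by rw [Real.norm_eq_abs]; exact hψb x)
    have t := tendsto_integral_of_charFun (fun n => Yapp g s2 ν n ∗ Z) μ
      (fun t => tendsto_app μ g s2 ν h t) ψ hψc K hψb
    have t' := (ENNReal.continuous_ofReal.tendsto _).comp t
    have lim : ENNReal.ofReal (1 / 2) * ∫⁻ z, ENNReal.ofReal (ψ (z - a)) ∂Z ≤
        ENNReal.ofReal (∫ x, ψ x ∂μ) := by
      refine ge_of_tendsto t' ?_
      filter_upwards [hmass] with n hn
      simp only [Function.comp]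
      rw [ofReal_integral_eq_lintegral_ofReal (hint _) (Filter.Eventually.of_forall hψ0),
        Measure.lintegral_conv (hψc.measurable.ennreal_ofReal)]
      have hY : ENNReal.ofReal (1 / 2) ≤ (Yapp g s2 ν n) (Ioi (-a)) := by
        rw [← ENNReal.ofReal_toReal (measure_ne_top (Yapp g s2 ν n) (Ioi (-a)))]
        exact ENNReal.ofReal_le_ofReal hn
      calc ENNReal.ofReal (1 / 2) * ∫⁻ z, ENNReal.ofReal (ψ (z - a)) ∂Z
          ≤ (Yapp g s2 ν n) (Ioi (-a)) * ∫⁻ z, ENNReal.ofReal (ψ (z - a)) ∂Z := by gcongr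
        _ = ∫⁻ y in Ioi (-a), ∫⁻ z, ENNReal.ofReal (ψ (z - a)) ∂Z ∂(Yapp g s2 ν n) := by
            rw [setLIntegral_const, mul_comm]
        _ ≤ ∫⁻ y in Ioi (-a), ∫⁻ z, ENNReal.ofReal (ψ (y + z)) ∂Z ∂(Yapp g s2 ν n) := by
            refine setLIntegral_mono' measurableSet_Ioi fun y hy => ?_
            refine lintegral_mono fun z => ?_
            apply ENNReal.ofReal_le_ofReal
            have : -a < y := hy
            exact hψm (by linarith)
        _ ≤ ∫⁻ y, ∫⁻ z, ENNReal.ofReal (ψ (y + z)) ∂Z ∂(Yapp g s2 ν n) :=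
            setLIntegral_le_lintegral _ _
    refine lim.trans ?_
    rw [ofReal_integral_eq_lintegral_ofReal (hint _) (Filter.Eventually.of_forall hψ0)]
    refine lintegral_mono fun x => ENNReal.ofReal_le_ofReal (min_le_left _ _)
  -- monotone convergence
  have hmc : Tendsto (fun K : ℕ =>
      ∫⁻ z, ENNReal.ofReal (min (Real.exp (s * (z - a))) (K : ℝ)) ∂Z) atTop
      (𝓝 (∫⁻ z, ENNReal.ofReal (Real.exp (s * (z - a))) ∂Z)) := by
    refine lintegral_tendsto_of_tendsto_of_monotone ?_ ?_ ?_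
    · intro K
      have : Continuous (fun z : ℝ => min (Real.exp (s * (z - a))) (K : ℝ)) := by fun_prop
      exact this.measurable.ennreal_ofReal.aemeasurable
    · refine Filter.Eventually.of_forall fun z K K' hK => ?_
      exact ENNReal.ofReal_le_ofReal (min_le_min_left _ (by exact_mod_cast hK))
    · refine Filter.Eventually.of_forall fun z => ?_
      obtain ⟨K0, hK0⟩ := exists_nat_ge (Real.exp (s * (z - a)))
      refine tendsto_const_nhds.congr' ?_
      filter_upwards [eventually_ge_atTop K0] with K hK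
      rw [min_eq_left (hK0.trans (by exact_mod_cast hK))]
  have hmc2 : Tendsto (fun K : ℕ => ENNReal.ofReal (1 / 2) *
      ∫⁻ z, ENNReal.ofReal (min (Real.exp (s * (z - a))) (K : ℝ)) ∂Z) atTop
      (𝓝 (ENNReal.ofReal (1 / 2) * ∫⁻ z, ENNReal.ofReal (Real.exp (s * (z - a))) ∂Z)) :=
    ENNReal.Tendsto.const_mul hmc (Or.inr ENNReal.ofReal_ne_top)
  have fin : ENNReal.ofReal (1 / 2) * ∫⁻ z, ENNReal.ofReal (Real.exp (s * (z - a))) ∂Z ≤
      ∫⁻ x, ENNReal.ofReal (Real.exp (s * x)) ∂μ := le_of_tendsto' hmc2 trunc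
  -- comparison of `Z` with the Lévy measure
  have hcmp := smul_le_CP (ν.restrict (Ioi 1))
  have low : ENNReal.ofReal (Real.exp (-((ν.restrict (Ioi 1)).real univ))) *
      (ENNReal.ofReal (Real.exp (-(s * a))) * J ν s) ≤
      ∫⁻ z, ENNReal.ofReal (Real.exp (s * (z - a))) ∂Z := by
    calc ENNReal.ofReal (Real.exp (-((ν.restrict (Ioi 1)).real univ))) *
        (ENNReal.ofReal (Real.exp (-(s * a))) * J ν s)
        = ∫⁻ z, ENNReal.ofReal (Real.exp (s * (z - a)))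
            ∂(ENNReal.ofReal (Real.exp (-((ν.restrict (Ioi 1)).real univ))) •
              (ν.restrict (Ioi 1))) := by
          rw [lintegral_smul_measure, smul_eq_mul]
          congr 1
          unfold J
          rw [← lintegral_const_mul _ (by fun_prop)]
          refine lintegral_congr fun z => ?_
          rw [← ENNReal.ofReal_mul (Real.exp_pos _).le, ← Real.exp_add]
          congr 2
          ring
      _ ≤ _ := lintegral_mono' hcmp le_rfl
  by_contra hJ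
  have hJ' : J ν s = ∞ := not_lt_top_iff.1 hJ
  rw [hJ', ENNReal.mul_top (by simp [Real.exp_pos]), ENNReal.mul_top (by simp [Real.exp_pos]),
    top_le_iff] at low
  rw [low, ENNReal.mul_top (by norm_num), top_le_iff] at fin
  exact hE.ne fin

end Pool.Agent.Lib.MP_a80c92_pr
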