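import Pool.Agent.Lib.MP_a80c92_pr.App
import Pool.Agent.Lib.MP_a80c92_pr.LimA
import Pool.Agent.Lib.MP_a80c92_pr.Ek

/-! # JOB ExpUp: upper bound of exponential moments

PROOF. `X_n` the law `Yapp n ∗ CP (ν|_{Ioi 1})`. `∫⁻ e^{sx}` is multiplicative over
convolutions (`lintegral_conv`, `e^{s(x+y)} = e^{sx} e^{sy}`), `e^{s g_n}` for the Dirac measure,
`e^{s2 s^2/2}` for the Gaussian (`mgf_gaussianReal` / `mgf_id_gaussianReal`, if `s2.toNNReal = 0` it is
a Dirac measure: the Mathlib lemma covers this), `exp ∫ (e^{sx}-1)` for the two compound Poisson laws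
(`lintegral_CP_ofReal`; integrable since the measures are finite and `e^{sx} ≤ e^s` on `Iic 1`, and
`J ν s < ∞` on `Ioi 1`). The product is `ofReal (exp (g s + s2 s^2/2 + ∫_{An n} ek s dν))`
(`An n = (An n ∩ Iic 1) ∪ Ioi 1` disjoint, `Ioi 1 ⊆ An n` since `dl n ≤ 1`, definition of `gn`), which
converges (dominated convergence, `integrable_ek`; `An n` increases to `{x ≠ 0}`, `ek s 0 = 0`) to
the right side; conclude by `lintegral_le_of_charFun` with `tendsto_app`. -/

open MeasureTheory Set Filter Topology ProbabilityTheory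
open scoped ENNReal NNReal

namespace Pool.Agent.Lib.MP_a80c92_pr

theorem expup_mul (Y Z : Measure ℝ) [IsProbabilityMeasure Y] [IsProbabilityMeasure Z] (s : ℝ) :
    ∫⁻ x, ENNReal.ofReal (Real.exp (s * x)) ∂(Y ∗ Z) =
      (∫⁻ x, ENNReal.ofReal (Real.exp (s * x)) ∂Y) *
        ∫⁻ x, ENNReal.ofReal (Real.exp (s * x)) ∂Z := by
  have hm : Measurable (fun x : ℝ => ENNReal.ofReal (Real.exp (s * x))) := by fun_prop
  rw [Measure.lintegral_conv hm]
  have h1 : ∀ x : ℝ, ∫⁻ y, ENNReal.ofReal (Real.exp (s * (x + y))) ∂Z =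
      ENNReal.ofReal (Real.exp (s * x)) * ∫⁻ y, ENNReal.ofReal (Real.exp (s * y)) ∂Z := by
    intro x
    rw [← lintegral_const_mul _ hm]
    refine lintegral_congr fun y => ?_
    rw [← ENNReal.ofReal_mul (Real.exp_pos _).le, ← Real.exp_add]
    congr 2
    ring
  simp only [h1]
  rw [lintegral_mul_const _ hm]

theorem expup_gauss (v : ℝ≥0) (s : ℝ) :
    ∫⁻ x, ENNReal.ofReal (Real.exp (s * x)) ∂(gaussianReal 0 v) =
      ENNReal.ofReal (Real.exp (v * s ^ 2 / 2)) := by
  have h := congrFun (mgf_id_gaussianReal (μ := 0) (v := v)) s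
  unfold mgf at h
  simp only [id, zero_mul, zero_add] at h
  rw [← h, ofReal_integral_eq_lintegral_ofReal (integrable_exp_mul_gaussianReal s)
    (Filter.Eventually.of_forall fun x => (Real.exp_pos _).le)]

theorem expup_int (ν : Measure ℝ) (h : IsLevy ν) (n : ℕ) (s : ℝ) (hs : 0 ≤ s)
    (hJ : J ν s < ∞) :
    IntegrableOn (fun x => Real.exp (s * x)) (An n ∩ Iic 1) ν ∧
      IntegrableOn (fun x => Real.exp (s * x)) (Ioi 1) ν := by
  constructor
  · have := isFinite_r1 ν h n
    refine (integrable_const (Real.exp s)).mono' (by fun_prop) ?_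
    refine ae_restrict_of_forall_mem ((measurableSet_An n).inter measurableSet_Iic) fun x hx => ?_
    rw [Real.norm_eq_abs, abs_of_pos (Real.exp_pos _)]
    have hx' : x ≤ 1 := hx.2
    exact Real.exp_le_exp.2 (by nlinarith)
  · refine ⟨by fun_prop, ?_⟩
    rw [hasFiniteIntegral_iff_ofReal (Filter.Eventually.of_forall fun x => (Real.exp_pos _).le)]
    exact hJ

theorem expup_exponent (g : ℝ) (ν : Measure ℝ) (h : IsLevy ν) (n : ℕ) (s : ℝ) (hs : 0 ≤ s)
    (hJ : J ν s < ∞) :
    s * gn g ν n + ((∫ x in An n ∩ Iic 1, (Real.exp (s * x) - 1) ∂ν) +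
        ∫ x in Ioi (1 : ℝ), (Real.exp (s * x) - 1) ∂ν) =
      g * s + ∫ x in An n, ek s x ∂ν := by
  have hA := measurableSet_An n
  have hAf := measure_An_lt_top ν h n
  have hfin : IsFiniteMeasure (ν.restrict (An n)) := ⟨by rwa [Measure.restrict_apply_univ]⟩
  have i1 := isFinite_r1 ν h n
  have i2 := isFinite_r2 ν h
  obtain ⟨e1, e2⟩ := expup_int ν h n s hs hJ
  have hset : An n = (An n ∩ Iic 1) ∪ Ioi 1 := by
    ext x
    simp only [mem_union, mem_inter_iff, mem_Iic, mem_Ioi]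
    constructor
    · intro hx
      rcases le_or_gt x 1 with h1 | h1
      · exact Or.inl ⟨hx, h1⟩
      · exact Or.inr h1
    · rintro (hx | hx)
      · exact hx.1
      · exact Ioi_sub_An n hx
  have j1 : IntegrableOn (fun x => Real.exp (s * x) - 1) (An n ∩ Iic 1) ν :=
    e1.sub (integrable_const 1)
  have j2 : IntegrableOn (fun x => Real.exp (s * x) - 1) (Ioi 1) ν :=
    e2.sub (integrable_const 1)
  have hi : IntegrableOn (fun x => Real.exp (s * x) - 1) (An n) ν := by
    rw [hset]; exact j1.union j2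
  have h1 : (∫ x in An n ∩ Iic 1, (Real.exp (s * x) - 1) ∂ν) +
      ∫ x in Ioi (1 : ℝ), (Real.exp (s * x) - 1) ∂ν =
      ∫ x in An n, (Real.exp (s * x) - 1) ∂ν := by
    rw [← setIntegral_union _ measurableSet_Ioi j1 j2, ← hset]
    rw [Set.disjoint_left]
    rintro x ⟨_, hx⟩ hx'
    have h1 : x ≤ 1 := hx
    have h2 : 1 < x := hx'
    exact absurd h1 (not_le.2 h2)
  have hB : MeasurableSet {x : ℝ | |x| < 1} := measurableSet_lt measurable_id.abs measurable_const
  have hi2 : IntegrableOn (fun x : ℝ => if |x| < 1 then s * x else 0) (An n) ν := by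
    have hm : Measurable (fun x : ℝ => if |x| < 1 then s * x else 0) :=
      Measurable.ite hB (by fun_prop) measurable_const
    refine (integrable_const (|s|)).mono' hm.aestronglyMeasurable
      (Filter.Eventually.of_forall fun x => ?_)
    split_ifs with hx
    · rw [Real.norm_eq_abs, abs_mul]
      exact mul_le_of_le_one_right (abs_nonneg s) hx.le
    · simp
  have h2 : ∫ x in An n, ek s x ∂ν = (∫ x in An n, (Real.exp (s * x) - 1) ∂ν) -
      ∫ x in An n, (if |x| < 1 then s * x else 0) ∂ν := by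
    rw [← integral_sub hi hi2]
    rfl
  have h3 : ∫ x in An n, (if |x| < 1 then s * x else 0) ∂ν =
      s * ∫ x in An n ∩ {x : ℝ | |x| < 1}, x ∂ν := by
    have e : (fun x : ℝ => if |x| < 1 then s * x else 0) =
        Set.indicator {x : ℝ | |x| < 1} (fun x : ℝ => s * x) := by
      funext x
      by_cases hx : |x| < 1
      · rw [if_pos hx, Set.indicator_of_mem (by exact hx)]
      · rw [if_neg hx, Set.indicator_of_notMem (by exact hx)]
    rw [e, setIntegral_indicator hB, integral_const_mul]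
  rw [h1, h2, h3]
  unfold gn
  ring

theorem expup_value (g s2 : ℝ) (hs2 : 0 ≤ s2) (ν : Measure ℝ) (h : IsLevy ν) (n : ℕ) (s : ℝ)
    (hs : 0 ≤ s) (hJ : J ν s < ∞) :
    ∫⁻ x, ENNReal.ofReal (Real.exp (s * x)) ∂(Yapp g s2 ν n ∗ CP (ν.restrict (Ioi 1))) =
      ENNReal.ofReal (Real.exp (g * s + s2 * s ^ 2 / 2 + ∫ x in An n, ek s x ∂ν)) := by
  have i1 := isFinite_r1 ν h n
  have i2 := isFinite_r2 ν h
  have iY := isProb_Yapp g s2 ν h n
  obtain ⟨e1, e2⟩ := expup_int ν h n s hs hJ
  have hadd : ∀ x y : ℝ, Real.exp (s * (x + y)) = Real.exp (s * x) * Real.exp (s * y) := by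
    intro x y; rw [← Real.exp_add]; congr 1; ring
  have hm : Measurable (fun x : ℝ => Real.exp (s * x)) := by fun_prop
  have p1 := lintegral_CP_ofReal (ν.restrict (An n ∩ Iic 1)) (fun x => Real.exp (s * x)) hm
    (fun x => (Real.exp_pos _).le) (by simp) hadd e1
  have p2 := lintegral_CP_ofReal (ν.restrict (Ioi 1)) (fun x => Real.exp (s * x)) hm
    (fun x => (Real.exp_pos _).le) (by simp) hadd e2
  rw [expup_mul]
  unfold Yapp
  rw [expup_mul, expup_mul, p1, p2, expup_gauss, lintegral_dirac' _ (by fun_prop),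
    ← ENNReal.ofReal_mul (Real.exp_pos _).le, ← ENNReal.ofReal_mul (Real.exp_pos _).le,
    ← ENNReal.ofReal_mul (by positivity), ← Real.exp_add, ← Real.exp_add, ← Real.exp_add]
  congr 2
  have key := expup_exponent g ν h n s hs hJ
  rw [Real.coe_toNNReal s2 hs2]
  linear_combination key

theorem exp_moment_le (μ : Measure ℝ) [IsProbabilityMeasure μ] (g s2 : ℝ) (ν : Measure ℝ)
    (h : HasTriple μ g s2 ν) (s : ℝ) (hs : 0 ≤ s) (hJ : J ν s < ∞) :
    ∫⁻ x, ENNReal.ofReal (Real.exp (s * x)) ∂μ ≤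
      ENNReal.ofReal (Real.exp (g * s + s2 * s ^ 2 / 2 + ∫ x, ek s x ∂ν)) := by
  have i2 := isFinite_r2 ν h.levy
  have iY := isProb_Yapp g s2 ν h.levy
  have hi := integrable_ek ν h.levy s hs hJ
  have h1 : Tendsto (fun n => ∫ x in An n, ek s x ∂ν) atTop (𝓝 (∫ x, ek s x ∂ν)) := by
    have h2 := tendsto_setIntegral_of_monotone (μ := ν) (f := ek s) measurableSet_An An_mono
      hi.integrableOn
    rw [iUnion_An] at h2
    have h3 : ∫ x in {(0 : ℝ)}ᶜ, ek s x ∂ν = ∫ x, ek s x ∂ν := by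
      refine setIntegral_eq_integral_of_forall_compl_eq_zero fun x hx => ?_
      have : x = 0 := by simpa using hx
      rw [this]; simp [ek]
    rwa [h3] at h2
  refine lintegral_le_of_charFun (fun n => Yapp g s2 ν n ∗ CP (ν.restrict (Ioi 1))) μ
    (fun t => tendsto_app μ g s2 ν h t) (fun x => Real.exp (s * x)) (by fun_prop)
    (fun x => (Real.exp_pos _).le)
    (fun n => Real.exp (g * s + s2 * s ^ 2 / 2 + ∫ x in An n, ek s x ∂ν)) _
    (fun n => (expup_value g s2 h.s2_nonneg ν h.levy n s hs hJ).le) ?_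
  exact (Real.continuous_exp.tendsto _).comp (tendsto_const_nhds.add h1)

end Pool.Agent.Lib.MP_a80c92_pr
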