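import Pool.Agent.Lib.MP_a80c92_pr.Defs

/-! # JOB LimD: from continuity points to all points; bounded convex functions

PROOF. `F = dfn H` is monotone and right continuous (`tendsto_measure_iInter_atTop` or via
`StieltjesFunction`/`ProbabilityTheory.cdf`: `dfn H x = cdf H x`, `ProbabilityTheory.cdf_eq_real`,
`(cdf H).right_continuous`), limits `0` at `-∞` and `1` at `+∞` (`tendsto_cdf_atBot`,
`tendsto_cdf_atTop`). The set `{x : H {x} ≠ 0}` is countable, so its complement is dense
(`Set.Countable.dense_compl`), and each `x` is the limit of a sequence of continuity points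
`x_n > x`. `convexOn_of_cont`: for `x < y < z < a` choose such sequences, the inequality passes to
the limit (`F x_n → F x` by right continuity). Then `ConvexOn` on `Iio a` (from the three point
inequality, e.g. `convexOn_iff_slope_mono_adjacent` or directly the definition with
`y = α x + β z`). The same for concave. `no_convex`: a function with the three point
inequality for all `x < y < z` (all reals) that tends to `0` at `-∞` and is `≤ 1` satisfies (fix
`y < z`, `x → -∞`, divide by `z - x`): `F y ≤ F y'`.. precisely: for `x < y < z` fixed `x < y`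
and `z → ∞`: `F y ≤ (z-y)/(z-x) F x + (y-x)/(z-x) F z → F x`, so `F y ≤ F x`, `F` is constant,
contradicting the limits `0` and `1`. `no_concave`: `F y ≥ ...`: fixed `y < z`, `x → -∞`:
`F y ≥ (z-y)/(z-x) F x + (y-x)/(z-x) F z → F z`. -/

open MeasureTheory Set Filter Topology ProbabilityTheory
open scoped ENNReal NNReal

namespace Pool.Agent.Lib.MP_a80c92_pr

private theorem LimD_seq (H : Measure ℝ) [IsProbabilityMeasure H] (x : ℝ) :
    ∃ u : ℕ → ℝ, (∀ n, H {u n} = 0) ∧ Tendsto u atTop (𝓝 x) ∧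
      Tendsto (fun n => dfn H (u n)) atTop (𝓝 (dfn H x)) := by
  have hc : {y : ℝ | 0 < H {y}}.Countable := by
    have key := Measure.countable_meas_pos_of_disjoint_iUnion (μ := H)
      (As := fun y : ℝ => {y}) (fun y => measurableSet_singleton y)
      (fun a b hab => Set.disjoint_singleton.2 hab)
    exact key
  have hd : Dense {y : ℝ | 0 < H {y}}ᶜ := hc.dense_compl ℝ
  have h1 : ∀ n : ℕ, ∃ y : ℝ, y ∈ Ioo x (x + 1 / ((n : ℝ) + 1)) ∧ H {y} = 0 := by
    intro n
    have hpos : (0 : ℝ) < 1 / ((n : ℝ) + 1) := by positivity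
    obtain ⟨y, hy, hy2⟩ := hd.exists_mem_open (isOpen_Ioo (a := x) (b := x + 1 / ((n : ℝ) + 1)))
      ⟨x + 1 / ((n : ℝ) + 1) / 2, by constructor <;> linarith⟩
    refine ⟨y, hy2, ?_⟩
    have h3 : ¬ (0 < H {y}) := hy
    exact nonpos_iff_eq_zero.1 (not_lt.1 h3)
  choose u hu hu0 using h1
  have hlim : Tendsto u atTop (𝓝 x) := by
    have h2 : Tendsto (fun n : ℕ => x + 1 / ((n : ℝ) + 1)) atTop (𝓝 (x + 0)) :=
      tendsto_const_nhds.add tendsto_one_div_add_atTop_nhds_zero_nat
    rw [add_zero] at h2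
    exact tendsto_of_tendsto_of_tendsto_of_le_of_le tendsto_const_nhds h2
      (fun n => (hu n).1.le) (fun n => (hu n).2.le)
  refine ⟨u, hu0, hlim, ?_⟩
  have h4 : (dfn H) = (cdf H : ℝ → ℝ) := by
    funext y
    exact (cdf_eq_real H y).symm
  rw [h4]
  have h5 : ContinuousWithinAt (cdf H) (Ici x) x := (cdf H).right_continuous x
  refine Tendsto.comp h5 ?_
  rw [tendsto_nhdsWithin_iff]
  exact ⟨hlim, Eventually.of_forall fun n => (hu n).1.le⟩

private theorem LimD_bot (H : Measure ℝ) [IsProbabilityMeasure H] :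
    Tendsto (dfn H) atBot (𝓝 0) := by
  have h4 : (dfn H) = (cdf H : ℝ → ℝ) := by
    funext y
    exact (cdf_eq_real H y).symm
  rw [h4]
  exact tendsto_cdf_atBot H

private theorem LimD_top (H : Measure ℝ) [IsProbabilityMeasure H] :
    Tendsto (dfn H) atTop (𝓝 1) := by
  have h4 : (dfn H) = (cdf H : ℝ → ℝ) := by
    funext y
    exact (cdf_eq_real H y).symm
  rw [h4]
  exact tendsto_cdf_atTop H

private theorem LimD_le_one (H : Measure ℝ) [IsProbabilityMeasure H] (x : ℝ) :
    dfn H x ≤ 1 := by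
  have h4 : dfn H x = cdf H x := (cdf_eq_real H x).symm
  rw [h4]
  exact cdf_le_one H x

private theorem LimD_nonneg (H : Measure ℝ) [IsProbabilityMeasure H] (x : ℝ) :
    0 ≤ dfn H x := by
  have h4 : dfn H x = cdf H x := (cdf_eq_real H x).symm
  rw [h4]
  exact cdf_nonneg H x

/-- Passage to the limit in the three point inequality (convex form). -/
private theorem LimD_ext (H : Measure ℝ) [IsProbabilityMeasure H] (P : ℝ → ℝ → ℝ → Prop)
    (h : ∀ x y z : ℝ, P x y z → H {x} = 0 → H {y} = 0 → H {z} = 0 →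
      (z - x) * dfn H y ≤ (z - y) * dfn H x + (y - x) * dfn H z)
    (x y z : ℝ) (hP : ∀ u v w : ℕ → ℝ, Tendsto u atTop (𝓝 x) → Tendsto v atTop (𝓝 y) →
      Tendsto w atTop (𝓝 z) → ∀ᶠ n in atTop, P (u n) (v n) (w n)) :
    (z - x) * dfn H y ≤ (z - y) * dfn H x + (y - x) * dfn H z := by
  obtain ⟨u, hu0, hu, hu'⟩ := LimD_seq H x
  obtain ⟨v, hv0, hv, hv'⟩ := LimD_seq H y
  obtain ⟨w, hw0, hw, hw'⟩ := LimD_seq H z
  have h1 : Tendsto (fun n => (w n - u n) * dfn H (v n)) atTop (𝓝 ((z - x) * dfn H y)) :=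
    (hw.sub hu).mul hv'
  have h2 : Tendsto (fun n => (w n - v n) * dfn H (u n) + (v n - u n) * dfn H (w n)) atTop
      (𝓝 ((z - y) * dfn H x + (y - x) * dfn H z)) :=
    ((hw.sub hv).mul hu').add ((hv.sub hu).mul hw')
  refine le_of_tendsto_of_tendsto h1 h2 ?_
  filter_upwards [hP u v w hu hv hw] with n hn
  exact h _ _ _ hn (hu0 n) (hv0 n) (hw0 n)

/-- Passage to the limit in the three point inequality (concave form). -/
private theorem LimD_ext' (H : Measure ℝ) [IsProbabilityMeasure H] (P : ℝ → ℝ → ℝ → Prop)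
    (h : ∀ x y z : ℝ, P x y z → H {x} = 0 → H {y} = 0 → H {z} = 0 →
      (z - y) * dfn H x + (y - x) * dfn H z ≤ (z - x) * dfn H y)
    (x y z : ℝ) (hP : ∀ u v w : ℕ → ℝ, Tendsto u atTop (𝓝 x) → Tendsto v atTop (𝓝 y) →
      Tendsto w atTop (𝓝 z) → ∀ᶠ n in atTop, P (u n) (v n) (w n)) :
    (z - y) * dfn H x + (y - x) * dfn H z ≤ (z - x) * dfn H y := by
  obtain ⟨u, hu0, hu, hu'⟩ := LimD_seq H x
  obtain ⟨v, hv0, hv, hv'⟩ := LimD_seq H y
  obtain ⟨w, hw0, hw, hw'⟩ := LimD_seq H z
  have h1 : Tendsto (fun n => (w n - u n) * dfn H (v n)) atTop (𝓝 ((z - x) * dfn H y)) :=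
    (hw.sub hu).mul hv'
  have h2 : Tendsto (fun n => (w n - v n) * dfn H (u n) + (v n - u n) * dfn H (w n)) atTop
      (𝓝 ((z - y) * dfn H x + (y - x) * dfn H z)) :=
    ((hw.sub hv).mul hu').add ((hv.sub hu).mul hw')
  refine le_of_tendsto_of_tendsto h2 h1 ?_
  filter_upwards [hP u v w hu hv hw] with n hn
  exact h _ _ _ hn (hu0 n) (hv0 n) (hw0 n)

theorem convexOn_of_cont (H : Measure ℝ) [IsProbabilityMeasure H] (a : ℝ)
    (h : ∀ x y z : ℝ, x < y → y < z → z < a → H {x} = 0 → H {y} = 0 → H {z} = 0 →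
      (z - x) * dfn H y ≤ (z - y) * dfn H x + (y - x) * dfn H z) :
    ConvexOn ℝ (Iio a) (dfn H) := by
  have hext : ∀ x y z : ℝ, x < y → y < z → z < a →
      (z - x) * dfn H y ≤ (z - y) * dfn H x + (y - x) * dfn H z := by
    intro x y z hxy hyz hza
    refine LimD_ext H (fun x y z => x < y ∧ y < z ∧ z < a)
      (fun x y z hP => h x y z hP.1 hP.2.1 hP.2.2) x y z ?_
    intro u v w hu hv hw
    filter_upwards [hu.eventually_lt hv hxy, hv.eventually_lt hw hyz,
      hw.eventually (gt_mem_nhds hza)] with n h1 h2 h3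
    exact ⟨h1, h2, h3⟩
  refine LinearOrder.convexOn_of_lt (convex_Iio a) ?_
  intro x _ z hz hxz s t hs ht hst
  simp only [smul_eq_mul]
  have hs' : s = 1 - t := by linarith
  subst hs'
  have hzx : 0 < z - x := sub_pos.2 hxz
  have h1 : x < (1 - t) * x + t * z := by nlinarith
  have h2 : (1 - t) * x + t * z < z := by nlinarith
  have h3 := hext x ((1 - t) * x + t * z) z h1 h2 hz
  have h4 : z - ((1 - t) * x + t * z) = (1 - t) * (z - x) := by ring
  have h5 : (1 - t) * x + t * z - x = t * (z - x) := by ring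
  rw [h4, h5] at h3
  have h6 : (z - x) * dfn H ((1 - t) * x + t * z) ≤
      (z - x) * ((1 - t) * dfn H x + t * dfn H z) := by
    refine h3.trans (le_of_eq ?_)
    ring
  exact le_of_mul_le_mul_left h6 hzx

theorem concaveOn_of_cont (H : Measure ℝ) [IsProbabilityMeasure H] (a : ℝ)
    (h : ∀ x y z : ℝ, a < x → x < y → y < z → H {x} = 0 → H {y} = 0 → H {z} = 0 →
      (z - y) * dfn H x + (y - x) * dfn H z ≤ (z - x) * dfn H y) :
    ConcaveOn ℝ (Ioi a) (dfn H) := by
  have hext : ∀ x y z : ℝ, a < x → x < y → y < z →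
      (z - y) * dfn H x + (y - x) * dfn H z ≤ (z - x) * dfn H y := by
    intro x y z hax hxy hyz
    refine LimD_ext' H (fun x y z => a < x ∧ x < y ∧ y < z)
      (fun x y z hP => h x y z hP.1 hP.2.1 hP.2.2) x y z ?_
    intro u v w hu hv hw
    filter_upwards [hu.eventually (lt_mem_nhds hax), hu.eventually_lt hv hxy,
      hv.eventually_lt hw hyz] with n h1 h2 h3
    exact ⟨h1, h2, h3⟩
  refine LinearOrder.concaveOn_of_lt (convex_Ioi a) ?_
  intro x hx z _ hxz s t hs ht hst
  simp only [smul_eq_mul]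
  have hs' : s = 1 - t := by linarith
  subst hs'
  have hzx : 0 < z - x := sub_pos.2 hxz
  have h1 : x < (1 - t) * x + t * z := by nlinarith
  have h2 : (1 - t) * x + t * z < z := by nlinarith
  have h3 := hext x ((1 - t) * x + t * z) z hx h1 h2
  have h4 : z - ((1 - t) * x + t * z) = (1 - t) * (z - x) := by ring
  have h5 : (1 - t) * x + t * z - x = t * (z - x) := by ring
  rw [h4, h5] at h3
  have h6 : (z - x) * ((1 - t) * dfn H x + t * dfn H z) ≤
      (z - x) * dfn H ((1 - t) * x + t * z) := by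
    refine le_trans (le_of_eq ?_) h3
    ring
  exact le_of_mul_le_mul_left h6 hzx

private theorem LimD_ev (x y z : ℝ) (hxy : x < y) (hyz : y < z) :
    ∀ u v w : ℕ → ℝ, Tendsto u atTop (𝓝 x) → Tendsto v atTop (𝓝 y) →
      Tendsto w atTop (𝓝 z) → ∀ᶠ n in atTop, u n < v n ∧ v n < w n := by
  intro u v w hu hv hw
  filter_upwards [hu.eventually_lt hv hxy, hv.eventually_lt hw hyz] with n h1 h2
  exact ⟨h1, h2⟩

theorem no_convex (H : Measure ℝ) [IsProbabilityMeasure H]
    (h : ∀ x y z : ℝ, x < y → y < z → H {x} = 0 → H {y} = 0 → H {z} = 0 →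
      (z - x) * dfn H y ≤ (z - y) * dfn H x + (y - x) * dfn H z) : False := by
  have hext : ∀ x y z : ℝ, x < y → y < z →
      (z - x) * dfn H y ≤ (z - y) * dfn H x + (y - x) * dfn H z := by
    intro x y z hxy hyz
    exact LimD_ext H (fun x y z => x < y ∧ y < z)
      (fun x y z hP => h x y z hP.1 hP.2) x y z (LimD_ev x y z hxy hyz)
  -- `F y ≤ F x` for `x < y`
  have hdec : ∀ x y : ℝ, x < y → dfn H y ≤ dfn H x := by
    intro x y hxy
    by_contra hlt
    have hlt' : 0 < dfn H y - dfn H x := sub_pos.2 (not_le.1 hlt)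
    -- choose `z` large
    obtain ⟨z, hz⟩ : ∃ z : ℝ, z = max (y + 1) (x + (y - x) / (dfn H y - dfn H x) + 1) := ⟨_, rfl⟩
    have hz1 : y + 1 ≤ z := hz ▸ le_max_left _ _
    have hz2 : x + (y - x) / (dfn H y - dfn H x) + 1 ≤ z := hz ▸ le_max_right _ _
    have hyz : y < z := by linarith
    have h1 := hext x y z hxy hyz
    have h2 := LimD_le_one H z
    have h3 := LimD_nonneg H x
    have h4 : (y - x) / (dfn H y - dfn H x) < z - x := by linarith
    rw [div_lt_iff₀ hlt'] at h4
    nlinarith [mul_le_mul_of_nonneg_left h2 (sub_pos.2 hxy).le,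
      mul_nonneg (sub_pos.2 hxy).le h3]
  -- limits
  have hle0 : ∀ y : ℝ, dfn H y ≤ 0 := by
    intro y
    refine ge_of_tendsto (LimD_bot H) ?_
    filter_upwards [eventually_lt_atBot y] with x hx
    exact hdec x y hx
  have h1 : (1 : ℝ) ≤ 0 := le_of_tendsto (LimD_top H) (Eventually.of_forall hle0)
  linarith

theorem no_concave (H : Measure ℝ) [IsProbabilityMeasure H]
    (h : ∀ x y z : ℝ, x < y → y < z → H {x} = 0 → H {y} = 0 → H {z} = 0 →
      (z - y) * dfn H x + (y - x) * dfn H z ≤ (z - x) * dfn H y) : False := by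
  have hext : ∀ x y z : ℝ, x < y → y < z →
      (z - y) * dfn H x + (y - x) * dfn H z ≤ (z - x) * dfn H y := by
    intro x y z hxy hyz
    exact LimD_ext' H (fun x y z => x < y ∧ y < z)
      (fun x y z hP => h x y z hP.1 hP.2) x y z (LimD_ev x y z hxy hyz)
  -- `F z ≤ F y` for `y < z`
  have hdec : ∀ y z : ℝ, y < z → dfn H z ≤ dfn H y := by
    intro y z hyz
    by_contra hlt
    have hlt' : 0 < dfn H z - dfn H y := sub_pos.2 (not_le.1 hlt)
    obtain ⟨x, hx⟩ : ∃ x : ℝ, x = min (y - 1) (z - (z - y) / (dfn H z - dfn H y) - 1) := ⟨_, rfl⟩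
    have hx1 : x ≤ y - 1 := hx ▸ min_le_left _ _
    have hx2 : x ≤ z - (z - y) / (dfn H z - dfn H y) - 1 := hx ▸ min_le_right _ _
    have hxy : x < y := by linarith
    have h1 := hext x y z hxy hyz
    have h2 := LimD_le_one H z
    have h3 := LimD_nonneg H x
    have h4 : (z - y) / (dfn H z - dfn H y) < z - x := by linarith
    rw [div_lt_iff₀ hlt'] at h4
    nlinarith [mul_le_mul_of_nonneg_left h2 (sub_pos.2 hyz).le,
      mul_nonneg (sub_pos.2 hyz).le h3]
  have hle0 : ∀ y : ℝ, dfn H y ≤ 0 := by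
    intro y
    refine ge_of_tendsto (LimD_bot H) ?_
    filter_upwards [eventually_lt_atBot y] with x hx
    exact hdec x y hx
  have h1 : (1 : ℝ) ≤ 0 := le_of_tendsto (LimD_top H) (Eventually.of_forall hle0)
  linarith

end Pool.Agent.Lib.MP_a80c92_pr
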