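import Pool.Agent.Lib.MP_a80c92_pr.LatA

/-! # JOB LatC: the lattice approximation of `k(x)/x dx`

PROOF. `k = kR` is measurable on `(0, ∞)` up to null sets: `e^{lam x} k x` is antitone there
(`AntitoneOn` → a.e.-measurable: `aemeasurable_restrict_of_antitoneOn measurableSet_Ioi`), and
`k ≥ e^{-lam x} > 0`. `latm_mass`: for `j ≥ 1` the preimage of `{j}` under `x ↦ ⌊x/δ⌋₊` is
`[jδ, (j+1)δ) ⊂ [δ, ∞)`, on it `lf δ x = jδ` and `(levyOf kR kL)` has density `kR x / x`, so
`latm {j} = ∫⁻_{[jδ,(j+1)δ)} ofReal (e^{lam δ} x/(jδ)) ofReal (kR x / x) dx`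
`= ofReal (e^{lam δ}/(jδ)) ∫⁻ ofReal (kR x)`; `kR` is bounded by `e^{...} kR`, integrable on compact
intervals in `(0, ∞)` (antitone times continuous).
h1: `kR x ≥ e^{-lam x} ≥`.. for `x ≤ (j+1) δ`, hmm if `lam ≥ 0`: `e^{-lam x} ≥ e^{-lam (j+1)δ}`, so
`j latm{j} ≥ e^{lam δ} e^{-lam (j+1) δ} = (e^{-lam δ})^j`.
h2: `∫_{(j+1)δ}^{(j+2)δ} kR = ∫_{jδ}^{(j+1)δ} kR (x+δ) dx` and
`kR (x+δ) ≤ e^{-lam δ} kR x` (anti). -/

open MeasureTheory Set Filter Topology ProbabilityTheory
open scoped ENNReal NNReal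

namespace Pool.Agent.Lib.MP_a80c92_pr

private theorem LatC_map_neg (A : Set ℝ) (hA : MeasurableSet A) (f : ℝ → ℝ≥0∞) :
    ((volume.restrict A).withDensity f).map (fun x => -x) =
      (volume.restrict ((fun x : ℝ => -x) ⁻¹' A)).withDensity (fun x => f (-x)) := by
  have hA' : MeasurableSet ((fun x : ℝ => -x) ⁻¹' A) := measurable_neg hA
  ext s hs
  have hs' : MeasurableSet ((fun x : ℝ => -x) ⁻¹' s) := measurable_neg hs
  rw [Measure.map_apply measurable_neg hs, withDensity_apply _ hs', withDensity_apply _ hs,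
    Measure.restrict_restrict hs', Measure.restrict_restrict hs,
    ← lintegral_indicator (hs'.inter hA), ← lintegral_indicator (hs.inter hA'),
    ← lintegral_neg_eq_self]
  refine lintegral_congr fun x => ?_
  by_cases hx : x ∈ s ∩ (fun x : ℝ => -x) ⁻¹' A
  · have h1 : -x ∈ (fun x : ℝ => -x) ⁻¹' s ∩ A := by
      refine ⟨?_, hx.2⟩
      rw [mem_preimage, neg_neg]
      exact hx.1
    rw [indicator_of_mem h1, indicator_of_mem hx]
  · have h1 : -x ∉ (fun x : ℝ => -x) ⁻¹' s ∩ A := by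
      rintro ⟨h2, h3⟩
      rw [mem_preimage, neg_neg] at h2
      exact hx ⟨h2, h3⟩
    rw [indicator_of_notMem h1, indicator_of_notMem hx]

private theorem LatC_restrict (kR kL : ℝ → ℝ) (δ : ℝ) (hδ : 0 < δ) :
    (levyOf kR kL).restrict (Ici δ) =
      (volume.restrict (Ici δ)).withDensity (fun x => ENNReal.ofReal (kR x / x)) := by
  unfold levyOf
  rw [Measure.restrict_add, restrict_withDensity measurableSet_Ici, restrict_withDensity measurableSet_Ici,
    Measure.restrict_restrict measurableSet_Ici, Measure.restrict_restrict measurableSet_Ici]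
  have h1 : Ici δ ∩ Ioi 0 = Ici δ := inter_eq_left.2 fun x hx => lt_of_lt_of_le hδ hx
  have h2 : Ici δ ∩ Iio 0 = ∅ := by
    ext x
    simp only [mem_inter_iff, mem_Ici, mem_Iio, mem_empty_iff_false, iff_false, not_and, not_lt]
    intro h
    linarith
  rw [h1, h2, Measure.restrict_empty, withDensity_zero_left, add_zero]

private theorem LatC_meas_fl (δ : ℝ) : Measurable (fun x : ℝ => ⌊x / δ⌋₊) :=
  Nat.measurable_floor.comp (measurable_id.div_const δ)

private theorem LatC_pre (δ : ℝ) (hδ : 0 < δ) (j : ℕ) (hj : 1 ≤ j) :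
    (fun x : ℝ => ⌊x / δ⌋₊) ⁻¹' {j} ∩ Ici δ = Ico ((j : ℝ) * δ) (((j : ℝ) + 1) * δ) := by
  ext x
  have hj' : (1 : ℝ) ≤ j := by exact_mod_cast hj
  simp only [mem_inter_iff, mem_preimage, mem_singleton_iff, mem_Ici, mem_Ico]
  constructor
  · rintro ⟨h1, h2⟩
    have hx : 0 ≤ x / δ := div_nonneg (by linarith) hδ.le
    rw [Nat.floor_eq_iff hx, le_div_iff₀ hδ, div_lt_iff₀ hδ] at h1
    exact h1
  · rintro ⟨h1, h2⟩
    have h3 : δ ≤ x := le_trans (by nlinarith) h1
    have hx : 0 ≤ x / δ := div_nonneg (by linarith) hδ.le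
    refine ⟨?_, h3⟩
    rw [Nat.floor_eq_iff hx, le_div_iff₀ hδ, div_lt_iff₀ hδ]
    exact ⟨h1, h2⟩

private theorem LatC_pos {k : ℝ → ℝ} {lam : ℝ} (hk : GoodK k lam) {x : ℝ} (hx : 0 < x) :
    Real.exp (-(lam * x)) ≤ k x := by
  have h1 := hk.ge x hx
  have h2 : Real.exp (-(lam * x)) * 1 ≤ Real.exp (-(lam * x)) * (Real.exp (lam * x) * k x) :=
    mul_le_mul_of_nonneg_left h1 (Real.exp_pos _).le
  rw [← mul_assoc, ← Real.exp_add, neg_add_cancel, Real.exp_zero, one_mul, mul_one] at h2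
  exact h2

private theorem LatC_eq (k : ℝ → ℝ) (lam x : ℝ) :
    k x = Real.exp (-(lam * x)) * (Real.exp (lam * x) * k x) := by
  rw [← mul_assoc, ← Real.exp_add, neg_add_cancel, Real.exp_zero, one_mul]

private theorem LatC_aem {k : ℝ → ℝ} {lam : ℝ} (hk : GoodK k lam) : AEMeasurable k (volume.restrict (Ioi 0)) := by
  have h1 : AEMeasurable (fun x => Real.exp (lam * x) * k x) (volume.restrict (Ioi 0)) :=
    aemeasurable_restrict_of_antitoneOn measurableSet_Ioi hk.anti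
  have h2 : Measurable (fun x : ℝ => Real.exp (-(lam * x))) := by fun_prop
  have h3 : k = fun x => Real.exp (-(lam * x)) * (Real.exp (lam * x) * k x) := funext fun x => LatC_eq k lam x
  rw [h3]
  exact h2.aemeasurable.mul h1

private theorem LatC_int {k : ℝ → ℝ} {lam : ℝ} (hk : GoodK k lam) {a b : ℝ} (ha : 0 < a) (hab : a ≤ b) :
    IntervalIntegrable k volume a b := by
  have h1 : IntervalIntegrable (fun x => Real.exp (lam * x) * k x) volume a b := by
    refine AntitoneOn.intervalIntegrable (hk.anti.mono ?_)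
    rw [uIcc_of_le hab]
    exact fun x hx => lt_of_lt_of_le ha hx.1
  have h3 : k = fun x => Real.exp (-(lam * x)) * (Real.exp (lam * x) * k x) := funext fun x => LatC_eq k lam x
  rw [h3]
  exact h1.continuousOn_mul (by fun_prop)

theorem latm_mass (kR kL : ℝ → ℝ) (lam : ℝ) (hk : GoodK kR lam) (δ : ℝ) (hδ : 0 < δ)
    (j : ℕ) (hj : 1 ≤ j) :
    (j : ℝ) * (latm lam δ (levyOf kR kL)).real {j} =
      Real.exp (lam * δ) / δ * ∫ x in ((j : ℝ) * δ)..(((j : ℝ) + 1) * δ), kR x := by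
  have hj' : (1 : ℝ) ≤ j := by exact_mod_cast hj
  have hab : (j : ℝ) * δ ≤ ((j : ℝ) + 1) * δ := by nlinarith
  have ha : 0 < (j : ℝ) * δ := by positivity
  have hpre := LatC_pre δ hδ j hj
  have hm1 : MeasurableSet ((fun x : ℝ => ⌊x / δ⌋₊) ⁻¹' {j}) := LatC_meas_fl δ (measurableSet_singleton j)
  have hkm : AEMeasurable kR (volume.restrict (Ici δ)) :=
    (LatC_aem hk).mono_measure (Measure.restrict_mono (fun x hx => lt_of_lt_of_le hδ hx) le_rfl)
  have hlfm : Measurable (lf δ) := measurable_lf δ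
  have hfm : AEMeasurable (fun x => ENNReal.ofReal (kR x / x)) (volume.restrict (Ici δ)) :=
    (hkm.div aemeasurable_id).ennreal_ofReal
  have hgm : Measurable (fun x : ℝ => ENNReal.ofReal (Real.exp (lam * δ) * (x / lf δ x))) :=
    ((measurable_id.div hlfm).const_mul _).ennreal_ofReal
  have h1 : latm lam δ (levyOf kR kL) {j} = ∫⁻ x in Ico ((j : ℝ) * δ) (((j : ℝ) + 1) * δ),
      ENNReal.ofReal (Real.exp (lam * δ) / (δ * j) * kR x) := by
    unfold latm
    rw [Measure.map_apply (LatC_meas_fl δ) (measurableSet_singleton j), withDensity_apply _ hm1,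
      LatC_restrict kR kL δ hδ, restrict_withDensity hm1, Measure.restrict_restrict hm1, hpre,
      lintegral_withDensity_eq_lintegral_mul₀ (hfm.mono_measure (Measure.restrict_mono (by
        rw [← hpre]
        exact inter_subset_right) le_rfl)) hgm.aemeasurable]
    refine setLIntegral_congr_fun measurableSet_Ico fun x hx => ?_
    have hx0 : 0 < x := lt_of_lt_of_le ha hx.1
    have hk0 : 0 ≤ kR x := (Real.exp_pos _).le.trans (LatC_pos hk hx0)
    have hfl : ⌊x / δ⌋₊ = j := by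
      rw [← hpre] at hx
      exact hx.1
    have hlf : lf δ x = δ * j := by
      unfold lf
      rw [hfl]
    show ENNReal.ofReal (kR x / x) * ENNReal.ofReal (Real.exp (lam * δ) * (x / lf δ x)) = _
    rw [← ENNReal.ofReal_mul (div_nonneg hk0 hx0.le), hlf]
    congr 1
    field_simp
  have h2 : (latm lam δ (levyOf kR kL)).real {j} = ∫ x in Ico ((j : ℝ) * δ) (((j : ℝ) + 1) * δ),
      Real.exp (lam * δ) / (δ * j) * kR x := by
    rw [measureReal_def, h1, integral_eq_lintegral_of_nonneg_ae]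
    · refine (ae_restrict_iff' measurableSet_Ico).2 (Eventually.of_forall fun x hx => ?_)
      have hx0 : 0 < x := lt_of_lt_of_le ha hx.1
      have hk0 : 0 ≤ kR x := (Real.exp_pos _).le.trans (LatC_pos hk hx0)
      show 0 ≤ Real.exp (lam * δ) / (δ * j) * kR x
      positivity
    · refine AEMeasurable.aestronglyMeasurable ?_
      refine ((LatC_aem hk).mono_measure (Measure.restrict_mono (fun x hx => lt_of_lt_of_le ha hx.1) le_rfl)).const_mul _
  rw [h2, integral_const_mul, integral_Ico_eq_integral_Ioo, ← integral_Ioc_eq_integral_Ioo,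
    ← intervalIntegral.integral_of_le hab]
  field_simp

theorem latm_h1 (kR kL : ℝ → ℝ) (lam : ℝ) (hlam : 0 ≤ lam) (hk : GoodK kR lam) (δ : ℝ)
    (hδ : 0 < δ) (j : ℕ) (hj : 1 ≤ j) :
    Real.exp (-(lam * δ)) ^ j ≤ (j : ℝ) * (latm lam δ (levyOf kR kL)).real {j} := by
  rw [latm_mass kR kL lam hk δ hδ j hj]
  have hj' : (1 : ℝ) ≤ j := by exact_mod_cast hj
  have hab : (j : ℝ) * δ ≤ ((j : ℝ) + 1) * δ := by nlinarith
  have ha : 0 < (j : ℝ) * δ := by positivity
  have h1 : ∫ _ in ((j : ℝ) * δ)..(((j : ℝ) + 1) * δ), Real.exp (-(lam * (((j : ℝ) + 1) * δ))) ≤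
      ∫ x in ((j : ℝ) * δ)..(((j : ℝ) + 1) * δ), kR x := by
    refine intervalIntegral.integral_mono_on hab intervalIntegrable_const (LatC_int hk ha hab) fun x hx => ?_
    refine le_trans (Real.exp_le_exp.2 ?_) (LatC_pos hk (lt_of_lt_of_le ha hx.1))
    have h2 := mul_le_mul_of_nonneg_left hx.2 hlam
    linarith
  rw [intervalIntegral.integral_const, smul_eq_mul] at h1
  have h2 : Real.exp (lam * δ) / δ * ((((j : ℝ) + 1) * δ - (j : ℝ) * δ) * Real.exp (-(lam * (((j : ℝ) + 1) * δ)))) =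
      Real.exp (-(lam * δ)) ^ j := by
    have e1 : ((j : ℝ) + 1) * δ - (j : ℝ) * δ = δ := by ring
    rw [e1, ← mul_assoc, div_mul_cancel₀ _ hδ.ne', ← Real.exp_add, ← Real.exp_nat_mul]
    congr 1
    ring
  rw [← h2]
  exact mul_le_mul_of_nonneg_left h1 (by positivity)

theorem latm_h2 (kR kL : ℝ → ℝ) (lam : ℝ) (hk : GoodK kR lam) (δ : ℝ)
    (hδ : 0 < δ) (j : ℕ) (hj : 1 ≤ j) :
    ((j + 1 : ℕ) : ℝ) * (latm lam δ (levyOf kR kL)).real {j + 1} ≤
      Real.exp (-(lam * δ)) * ((j : ℝ) * (latm lam δ (levyOf kR kL)).real {j}) := by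
  rw [latm_mass kR kL lam hk δ hδ j hj, latm_mass kR kL lam hk δ hδ (j + 1) (by omega)]
  have hj' : (1 : ℝ) ≤ j := by exact_mod_cast hj
  have hab : (j : ℝ) * δ ≤ ((j : ℝ) + 1) * δ := by nlinarith
  have ha : 0 < (j : ℝ) * δ := by positivity
  have e1 : (((j + 1 : ℕ) : ℝ)) * δ = (j : ℝ) * δ + δ := by
    push_cast
    ring
  have e2 : ((((j + 1 : ℕ) : ℝ)) + 1) * δ = ((j : ℝ) + 1) * δ + δ := by
    push_cast
    ring
  have h1 : ∫ x in ((((j + 1 : ℕ) : ℝ)) * δ)..(((((j + 1 : ℕ) : ℝ)) + 1) * δ), kR x =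
      ∫ x in ((j : ℝ) * δ)..(((j : ℝ) + 1) * δ), kR (x + δ) := by
    rw [e1, e2, intervalIntegral.integral_comp_add_right]
  have h2 : ∫ x in ((j : ℝ) * δ)..(((j : ℝ) + 1) * δ), kR (x + δ) ≤
      ∫ x in ((j : ℝ) * δ)..(((j : ℝ) + 1) * δ), Real.exp (-(lam * δ)) * kR x := by
    refine intervalIntegral.integral_mono_on hab ?_ ((LatC_int hk ha hab).const_mul _) fun x hx => ?_
    · have h3 : IntervalIntegrable kR volume ((j : ℝ) * δ + δ) (((j : ℝ) + 1) * δ + δ) :=
        LatC_int hk (by linarith) (by linarith)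
      have h4 := h3.comp_add_right δ
      simp only [add_sub_cancel_right] at h4
      exact h4
    · have hx0 : 0 < x := lt_of_lt_of_le ha hx.1
      have h3 := hk.anti (mem_Ioi.2 hx0) (mem_Ioi.2 (by linarith : 0 < x + δ)) (by linarith : x ≤ x + δ)
      have h3' : Real.exp (lam * (x + δ)) * kR (x + δ) ≤ Real.exp (lam * x) * kR x := h3
      have h4 := mul_le_mul_of_nonneg_left h3' (Real.exp_pos (-(lam * (x + δ)))).le
      rw [← LatC_eq kR lam (x + δ), ← mul_assoc, ← Real.exp_add] at h4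
      have h5 : -(lam * (x + δ)) + lam * x = -(lam * δ) := by ring
      rw [h5] at h4
      exact h4
  rw [h1]
  rw [intervalIntegral.integral_const_mul] at h2
  have h3 : 0 ≤ Real.exp (lam * δ) / δ := by positivity
  calc Real.exp (lam * δ) / δ * ∫ x in ((j : ℝ) * δ)..(((j : ℝ) + 1) * δ), kR (x + δ) ≤
      Real.exp (lam * δ) / δ * (Real.exp (-(lam * δ)) * ∫ x in ((j : ℝ) * δ)..(((j : ℝ) + 1) * δ), kR x) :=
        mul_le_mul_of_nonneg_left h2 h3
    _ = _ := by ring

theorem latm_eq_zero (kR kL : ℝ → ℝ) (hk : ∀ x, 0 < x → kR x = 0) (lam δ : ℝ) (hδ : 0 < δ) :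
    latm lam δ (levyOf kR kL) = 0 := by
  have h1 : (levyOf kR kL).restrict (Ici δ) = 0 := by
    rw [LatC_restrict kR kL δ hδ]
    have h2 : (fun x => ENNReal.ofReal (kR x / x)) =ᵐ[volume.restrict (Ici δ)] 0 := by
      refine (ae_restrict_iff' measurableSet_Ici).2 (Eventually.of_forall fun x hx => ?_)
      show ENNReal.ofReal (kR x / x) = 0
      rw [hk x (lt_of_lt_of_le hδ hx), zero_div, ENNReal.ofReal_zero]
    rw [withDensity_congr_ae h2, withDensity_zero]
  unfold latm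
  rw [h1, withDensity_zero_left, Measure.map_zero]

theorem levyOf_neg (kR kL : ℝ → ℝ) :
    (levyOf kR kL).map (fun x => -x) = levyOf kL kR := by
  have h1 : (fun x : ℝ => -x) ⁻¹' Ioi 0 = Iio 0 := by
    ext x
    simp
  have h2 : (fun x : ℝ => -x) ⁻¹' Iio 0 = Ioi 0 := by
    ext x
    simp
  unfold levyOf
  rw [Measure.map_add _ _ measurable_neg, LatC_map_neg _ measurableSet_Ioi, LatC_map_neg _ measurableSet_Iio, h1, h2, add_comm]
  simp only [neg_neg]

end Pool.Agent.Lib.MP_a80c92_pr
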