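import Pool.Agent.Lib.MP_a80c92_pr.Defs

/-! # JOB Gd: the density of `μ ∗ N(0,1)`

PROOF. `φ = gaussianPDFReal 0 1` is continuous, positive (`gaussianPDFReal_pos`), bounded by
`(√(2π))⁻¹`, tends to `0` at `±∞`, has integral 1. `gd μ x = ∫ φ(x - y) dμ(y)`: continuity and the
limits at `±∞` by dominated convergence (`tendsto_integral_filter_of_dominated_convergence`,
`continuous_of_dominated`), positivity by `integral_pos_iff_support_of_nonneg` (support is
everything). `conv_gauss`: for a measurable set `s`: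
`(μ ∗ N) s = ∫⁻∫⁻ 1_s(y + z) dN(z) dμ(y) = ∫⁻∫⁻ 1_s(y+z) ofReal φ(z) dz dμ(y)`
(`gaussianReal_of_var_ne_zero`, `lintegral_withDensity..`), translate `z = x - y`
(`lintegral_sub_right_eq_self`), Tonelli, `∫⁻ ofReal φ(x-y) dμ(y) = ofReal (gd μ x)`
(`ofReal_integral_eq_lintegral_ofReal`). `gd_deriv`: `dfn (μ ∗ N) x = ∫_{-∞}^x gd μ`
(`Measure.real`, `withDensity_apply`, `setIntegral`), derivative of
`x ↦ ∫_{Iic 0} gd + ∫_0^x gd` (`intervalIntegral.integral_hasDerivAt_right`,
`intervalIntegral.integral_Iic_sub_Iic`). -/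

open MeasureTheory Set Filter Topology ProbabilityTheory
open scoped ENNReal NNReal

namespace Pool.Agent.Lib.MP_a80c92_pr

private theorem Gd_cont : Continuous (gaussianPDFReal 0 1) := by
  rw [gaussianPDFReal_def]
  fun_prop

private theorem Gd_bd (x : ℝ) : ‖gaussianPDFReal 0 1 x‖ ≤ (Real.sqrt (2 * Real.pi * (1 : ℝ≥0)))⁻¹ := by
  rw [Real.norm_of_nonneg (gaussianPDFReal_nonneg 0 1 x), gaussianPDFReal_def]
  simp only
  have h1 : Real.exp (-(x - 0) ^ 2 / (2 * ((1 : ℝ≥0) : ℝ))) ≤ 1 := by
    rw [Real.exp_le_one_iff]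
    have h2 : 0 ≤ (x - 0) ^ 2 / (2 * ((1 : ℝ≥0) : ℝ)) := by positivity
    rw [neg_div]
    linarith
  have h3 : 0 ≤ (Real.sqrt (2 * Real.pi * (1 : ℝ≥0)))⁻¹ := by positivity
  exact mul_le_of_le_one_right h3 h1

private theorem Gd_lim {l : Filter ℝ} (h : Tendsto (fun x : ℝ => x ^ 2) l atTop) :
    Tendsto (gaussianPDFReal 0 1) l (𝓝 0) := by
  rw [gaussianPDFReal_def]
  have h1 : Tendsto (fun x : ℝ => -(x - 0) ^ 2 / (2 * ((1 : ℝ≥0) : ℝ))) l atBot := by
    have h2 : (fun x : ℝ => -(x - 0) ^ 2 / (2 * ((1 : ℝ≥0) : ℝ))) = fun x : ℝ => -(x ^ 2 / 2) := by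
      funext x
      rw [NNReal.coe_one]
      ring
    rw [h2]
    exact tendsto_neg_atTop_atBot.comp (h.atTop_div_const (by norm_num))
  have h3 := (Real.tendsto_exp_atBot.comp h1).const_mul (Real.sqrt (2 * Real.pi * (1 : ℝ≥0)))⁻¹
  rw [mul_zero] at h3
  exact h3

private theorem Gd_int (μ : Measure ℝ) [IsProbabilityMeasure μ] (x : ℝ) :
    Integrable (fun y => gaussianPDFReal 0 1 (x - y)) μ := by
  refine Integrable.of_bound (C := (Real.sqrt (2 * Real.pi * (1 : ℝ≥0)))⁻¹) ?_ (Eventually.of_forall fun y => Gd_bd _)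
  exact (Gd_cont.comp (continuous_const.sub continuous_id)).aestronglyMeasurable

private theorem Gd_limgd (μ : Measure ℝ) [IsProbabilityMeasure μ] {l : Filter ℝ} [l.IsCountablyGenerated]
    (h : ∀ y : ℝ, Tendsto (fun x : ℝ => (x - y) ^ 2) l atTop) :
    Tendsto (gd μ) l (𝓝 0) := by
  have h1 := tendsto_integral_filter_of_dominated_convergence (μ := μ) (l := l)
    (F := fun x y => gaussianPDFReal 0 1 (x - y)) (f := fun _ => (0 : ℝ))
    (fun _ => (Real.sqrt (2 * Real.pi * (1 : ℝ≥0)))⁻¹)
    (Eventually.of_forall fun x => (Gd_cont.comp (continuous_const.sub continuous_id)).aestronglyMeasurable)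
    (Eventually.of_forall fun x => Eventually.of_forall fun y => Gd_bd _)
    (integrable_const _)
    (Eventually.of_forall fun y => by
      have h2 : Tendsto (fun x : ℝ => x - y) l (Filter.map (fun x : ℝ => x - y) l) := tendsto_map
      have h3 : Tendsto (fun x : ℝ => x ^ 2) (Filter.map (fun x : ℝ => x - y) l) atTop := by
        rw [tendsto_map'_iff]
        exact h y
      exact (Gd_lim h3).comp h2)
  rw [integral_zero] at h1
  exact h1

variable (μ : Measure ℝ) [IsProbabilityMeasure μ]

theorem gd_cont : Continuous (gd μ) := by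
  refine continuous_of_dominated (bound := fun _ => (Real.sqrt (2 * Real.pi * (1 : ℝ≥0)))⁻¹) ?_ ?_ ?_ ?_
  · intro x
    exact (Gd_cont.comp (continuous_const.sub continuous_id)).aestronglyMeasurable
  · intro x
    exact Eventually.of_forall fun y => Gd_bd _
  · exact integrable_const _
  · exact Eventually.of_forall fun y => Gd_cont.comp (continuous_id.sub continuous_const)

theorem gd_pos (x : ℝ) : 0 < gd μ x := by
  unfold gd
  rw [integral_pos_iff_support_of_nonneg (fun y => gaussianPDFReal_nonneg 0 1 (x - y)) (Gd_int μ x)]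
  have h1 : Function.support (fun y => gaussianPDFReal 0 1 (x - y)) = univ := by
    ext y
    simp only [Function.mem_support, mem_univ, iff_true]
    exact (gaussianPDFReal_pos 0 1 (x - y) one_ne_zero).ne'
  rw [h1, measure_univ]
  exact one_pos

theorem gd_top : Tendsto (gd μ) atTop (𝓝 0) := by
  refine Gd_limgd μ fun y => ?_
  exact (tendsto_pow_atTop two_ne_zero).comp (tendsto_atTop_add_const_right _ (-y) tendsto_id)

theorem gd_bot : Tendsto (gd μ) atBot (𝓝 0) := by
  refine Gd_limgd μ fun y => ?_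
  have h1 : (fun x : ℝ => (x - y) ^ 2) = fun x : ℝ => (-x + y) ^ 2 := by
    funext x
    ring
  rw [h1]
  exact (tendsto_pow_atTop two_ne_zero).comp (tendsto_atTop_add_const_right _ y tendsto_neg_atBot_atTop)

theorem conv_gauss :
    μ ∗ gaussianReal 0 1 = volume.withDensity (fun x => ENNReal.ofReal (gd μ x)) := by
  have hm : Measurable fun x : ℝ => ENNReal.ofReal (gaussianPDFReal 0 1 x) :=
    ENNReal.measurable_ofReal.comp (measurable_gaussianPDFReal 0 1)
  have hg : Measurable fun x : ℝ => ENNReal.ofReal (gd μ x) :=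
    ENNReal.measurable_ofReal.comp (gd_cont μ).measurable
  refine Measure.ext_of_lintegral _ fun f hf => ?_
  rw [lintegral_withDensity_eq_lintegral_mul _ hg hf, Measure.lintegral_conv hf]
  have h1 : ∀ x : ℝ, ∫⁻ y, f (x + y) ∂(gaussianReal 0 1) =
      ∫⁻ z, ENNReal.ofReal (gaussianPDFReal 0 1 (z - x)) * f z := by
    intro x
    have hfx : Measurable fun y : ℝ => f (x + y) := hf.comp (measurable_const.add measurable_id)
    rw [gaussianReal_of_var_ne_zero 0 one_ne_zero, gaussianPDF_def,
      lintegral_withDensity_eq_lintegral_mul _ hm hfx]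
    rw [← lintegral_sub_right_eq_self (fun y => ((fun x : ℝ => ENNReal.ofReal (gaussianPDFReal 0 1 x)) *
      fun y => f (x + y)) y) x]
    refine lintegral_congr fun z => ?_
    simp only [Pi.mul_apply]
    rw [add_sub_cancel]
  simp only [h1]
  rw [lintegral_lintegral_swap]
  · refine lintegral_congr fun z => ?_
    rw [lintegral_mul_const]
    · simp only [Pi.mul_apply]
      congr 1
      unfold gd
      rw [ofReal_integral_eq_lintegral_ofReal (Gd_int μ z)
        (Eventually.of_forall fun y => gaussianPDFReal_nonneg 0 1 (z - y))]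
    · exact hm.comp (measurable_const.sub measurable_id)
  · refine Measurable.aemeasurable ?_
    exact (hm.comp (measurable_snd.sub measurable_fst)).mul (hf.comp measurable_snd)

theorem gd_integrable : Integrable (gd μ) := by
  rw [← lintegral_ofReal_ne_top_iff_integrable (gd_cont μ).aestronglyMeasurable
    (Eventually.of_forall fun x => (gd_pos μ x).le)]
  have h1 : (μ ∗ gaussianReal 0 1) univ = ∫⁻ a, ENNReal.ofReal (gd μ a) := by
    rw [conv_gauss μ, withDensity_apply _ MeasurableSet.univ, Measure.restrict_univ]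
  rw [← h1]
  exact measure_ne_top _ _

theorem gd_deriv (x : ℝ) : HasDerivAt (dfn (μ ∗ gaussianReal 0 1)) (gd μ x) x := by
  have hi := gd_integrable μ
  have h1 : dfn (μ ∗ gaussianReal 0 1) = fun x => (∫ y in Iic (0 : ℝ), gd μ y) + ∫ y in (0 : ℝ)..x, gd μ y := by
    funext x
    rw [← intervalIntegral.integral_Iic_sub_Iic hi.integrableOn hi.integrableOn, add_sub_cancel]
    unfold dfn Measure.real
    rw [conv_gauss μ, withDensity_apply _ measurableSet_Iic,
      integral_eq_lintegral_of_nonneg_ae (Eventually.of_forall fun x => (gd_pos μ x).le)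
        (gd_cont μ).aestronglyMeasurable]
  rw [h1]
  refine HasDerivAt.const_add _ ?_
  exact intervalIntegral.integral_hasDerivAt_right hi.intervalIntegrable
    ((gd_cont μ).stronglyMeasurableAtFilter _ _) (gd_cont μ).continuousAt

end Pool.Agent.Lib.MP_a80c92_pr
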