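import Pool.Agent.Lib.MP_a80c92_pr.LimB

/-! # JOB LimC: the convexity inequality in the limit (along an ultrafilter)

PROOF of `limit_convex`. Let `F_n = dfn (...)`, `i_n = ⌊(x - b n)/δ n⌋`, `j_n`, `k_n` the same for
`y`, `z`. Eventually along `U`: `b n + δ n a_n > z` (`A > z`), so `(z - b n)/δ n < a n` and
`k_n ≤ a n`. `i_n ≤ j_n ≤ k_n`. `lattice_convex` gives
`(k_n - i_n) F_n(y) ≤ (k_n - j_n) F_n(x) + (j_n - i_n) F_n(z)`; multiply by `δ n`; since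
`|δ n k_n - (z - b n)| ≤ δ n → 0`, `δ n (k_n - i_n) → z - x` etc.; `F_n → F` at the three points.
`limit_concave`: the same with `A < x`: eventually `b n + δ n a_n < x`, so `a n ≤ i_n`. -/

open MeasureTheory Set Filter Topology ProbabilityTheory
open scoped ENNReal NNReal

namespace Pool.Agent.Lib.MP_a80c92_pr

private theorem limC_tendsto (b δ : ℕ → ℝ) (hδ : ∀ n, 0 < δ n) (hδ0 : Tendsto δ atTop (𝓝 0)) (u : ℝ) :
    Tendsto (fun n => b n + δ n * ((⌊(u - b n) / δ n⌋ : ℤ) : ℝ)) atTop (𝓝 u) := by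
  have h1 : Tendsto (fun n => u - δ n) atTop (𝓝 u) := by
    have h2 := (tendsto_const_nhds (x := u)).sub hδ0
    rw [sub_zero] at h2
    exact h2
  refine tendsto_of_tendsto_of_tendsto_of_le_of_le h1 tendsto_const_nhds ?_ ?_
  · intro n
    have h2 : (u - b n) / δ n < (⌊(u - b n) / δ n⌋ : ℝ) + 1 := Int.lt_floor_add_one _
    have h3 := (div_lt_iff₀ (hδ n)).1 h2
    show u - δ n ≤ b n + δ n * ((⌊(u - b n) / δ n⌋ : ℤ) : ℝ)
    linarith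
  · intro n
    have h2 : (⌊(u - b n) / δ n⌋ : ℝ) ≤ (u - b n) / δ n := Int.floor_le _
    have h3 := (le_div_iff₀ (hδ n)).1 h2
    show b n + δ n * ((⌊(u - b n) / δ n⌋ : ℤ) : ℝ) ≤ u
    linarith

private theorem limC_mono (b δ : ℝ) (hδ : 0 < δ) {u v : ℝ} (h : u < v) : ⌊(u - b) / δ⌋ ≤ ⌊(v - b) / δ⌋ := by
  apply Int.floor_le_floor
  apply div_le_div_of_nonneg_right _ hδ.le
  linarith

theorem limit_convex (Y : ℕ → Measure ℤ) [∀ n, IsProbabilityMeasure (Y n)] (a : ℕ → ℤ)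
    (h : ∀ n, MonotoneOn (fun k : ℤ => (Y n).real {k}) (Iic (a n))) (b δ : ℕ → ℝ)
    (hδ : ∀ n, 0 < δ n) (hδ0 : Tendsto δ atTop (𝓝 0)) (H : Measure ℝ) [IsProbabilityMeasure H]
    (hH : ∀ x, H {x} = 0 → Tendsto (fun n => dfn ((Y n).map (fun z : ℤ => b n + δ n * (z : ℝ))) x)
      atTop (𝓝 (dfn H x)))
    (U : Filter ℕ) [U.NeBot] (hU : U ≤ atTop) (x y z : ℝ) (hxy : x < y) (hyz : y < z)
    (hz : ∀ᶠ n in U, z < b n + δ n * (a n : ℝ))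
    (hx0 : H {x} = 0) (hy0 : H {y} = 0) (hz0 : H {z} = 0) :
    (z - x) * dfn H y ≤ (z - y) * dfn H x + (y - x) * dfn H z := by
  have gx := (limC_tendsto b δ hδ hδ0 x).mono_left hU
  have gy := (limC_tendsto b δ hδ hδ0 y).mono_left hU
  have gz := (limC_tendsto b δ hδ hδ0 z).mono_left hU
  have fx := (hH x hx0).mono_left hU
  have fy := (hH y hy0).mono_left hU
  have fz := (hH z hz0).mono_left hU
  refine le_of_tendsto_of_tendsto ((gz.sub gx).mul fy) (((gz.sub gy).mul fx).add ((gy.sub gx).mul fz)) ?_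
  filter_upwards [hz] with n hn
  have hk : ⌊(z - b n) / δ n⌋ ≤ a n := by
    have h1 : (z - b n) / δ n < (a n : ℝ) := by
      rw [div_lt_iff₀ (hδ n)]
      linarith
    have h2 : ((⌊(z - b n) / δ n⌋ : ℤ) : ℝ) < (a n : ℝ) := lt_of_le_of_lt (Int.floor_le _) h1
    exact (Int.cast_lt.1 h2).le
  have h3 := lattice_convex (Y n) (a n) (h n) _ _ _ (limC_mono (b n) (δ n) (hδ n) hxy) (limC_mono (b n) (δ n) (hδ n) hyz) hk
  rw [← dfn_lattice (Y n) (b n) (δ n) (hδ n), ← dfn_lattice (Y n) (b n) (δ n) (hδ n),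
    ← dfn_lattice (Y n) (b n) (δ n) (hδ n)] at h3
  push_cast at h3
  have h4 := mul_le_mul_of_nonneg_left h3 (hδ n).le
  show (b n + δ n * ((⌊(z - b n) / δ n⌋ : ℤ) : ℝ) - (b n + δ n * ((⌊(x - b n) / δ n⌋ : ℤ) : ℝ))) * _ ≤
    (b n + δ n * ((⌊(z - b n) / δ n⌋ : ℤ) : ℝ) - (b n + δ n * ((⌊(y - b n) / δ n⌋ : ℤ) : ℝ))) * _ +
    (b n + δ n * ((⌊(y - b n) / δ n⌋ : ℤ) : ℝ) - (b n + δ n * ((⌊(x - b n) / δ n⌋ : ℤ) : ℝ))) * _
  linarith

theorem limit_concave (Y : ℕ → Measure ℤ) [∀ n, IsProbabilityMeasure (Y n)] (a : ℕ → ℤ)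
    (h : ∀ n, AntitoneOn (fun k : ℤ => (Y n).real {k}) (Ici (a n))) (b δ : ℕ → ℝ)
    (hδ : ∀ n, 0 < δ n) (hδ0 : Tendsto δ atTop (𝓝 0)) (H : Measure ℝ) [IsProbabilityMeasure H]
    (hH : ∀ x, H {x} = 0 → Tendsto (fun n => dfn ((Y n).map (fun z : ℤ => b n + δ n * (z : ℝ))) x)
      atTop (𝓝 (dfn H x)))
    (U : Filter ℕ) [U.NeBot] (hU : U ≤ atTop) (x y z : ℝ) (hxy : x < y) (hyz : y < z)
    (hx : ∀ᶠ n in U, b n + δ n * (a n : ℝ) < x)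
    (hx0 : H {x} = 0) (hy0 : H {y} = 0) (hz0 : H {z} = 0) :
    (z - y) * dfn H x + (y - x) * dfn H z ≤ (z - x) * dfn H y := by
  have gx := (limC_tendsto b δ hδ hδ0 x).mono_left hU
  have gy := (limC_tendsto b δ hδ hδ0 y).mono_left hU
  have gz := (limC_tendsto b δ hδ hδ0 z).mono_left hU
  have fx := (hH x hx0).mono_left hU
  have fy := (hH y hy0).mono_left hU
  have fz := (hH z hz0).mono_left hU
  refine le_of_tendsto_of_tendsto (((gz.sub gy).mul fx).add ((gy.sub gx).mul fz)) ((gz.sub gx).mul fy) ?_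
  filter_upwards [hx] with n hn
  have hi : a n ≤ ⌊(x - b n) / δ n⌋ := by
    rw [Int.le_floor, le_div_iff₀ (hδ n)]
    linarith
  have h3 := lattice_concave (Y n) (a n) (h n) _ _ _ (limC_mono (b n) (δ n) (hδ n) hxy) (limC_mono (b n) (δ n) (hδ n) hyz) hi
  rw [← dfn_lattice (Y n) (b n) (δ n) (hδ n), ← dfn_lattice (Y n) (b n) (δ n) (hδ n),
    ← dfn_lattice (Y n) (b n) (δ n) (hδ n)] at h3
  push_cast at h3
  have h4 := mul_le_mul_of_nonneg_left h3 (hδ n).le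
  show (b n + δ n * ((⌊(z - b n) / δ n⌋ : ℤ) : ℝ) - (b n + δ n * ((⌊(y - b n) / δ n⌋ : ℤ) : ℝ))) * _ +
    (b n + δ n * ((⌊(y - b n) / δ n⌋ : ℤ) : ℝ) - (b n + δ n * ((⌊(x - b n) / δ n⌋ : ℤ) : ℝ))) * _ ≤
    (b n + δ n * ((⌊(z - b n) / δ n⌋ : ℤ) : ℝ) - (b n + δ n * ((⌊(x - b n) / δ n⌋ : ℤ) : ℝ))) * _
  linarith

end Pool.Agent.Lib.MP_a80c92_pr
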