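import Pool.Agent.Lib.MP_a80c92_pr.LimA
import Pool.Agent.Lib.MP_a80c92_pr.LimC
import Pool.Agent.Lib.MP_a80c92_pr.LimD

/-! # JOB LimE: limits of unimodal lattice laws

PROOF. `hH` of `LimC` follows from `tendsto_dfn_of_charFun` (the laws `(Y n).map _` are probability
measures). Choose the modes `a n` of `Y n` (`DU`). Let `U` be an ultrafilter `≤ atTop`
(`Ultrafilter.of atTop`); the image of `U` under `n ↦ ((b n + δ n a n : ℝ) : EReal)` converges in
the compact space `EReal` to some `A` (`Ultrafilter.le_nhds_of...`,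
`isCompact_univ.ultrafilter_le_nhds`). `A = ⊤`: `limit_convex` for all `x<y<z` and `no_convex`;
`A = ⊥`: `limit_concave` and `no_concave`. `A = r` real: for `z < r` eventually
`z < b n + δ n a n`: `convexOn_of_cont`, and `concaveOn_of_cont`, mode `r`. -/

open MeasureTheory Set Filter Topology ProbabilityTheory
open scoped ENNReal NNReal

namespace Pool.Agent.Lib.MP_a80c92_pr

theorem unimodal_of_lattice_limit (Y : ℕ → Measure ℤ) [∀ n, IsProbabilityMeasure (Y n)]
    (hY : ∀ n, DU (Y n)) (b δ : ℕ → ℝ) (hδ : ∀ n, 0 < δ n) (hδ0 : Tendsto δ atTop (𝓝 0))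
    (H : Measure ℝ) [IsProbabilityMeasure H]
    (hH : ∀ t : ℝ, Tendsto
      (fun n => charFun ((Y n).map (fun z : ℤ => b n + δ n * (z : ℝ))) t) atTop
      (𝓝 (charFun H t))) : Unimodal H := by
  have hm : ∀ n, Measurable (fun z : ℤ => b n + δ n * (z : ℝ)) := fun n => measurable_of_countable _
  haveI : ∀ n, IsProbabilityMeasure ((Y n).map (fun z : ℤ => b n + δ n * (z : ℝ))) := fun n =>
    Measure.isProbabilityMeasure_map (hm n).aemeasurable
  have hH' : ∀ x, H {x} = 0 →
      Tendsto (fun n => dfn ((Y n).map (fun z : ℤ => b n + δ n * (z : ℝ))) x)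
        atTop (𝓝 (dfn H x)) := fun x hx =>
    tendsto_dfn_of_charFun (fun n => (Y n).map (fun z : ℤ => b n + δ n * (z : ℝ))) H hH x hx
  choose a ha using hY
  have hU : ((Ultrafilter.of atTop : Ultrafilter ℕ) : Filter ℕ) ≤ atTop := Ultrafilter.of_le atTop
  generalize (Ultrafilter.of atTop : Ultrafilter ℕ) = U at hU
  obtain ⟨A, -, hA⟩ := isCompact_univ.ultrafilter_le_nhds
    (U.map (fun n => ((b n + δ n * (a n : ℝ) : ℝ) : EReal))) (by simp)
  have hT : Tendsto (fun n => ((b n + δ n * (a n : ℝ) : ℝ) : EReal)) (U : Filter ℕ) (𝓝 A) := hA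
  have hup : ∀ z : ℝ, (z : EReal) < A → ∀ᶠ n in (U : Filter ℕ), z < b n + δ n * (a n : ℝ) := by
    intro z hz
    have := hT.eventually (lt_mem_nhds hz)
    exact this.mono (fun n hn => EReal.coe_lt_coe_iff.1 hn)
  have hdn : ∀ z : ℝ, A < (z : EReal) → ∀ᶠ n in (U : Filter ℕ), b n + δ n * (a n : ℝ) < z := by
    intro z hz
    have := hT.eventually (gt_mem_nhds hz)
    exact this.mono (fun n hn => EReal.coe_lt_coe_iff.1 hn)
  have hcx : ∀ x y z : ℝ, x < y → y < z → (z : EReal) < A → H {x} = 0 → H {y} = 0 → H {z} = 0 →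
      (z - x) * dfn H y ≤ (z - y) * dfn H x + (y - x) * dfn H z :=
    fun x y z hxy hyz hz hx0 hy0 hz0 =>
      limit_convex Y a (fun n => (ha n).1) b δ hδ hδ0 H hH' (U : Filter ℕ) hU x y z hxy hyz
        (hup z hz) hx0 hy0 hz0
  have hcv : ∀ x y z : ℝ, A < (x : EReal) → x < y → y < z → H {x} = 0 → H {y} = 0 → H {z} = 0 →
      (z - y) * dfn H x + (y - x) * dfn H z ≤ (z - x) * dfn H y :=
    fun x y z hx hxy hyz hx0 hy0 hz0 =>
      limit_concave Y a (fun n => (ha n).2) b δ hδ hδ0 H hH' (U : Filter ℕ) hU x y z hxy hyz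
        (hdn x hx) hx0 hy0 hz0
  induction A using EReal.rec with
  | bot =>
    exact (no_concave H (fun x y z hxy hyz => hcv x y z (EReal.bot_lt_coe x) hxy hyz)).elim
  | top =>
    exact (no_convex H (fun x y z hxy hyz => hcx x y z hxy hyz (EReal.coe_lt_top z))).elim
  | coe r =>
    exact ⟨r, convexOn_of_cont H r (fun x y z hxy hyz hz =>
        hcx x y z hxy hyz (EReal.coe_lt_coe_iff.2 hz)),
      concaveOn_of_cont H r (fun x y z hx hxy hyz =>
        hcv x y z (EReal.coe_lt_coe_iff.2 hx) hxy hyz)⟩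

end Pool.Agent.Lib.MP_a80c92_pr
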