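import Pool.Agent.Lib.MP_a80c92_pr.Defs

/-! # JOB TstB: convolution with a test law

PROOF. `tl_conv_deriv`: `dfn (ρ ∗ tl) z = ∫ ρ.real (Iic (z - u)) d tl(u)
 = c1 ∫_{a1}^{b1} F(z-u) du + c2 ∫_{a2}^{b2} F(z-u) du`, `F = dfn ρ` continuous
(`hd`), `∫_a^b F(z-u) du = ∫_{z-b}^{z-a} F` (`intervalIntegral.integral_comp_sub_left`), derivative
`F(z-a) - F(z-b)` (fundamental theorem of calculus).
`no_sign_change`: let `a` be a mode of `ρ ∗ tl`, `K` its distribution function, `K'` as in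
`tl_conv_deriv`, which is differentiable with derivative
`K''(z) = c1 (f(z-a1) - f(z-b1)) + c2 (f(z-a2) - f(z-b2))`, continuous. `K` convex on `Iio a`:
`K'` is monotone there (`ConvexOn.monotoneOn_deriv` or similar), so `K'' ≥ 0` on `Iio a`, and
`K'' ≤ 0` on `Ioi a`; by continuity the same on the closed half lines. `K''(x) < 0` implies
that `x` is not in `Iic a`, `K''(y) > 0` that `y` is not in `Ici a`. Contradiction with
`x < y`. -/

open MeasureTheory Set Filter Topology ProbabilityTheory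
open scoped ENNReal NNReal

namespace Pool.Agent.Lib.MP_a80c92_pr

private theorem TstB_fin (c1 a1 b1 c2 a2 b2 : ℝ) : IsFiniteMeasure (tl c1 a1 b1 c2 a2 b2) := by
  unfold tl
  have h1 : IsFiniteMeasure (volume.restrict (Ioc a1 b1)) := ⟨by
    rw [Measure.restrict_apply_univ, Real.volume_Ioc]
    exact ENNReal.ofReal_lt_top⟩
  have h2 : IsFiniteMeasure (volume.restrict (Ioc a2 b2)) := ⟨by
    rw [Measure.restrict_apply_univ, Real.volume_Ioc]
    exact ENNReal.ofReal_lt_top⟩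
  have h3 : IsFiniteMeasure (ENNReal.ofReal c1 • volume.restrict (Ioc a1 b1)) :=
    Measure.smul_finite _ ENNReal.ofReal_ne_top
  have h4 : IsFiniteMeasure (ENNReal.ofReal c2 • volume.restrict (Ioc a2 b2)) :=
    Measure.smul_finite _ ENNReal.ofReal_ne_top
  exact inferInstance

/-- the distribution function of a convolution -/
private theorem TstB_conv (ρ ν : Measure ℝ) [IsFiniteMeasure ρ] [IsFiniteMeasure ν] (z : ℝ) :
    dfn (ρ ∗ ν) z = ∫ u, dfn ρ (z - u) ∂ν := by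
  unfold dfn
  rw [Measure.conv_comm, ← integral_indicator_one measurableSet_Iic, integral_conv]
  · refine integral_congr_ae (Eventually.of_forall fun u => ?_)
    show ∫ y, (Iic z).indicator (1 : ℝ → ℝ) (u + y) ∂ρ = ρ.real (Iic (z - u))
    rw [← integral_indicator_one measurableSet_Iic]
    refine integral_congr_ae (Eventually.of_forall fun y => ?_)
    show (Iic z).indicator (1 : ℝ → ℝ) (u + y) = (Iic (z - u)).indicator (1 : ℝ → ℝ) y
    by_cases h : u + y ≤ z
    · rw [indicator_of_mem (show u + y ∈ Iic z from h),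
        indicator_of_mem (show y ∈ Iic (z - u) from (by linarith : y ≤ z - u))]
      rfl
    · rw [indicator_of_notMem (show u + y ∉ Iic z from h),
        indicator_of_notMem (show y ∉ Iic (z - u) from fun h' => h (by
          have h'' : y ≤ z - u := h'
          linarith))]
  · exact (integrable_const (1 : ℝ)).indicator measurableSet_Iic

private theorem TstB_part (F : ℝ → ℝ) (hF : Continuous F) {a b : ℝ} (h : a ≤ b) (z : ℝ) :
    ∫ u in Ioc a b, F (z - u) = (∫ t in (0 : ℝ)..(z - a), F t) - ∫ t in (0 : ℝ)..(z - b), F t := by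
  rw [← intervalIntegral.integral_of_le h, intervalIntegral.integral_comp_sub_left,
    intervalIntegral.integral_interval_sub_left (hF.intervalIntegrable _ _) (hF.intervalIntegrable _ _)]

private theorem TstB_eq (ρ : Measure ℝ) [IsProbabilityMeasure ρ] (hF : Continuous (dfn ρ))
    (c1 a1 b1 c2 a2 b2 : ℝ) (h1 : a1 ≤ b1) (h2 : a2 ≤ b2) (hc1 : 0 ≤ c1) (hc2 : 0 ≤ c2) :
    dfn (ρ ∗ tl c1 a1 b1 c2 a2 b2) = fun z =>
      c1 * ((∫ t in (0 : ℝ)..(z - a1), dfn ρ t) - ∫ t in (0 : ℝ)..(z - b1), dfn ρ t) +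
      c2 * ((∫ t in (0 : ℝ)..(z - a2), dfn ρ t) - ∫ t in (0 : ℝ)..(z - b2), dfn ρ t) := by
  funext z
  have hfin := TstB_fin c1 a1 b1 c2 a2 b2
  rw [TstB_conv]
  have hi : ∀ a b : ℝ, Integrable (fun u => dfn ρ (z - u)) (volume.restrict (Ioc a b)) := by
    intro a b
    have hc : Continuous fun u => dfn ρ (z - u) := hF.comp (continuous_const.sub continuous_id)
    exact hc.integrableOn_Ioc
  unfold tl
  rw [integral_add_measure ((hi a1 b1).smul_measure ENNReal.ofReal_ne_top)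
    ((hi a2 b2).smul_measure ENNReal.ofReal_ne_top), integral_smul_measure, integral_smul_measure,
    ENNReal.toReal_ofReal hc1, ENNReal.toReal_ofReal hc2, TstB_part _ hF h1, TstB_part _ hF h2,
    smul_eq_mul, smul_eq_mul]

private theorem TstB_prim (F : ℝ → ℝ) (hF : Continuous F) (a z : ℝ) :
    HasDerivAt (fun z => ∫ t in (0 : ℝ)..(z - a), F t) (F (z - a)) z := by
  have h1 := (hF.integral_hasStrictDerivAt 0 (z - a)).hasDerivAt
  have h2 : HasDerivAt (fun z : ℝ => z - a) 1 z := (hasDerivAt_id z).sub_const a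
  have h3 := HasDerivAt.comp (h₂ := fun u => ∫ t in (0 : ℝ)..u, F t) (h := fun z : ℝ => z - a) z h1 h2
  rw [mul_one] at h3
  exact h3

theorem tl_conv_deriv (ρ : Measure ℝ) [IsProbabilityMeasure ρ] (f : ℝ → ℝ)
    (hd : ∀ x, HasDerivAt (dfn ρ) (f x) x) (c1 a1 b1 c2 a2 b2 : ℝ) (h1 : a1 ≤ b1)
    (h2 : a2 ≤ b2) (hc1 : 0 ≤ c1) (hc2 : 0 ≤ c2) (z : ℝ) :
    HasDerivAt (dfn (ρ ∗ tl c1 a1 b1 c2 a2 b2))
      (c1 * (dfn ρ (z - a1) - dfn ρ (z - b1)) + c2 * (dfn ρ (z - a2) - dfn ρ (z - b2))) z := by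
  have hF : Continuous (dfn ρ) := continuous_iff_continuousAt.2 fun x => (hd x).continuousAt
  rw [TstB_eq ρ hF c1 a1 b1 c2 a2 b2 h1 h2 hc1 hc2]
  exact (((TstB_prim _ hF a1 z).sub (TstB_prim _ hF b1 z)).const_mul c1).add
    (((TstB_prim _ hF a2 z).sub (TstB_prim _ hF b2 z)).const_mul c2)

theorem no_sign_change (ρ : Measure ℝ) [IsProbabilityMeasure ρ] (f : ℝ → ℝ)
    (hf : Continuous f) (hd : ∀ x, HasDerivAt (dfn ρ) (f x) x) (c1 a1 b1 c2 a2 b2 : ℝ)
    (h1 : a1 ≤ b1) (h2 : a2 ≤ b2) (hc1 : 0 ≤ c1) (hc2 : 0 ≤ c2)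
    (hu : Unimodal (ρ ∗ tl c1 a1 b1 c2 a2 b2)) (x y : ℝ) (hxy : x < y)
    (hx : c1 * (f (x - a1) - f (x - b1)) + c2 * (f (x - a2) - f (x - b2)) < 0)
    (hy : 0 < c1 * (f (y - a1) - f (y - b1)) + c2 * (f (y - a2) - f (y - b2))) : False := by
  obtain ⟨a, hconv, hconc⟩ := hu
  obtain ⟨K1, hK1⟩ : ∃ K1 : ℝ → ℝ, K1 = fun z =>
      c1 * (dfn ρ (z - a1) - dfn ρ (z - b1)) + c2 * (dfn ρ (z - a2) - dfn ρ (z - b2)) := ⟨_, rfl⟩
  obtain ⟨K2, hK2⟩ : ∃ K2 : ℝ → ℝ, K2 = fun z =>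
      c1 * (f (z - a1) - f (z - b1)) + c2 * (f (z - a2) - f (z - b2)) := ⟨_, rfl⟩
  have d0 : ∀ z, HasDerivAt (dfn (ρ ∗ tl c1 a1 b1 c2 a2 b2)) (K1 z) z := by
    intro z
    rw [hK1]
    exact tl_conv_deriv ρ f hd c1 a1 b1 c2 a2 b2 h1 h2 hc1 hc2 z
  have hs : ∀ a z : ℝ, HasDerivAt (fun z => dfn ρ (z - a)) (f (z - a)) z := by
    intro a z
    have h3 := HasDerivAt.comp (h₂ := dfn ρ) (h := fun z : ℝ => z - a) z (hd (z - a))
      ((hasDerivAt_id z).sub_const a)
    rw [mul_one] at h3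
    exact h3
  have d1 : ∀ z, HasDerivAt K1 (K2 z) z := by
    intro z
    rw [hK1, hK2]
    exact (((hs a1 z).sub (hs b1 z)).const_mul c1).add (((hs a2 z).sub (hs b2 z)).const_mul c2)
  have hK2c : Continuous K2 := by
    rw [hK2]
    fun_prop
  have hder : deriv (dfn (ρ ∗ tl c1 a1 b1 c2 a2 b2)) = K1 := funext fun z => (d0 z).deriv
  have m1 : MonotoneOn K1 (Iio a) := by
    have h := hconv.monotoneOn_deriv fun z _ => (d0 z).differentiableAt
    rw [hder] at h
    exact h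
  have m2 : AntitoneOn K1 (Ioi a) := by
    have h := hconc.antitoneOn_deriv fun z _ => (d0 z).differentiableAt
    rw [hder] at h
    exact h
  have p1 : ∀ z, z < a → 0 ≤ K2 z := by
    intro z hz
    have h := m1.derivWithin_nonneg (x := z)
    rw [derivWithin_of_isOpen isOpen_Iio (show z ∈ Iio a from hz), (d1 z).deriv] at h
    exact h
  have p2 : ∀ z, a < z → K2 z ≤ 0 := by
    intro z hz
    have h := m2.derivWithin_nonpos (x := z)
    rw [derivWithin_of_isOpen isOpen_Ioi (show z ∈ Ioi a from hz), (d1 z).deriv] at h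
    exact h
  have q1 : 0 ≤ K2 a := by
    have ht : Tendsto K2 (𝓝[<] a) (𝓝 (K2 a)) := hK2c.continuousAt.tendsto.mono_left nhdsWithin_le_nhds
    exact ge_of_tendsto ht (eventually_nhdsWithin_of_forall fun z hz => p1 z hz)
  have q2 : K2 a ≤ 0 := by
    have ht : Tendsto K2 (𝓝[>] a) (𝓝 (K2 a)) := hK2c.continuousAt.tendsto.mono_left nhdsWithin_le_nhds
    exact le_of_tendsto ht (eventually_nhdsWithin_of_forall fun z hz => p2 z hz)
  have hx' : K2 x < 0 := by
    rw [hK2]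
    exact hx
  have hy' : 0 < K2 y := by
    rw [hK2]
    exact hy
  have hax : a < x := by
    by_contra hc
    rcases lt_or_eq_of_le (not_lt.1 hc) with h | h
    · exact absurd (p1 x h) (not_le.2 hx')
    · rw [h] at hx'
      exact absurd q1 (not_le.2 hx')
  have hya : y < a := by
    by_contra hc
    rcases lt_or_eq_of_le (not_lt.1 hc) with h | h
    · exact absurd (p2 y h) (not_le.2 hy')
    · rw [← h] at hy'
      exact absurd q2 (not_le.2 hy')
  linarith

end Pool.Agent.Lib.MP_a80c92_pr
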