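import Pool.Agent.Lib.MP_a80c92_pr.TstA
import Pool.Agent.Lib.MP_a80c92_pr.TstB

/-! # JOB Ibr: Ibragimov's theorem for laws with a positive continuous density

PROOF. Suppose `f (x+t) f y < f x f (y+t)`. Then `f(x+t)/f x < f(y+t)/f y`; choose `θ > 0`
strictly between: `f(x+t) - θ f x < 0 < f(y+t) - θ f y`.
Case `θ ≥ 1`: test law `tl c (-t) 0 (c (θ-1)) (-A) 0`, `c = 1/(t + (θ-1) A)`, `A > 0` large:
the expression in `no_sign_change` is `c (f(z+t) - f z) + c (θ-1) (f(z+A) - f z)
 = c [f(z+t) - θ f z + (θ-1) f(z+A)]`, at `z = x` negative for large `A`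
(`f → 0` at `+∞`), at `z = y` positive since `f > 0`. `tl_unimodal_right`.
Case `θ < 1`: `tl (c θ) (-t) 0 (c (1-θ)) (-t) B`, `c = 1/(θ t + (1-θ)(t+B))`, `B > 0` large: the
expression is `c θ (f(z+t) - f z) + c (1-θ) (f(z+t) - f(z-B))
 = c [f(z+t) - θ f z - (1-θ) f(z-B)]`, at `x` negative, at `y` positive for large `B`.
`tl_unimodal_left`. In both cases `tl_prob`, strong unimodality of `ρ` and `no_sign_change` give
the contradiction. -/

open MeasureTheory Set Filter Topology ProbabilityTheory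
open scoped ENNReal NNReal

namespace Pool.Agent.Lib.MP_a80c92_pr

theorem ibragimov (ρ : Measure ℝ) [IsProbabilityMeasure ρ] (hsu : StronglyUnimodal ρ)
    (f : ℝ → ℝ) (hf : Continuous f) (hpos : ∀ x, 0 < f x)
    (hd : ∀ x, HasDerivAt (dfn ρ) (f x) x) (htop : Tendsto f atTop (𝓝 0))
    (hbot : Tendsto f atBot (𝓝 0)) (x y t : ℝ) (hxy : x < y) (ht : 0 < t) :
    f x * f (y + t) ≤ f (x + t) * f y := by
  by_contra hcon
  rw [not_le] at hcon
  have hlt : f (x + t) / f x < f (y + t) / f y := by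
    rw [div_lt_div_iff₀ (hpos x) (hpos y)]
    linarith
  obtain ⟨θ, h1, h2⟩ := exists_between hlt
  have hθ : 0 < θ := lt_trans (div_pos (hpos _) (hpos _)) h1
  have hx : f (x + t) < θ * f x := by
    have := (div_lt_iff₀ (hpos x)).1 h1
    exact this
  have hy : θ * f y < f (y + t) := (lt_div_iff₀ (hpos y)).1 h2
  rcases le_or_gt 1 θ with hθ1 | hθ1
  · -- the first case
    have hA : ∃ A : ℝ, 0 < A ∧ (θ - 1) * f (x + A) < θ * f x - f (x + t) := by
      have h3 : Tendsto (fun A : ℝ => (θ - 1) * f (x + A)) atTop (𝓝 ((θ - 1) * 0)) :=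
        (htop.comp (tendsto_atTop_add_const_left atTop x tendsto_id)).const_mul (θ - 1)
      rw [mul_zero] at h3
      have h4 := (h3.eventually (gt_mem_nhds (sub_pos.2 hx))).and (eventually_gt_atTop (0 : ℝ))
      obtain ⟨A, hA1, hA2⟩ := h4.exists
      exact ⟨A, hA2, hA1⟩
    obtain ⟨A, hA0, hA⟩ := hA
    have hden : 0 < t + (θ - 1) * A := by
      have : 0 ≤ (θ - 1) * A := mul_nonneg (by linarith) hA0.le
      linarith
    obtain ⟨c, hc⟩ : ∃ c : ℝ, c = (t + (θ - 1) * A)⁻¹ := ⟨_, rfl⟩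
    have hc0 : 0 < c := by rw [hc]; exact inv_pos.2 hden
    have hc1 : c * (t + (θ - 1) * A) = 1 := by rw [hc]; exact inv_mul_cancel₀ hden.ne'
    have hcθ : 0 ≤ c * (θ - 1) := mul_nonneg hc0.le (by linarith)
    have hpr : IsProbabilityMeasure (tl c (-t) 0 (c * (θ - 1)) (-A) 0) :=
      tl_prob c (-t) 0 (c * (θ - 1)) (-A) 0 (by linarith) (by linarith) hc0.le hcθ (by linarith)
    have hun := hsu _ hpr (tl_unimodal_right c (-t) (c * (θ - 1)) (-A) 0 (by linarith) (by linarith) hc0.le hcθ)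
    refine no_sign_change ρ f hf hd c (-t) 0 (c * (θ - 1)) (-A) 0 (by linarith) (by linarith) hc0.le hcθ hun
      x y hxy ?_ ?_
    · rw [sub_neg_eq_add, sub_neg_eq_add, sub_zero]
      have e : c * (f (x + t) - f x) + c * (θ - 1) * (f (x + A) - f x) =
          c * (f (x + t) - θ * f x + (θ - 1) * f (x + A)) := by ring
      rw [e]
      exact mul_neg_of_pos_of_neg hc0 (by linarith)
    · rw [sub_neg_eq_add, sub_neg_eq_add, sub_zero]
      have e : c * (f (y + t) - f y) + c * (θ - 1) * (f (y + A) - f y) =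
          c * (f (y + t) - θ * f y + (θ - 1) * f (y + A)) := by ring
      rw [e]
      have h5 : 0 ≤ (θ - 1) * f (y + A) := mul_nonneg (by linarith) (hpos _).le
      exact mul_pos hc0 (by linarith)
  · -- the second case
    have hB : ∃ B : ℝ, 0 < B ∧ (1 - θ) * f (y - B) < f (y + t) - θ * f y := by
      have h3 : Tendsto (fun B : ℝ => (1 - θ) * f (y - B)) atTop (𝓝 ((1 - θ) * 0)) := by
        refine Tendsto.const_mul (1 - θ) (hbot.comp ?_)
        have h4 : Tendsto (fun B : ℝ => y + -B) atTop atBot :=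
          tendsto_atBot_add_const_left atTop y tendsto_neg_atTop_atBot
        refine h4.congr fun B => ?_
        rw [sub_eq_add_neg]
      rw [mul_zero] at h3
      have h4 := (h3.eventually (gt_mem_nhds (sub_pos.2 hy))).and (eventually_gt_atTop (0 : ℝ))
      obtain ⟨B, hB1, hB2⟩ := h4.exists
      exact ⟨B, hB2, hB1⟩
    obtain ⟨B, hB0, hB⟩ := hB
    have hden : 0 < θ * t + (1 - θ) * (t + B) :=
      add_pos (mul_pos hθ ht) (mul_pos (by linarith) (by linarith))
    obtain ⟨c, hc⟩ : ∃ c : ℝ, c = (θ * t + (1 - θ) * (t + B))⁻¹ := ⟨_, rfl⟩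
    have hc0 : 0 < c := by rw [hc]; exact inv_pos.2 hden
    have hc1 : c * (θ * t + (1 - θ) * (t + B)) = 1 := by rw [hc]; exact inv_mul_cancel₀ hden.ne'
    have hcθ : 0 ≤ c * (1 - θ) := mul_nonneg hc0.le (by linarith)
    have hcθ' : 0 ≤ c * θ := mul_nonneg hc0.le hθ.le
    have hpr : IsProbabilityMeasure (tl (c * θ) (-t) 0 (c * (1 - θ)) (-t) B) :=
      tl_prob (c * θ) (-t) 0 (c * (1 - θ)) (-t) B (by linarith) (by linarith) hcθ' hcθ (by linarith)
    have hun := hsu _ hpr (tl_unimodal_left (c * θ) 0 (c * (1 - θ)) B (-t) (by linarith) (by linarith) hcθ' hcθ)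
    refine no_sign_change ρ f hf hd (c * θ) (-t) 0 (c * (1 - θ)) (-t) B (by linarith) (by linarith) hcθ' hcθ hun
      x y hxy ?_ ?_
    · rw [sub_neg_eq_add, sub_zero]
      have e : c * θ * (f (x + t) - f x) + c * (1 - θ) * (f (x + t) - f (x - B)) =
          c * (f (x + t) - θ * f x - (1 - θ) * f (x - B)) := by ring
      rw [e]
      have h5 : 0 ≤ (1 - θ) * f (x - B) := mul_nonneg (by linarith) (hpos _).le
      exact mul_neg_of_pos_of_neg hc0 (by linarith)
    · rw [sub_neg_eq_add, sub_zero]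
      have e : c * θ * (f (y + t) - f y) + c * (1 - θ) * (f (y + t) - f (y - B)) =
          c * (f (y + t) - θ * f y - (1 - θ) * f (y - B)) := by ring
      rw [e]
      exact mul_pos hc0 (by linarith)

end Pool.Agent.Lib.MP_a80c92_pr
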