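import Pool.Agent.Lib.MP_a80c92_pr.Defs

/-! # JOB Seq: the sequence lemma

PROOF. `p 0 = Q 0`, `p n = Q n - Q (n-1)` for `n ≥ 1`. Subtract the recursions for `n` and
`n - 1`: for `n ≥ 1`
`n Q_n - (n-1) Q_{n-1} = ∑_{j=1}^n M_j Q_{n-j} - ∑_{j=1}^{n-1} M_j Q_{n-1-j}
  = ∑_{j=1}^n M_j p_{n-j}`, so `n p_n + Q_{n-1} = ∑_{j=1}^n M_j p_{n-j}`; since
`Q_{n-1} = ∑_{j=1}^n p_{n-j}`: `n p_n = ∑_{j=1}^n (M_j - 1) p_{n-j}`. By strong induction
`p_n ≥ 0` and `Q_n > 0`.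
With `h_j = M_j - 1 ≥ 0`, `d_j = h_j - h_{j+1} ≥ 0` (`j ≥ 1`) Abel summation gives
`n p_n = h_n Q_{n-1} + ∑_{j=1}^{n-1} d_j (Q_{n-1} - Q_{n-1-j})` (`n ≥ 1`).
Put `x_n = n p_n / Q_{n-1} = h_n + ∑_{j=1}^{n-1} d_j (1 - Q_{n-1-j}/Q_{n-1})`.
Claim: `R_n = Q_n/Q_{n-1}` is nonincreasing, by strong induction. If `R_i` is nonincreasing for
`1 ≤ i ≤ n` then `Q_{n-j}/Q_n ≥ Q_{n-1-j}/Q_{n-1}` for `1 ≤ j ≤ n-1` (both sides are products of
reciprocals of `R`), i.e. `Q_{n-1-j} Q_n ≤ Q_{n-j} Q_{n-1}`, hence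
`x_{n+1} = h_{n+1} + ∑_{j=1}^{n} d_j (1 - Q_{n-j}/Q_n)
   ≤ h_{n+1} + d_n + ∑_{j=1}^{n-1} d_j (1 - Q_{n-1-j}/Q_{n-1}) = x_n`.
So `p_{n+1}/Q_n = x_{n+1}/(n+1) ≤ x_n/n = p_n/Q_{n-1}` (`x_n ≥ 0`), that is
`R_{n+1} ≤ R_n` (`R_n = 1 + p_n/Q_{n-1}`). -/

open Set Filter Topology

namespace Pool.Agent.Lib.MP_a80c92_pr

private theorem seq_key (M Q : ℕ → ℝ)
    (hrec : ∀ n : ℕ, (n : ℝ) * Q n = ∑ j ∈ Finset.range n, M (j + 1) * Q (n - (j + 1))) (n : ℕ) :
    ((n : ℝ) + 1) * (Q (n + 1) - Q n) = (M 1 - 1) * Q n -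
      ∑ j ∈ Finset.range n, (M (j + 1) - M (j + 2)) * Q (n - (j + 1)) := by
  have h1 := hrec (n + 1)
  have h2 := hrec n
  rw [Finset.sum_range_succ'] at h1
  have h3 : ∑ j ∈ Finset.range n, M (j + 1 + 1) * Q (n + 1 - (j + 1 + 1)) =
      ∑ j ∈ Finset.range n, M (j + 2) * Q (n - (j + 1)) := by
    refine Finset.sum_congr rfl fun j _ => ?_
    have e : n + 1 - (j + 1 + 1) = n - (j + 1) := by omega
    rw [e]
  have h4 : n + 1 - (0 + 1) = n := by omega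
  rw [h3, h4, zero_add] at h1
  have h5 : ∑ j ∈ Finset.range n, (M (j + 1) - M (j + 2)) * Q (n - (j + 1)) =
      ∑ j ∈ Finset.range n, M (j + 1) * Q (n - (j + 1)) -
        ∑ j ∈ Finset.range n, M (j + 2) * Q (n - (j + 1)) := by
    rw [← Finset.sum_sub_distrib]
    exact Finset.sum_congr rfl fun j _ => by ring
  rw [h5, ← h2]
  push_cast at h1
  linarith

private theorem seq_mono (M Q : ℕ → ℝ) (hM : ∀ j, 1 ≤ j → 1 ≤ M j)
    (hanti : ∀ j, 1 ≤ j → M (j + 1) ≤ M j) (h0 : 0 < Q 0)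
    (hrec : ∀ n : ℕ, (n : ℝ) * Q n = ∑ j ∈ Finset.range n, M (j + 1) * Q (n - (j + 1))) (n : ℕ) :
    0 < Q n ∧ (∀ m, m ≤ n → Q m ≤ Q n) ∧
      0 ≤ (M 1 - 1) * Q n - ∑ j ∈ Finset.range n, (M (j + 1) - M (j + 2)) * Q (n - (j + 1)) := by
  have hD : ∀ n, 0 < Q n → (∀ m, m ≤ n → Q m ≤ Q n) →
      0 ≤ (M 1 - 1) * Q n - ∑ j ∈ Finset.range n, (M (j + 1) - M (j + 2)) * Q (n - (j + 1)) := by
    intro n hn hm
    have h1 : ∑ j ∈ Finset.range n, (M (j + 1) - M (j + 2)) * Q (n - (j + 1)) ≤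
        ∑ j ∈ Finset.range n, (M (j + 1) - M (j + 2)) * Q n := by
      refine Finset.sum_le_sum fun j _ => mul_le_mul_of_nonneg_left (hm _ (Nat.sub_le _ _)) ?_
      have := hanti (j + 1) (by omega)
      linarith
    have h2 : ∑ j ∈ Finset.range n, (M (j + 1) - M (j + 2)) = M 1 - M (n + 1) := by
      have h3 := Finset.sum_range_sub' (fun j => M (j + 1)) n
      simpa using h3
    rw [← Finset.sum_mul, h2] at h1
    have h3 : 0 ≤ (M (n + 1) - 1) * Q n :=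
      mul_nonneg (by linarith [hM (n + 1) (by omega)]) hn.le
    linarith
  induction n with
  | zero =>
    have hm : ∀ m, m ≤ 0 → Q m ≤ Q 0 := fun m hm => by
      rw [Nat.le_zero.1 hm]
    exact ⟨h0, hm, hD 0 h0 hm⟩
  | succ n ih =>
    obtain ⟨h1, h2, h3⟩ := ih
    have h4 := seq_key M Q hrec n
    have h5 : Q n ≤ Q (n + 1) := by
      by_contra hc
      rw [not_le] at hc
      have h6 : ((n : ℝ) + 1) * (Q (n + 1) - Q n) < 0 :=
        mul_neg_of_pos_of_neg (by positivity) (by linarith)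
      linarith
    have h6 : 0 < Q (n + 1) := lt_of_lt_of_le h1 h5
    have h7 : ∀ m, m ≤ n + 1 → Q m ≤ Q (n + 1) := by
      intro m hm
      rcases Nat.lt_or_ge n m with h8 | h8
      · have h9 : m = n + 1 := by omega
        rw [h9]
      · exact (h2 m h8).trans h5
    exact ⟨h6, h7, hD _ h6 h7⟩

private theorem seq_lc (M Q : ℕ → ℝ) (hM : ∀ j, 1 ≤ j → 1 ≤ M j)
    (hanti : ∀ j, 1 ≤ j → M (j + 1) ≤ M j) (h0 : 0 < Q 0)
    (hrec : ∀ n : ℕ, (n : ℝ) * Q n = ∑ j ∈ Finset.range n, M (j + 1) * Q (n - (j + 1))) (n : ℕ) :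
    ∀ i, i ≤ n → Q (n + 1) * Q i ≤ Q (i + 1) * Q n := by
  have hp : ∀ n, 0 < Q n := fun n => (seq_mono M Q hM hanti h0 hrec n).1
  induction n with
  | zero =>
    intro i hi
    rw [Nat.le_zero.1 hi]
  | succ n ih =>
    have hmain : Q (n + 2) * Q n ≤ Q (n + 1) * Q (n + 1) := by
      have k1 := seq_key M Q hrec n
      have k2 := seq_key M Q hrec (n + 1)
      have d1 := (seq_mono M Q hM hanti h0 hrec n).2.2
      have d2 := (seq_mono M Q hM hanti h0 hrec (n + 1)).2.2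
      have h1 : ∑ j ∈ Finset.range n, (M (j + 1) - M (j + 2)) * Q (n - (j + 1)) * Q (n + 1) ≤
          ∑ j ∈ Finset.range (n + 1), (M (j + 1) - M (j + 2)) * Q (n + 1 - (j + 1)) * Q n := by
        rw [Finset.sum_range_succ]
        have h2 : 0 ≤ (M (n + 1) - M (n + 2)) * Q (n + 1 - (n + 1)) * Q n := by
          refine mul_nonneg (mul_nonneg ?_ (hp _).le) (hp _).le
          have := hanti (n + 1) (by omega)
          linarith
        have h3 : ∑ j ∈ Finset.range n, (M (j + 1) - M (j + 2)) * Q (n - (j + 1)) * Q (n + 1) ≤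
            ∑ j ∈ Finset.range n, (M (j + 1) - M (j + 2)) * Q (n + 1 - (j + 1)) * Q n := by
          refine Finset.sum_le_sum fun j hj => ?_
          rw [Finset.mem_range] at hj
          rw [mul_assoc, mul_assoc]
          have h4 := ih (n - (j + 1)) (Nat.sub_le _ _)
          have h5 : n - (j + 1) + 1 = n + 1 - (j + 1) := by omega
          rw [h5] at h4
          refine mul_le_mul_of_nonneg_left ?_ ?_
          · rw [mul_comm (Q (n - (j + 1)))]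
            exact h4
          · have := hanti (j + 1) (by omega)
            linarith
        linarith
      rw [← Finset.sum_mul, ← Finset.sum_mul] at h1
      set S1 := ∑ j ∈ Finset.range n, (M (j + 1) - M (j + 2)) * Q (n - (j + 1))
      set S2 := ∑ j ∈ Finset.range (n + 1), (M (j + 1) - M (j + 2)) * Q (n + 1 - (j + 1))
      -- `D2 * Q n ≤ D1 * Q (n + 1)`
      have h6 : ((M 1 - 1) * Q (n + 1) - S2) * Q n ≤ ((M 1 - 1) * Q n - S1) * Q (n + 1) := by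
        linarith
      push_cast at k2
      have hn0 : (0 : ℝ) ≤ n := Nat.cast_nonneg n
      have hn1 : (0 : ℝ) < (n : ℝ) + 1 := by linarith
      have hn2 : (0 : ℝ) < (n : ℝ) + 1 + 1 := by linarith
      rw [← k1, ← k2] at h6
      have e1 : n + 1 + 1 = n + 2 := rfl
      rw [e1] at h6
      have d1' : 0 ≤ Q (n + 1) - Q n := by
        have := (seq_mono M Q hM hanti h0 hrec (n + 1)).2.1 n (by omega)
        linarith
      have d2' : 0 ≤ Q (n + 2) - Q (n + 1) := by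
        have := (seq_mono M Q hM hanti h0 hrec (n + 2)).2.1 (n + 1) (by omega)
        linarith
      -- `(n+1) (Q (n+2) - Q (n+1)) Q n ≤ (n+2) (...) Q n ≤ (n+1) (Q (n+1) - Q n) Q (n+1)`
      have h7 : ((n : ℝ) + 1) * ((Q (n + 2) - Q (n + 1)) * Q n) ≤
          ((n : ℝ) + 1) * ((Q (n + 1) - Q n) * Q (n + 1)) := by
        have h8 : 0 ≤ (Q (n + 2) - Q (n + 1)) * Q n := mul_nonneg d2' (hp n).le
        linarith
      have h8 := le_of_mul_le_mul_left h7 hn1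
      linarith
    intro i hi
    rcases Nat.lt_or_ge n i with h8 | h8
    · have h9 : i = n + 1 := by omega
      rw [h9]
    · have h9 := ih i h8
      have h10 : (Q (n + 1 + 1) * Q i) * Q n ≤ (Q (i + 1) * Q (n + 1)) * Q n := by
        have h11 := mul_le_mul_of_nonneg_right hmain (hp i).le
        have h12 := mul_le_mul_of_nonneg_left h9 (hp (n + 1)).le
        have e1 : n + 1 + 1 = n + 2 := rfl
        rw [e1]
        linarith
      exact le_of_mul_le_mul_right h10 (hp n)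

theorem seq_logconcave (M Q : ℕ → ℝ) (hM : ∀ j, 1 ≤ j → 1 ≤ M j)
    (hanti : ∀ j, 1 ≤ j → M (j + 1) ≤ M j) (h0 : 0 < Q 0)
    (hrec : ∀ n : ℕ, (n : ℝ) * Q n = ∑ j ∈ Finset.range n, M (j + 1) * Q (n - (j + 1))) :
    (∀ n, 0 < Q n) ∧ ∀ n, Q (n + 2) * Q n ≤ Q (n + 1) ^ 2 := by
  refine ⟨fun n => (seq_mono M Q hM hanti h0 hrec n).1, fun n => ?_⟩
  have h := seq_lc M Q hM hanti h0 hrec (n + 1) n (by omega)
  rw [pow_two]
  exact h

end Pool.Agent.Lib.MP_a80c92_pr
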