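import Pool.Agent.Lib.MP_a80c92_pr.CPc
import Pool.Agent.Lib.MP_a80c92_pr.Seq

/-! # JOB LCa: log-concavity of compound Poisson laws

PROOF of `LC_CP`: `q n = (CP m).real {n}`, `Q n = q n / ρ^n`, `M j = j m.real{j} / ρ^j`. By
`CP_rec_real`, `n Q n = ∑ M (j+1) Q (n-(j+1))` (`ρ^n = ρ^(j+1) ρ^(n-(j+1))`), `Q 0 > 0` by
`CP_apply_zero`; `seq_logconcave` gives `Q > 0` and `Q (n+2) Q n ≤ Q (n+1)^2`; multiply by
`ρ^(2n+2)`.
PROOF of `LC_poisson`: `m = c δ_1`: `m {0} = 0`, `m.real {1} = c`, `m.real {j} = 0` for `j ≥ 2`;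
`CP_rec_real`: `(n+1) q_{n+1} = c q_n`, `q_0 > 0`; so `q_n > 0` and
`q_{n+2} q_n = c q_{n+1} q_n/(n+2) = q_{n+1}^2 (n+1)/(n+2)`. -/

open MeasureTheory Set Filter Topology ProbabilityTheory
open scoped ENNReal NNReal

namespace Pool.Agent.Lib.MP_a80c92_pr

theorem lca_zero_pos (m : Measure ℕ) [IsFiniteMeasure m] (h0 : m {0} = 0) :
    0 < (CP m).real {0} := by
  unfold Measure.real
  rw [CP_apply_zero m h0, ENNReal.toReal_ofReal (Real.exp_pos _).le]
  exact Real.exp_pos _

theorem LC_CP (m : Measure ℕ) [IsFiniteMeasure m] (h0 : m {0} = 0) (ρ : ℝ) (hρ : 0 < ρ)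
    (h1 : ∀ j : ℕ, 1 ≤ j → ρ ^ j ≤ (j : ℝ) * m.real {j})
    (h2 : ∀ j : ℕ, 1 ≤ j →
      ((j + 1 : ℕ) : ℝ) * m.real {j + 1} ≤ ρ * ((j : ℝ) * m.real {j})) :
    LC (CP m) := by
  have key := seq_logconcave (fun j => (j : ℝ) * m.real {j} / ρ ^ j)
    (fun n => (CP m).real {n} / ρ ^ n) (fun j hj => by
      rw [one_le_div (by positivity)]; exact h1 j hj) (fun j hj => by
      rw [div_le_div_iff₀ (by positivity) (by positivity), pow_succ]
      have := h2 j hj
      have hp : 0 < ρ ^ j := by positivity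
      calc ((j + 1 : ℕ) : ℝ) * m.real {j + 1} * ρ ^ j
          ≤ (ρ * ((j : ℝ) * m.real {j})) * ρ ^ j := mul_le_mul_of_nonneg_right this hp.le
        _ = _ := by ring) (by simpa using lca_zero_pos m h0) (fun n => by
      rw [← mul_div_assoc, CP_rec_real, Finset.sum_div]
      refine Finset.sum_congr rfl fun j hj => ?_
      have hj' : j + 1 ≤ n := Finset.mem_range.1 hj
      have e : ρ ^ n = ρ ^ (j + 1) * ρ ^ (n - (j + 1)) := by
        rw [← pow_add]; congr 1; omega
      rw [e, div_mul_div_comm])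
  obtain ⟨k1, k2⟩ := key
  refine ⟨fun n => ?_, fun n => ?_⟩
  · have := k1 n
    have hp : 0 < ρ ^ n := by positivity
    rwa [div_pos_iff_of_pos_right hp] at this
  · have := k2 n
    have hp : 0 < ρ ^ n := by positivity
    rw [div_mul_div_comm, div_pow, div_le_div_iff₀ (by positivity) (by positivity)] at this
    have e : (ρ ^ (n + 1)) ^ 2 = ρ ^ (n + 2) * ρ ^ n := by ring
    rw [e] at this
    exact le_of_mul_le_mul_right this (by positivity)

theorem LC_poisson (c : ℝ) (hc : 0 < c) :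
    LC (CP (ENNReal.ofReal c • Measure.dirac (1 : ℕ))) := by
  set m : Measure ℕ := ENNReal.ofReal c • Measure.dirac (1 : ℕ) with hm
  have hf : IsFiniteMeasure m := ⟨by simp [hm]⟩
  have h0 : m {0} = 0 := by simp [hm]
  have h1 : m.real {1} = c := by simp [hm, Measure.real, hc.le]
  have h2 : ∀ j, j ≠ 1 → m.real {j} = 0 := by
    intro j hj
    have : (1 : ℕ) ∉ ({j} : Set ℕ) := by simp; omega
    simp [hm, Measure.real, this]
  have hrec : ∀ n : ℕ, ((n + 1 : ℕ) : ℝ) * (CP m).real {n + 1} = c * (CP m).real {n} := by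
    intro n
    rw [CP_rec_real, Finset.sum_eq_single 0]
    · simp [h1]
    · intro j _ hj
      rw [h2 (j + 1) (by omega)]; simp
    · intro h; exact absurd (Finset.mem_range.2 (by omega)) h
  have hpos : ∀ n, 0 < (CP m).real {n} := by
    intro n
    induction n with
    | zero => exact lca_zero_pos m h0
    | succ n ih =>
      have := hrec n
      have h3 : 0 < c * (CP m).real {n} := by positivity
      rw [← this] at h3
      exact (pos_iff_pos_of_mul_pos h3).1 (by positivity)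
  refine ⟨hpos, fun n => ?_⟩
  have e1 := hrec n
  have e2 := hrec (n + 1)
  have p0 := hpos n
  have p1 := hpos (n + 1)
  have p2 := hpos (n + 2)
  push_cast at e1 e2
  have hn : (0 : ℝ) ≤ n := Nat.cast_nonneg n
  -- q_{n+2} = c q_{n+1} / (n+2), q_n = (n+1) q_{n+1} / c
  have e3 : (CP m).real {n + 2} = c * (CP m).real {n + 1} / (n + 2) := by
    rw [eq_div_iff (by positivity)]
    have : (CP m).real {n + 1 + 1} = (CP m).real {n + 2} := rfl
    rw [← this]; linarith
  have e4 : (CP m).real {n} = (n + 1) * (CP m).real {n + 1} / c := by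
    rw [eq_div_iff hc.ne']; linarith
  rw [e3, e4]
  have e5 : c * (CP m).real {n + 1} / (n + 2) * ((n + 1) * (CP m).real {n + 1} / c) =
      (CP m).real {n + 1} ^ 2 * ((n + 1) / (n + 2)) := by
    field_simp
  rw [e5]
  apply mul_le_of_le_one_right (by positivity)
  rw [div_le_one (by positivity)]; linarith

end Pool.Agent.Lib.MP_a80c92_pr
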