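import Pool.Agent.Lib.MP_a80c92_pr.Defs

/-! # JOB LatA: the lattice approximation of a Lévy measure, basic facts

PROOF. `x ↦ ⌊x/δ⌋₊` is measurable (`Nat.measurable_floor`), `lf δ` measurable. For `x ≥ δ`:
`1 ≤ ⌊x/δ⌋₊`, `δ ≤ lf δ x ≤ x < lf δ x + δ ≤ 2 lf δ x`, so `1 ≤ x / lf δ x ≤ 2`.
`ν [δ, ∞) < ∞` since `min 1 (x^2) ≥ min 1 (δ^2) > 0` there. Hence
`latm univ ≤ 2 e^{lam δ} ν [δ, ∞) < ∞`. `latm {0} = 0`: preimage of `{0}` in `[δ, ∞)` is empty.
Integral: `integral_map` (all functions on `ℕ` are strongly measurable),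
`integral_withDensity_eq_integral_toReal_smul` (density measurable and finite),
`ENNReal.toReal_ofReal` (nonnegative on `[δ, ∞)`), `setIntegral_congr_fun`. -/

open MeasureTheory Set Filter Topology ProbabilityTheory
open scoped ENNReal NNReal

namespace Pool.Agent.Lib.MP_a80c92_pr

private theorem LatA_div (δ x : ℝ) (hδ : 0 < δ) : δ * (x / δ) = x := mul_div_cancel₀ x hδ.ne'

theorem lf_le (δ x : ℝ) (hδ : 0 < δ) (hx : 0 ≤ x) : lf δ x ≤ x := by
  unfold lf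
  calc δ * (⌊x / δ⌋₊ : ℝ) ≤ δ * (x / δ) :=
        mul_le_mul_of_nonneg_left (Nat.floor_le (div_nonneg hx hδ.le)) hδ.le
    _ = x := LatA_div δ x hδ

theorem lt_lf_add (δ x : ℝ) (hδ : 0 < δ) : x < lf δ x + δ := by
  unfold lf
  calc x = δ * (x / δ) := (LatA_div δ x hδ).symm
    _ < δ * ((⌊x / δ⌋₊ : ℝ) + 1) := mul_lt_mul_of_pos_left (Nat.lt_floor_add_one _) hδ
    _ = δ * (⌊x / δ⌋₊ : ℝ) + δ := by ring

private theorem LatA_one_le (δ x : ℝ) (hδ : 0 < δ) (hx : δ ≤ x) : 1 ≤ ⌊x / δ⌋₊ := by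
  refine Nat.le_floor ?_
  rw [Nat.cast_one]
  exact (one_le_div hδ).2 hx

theorem le_lf (δ x : ℝ) (hδ : 0 < δ) (hx : δ ≤ x) : δ ≤ lf δ x := by
  unfold lf
  have h1 : (1 : ℝ) ≤ (⌊x / δ⌋₊ : ℝ) := by exact_mod_cast LatA_one_le δ x hδ hx
  calc δ = δ * 1 := (mul_one δ).symm
    _ ≤ δ * (⌊x / δ⌋₊ : ℝ) := mul_le_mul_of_nonneg_left h1 hδ.le

private theorem LatA_floor (δ : ℝ) : Measurable fun x : ℝ => ⌊x / δ⌋₊ :=
  Nat.measurable_floor.comp (measurable_id.div_const δ)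

theorem measurable_lf (δ : ℝ) : Measurable (lf δ) := by
  have h1 : Measurable fun x : ℝ => ((⌊x / δ⌋₊ : ℕ) : ℝ) :=
    (Measurable.of_discrete (f := fun n : ℕ => (n : ℝ))).comp (LatA_floor δ)
  exact h1.const_mul δ

theorem measure_Ici_lt_top (ν : Measure ℝ) (h : IsLevy ν) (δ : ℝ) (hδ : 0 < δ) :
    ν (Ici δ) < ∞ := by
  have hc : 0 < min 1 (δ ^ 2) := lt_min one_pos (pow_pos hδ 2)
  have hm : Measurable fun x : ℝ => ENNReal.ofReal (min 1 (x ^ 2)) :=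
    (measurable_const.min (measurable_id.pow_const 2)).ennreal_ofReal
  have h1 : ν (Ici δ) ≤ ν {x : ℝ | ENNReal.ofReal (min 1 (δ ^ 2)) ≤ ENNReal.ofReal (min 1 (x ^ 2))} := by
    refine measure_mono fun x hx => ?_
    have hx' : δ ≤ x := hx
    exact ENNReal.ofReal_le_ofReal (min_le_min_left 1 (pow_le_pow_left₀ hδ.le hx' 2))
  have h2 := meas_ge_le_lintegral_div (μ := ν) hm.aemeasurable
    (ε := ENNReal.ofReal (min 1 (δ ^ 2))) (ENNReal.ofReal_pos.2 hc).ne' ENNReal.ofReal_ne_top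
  exact lt_of_le_of_lt (h1.trans h2) (ENNReal.div_lt_top h.fin.ne (ENNReal.ofReal_pos.2 hc).ne')

private theorem LatA_dens (lam δ : ℝ) : Measurable fun x : ℝ => Real.exp (lam * δ) * (x / lf δ x) :=
  (measurable_id.div (measurable_lf δ)).const_mul _

theorem isFinite_latm (ν : Measure ℝ) (h : IsLevy ν) (lam δ : ℝ) (hδ : 0 < δ) :
    IsFiniteMeasure (latm lam δ ν) := by
  have h1 : ∫⁻ x in Ici δ, ENNReal.ofReal (Real.exp (lam * δ) * (x / lf δ x)) ∂ν ≤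
      ∫⁻ _ in Ici δ, ENNReal.ofReal (Real.exp (lam * δ) * 2) ∂ν := by
    refine setLIntegral_mono' measurableSet_Ici fun x hx => ENNReal.ofReal_le_ofReal ?_
    have h2 := le_lf δ x hδ hx
    have h3 := lt_lf_add δ x hδ
    refine mul_le_mul_of_nonneg_left ?_ (Real.exp_pos _).le
    rw [div_le_iff₀ (lt_of_lt_of_le hδ h2)]
    linarith
  rw [setLIntegral_const] at h1
  have h2 : ∫⁻ x in Ici δ, ENNReal.ofReal (Real.exp (lam * δ) * (x / lf δ x)) ∂ν ≠ ∞ :=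
    (lt_of_le_of_lt h1 (ENNReal.mul_lt_top ENNReal.ofReal_lt_top (measure_Ici_lt_top ν h δ hδ))).ne
  have h3 := isFiniteMeasure_withDensity h2
  exact Measure.isFiniteMeasure_map _ _

theorem latm_zero (ν : Measure ℝ) (lam δ : ℝ) (hδ : 0 < δ) : latm lam δ ν {0} = 0 := by
  unfold latm
  rw [Measure.map_apply (LatA_floor δ) (MeasurableSet.singleton 0)]
  refine withDensity_absolutelyContinuous _ _ ?_
  rw [Measure.restrict_apply ((LatA_floor δ) (MeasurableSet.singleton 0))]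
  have h1 : (fun x : ℝ => ⌊x / δ⌋₊) ⁻¹' {0} ∩ Ici δ = ∅ := by
    refine Set.eq_empty_iff_forall_notMem.2 fun x hx => ?_
    have h2 : ⌊x / δ⌋₊ = 0 := hx.1
    have h3 := LatA_one_le δ x hδ hx.2
    omega
  rw [h1, measure_empty]

theorem integral_latm (ν : Measure ℝ) (lam δ : ℝ) (hδ : 0 < δ) (f : ℕ → ℂ) :
    ∫ j, f j ∂(latm lam δ ν) =
      ∫ x in Ici δ, ((Real.exp (lam * δ) * (x / lf δ x) : ℝ) : ℂ) * f ⌊x / δ⌋₊ ∂ν := by
  unfold latm
  rw [integral_map (LatA_floor δ).aemeasurable (Measurable.of_discrete (f := f)).aestronglyMeasurable,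
    integral_withDensity_eq_integral_toReal_smul (LatA_dens lam δ).ennreal_ofReal
      (Filter.Eventually.of_forall fun x => ENNReal.ofReal_lt_top)]
  refine setIntegral_congr_fun measurableSet_Ici fun x hx => ?_
  have h1 : 0 ≤ Real.exp (lam * δ) * (x / lf δ x) := by
    have h2 := le_lf δ x hδ hx
    have h3 : δ ≤ x := hx
    exact mul_nonneg (Real.exp_pos _).le (div_nonneg (hδ.le.trans h3) (hδ.le.trans h2))
  show (ENNReal.ofReal (Real.exp (lam * δ) * (x / lf δ x))).toReal • f ⌊x / δ⌋₊ =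
    ((Real.exp (lam * δ) * (x / lf δ x) : ℝ) : ℂ) * f ⌊x / δ⌋₊
  rw [ENNReal.toReal_ofReal h1, Complex.real_smul]

end Pool.Agent.Lib.MP_a80c92_pr
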