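import Pool.Agent.Lib.MP_a80c92_pr.LatA
import Pool.Agent.Lib.MP_a80c92_pr.LkA

/-! # JOB LatB: convergence of the lattice approximation

PROOF. `δ = dl N = 1/(N+1)`. Since `δ j ≥ 0`, `e^{itδj} - 1 - it(δj) 1_{δj<1} = lk t (δ j)`; the
function `j ↦ δ j 1_{δ j < 1}` is bounded, `latm` is finite (`isFinite_latm`), so the left side is
`∫ lk t (δ j) d latm = ∫_{x ≥ δ} e^{lam δ} (x/lf δ x) lk t (lf δ x) ν(dx)` (`integral_latm`;
`δ ⌊x/δ⌋₊ = lf δ x` by definition) `= ∫_{Ioi 0} 1_{Ici δ}(x) ...`. Dominated convergence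
(`tendsto_integral_of_dominated_convergence`) on `ν.restrict (Ioi 0)`:
pointwise: for `x > 0`, eventually `δ ≤ x`, `lf δ x → x` (`x - δ < lf δ x ≤ x`), `e^{lam δ} → 1`,
`x / lf δ x → 1`. If `x < 1` then `lf δ x ≤ x < 1` and `y ↦ e^{ity} - 1 - ity` is continuous; if
`x ≥ 1` then `⌊x (N+1)⌋₊ ≥ N+1`, so `lf δ x ≥ 1` and `y ↦ e^{ity} - 1` is continuous.
Bound: `‖lk t y‖ ≤ C min 1 (y^2)` with `y = lf δ x`, `x/2 < y ≤ x`:
`(x/y) min 1 (y^2) ≤ min (x/y) (x y) ≤ 2 min 1 (x^2)`, factor `e^{lam δ} ≤ e^{|lam|}`. -/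

open MeasureTheory Set Filter Topology ProbabilityTheory
open scoped ENNReal NNReal

namespace Pool.Agent.Lib.MP_a80c92_pr

private theorem LatB_pos (N : ℕ) : 0 < dl N := by
  unfold dl
  positivity

private theorem LatB_le (N : ℕ) : dl N ≤ 1 := by
  unfold dl
  rw [div_le_one (by positivity)]
  have : (0 : ℝ) ≤ N := Nat.cast_nonneg N
  linarith

private theorem LatB_tendsto : Tendsto dl atTop (𝓝 0) :=
  tendsto_one_div_add_atTop_nhds_zero_nat

private theorem LatB_norm_exp (a : ℝ) : ‖Complex.exp (a * Complex.I) - 1‖ ≤ 2 := by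
  refine (norm_sub_le _ _).trans ?_
  rw [Complex.norm_exp_ofReal_mul_I, norm_one]
  norm_num

/-- the left side as an integral of `lk` -/
private theorem LatB_eq (ν : Measure ℝ) (h : IsLevy ν) (lam t : ℝ) (N : ℕ) :
    (∫ j : ℕ, (Complex.exp (dl N * t * j * Complex.I) - 1) ∂(latm lam (dl N) ν)) +
        (bdr lam (dl N) ν : ℂ) * t * Complex.I =
      ∫ j : ℕ, lk t (dl N * (j : ℝ)) ∂(latm lam (dl N) ν) := by
  have hδ := LatB_pos N
  have := isFinite_latm ν h lam (dl N) hδ
  have i1 : Integrable (fun j : ℕ => Complex.exp (dl N * t * j * Complex.I) - 1)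
      (latm lam (dl N) ν) := by
    refine Integrable.of_bound (measurable_from_nat.aestronglyMeasurable) 2 ?_
    refine Filter.Eventually.of_forall fun j => ?_
    have e : (dl N : ℂ) * t * j * Complex.I = ((dl N * t * j : ℝ) : ℂ) * Complex.I := by
      push_cast
      ring
    rw [e]
    exact LatB_norm_exp _
  have hb : ∀ j : ℕ, ‖(if dl N * (j : ℝ) < 1 then dl N * (j : ℝ) else 0)‖ ≤ (1 : ℝ) := by
    intro j
    have h0 : 0 ≤ dl N * (j : ℝ) := mul_nonneg hδ.le (Nat.cast_nonneg _)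
    split_ifs with hj
    · rw [Real.norm_of_nonneg h0]
      exact hj.le
    · rw [norm_zero]
      exact zero_le_one
  have i2 : Integrable (fun j : ℕ => (if dl N * (j : ℝ) < 1 then dl N * (j : ℝ) else 0))
      (latm lam (dl N) ν) :=
    Integrable.of_bound (measurable_from_nat.aestronglyMeasurable) 1
      (Filter.Eventually.of_forall hb)
  have i3 : Integrable (fun j : ℕ => ((if dl N * (j : ℝ) < 1 then dl N * (j : ℝ) else 0 : ℝ) : ℂ)
      * (t * Complex.I)) (latm lam (dl N) ν) := i2.ofReal.mul_const _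
  have e1 : (bdr lam (dl N) ν : ℂ) * t * Complex.I =
      -∫ j : ℕ, ((if dl N * (j : ℝ) < 1 then dl N * (j : ℝ) else 0 : ℝ) : ℂ)
      * (t * Complex.I) ∂(latm lam (dl N) ν) := by
    rw [integral_mul_const, integral_complex_ofReal]
    unfold bdr
    push_cast
    ring
  rw [e1, ← sub_eq_add_neg, ← integral_sub i1 i3]
  refine integral_congr_ae (Filter.Eventually.of_forall fun j => ?_)
  have h0 : 0 ≤ dl N * (j : ℝ) := mul_nonneg hδ.le (Nat.cast_nonneg _)
  show Complex.exp (dl N * t * j * Complex.I) - 1 -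
      ((if dl N * (j : ℝ) < 1 then dl N * (j : ℝ) else 0 : ℝ) : ℂ) * (t * Complex.I) =
      lk t (dl N * (j : ℝ))
  unfold lk
  rw [abs_of_nonneg h0]
  have e2 : (t : ℂ) * ((dl N * (j : ℝ) : ℝ) : ℂ) * Complex.I = dl N * t * j * Complex.I := by
    push_cast
    ring
  rw [e2]
  by_cases hj : dl N * (j : ℝ) < 1
  · rw [if_pos hj, if_pos hj]
    push_cast
    ring
  · rw [if_neg hj, if_neg hj]
    push_cast
    ring

private theorem LatB_lf_tendsto {x : ℝ} (hx : 0 < x) :
    Tendsto (fun N : ℕ => lf (dl N) x) atTop (𝓝 x) := by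
  have h1 : Tendsto (fun N : ℕ => x - dl N) atTop (𝓝 (x - 0)) :=
    tendsto_const_nhds.sub LatB_tendsto
  rw [sub_zero] at h1
  refine tendsto_of_tendsto_of_tendsto_of_le_of_le h1 tendsto_const_nhds ?_ ?_
  · intro N
    have := lt_lf_add (dl N) x (LatB_pos N)
    show x - dl N ≤ lf (dl N) x
    linarith
  · intro N
    exact lf_le (dl N) x (LatB_pos N) hx.le

private theorem LatB_lf_nonneg (N : ℕ) (x : ℝ) : 0 ≤ lf (dl N) x := by
  unfold lf
  exact mul_nonneg (LatB_pos N).le (Nat.cast_nonneg _)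

private theorem LatB_one_le (N : ℕ) {x : ℝ} (hx : 1 ≤ x) : 1 ≤ lf (dl N) x := by
  unfold lf
  have h1 : N + 1 ≤ ⌊x / dl N⌋₊ := by
    refine Nat.le_floor ?_
    unfold dl
    rw [div_div_eq_mul_div, div_one]
    push_cast
    have : (0 : ℝ) ≤ (N : ℝ) + 1 := by positivity
    nlinarith
  have h2 : ((N : ℝ) + 1) ≤ (⌊x / dl N⌋₊ : ℝ) := by exact_mod_cast h1
  calc (1 : ℝ) = dl N * ((N : ℝ) + 1) := by
        unfold dl
        field_simp
    _ ≤ _ := mul_le_mul_of_nonneg_left h2 (LatB_pos N).le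

private theorem LatB_lk_tendsto (t : ℝ) {x : ℝ} (hx : 0 < x) :
    Tendsto (fun N : ℕ => lk t (lf (dl N) x)) atTop (𝓝 (lk t x)) := by
  have h0 := LatB_lf_tendsto hx
  by_cases h1 : x < 1
  · have e : ∀ y : ℝ, 0 ≤ y → y < 1 → lk t y = Complex.exp (t * y * Complex.I) - 1 -
        t * y * Complex.I := by
      intro y hy hy1
      unfold lk
      rw [abs_of_nonneg hy, if_pos hy1]
    have c : Continuous (fun y : ℝ => Complex.exp (t * y * Complex.I) - 1 -
        t * y * Complex.I) := by fun_prop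
    rw [e x hx.le h1]
    have h2 := (c.tendsto x).comp h0
    refine h2.congr fun N => ?_
    exact (e _ (LatB_lf_nonneg N x) ((lf_le (dl N) x (LatB_pos N) hx.le).trans_lt h1)).symm
  · have h1' : 1 ≤ x := not_lt.1 h1
    have e : ∀ y : ℝ, 1 ≤ y → lk t y = Complex.exp (t * y * Complex.I) - 1 := by
      intro y hy
      unfold lk
      rw [abs_of_nonneg (by linarith), if_neg (not_lt.2 hy), sub_zero]
    have c : Continuous (fun y : ℝ => Complex.exp (t * y * Complex.I) - 1) := by fun_prop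
    rw [e x h1']
    have h2 := (c.tendsto x).comp h0
    refine h2.congr fun N => ?_
    exact (e _ (LatB_one_le N h1')).symm

/-- the integrand on `(0, ∞)` -/
private noncomputable def LatB_F (lam t : ℝ) (N : ℕ) (x : ℝ) : ℂ :=
  (Ici (dl N)).indicator (fun x => ((Real.exp (lam * dl N) * (x / lf (dl N) x) : ℝ) : ℂ) *
    lk t (lf (dl N) x)) x

private theorem LatB_F_meas (lam t : ℝ) (N : ℕ) : Measurable (LatB_F lam t N) := by
  unfold LatB_F
  refine Measurable.indicator ?_ measurableSet_Ici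
  refine Measurable.mul ?_ ((measurable_lk t).comp (measurable_lf (dl N)))
  refine Complex.measurable_ofReal.comp ?_
  exact (measurable_id.div (measurable_lf (dl N))).const_mul _

private theorem LatB_F_bound (lam t : ℝ) (N : ℕ) (x : ℝ) :
    ‖LatB_F lam t N x‖ ≤ Real.exp |lam| * 2 * (2 + 3 * t ^ 2) * min 1 (x ^ 2) := by
  have hδ := LatB_pos N
  have hm0 : (0 : ℝ) ≤ min 1 (x ^ 2) := le_min zero_le_one (sq_nonneg _)
  have hc0 : (0 : ℝ) ≤ 2 + 3 * t ^ 2 := by positivity
  by_cases hx : x ∈ Ici (dl N)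
  · have hx' : dl N ≤ x := hx
    unfold LatB_F
    rw [indicator_of_mem hx, norm_mul, Complex.norm_real]
    have hy1 := le_lf (dl N) x hδ hx'
    have hy2 := lf_le (dl N) x hδ (hδ.le.trans hx')
    have hy3 := lt_lf_add (dl N) x hδ
    have hy0 : 0 < lf (dl N) x := hδ.trans_le hy1
    have h1 : ‖Real.exp (lam * dl N) * (x / lf (dl N) x)‖ ≤ Real.exp |lam| * 2 := by
      have h2 : 0 ≤ x / lf (dl N) x := div_nonneg (hδ.le.trans hx') hy0.le
      rw [Real.norm_of_nonneg (mul_nonneg (Real.exp_pos _).le h2)]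
      refine mul_le_mul ?_ ?_ h2 (Real.exp_pos _).le
      · refine Real.exp_le_exp.2 ?_
        calc lam * dl N ≤ |lam| * dl N := mul_le_mul_of_nonneg_right (le_abs_self _) hδ.le
          _ ≤ |lam| * 1 := mul_le_mul_of_nonneg_left (LatB_le N) (abs_nonneg _)
          _ = |lam| := mul_one _
      · rw [div_le_iff₀ hy0]
        linarith
    have h2 : ‖lk t (lf (dl N) x)‖ ≤ (2 + 3 * t ^ 2) * min 1 (x ^ 2) := by
      refine (norm_lk_le t _).trans (mul_le_mul_of_nonneg_left ?_ hc0)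
      exact min_le_min_left _ (pow_le_pow_left₀ hy0.le hy2 2)
    calc _ ≤ Real.exp |lam| * 2 * ((2 + 3 * t ^ 2) * min 1 (x ^ 2)) :=
          mul_le_mul h1 h2 (norm_nonneg _) (by positivity)
      _ = _ := by ring
  · unfold LatB_F
    rw [indicator_of_notMem hx, norm_zero]
    positivity

private theorem LatB_F_tendsto (lam t : ℝ) {x : ℝ} (hx : 0 < x) :
    Tendsto (fun N : ℕ => LatB_F lam t N x) atTop (𝓝 (lk t x)) := by
  have h1 : Tendsto (fun N : ℕ => Real.exp (lam * dl N) * (x / lf (dl N) x)) atTop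
      (𝓝 (Real.exp (lam * 0) * (x / x))) := by
    refine Tendsto.mul ?_ (tendsto_const_nhds.div (LatB_lf_tendsto hx) hx.ne')
    exact (Real.continuous_exp.tendsto _).comp (LatB_tendsto.const_mul lam)
  rw [mul_zero, Real.exp_zero, div_self hx.ne', mul_one] at h1
  have h2 : Tendsto (fun N : ℕ => ((Real.exp (lam * dl N) * (x / lf (dl N) x) : ℝ) : ℂ) *
      lk t (lf (dl N) x)) atTop (𝓝 (((1 : ℝ) : ℂ) * lk t x)) :=
    ((Complex.continuous_ofReal.tendsto _).comp h1).mul (LatB_lk_tendsto t hx)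
  rw [Complex.ofReal_one, one_mul] at h2
  have h3 : ∀ᶠ N : ℕ in atTop, dl N ≤ x := by
    have := LatB_tendsto.eventually (gt_mem_nhds hx)
    exact this.mono fun N hN => le_of_lt hN
  refine h2.congr' (h3.mono fun N hN => ?_)
  show _ = LatB_F lam t N x
  unfold LatB_F
  rw [indicator_of_mem (show x ∈ Ici (dl N) from hN)]

theorem tendsto_latm (ν : Measure ℝ) (h : IsLevy ν) (lam t : ℝ) :
    Tendsto (fun N : ℕ =>
      (∫ j : ℕ, (Complex.exp (dl N * t * j * Complex.I) - 1) ∂(latm lam (dl N) ν)) +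
        (bdr lam (dl N) ν : ℂ) * t * Complex.I)
      atTop (𝓝 (∫ x in Ioi 0, lk t x ∂ν)) := by
  have e : (fun N : ℕ =>
      (∫ j : ℕ, (Complex.exp (dl N * t * j * Complex.I) - 1) ∂(latm lam (dl N) ν)) +
        (bdr lam (dl N) ν : ℂ) * t * Complex.I) = fun N => ∫ x in Ioi 0, LatB_F lam t N x ∂ν := by
    funext N
    rw [LatB_eq ν h lam t N, integral_latm ν lam (dl N) (LatB_pos N)]
    unfold LatB_F
    have hI : Ioi (0 : ℝ) ∩ Ici (dl N) = Ici (dl N) :=
      inter_eq_right.2 fun x hx => mem_Ioi.2 ((LatB_pos N).trans_le (mem_Ici.1 hx))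
    rw [setIntegral_indicator measurableSet_Ici, hI]
    rfl
  rw [e]
  refine tendsto_integral_of_dominated_convergence
    (fun x => Real.exp |lam| * 2 * (2 + 3 * t ^ 2) * min 1 (x ^ 2)) ?_ ?_ ?_ ?_
  · exact fun N => (LatB_F_meas lam t N).aestronglyMeasurable
  · exact ((integrable_min ν h).restrict).const_mul _
  · exact fun N => Filter.Eventually.of_forall fun x => LatB_F_bound lam t N x
  · refine (ae_restrict_iff' measurableSet_Ioi).2 (Filter.Eventually.of_forall fun x hx => ?_)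
    exact LatB_F_tendsto lam t hx

end Pool.Agent.Lib.MP_a80c92_pr
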