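import Pool.Agent.Lib.MP_a80c92_pr.Defs

/-! # JOB LimB: convexity of lattice distribution functions

PROOF. `S k = Y.real (Iic k)`, `S (k+1) = S k + p (k+1)`, `p k = Y.real {k}`. `lattice_convex`:
`S j - S i = ∑_{l=i+1}^{j} p l ≤ (j-i) p j` and `S k - S j = ∑_{l=j+1}^k p l ≥ (k-j) p j`
(`p` nondecreasing up to `a ≥ k`; if `i = j` or `j = k` the inequality is an equality). So
`(k-j)(S j - S i) ≤ (k-j)(j-i) p j ≤ (j-i)(S k - S j)`, which rearranges to the claim.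
`lattice_concave` the same with reversed inequalities (`p` nonincreasing from `a ≤ i` on).
`dfn_lattice`: `{z : b + δ z ≤ x} = Iic ⌊(x-b)/δ⌋`. -/

open MeasureTheory Set Filter Topology ProbabilityTheory
open scoped ENNReal NNReal

namespace Pool.Agent.Lib.MP_a80c92_pr

private theorem LimB_succ (Y : Measure ℤ) [IsProbabilityMeasure Y] (k : ℤ) :
    Y.real (Iic (k + 1)) = Y.real (Iic k) + Y.real {k + 1} := by
  have h1 : Iic (k + 1) = Iic k ∪ {k + 1} := by
    ext x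
    simp only [mem_Iic, mem_union, mem_singleton_iff]
    omega
  have h2 : Disjoint (Iic k) ({k + 1} : Set ℤ) := by
    rw [Set.disjoint_singleton_right, mem_Iic]
    omega
  rw [h1, measureReal_union h2 (measurableSet_singleton _)]

private theorem LimB_up (Y : Measure ℤ) [IsProbabilityMeasure Y] {a : ℤ}
    (h : MonotoneOn (fun n : ℤ => Y.real {n}) (Iic a)) (i : ℤ) (m : ℕ) :
    i + m ≤ a → Y.real (Iic (i + m)) - Y.real (Iic i) ≤ m * Y.real {i + (m : ℤ)} := by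
  induction m with
  | zero =>
    intro _
    simp
  | succ m ih =>
    intro hm
    push_cast at hm
    have h1 := ih (by omega)
    have h2 : Y.real {i + (m : ℤ)} ≤ Y.real {i + (m : ℤ) + 1} :=
      h (mem_Iic.2 (by omega)) (mem_Iic.2 (by omega)) (by omega)
    have h3 := LimB_succ Y (i + (m : ℤ))
    have e1 : i + ((m + 1 : ℕ) : ℤ) = i + (m : ℤ) + 1 := by push_cast; ring
    rw [e1, h3]
    push_cast
    have h4 : (m : ℝ) * Y.real {i + (m : ℤ)} ≤ m * Y.real {i + (m : ℤ) + 1} :=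
      mul_le_mul_of_nonneg_left h2 (Nat.cast_nonneg m)
    linarith

private theorem LimB_low (Y : Measure ℤ) [IsProbabilityMeasure Y] {a : ℤ}
    (h : MonotoneOn (fun n : ℤ => Y.real {n}) (Iic a)) (i : ℤ) (m : ℕ) :
    i + m ≤ a → m * Y.real {i} ≤ Y.real (Iic (i + m)) - Y.real (Iic i) := by
  induction m with
  | zero =>
    intro _
    simp
  | succ m ih =>
    intro hm
    push_cast at hm
    have h1 := ih (by omega)
    have h2 : Y.real {i} ≤ Y.real {i + (m : ℤ) + 1} :=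
      h (mem_Iic.2 (by omega)) (mem_Iic.2 (by omega)) (by omega)
    have h3 := LimB_succ Y (i + (m : ℤ))
    have e1 : i + ((m + 1 : ℕ) : ℤ) = i + (m : ℤ) + 1 := by push_cast; ring
    rw [e1, h3]
    push_cast
    linarith

private theorem LimB_up' (Y : Measure ℤ) [IsProbabilityMeasure Y] {a : ℤ}
    (h : AntitoneOn (fun n : ℤ => Y.real {n}) (Ici a)) (i : ℤ) (hi : a ≤ i) (m : ℕ) :
    Y.real (Iic (i + m)) - Y.real (Iic i) ≤ m * Y.real {i} := by
  induction m with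
  | zero => simp
  | succ m ih =>
    have h2 : Y.real {i + (m : ℤ) + 1} ≤ Y.real {i} :=
      h (mem_Ici.2 hi) (mem_Ici.2 (by omega)) (by omega)
    have h3 := LimB_succ Y (i + (m : ℤ))
    have e1 : i + ((m + 1 : ℕ) : ℤ) = i + (m : ℤ) + 1 := by push_cast; ring
    rw [e1, h3]
    push_cast
    linarith

private theorem LimB_low' (Y : Measure ℤ) [IsProbabilityMeasure Y] {a : ℤ}
    (h : AntitoneOn (fun n : ℤ => Y.real {n}) (Ici a)) (i : ℤ) (hi : a ≤ i) (m : ℕ) :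
    m * Y.real {i + (m : ℤ)} ≤ Y.real (Iic (i + m)) - Y.real (Iic i) := by
  induction m with
  | zero => simp
  | succ m ih =>
    have h2 : Y.real {i + (m : ℤ) + 1} ≤ Y.real {i + (m : ℤ)} :=
      h (mem_Ici.2 (by omega)) (mem_Ici.2 (by omega)) (by omega)
    have h3 := LimB_succ Y (i + (m : ℤ))
    have e1 : i + ((m + 1 : ℕ) : ℤ) = i + (m : ℤ) + 1 := by push_cast; ring
    rw [e1, h3]
    push_cast
    have h4 : (m : ℝ) * Y.real {i + (m : ℤ) + 1} ≤ m * Y.real {i + (m : ℤ)} :=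
      mul_le_mul_of_nonneg_left h2 (Nat.cast_nonneg m)
    linarith

theorem lattice_convex (Y : Measure ℤ) [IsProbabilityMeasure Y] (a : ℤ)
    (h : MonotoneOn (fun n : ℤ => Y.real {n}) (Iic a)) (i j k : ℤ) (hij : i ≤ j) (hjk : j ≤ k)
    (hk : k ≤ a) :
    ((k - i : ℤ) : ℝ) * Y.real (Iic j) ≤
      ((k - j : ℤ) : ℝ) * Y.real (Iic i) + ((j - i : ℤ) : ℝ) * Y.real (Iic k) := by
  obtain ⟨m, rfl⟩ := Int.le.dest hij
  obtain ⟨l, rfl⟩ := Int.le.dest hjk
  have h1 := LimB_up Y h i m (by omega)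
  have h2 := LimB_low Y h (i + m) l (by omega)
  have h3 := mul_le_mul_of_nonneg_left h1 (Nat.cast_nonneg (α := ℝ) l)
  have h4 := mul_le_mul_of_nonneg_left h2 (Nat.cast_nonneg (α := ℝ) m)
  have e1 : (i + (m : ℤ) + l - i : ℤ) = ((m + l : ℕ) : ℤ) := by push_cast; ring
  have e2 : (i + (m : ℤ) + l - (i + m) : ℤ) = (l : ℤ) := by ring
  have e3 : (i + (m : ℤ) - i : ℤ) = (m : ℤ) := by ring
  rw [e1, e2, e3]
  push_cast
  linarith

theorem lattice_concave (Y : Measure ℤ) [IsProbabilityMeasure Y] (a : ℤ)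
    (h : AntitoneOn (fun n : ℤ => Y.real {n}) (Ici a)) (i j k : ℤ) (hij : i ≤ j) (hjk : j ≤ k)
    (hi : a ≤ i) :
    ((k - j : ℤ) : ℝ) * Y.real (Iic i) + ((j - i : ℤ) : ℝ) * Y.real (Iic k) ≤
      ((k - i : ℤ) : ℝ) * Y.real (Iic j) := by
  obtain ⟨m, rfl⟩ := Int.le.dest hij
  obtain ⟨l, rfl⟩ := Int.le.dest hjk
  have h1 := LimB_low' Y h i hi m
  have h2 := LimB_up' Y h (i + m) (by omega) l
  have h3 := mul_le_mul_of_nonneg_left h1 (Nat.cast_nonneg (α := ℝ) l)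
  have h4 := mul_le_mul_of_nonneg_left h2 (Nat.cast_nonneg (α := ℝ) m)
  have e1 : (i + (m : ℤ) + l - i : ℤ) = ((m + l : ℕ) : ℤ) := by push_cast; ring
  have e2 : (i + (m : ℤ) + l - (i + m) : ℤ) = (l : ℤ) := by ring
  have e3 : (i + (m : ℤ) - i : ℤ) = (m : ℤ) := by ring
  rw [e1, e2, e3]
  push_cast
  linarith

theorem dfn_lattice (Y : Measure ℤ) [IsProbabilityMeasure Y] (b δ : ℝ) (hδ : 0 < δ) (x : ℝ) :
    dfn (Y.map (fun z : ℤ => b + δ * (z : ℝ))) x = Y.real (Iic ⌊(x - b) / δ⌋) := by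
  have hm : Measurable (fun z : ℤ => b + δ * (z : ℝ)) := measurable_from_top
  unfold dfn
  rw [map_measureReal_apply hm measurableSet_Iic]
  have h1 : (fun z : ℤ => b + δ * (z : ℝ)) ⁻¹' Iic x = Iic ⌊(x - b) / δ⌋ := by
    ext z
    rw [mem_preimage, mem_Iic, mem_Iic, Int.le_floor, le_div_iff₀ hδ]
    constructor <;> intro h <;> linarith
  rw [h1]

end Pool.Agent.Lib.MP_a80c92_pr
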