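import Pool.Agent.Lib.MP_a80c92_pr.Defs

/-! # JOB LogC: exponential moments of log-concave functions

PROOF. Key fact: if `x0 > 0`, `s' ` real and `f x0 ≤ f 0 e^{-s' x0}`, then for all `x ≥ 0`
`f (x + x0) ≤ e^{-s' x0} f x` (`lc` with `x := 0`, `y := x`, `t := x0` for `x > 0`), so
`f x ≤ B e^{|s'| x0} e^{-s' x}` for `x ≥ 0`, `B` the maximum of `f` on `[0, x0]`
(write `x = n x0 + y`, induction on `n`); hence `∫⁻_{x>0} e^{s x} f x < ∞` for all `s < s'`.
`lc_exp_moment`: some `x0 > 0` has `f x0 < f 0` (otherwise `f ≥ f 0` on `(0,∞)`, not integrable);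
take `s' = log (f 0 / f x0)/x0 > 0`, `s = s'/2`.
`lc_lower`: if `f x < f 0 e^{-lam x}` for some `x > 0`, then `f x ≤ f 0 e^{-s' x}` for some
`s' > lam`, and the integral is finite for `s = (lam + s')/2 > lam`: contradiction.
`lc_lower_int`: `∫⁻_{x>0} e^{sx} f x ≥ ∫⁻_{x>0} f 0 e^{-(lam-s)x} = f 0/(lam-s)`
(`integral_exp_neg_Ioi`-type, `lintegral` from the integral). -/

open MeasureTheory Set Filter Topology ProbabilityTheory
open scoped ENNReal NNReal

namespace Pool.Agent.Lib.MP_a80c92_pr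

private theorem LogC_key (f : ℝ → ℝ) (h : PosLC f) (x0 s' : ℝ) (hx0 : 0 < x0)
    (h0 : f x0 ≤ f 0 * Real.exp (-(s' * x0))) :
    ∃ C : ℝ, ∀ x, 0 ≤ x → f x ≤ C * Real.exp (-(s' * x)) := by
  obtain ⟨B, hB⟩ : ∃ B : ℝ, ∀ y ∈ Icc 0 x0, f y ≤ B := by
    obtain ⟨B, hB⟩ := (isCompact_Icc (a := (0 : ℝ)) (b := x0)).bddAbove_image h.cont.continuousOn
    exact ⟨B, fun y hy => hB ⟨y, hy, rfl⟩⟩
  have hB0 : 0 < B := lt_of_lt_of_le (h.pos 0) (hB 0 ⟨le_rfl, hx0.le⟩)
  have hstep : ∀ x, 0 ≤ x → f (x + x0) ≤ Real.exp (-(s' * x0)) * f x := by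
    intro x hx
    rcases hx.eq_or_lt with hx | hx
    · rw [← hx, zero_add, mul_comm]
      exact h0
    · have h1 := h.lc 0 x x0 hx hx0
      rw [zero_add] at h1
      have h2 : f x0 * f x ≤ f 0 * Real.exp (-(s' * x0)) * f x := mul_le_mul_of_nonneg_right h0 (h.pos x).le
      have h3 : f 0 * f (x + x0) ≤ f 0 * (Real.exp (-(s' * x0)) * f x) := by
        rw [← mul_assoc]
        exact h1.trans h2
      exact le_of_mul_le_mul_left h3 (h.pos 0)
  have hn : ∀ (n : ℕ), ∀ y ∈ Icc 0 x0, f (n * x0 + y) ≤ B * Real.exp (-(s' * (n * x0))) := by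
    intro n
    induction n with
    | zero =>
      intro y hy
      rw [Nat.cast_zero, zero_mul, mul_zero, neg_zero, Real.exp_zero, mul_one, zero_add]
      exact hB y hy
    | succ n ih =>
      intro y hy
      have h1 : ((n + 1 : ℕ) : ℝ) * x0 + y = (n * x0 + y) + x0 := by
        push_cast
        ring
      have h2 : -(s' * (((n + 1 : ℕ) : ℝ) * x0)) = -(s' * x0) + -(s' * (n * x0)) := by
        push_cast
        ring
      rw [h1, h2, Real.exp_add]
      have h3 : 0 ≤ (n : ℝ) * x0 + y := by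
        have := hy.1
        positivity
      calc f ((n * x0 + y) + x0) ≤ Real.exp (-(s' * x0)) * f (n * x0 + y) := hstep _ h3
        _ ≤ Real.exp (-(s' * x0)) * (B * Real.exp (-(s' * (n * x0)))) :=
            mul_le_mul_of_nonneg_left (ih y hy) (Real.exp_pos _).le
        _ = B * (Real.exp (-(s' * x0)) * Real.exp (-(s' * (n * x0)))) := by ring
  refine ⟨B * Real.exp (|s'| * x0), fun x hx => ?_⟩
  obtain ⟨n, hn'⟩ : ∃ n : ℕ, n = ⌊x / x0⌋₊ := ⟨_, rfl⟩
  have h1 : (n : ℝ) * x0 ≤ x := by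
    rw [← le_div_iff₀ hx0, hn']
    exact Nat.floor_le (div_nonneg hx hx0.le)
  have h2 : x < ((n : ℝ) + 1) * x0 := by
    rw [← div_lt_iff₀ hx0, hn']
    exact Nat.lt_floor_add_one _
  have h3 : x - n * x0 ∈ Icc 0 x0 := ⟨by linarith, by linarith⟩
  have h4 := hn n (x - n * x0) h3
  have h5 : (n : ℝ) * x0 + (x - n * x0) = x := by ring
  rw [h5] at h4
  refine h4.trans ?_
  rw [mul_assoc, ← Real.exp_add]
  refine mul_le_mul_of_nonneg_left (Real.exp_le_exp.2 ?_) hB0.le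
  have h6 : s' * (x - n * x0) ≤ |s'| * x0 := by
    calc s' * (x - n * x0) ≤ |s'| * (x - n * x0) := mul_le_mul_of_nonneg_right (le_abs_self _) h3.1
      _ ≤ |s'| * x0 := mul_le_mul_of_nonneg_left h3.2 (abs_nonneg _)
  linarith

private theorem LogC_fin (f : ℝ → ℝ) (h : PosLC f) (x0 s' s : ℝ) (hx0 : 0 < x0)
    (h0 : f x0 ≤ f 0 * Real.exp (-(s' * x0))) (hs : s < s') :
    ∫⁻ x in Ioi (0 : ℝ), ENNReal.ofReal (Real.exp (s * x) * f x) < ∞ := by
  obtain ⟨C, hC⟩ := LogC_key f h x0 s' hx0 h0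
  have h1 : IntegrableOn (fun x : ℝ => C * Real.exp ((s - s') * x)) (Ioi 0) :=
    (integrableOn_exp_mul_Ioi (by linarith) 0).const_mul C
  refine lt_of_le_of_lt ?_ h1.lintegral_lt_top
  refine setLIntegral_mono' measurableSet_Ioi fun x hx => ENNReal.ofReal_le_ofReal ?_
  have hx' : (0 : ℝ) ≤ x := (mem_Ioi.1 hx).le
  calc Real.exp (s * x) * f x ≤ Real.exp (s * x) * (C * Real.exp (-(s' * x))) :=
        mul_le_mul_of_nonneg_left (hC x hx') (Real.exp_pos _).le
    _ = C * (Real.exp (s * x) * Real.exp (-(s' * x))) := by ring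
    _ = C * Real.exp ((s - s') * x) := by
        rw [← Real.exp_add]
        congr 2
        ring

private theorem LogC_log (f : ℝ → ℝ) (h : PosLC f) (x : ℝ) (hx : 0 < x) :
    f x = f 0 * Real.exp (-(Real.log (f 0 / f x) / x * x)) := by
  rw [div_mul_cancel₀ _ hx.ne', Real.exp_neg, Real.exp_log (div_pos (h.pos 0) (h.pos x)), inv_div,
    mul_div_cancel₀ _ (h.pos 0).ne']

theorem lc_exp_moment (f : ℝ → ℝ) (h : PosLC f) :
    ∃ s : ℝ, 0 < s ∧ ∫⁻ x in Ioi (0 : ℝ), ENNReal.ofReal (Real.exp (s * x) * f x) < ∞ := by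
  obtain ⟨x0, hx0, h1⟩ : ∃ x0 : ℝ, 0 < x0 ∧ f x0 < f 0 := by
    by_contra hcon
    have h1 : ∀ x, 0 < x → f 0 ≤ f x := by
      intro x hx
      by_contra h2
      exact hcon ⟨x, hx, not_le.1 h2⟩
    have h2 : IntegrableOn (fun _ : ℝ => f 0) (Ioi 0) := by
      refine Integrable.mono' h.int.integrableOn aestronglyMeasurable_const ?_
      refine (ae_restrict_iff' measurableSet_Ioi).2 (Eventually.of_forall fun x hx => ?_)
      rw [Real.norm_of_nonneg (h.pos 0).le]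
      exact h1 x hx
    rw [integrableOn_const_iff] at h2
    rcases h2 with h2 | h2
    · exact (h.pos 0).ne' (enorm_eq_zero.1 h2)
    · rw [Real.volume_Ioi] at h2
      exact lt_irrefl _ h2
  obtain ⟨s', hs'⟩ : ∃ s' : ℝ, s' = Real.log (f 0 / f x0) / x0 := ⟨_, rfl⟩
  have h2 : 0 < s' := by
    rw [hs']
    refine div_pos (Real.log_pos ?_) hx0
    rw [one_lt_div (h.pos x0)]
    exact h1
  refine ⟨s' / 2, by linarith, LogC_fin f h x0 s' (s' / 2) hx0 ?_ (by linarith)⟩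
  have h3 := LogC_log f h x0 hx0
  rw [← hs'] at h3
  exact h3.le

theorem lc_lower (f : ℝ → ℝ) (h : PosLC f) (lam : ℝ) (_hlam : 0 < lam)
    (h1 : ∀ s, lam < s → ∫⁻ x in Ioi (0 : ℝ), ENNReal.ofReal (Real.exp (s * x) * f x) = ∞)
    (x : ℝ) (hx : 0 ≤ x) : f 0 * Real.exp (-(lam * x)) ≤ f x := by
  rcases hx.eq_or_lt with hx0 | hx0
  · rw [← hx0, mul_zero, neg_zero, Real.exp_zero, mul_one]
  by_contra hcon
  rw [not_le] at hcon
  obtain ⟨s', hs'⟩ : ∃ s' : ℝ, s' = Real.log (f 0 / f x) / x := ⟨_, rfl⟩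
  have h3 := LogC_log f h x hx0
  rw [← hs'] at h3
  have h4 : lam < s' := by
    rw [h3] at hcon
    have h5 := lt_of_mul_lt_mul_left hcon (h.pos 0).le
    rw [Real.exp_lt_exp] at h5
    have h6 : lam * x < s' * x := by linarith
    exact lt_of_mul_lt_mul_right h6 hx0.le
  have h5 := LogC_fin f h x s' ((lam + s') / 2) hx0 h3.le (by linarith)
  rw [h1 ((lam + s') / 2) (by linarith)] at h5
  exact lt_irrefl _ h5

theorem lc_lower_int (f : ℝ → ℝ) (h : PosLC f) (lam : ℝ) (hlam : 0 < lam)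
    (h1 : ∀ s, lam < s → ∫⁻ x in Ioi (0 : ℝ), ENNReal.ofReal (Real.exp (s * x) * f x) = ∞)
    (s : ℝ) (hs : s < lam) :
    ENNReal.ofReal (f 0 / (lam - s)) ≤
      ∫⁻ x in Ioi (0 : ℝ), ENNReal.ofReal (Real.exp (s * x) * f x) := by
  have hneg : s - lam < 0 := by linarith
  have h2 : IntegrableOn (fun x : ℝ => f 0 * Real.exp ((s - lam) * x)) (Ioi 0) :=
    (integrableOn_exp_mul_Ioi hneg 0).const_mul (f 0)
  have h3 : ∫ x in Ioi (0 : ℝ), f 0 * Real.exp ((s - lam) * x) = f 0 / (lam - s) := by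
    rw [integral_const_mul, integral_exp_mul_Ioi hneg 0, mul_zero, Real.exp_zero]
    have h4 : lam - s ≠ 0 := by linarith
    have h5 : s - lam ≠ 0 := hneg.ne
    field_simp
    ring
  rw [← h3, ofReal_integral_eq_lintegral_ofReal h2
    (Eventually.of_forall fun x => mul_nonneg (h.pos 0).le (Real.exp_pos _).le)]
  refine setLIntegral_mono' measurableSet_Ioi fun x hx => ENNReal.ofReal_le_ofReal ?_
  have hx' : (0 : ℝ) ≤ x := (mem_Ioi.1 hx).le
  have h4 := mul_le_mul_of_nonneg_left (lc_lower f h lam hlam h1 x hx') (Real.exp_pos (s * x)).le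
  refine le_trans (le_of_eq ?_) h4
  have h5 : (s - lam) * x = s * x + -(lam * x) := by ring
  rw [h5, Real.exp_add]
  ring

end Pool.Agent.Lib.MP_a80c92_pr
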