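import Pool.Agent.Lib.MP_a80c92_pr.NecA
import Pool.Agent.Lib.MP_a80c92_pr.AdmB
import Pool.Agent.Lib.MP_a80c92_pr.ClsA
import Pool.Agent.Lib.MP_a80c92_pr.ClsB
import Pool.Agent.Lib.MP_a80c92_pr.ClsC

/-! # The characterisation -/

open MeasureTheory Set Filter Topology ProbabilityTheory
open scoped ENNReal NNReal

namespace Pool.Agent.Lib.MP_a80c92_pr

/-- The class of functions `k` on `(0, ∞)`: `k = 0`, or `k(x) = e^{-lam x} m(x)` with `lam ≥ 0` and
`m > 0` nonincreasing, `e^{εx} m(x)` unbounded on `(1, ∞)` for every `ε > 0` (`Adm`), or `k > 0`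
log-convex. -/
def InClass (k : ℝ → ℝ) : Prop :=
  (∀ x, 0 < x → k x = 0) ∨ (∃ lam L : ℝ, Adm k lam L) ∨ LogConvexK k

theorem cls_reduce (kR kL : ℝ → ℝ) (hlev : IsLevy (levyOf kR kL)) (hk : InClass kR) :
    (∀ x, 0 < x → kR x = 0) ∨ ∃ lam L : ℝ, Adm kR lam L := by
  rcases hk with h | h | h
  · exact Or.inl h
  · exact Or.inr h
  · exact Or.inr (logconvex_adm kR kL h hlev)

theorem cond_of_nec (kR kL : ℝ → ℝ) (hlev : IsLevy (levyOf kR kL)) (hk : InClass kR)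
    (hN : NecSide (levyOf kR kL)) : Cond kR := by
  rcases cls_reduce kR kL hlev hk with hk | ⟨lam, L, hk⟩
  · exact Or.inl hk
  · obtain ⟨h1, h2⟩ := adm_nec kR kL lam L hk hN
    exact Or.inr ⟨lam, L, h1, h2, hk.lim⟩

theorem sideOK_of_cond (kR kL : ℝ → ℝ) (hlev : IsLevy (levyOf kR kL)) (hk : InClass kR)
    (hc : Cond kR) : ∃ lam, SideOK kR lam := by
  rcases cls_reduce kR kL hlev hk with hk | ⟨lam, L, hk⟩
  · exact ⟨0, Or.inl hk⟩
  · obtain ⟨h1, h2⟩ := adm_cond kR lam L hk hc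
    exact ⟨lam, Or.inr ⟨h1.le, adm_goodK kR lam L hk h2⟩⟩

theorem main_class (μ : Measure ℝ) [IsProbabilityMeasure μ] (g s2 : ℝ) (kR kL : ℝ → ℝ)
    (h : HasTriple μ g s2 (levyOf kR kL)) (hR : InClass kR) (hL : InClass kL) :
    StronglyUnimodal μ ↔ Cond kR ∧ Cond kL := by
  have hlev : IsLevy (levyOf kR kL) := h.levy
  have hlev' : IsLevy (levyOf kL kR) := levyOf_neg kR kL ▸ isLevy_neg _ hlev
  constructor
  · intro hsu
    obtain ⟨n1, n2⟩ := necessary μ g s2 _ h hsu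
    rw [levyOf_neg] at n2
    exact ⟨cond_of_nec kR kL hlev hR n1, cond_of_nec kL kR hlev' hL n2⟩
  · rintro ⟨cR, cL⟩
    obtain ⟨lR, oR⟩ := sideOK_of_cond kR kL hlev hR cR
    obtain ⟨lL, oL⟩ := sideOK_of_cond kL kR hlev' hL cL
    exact sufficiency μ g s2 kR kL h lR lL oR oL

/-- Thorin measures: `U` lives on `[b, ∞)`, `b ≥ 0` is the lowest point of its support, and the
Laplace transform is finite on `(0, ∞)`. -/
structure Thorin (U : Measure ℝ) (b : ℝ) : Prop where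
  nonneg : 0 ≤ b
  below : U (Iio b) = 0
  above : ∀ ε : ℝ, 0 < ε → 0 < U (Iio (b + ε))
  int : ∀ x : ℝ, 0 < x → Integrable (fun u => Real.exp (-(x * u))) U

theorem thorin_cond_iff (U : Measure ℝ) (b : ℝ) (h : Thorin U b) :
    Cond (lap U) ↔ 0 < b ∧ 1 ≤ U.real {b} := by
  have ha := lap_adm U b h.nonneg h.below h.above h.int
  constructor
  · intro hc; exact adm_cond _ _ _ ha hc
  · rintro ⟨h1, h2⟩; exact Or.inr ⟨b, _, h1, h2, ha.lim⟩

end Pool.Agent.Lib.MP_a80c92_pr
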