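import Pool.Agent.Lib.MP_a80c92_pr.LkA

/-! # JOB Refl: reflection and convolution

PROOF. `unimodal_neg`: `F = dfn μ` is convex on the open half line `Iio a`, concave on `Ioi a`, so
it is continuous at every `x ≠ a` (`ConvexOn.continuousOn` on open sets), hence `μ {x} = 0` there
(`μ {x} = F x - F(x-)`, e.g. via `StieltjesFunction`/`cdf`, or: `μ {x} ≤ F x - F y` for all
`y < x`). For `x ≠ -a`: `dfn (μ.map neg) x = μ.real (Ici (-x)) = 1 - F (-x)` (no atom at `-x`). So
it is convex on `Iio (-a)` (there `-x ∈ Ioi a`, `F` concave) and concave on `Ioi (-a)`.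
`stronglyUnimodal_neg`: `(μ.map neg) ∗ G = (μ ∗ (G.map neg)).map neg` (`map neg ∘ map neg = id`;
`map_conv_continuousLinearMap` or `Measure.map_conv_addMonoidHom`). `stronglyUnimodal_conv`:
`conv_assoc`. `hasTriple_neg`: `charFun (μ.map neg) t = charFun μ (-t)` (`charFun_map_mul` with
`r = -1` or directly), `isLevy_neg`, `∫ lk t d(ν.map neg) = ∫ lk t (-x) dν = ∫ lk (-t) x dν`
(`lk_neg`). `hasTriple_conv_gauss`: `charFun_conv`, `charFun_gaussianReal`. -/

open MeasureTheory Set Filter Topology ProbabilityTheory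
open scoped ENNReal NNReal

namespace Pool.Agent.Lib.MP_a80c92_pr

private theorem refl_atom (μ : Measure ℝ) [IsProbabilityMeasure μ] {a : ℝ} (h1 : ConvexOn ℝ (Iio a) (dfn μ))
    (h2 : ConcaveOn ℝ (Ioi a) (dfn μ)) {x : ℝ} (hx : x ≠ a) : μ.real {x} = 0 := by
  have hc : ContinuousAt (dfn μ) x := by
    rcases lt_or_gt_of_ne hx with h | h
    · exact (h1.continuousOn isOpen_Iio).continuousAt (Iio_mem_nhds h)
    · exact (h2.continuousOn isOpen_Ioi).continuousAt (Ioi_mem_nhds h)
  have hle : ∀ y, y < x → μ.real {x} ≤ dfn μ x - dfn μ y := by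
    intro y hy
    have e1 : μ.real (Iic y ∪ {x}) = μ.real (Iic y) + μ.real {x} := by
      refine measureReal_union ?_ (measurableSet_singleton x)
      rw [disjoint_singleton_right]
      exact fun h => absurd hy (not_lt.2 h)
    have e2 : μ.real (Iic y ∪ {x}) ≤ μ.real (Iic x) :=
      measureReal_mono (union_subset (Iic_subset_Iic.2 hy.le) (singleton_subset_iff.2 (mem_Iic.2 le_rfl)))
    unfold dfn
    linarith
  have ht : Tendsto (fun y => dfn μ x - dfn μ y) (𝓝[<] x) (𝓝 (dfn μ x - dfn μ x)) :=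
    (tendsto_const_nhds.sub hc.tendsto).mono_left nhdsWithin_le_nhds
  have h3 : μ.real {x} ≤ dfn μ x - dfn μ x := by
    refine ge_of_tendsto ht ?_
    filter_upwards [self_mem_nhdsWithin] with y hy
    exact hle y hy
  rw [sub_self] at h3
  exact le_antisymm h3 measureReal_nonneg

private theorem refl_dfn (μ : Measure ℝ) [IsProbabilityMeasure μ] {x : ℝ} (hx : μ.real {-x} = 0) :
    dfn (μ.map (fun x => -x)) x = 1 - dfn μ (-x) := by
  unfold dfn
  rw [map_measureReal_apply measurable_neg measurableSet_Iic]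
  have e0 : (fun x : ℝ => -x) ⁻¹' Iic x = Ici (-x) := by
    ext y
    simp only [mem_preimage, mem_Iic, mem_Ici]
    exact neg_le
  have e1 : μ.real (Iio (-x) ∪ {-x}) = μ.real (Iio (-x)) + μ.real {-x} := by
    refine measureReal_union ?_ (measurableSet_singleton _)
    rw [disjoint_singleton_right]
    exact fun h => lt_irrefl _ (mem_Iio.1 h)
  have e2 : Iio (-x) ∪ {-x} = Iic (-x) := Iio_union_right
  have e3 : μ.real (Iio (-x)) + μ.real (Iio (-x))ᶜ = 1 := by
    rw [measureReal_add_measureReal_compl measurableSet_Iio, probReal_univ]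
  rw [compl_Iio] at e3
  rw [e0]
  rw [e2, hx, add_zero] at e1
  linarith

theorem unimodal_neg (μ : Measure ℝ) [IsProbabilityMeasure μ] (h : Unimodal μ) :
    Unimodal (μ.map (fun x => -x)) := by
  obtain ⟨a, h1, h2⟩ := h
  let L : ℝ →ₗ[ℝ] ℝ := -LinearMap.id
  have hL : ∀ x, L x = -x := fun x => rfl
  refine ⟨-a, ?_, ?_⟩
  · have h3 : ConcaveOn ℝ (L ⁻¹' Ioi a) (dfn μ ∘ L) := h2.comp_linearMap L
    have h4 : L ⁻¹' Ioi a = Iio (-a) := by
      ext x
      simp only [mem_preimage, mem_Ioi, mem_Iio, hL]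
      exact lt_neg
    rw [h4] at h3
    refine ((convexOn_const (1 : ℝ) h3.1).sub h3).congr fun x hx => ?_
    have hx' : -x ≠ a := by
      intro h5
      have h6 : x < -a := hx
      linarith
    exact (refl_dfn μ (refl_atom μ h1 h2 hx')).symm
  · have h3 : ConvexOn ℝ (L ⁻¹' Iio a) (dfn μ ∘ L) := h1.comp_linearMap L
    have h4 : L ⁻¹' Iio a = Ioi (-a) := by
      ext x
      simp only [mem_preimage, mem_Ioi, mem_Iio, hL]
      exact neg_lt
    rw [h4] at h3
    refine ((concaveOn_const (1 : ℝ) h3.1).sub h3).congr fun x hx => ?_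
    have hx' : -x ≠ a := by
      intro h5
      have h6 : -a < x := hx
      linarith
    exact (refl_dfn μ (refl_atom μ h1 h2 hx')).symm

private theorem refl_prob (μ : Measure ℝ) [IsProbabilityMeasure μ] : IsProbabilityMeasure (μ.map (fun x => -x)) :=
  Measure.isProbabilityMeasure_map measurable_neg.aemeasurable

private theorem refl_conv (μ ρ : Measure ℝ) [IsProbabilityMeasure μ] [IsProbabilityMeasure ρ] :
    (μ ∗ ρ).map (fun x => -x) = μ.map (fun x => -x) ∗ ρ.map (fun x => -x) := by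
  have h := Measure.map_conv_continuousLinearMap (μ := μ) (ν := ρ) (-(ContinuousLinearMap.id ℝ ℝ))
  have e : ((-(ContinuousLinearMap.id ℝ ℝ) : ℝ →L[ℝ] ℝ) : ℝ → ℝ) = fun x => -x := rfl
  rw [e] at h
  exact h

private theorem refl_refl (μ : Measure ℝ) : (μ.map (fun x => -x)).map (fun x => -x) = μ := by
  rw [Measure.map_map measurable_neg measurable_neg]
  have e : ((fun x : ℝ => -x) ∘ fun x => -x) = id := by
    funext x
    exact neg_neg x
  rw [e, Measure.map_id]

theorem stronglyUnimodal_neg (μ : Measure ℝ) [IsProbabilityMeasure μ]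
    (h : StronglyUnimodal μ) : StronglyUnimodal (μ.map (fun x => -x)) := by
  intro G hG hGu
  have h0 := refl_prob G
  have h1 := h (G.map (fun x => -x)) h0 (unimodal_neg G hGu)
  have h2 := unimodal_neg _ h1
  rwa [refl_conv, refl_refl] at h2

theorem stronglyUnimodal_conv (μ ρ : Measure ℝ) [IsProbabilityMeasure μ]
    [IsProbabilityMeasure ρ] (h : StronglyUnimodal μ) (h' : StronglyUnimodal ρ) :
    StronglyUnimodal (μ ∗ ρ) := by
  intro G hG hGu
  rw [Measure.conv_assoc]
  exact h (ρ ∗ G) inferInstance (h' G hG hGu)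

theorem hasTriple_neg (μ : Measure ℝ) [IsProbabilityMeasure μ] (g s2 : ℝ) (ν : Measure ℝ)
    (h : HasTriple μ g s2 ν) :
    HasTriple (μ.map (fun x => -x)) (-g) s2 (ν.map (fun x => -x)) := by
  refine ⟨h.s2_nonneg, isLevy_neg ν h.levy, fun t => ?_⟩
  have e1 : charFun (μ.map (fun x => -x)) t = charFun μ (-t) := by
    have h1 := charFun_map_mul (μ := μ) (-1) t
    simpa only [neg_one_mul, neg_mul, one_mul] using h1
  have e2 : ∫ x, lk t x ∂(ν.map (fun x => -x)) = ∫ x, lk (-t) x ∂ν := by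
    rw [integral_map measurable_neg.aemeasurable (measurable_lk t).aestronglyMeasurable]
    exact integral_congr_ae (ae_of_all _ fun x => lk_neg t x)
  rw [e1, h.cf, e2]
  congr 1
  push_cast
  ring

theorem hasTriple_conv_gauss (μ : Measure ℝ) [IsProbabilityMeasure μ] (g s2 : ℝ)
    (ν : Measure ℝ) (h : HasTriple μ g s2 ν) :
    HasTriple (μ ∗ gaussianReal 0 1) g (s2 + 1) ν := by
  refine ⟨by linarith [h.s2_nonneg], h.levy, fun t => ?_⟩
  rw [charFun_conv, h.cf, charFun_gaussianReal, ← Complex.exp_add]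
  congr 1
  push_cast
  ring

theorem hasTriple_gauss : HasTriple (gaussianReal 0 1) 0 1 (levyOf 0 0) := by
  have h0 : levyOf 0 0 = 0 := by
    unfold levyOf
    simp
  refine ⟨zero_le_one, ?_, fun t => ?_⟩
  · rw [h0]
    exact ⟨rfl, by simp⟩
  · rw [h0, charFun_gaussianReal]
    congr 1
    simp

end Pool.Agent.Lib.MP_a80c92_pr
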