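import Pool.Agent.Lib.MP_a80c92_pr.Suff
import Pool.Agent.Lib.MP_a80c92_pr.Refl
import Pool.Agent.Lib.MP_a80c92_pr.Gd
import Pool.Agent.Lib.MP_a80c92_pr.Ibr
import Pool.Agent.Lib.MP_a80c92_pr.LogC
import Pool.Agent.Lib.MP_a80c92_pr.ExpUp
import Pool.Agent.Lib.MP_a80c92_pr.ExpLow

/-! # Necessity for all triples -/

open MeasureTheory Set Filter Topology ProbabilityTheory
open scoped ENNReal NNReal

namespace Pool.Agent.Lib.MP_a80c92_pr

theorem gauss_su : StronglyUnimodal (gaussianReal 0 1) :=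
  sufficiency _ 0 1 0 0 hasTriple_gauss 0 0 (Or.inl fun _ _ => rfl) (Or.inl fun _ _ => rfl)

theorem posLC_gd (μ : Measure ℝ) [IsProbabilityMeasure μ] (hsu : StronglyUnimodal μ) :
    PosLC (gd μ) where
  cont := gd_cont μ
  pos := gd_pos μ
  int := gd_integrable μ
  lc := fun x y t hxy ht =>
    ibragimov (μ ∗ gaussianReal 0 1) (stronglyUnimodal_conv μ _ hsu gauss_su) (gd μ)
      (gd_cont μ) (gd_pos μ) (gd_deriv μ) (gd_top μ) (gd_bot μ) x y t hxy ht

theorem lintegral_gauss (μ : Measure ℝ) [IsProbabilityMeasure μ] (s : ℝ) :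
    ∫⁻ x, ENNReal.ofReal (Real.exp (s * x)) ∂(μ ∗ gaussianReal 0 1) =
      ∫⁻ x, ENNReal.ofReal (Real.exp (s * x) * gd μ x) := by
  rw [conv_gauss, lintegral_withDensity_eq_lintegral_mul _
    ((gd_cont μ).measurable.ennreal_ofReal) (by fun_prop)]
  refine lintegral_congr fun x => ?_
  simp only [Pi.mul_apply]
  rw [mul_comm, ← ENNReal.ofReal_mul (Real.exp_pos _).le]

theorem E_le_I (μ : Measure ℝ) [IsProbabilityMeasure μ] (s : ℝ) (hs : 0 ≤ s) :
    ∫⁻ x, ENNReal.ofReal (Real.exp (s * x)) ∂(μ ∗ gaussianReal 0 1) ≤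
      (∫⁻ x in Ioi (0 : ℝ), ENNReal.ofReal (Real.exp (s * x) * gd μ x)) + 1 := by
  rw [lintegral_gauss, ← lintegral_add_compl _ (measurableSet_Ioi (a := (0 : ℝ)))]
  gcongr
  have h1 : ∫⁻ x, ENNReal.ofReal (gd μ x) = 1 := by
    have := lintegral_gauss μ 0
    simp only [zero_mul, Real.exp_zero, ENNReal.ofReal_one, lintegral_const, measure_univ,
      mul_one, one_mul] at this
    exact this.symm
  calc ∫⁻ x in (Ioi (0 : ℝ))ᶜ, ENNReal.ofReal (Real.exp (s * x) * gd μ x)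
      ≤ ∫⁻ x in (Ioi (0 : ℝ))ᶜ, ENNReal.ofReal (gd μ x) := by
        refine setLIntegral_mono' (measurableSet_Ioi.compl) fun x hx => ?_
        apply ENNReal.ofReal_le_ofReal
        have hx' : x ≤ 0 := by simpa using hx
        have : Real.exp (s * x) ≤ 1 := Real.exp_le_one_iff.2 (mul_nonpos_of_nonneg_of_nonpos hs hx')
        have hp := gd_pos μ x
        nlinarith
    _ ≤ ∫⁻ x, ENNReal.ofReal (gd μ x) := setLIntegral_le_lintegral _ _
    _ = 1 := h1

theorem I_le_E (μ : Measure ℝ) [IsProbabilityMeasure μ] (s : ℝ) :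
    (∫⁻ x in Ioi (0 : ℝ), ENNReal.ofReal (Real.exp (s * x) * gd μ x)) ≤
      ∫⁻ x, ENNReal.ofReal (Real.exp (s * x)) ∂(μ ∗ gaussianReal 0 1) := by
  rw [lintegral_gauss]; exact setLIntegral_le_lintegral _ _

theorem necessary_right (μ : Measure ℝ) [IsProbabilityMeasure μ] (g s2 : ℝ) (ν : Measure ℝ)
    (h : HasTriple μ g s2 ν) (hsu : StronglyUnimodal μ) : NecSide ν := by
  have h' := hasTriple_conv_gauss μ g s2 ν h
  have hlc := posLC_gd μ hsu
  refine ⟨?_, ?_⟩
  · obtain ⟨s, hs, hI⟩ := lc_exp_moment _ hlc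
    refine ⟨s, hs, J_lt_top _ g (s2 + 1) ν h' s hs ?_⟩
    exact (E_le_I μ s hs.le).trans_lt (ENNReal.add_lt_top.2 ⟨hI, ENNReal.one_lt_top⟩)
  · intro lam hlam hfin hinf
    have h1 : ∀ s, lam < s →
        ∫⁻ x in Ioi (0 : ℝ), ENNReal.ofReal (Real.exp (s * x) * gd μ x) = ∞ := by
      intro s hs
      by_contra hne
      have hs0 : 0 < s := hlam.trans hs
      have : J ν s < ∞ := J_lt_top _ g (s2 + 1) ν h' s hs0
        ((E_le_I μ s hs0.le).trans_lt
          (ENNReal.add_lt_top.2 ⟨lt_top_iff_ne_top.2 hne, ENNReal.one_lt_top⟩))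
      exact this.ne (hinf s hs)
    obtain ⟨C, hC⟩ := ek_bound ν h.levy lam hlam.le
    refine ⟨|g| * lam + (s2 + 1) * lam ^ 2 / 2 + C - Real.log (gd μ 0), ?_⟩
    intro s hs0 hs
    have hJ := hfin s hs
    have k1 := lc_lower_int _ hlc lam hlam h1 s hs
    have k2 := (k1.trans (I_le_E μ s)).trans (exp_moment_le _ g (s2 + 1) ν h' s hs0 hJ)
    rw [ENNReal.ofReal_le_ofReal_iff (Real.exp_pos _).le] at k2
    have hf0 := gd_pos μ 0
    have hd : 0 < lam - s := by linarith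
    have k3 := Real.log_le_log (by positivity) k2
    rw [Real.log_exp, Real.log_div hf0.ne' hd.ne'] at k3
    have k4 := hC s hs0 hs.le hJ
    rw [one_div, Real.log_inv]
    have k5 : g * s ≤ |g| * lam :=
      (mul_le_mul_of_nonneg_right (le_abs_self g) hs0).trans
        (mul_le_mul_of_nonneg_left hs.le (abs_nonneg g))
    have k6 : (s2 + 1) * s ^ 2 / 2 ≤ (s2 + 1) * lam ^ 2 / 2 := by
      have := h.s2_nonneg
      have : s ^ 2 ≤ lam ^ 2 := pow_le_pow_left₀ hs0 hs.le 2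
      have : (s2 + 1) * s ^ 2 ≤ (s2 + 1) * lam ^ 2 :=
        mul_le_mul_of_nonneg_left this (by linarith)
      linarith
    linarith

theorem isProb_neg (μ : Measure ℝ) [IsProbabilityMeasure μ] :
    IsProbabilityMeasure (μ.map (fun x => -x)) :=
  Measure.isProbabilityMeasure_map (by fun_prop)

theorem necessary (μ : Measure ℝ) [IsProbabilityMeasure μ] (g s2 : ℝ) (ν : Measure ℝ)
    (h : HasTriple μ g s2 ν) (hsu : StronglyUnimodal μ) :
    NecSide ν ∧ NecSide (ν.map (fun x => -x)) := by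
  refine ⟨necessary_right μ g s2 ν h hsu, ?_⟩
  have := isProb_neg μ
  exact necessary_right _ (-g) s2 _ (hasTriple_neg μ g s2 ν h) (stronglyUnimodal_neg μ hsu)

end Pool.Agent.Lib.MP_a80c92_pr
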