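import Pool.Agent.Lib.MP_a80c92_pr.CPb
import Pool.Agent.Lib.MP_a80c92_pr.LCa
import Pool.Agent.Lib.MP_a80c92_pr.DUa
import Pool.Agent.Lib.MP_a80c92_pr.DUb
import Pool.Agent.Lib.MP_a80c92_pr.Ceil
import Pool.Agent.Lib.MP_a80c92_pr.LimE
import Pool.Agent.Lib.MP_a80c92_pr.LatB
import Pool.Agent.Lib.MP_a80c92_pr.LatC

/-! # Sufficiency -/

open MeasureTheory Set Filter Topology ProbabilityTheory
open scoped ENNReal NNReal

namespace Pool.Agent.Lib.MP_a80c92_pr

/-- One side of the sufficient condition. -/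
def SideOK (k : ℝ → ℝ) (lam : ℝ) : Prop :=
  (∀ x, 0 < x → k x = 0) ∨ (0 ≤ lam ∧ GoodK k lam)

theorem map_dirac_cast :
    (Measure.dirac (0 : ℕ)).map (fun i : ℕ => (i : ℤ)) = Measure.dirac (0 : ℤ) := by
  rw [Measure.map_dirac' (by fun_prop)]; simp

theorem SDU_side (kR kL : ℝ → ℝ) (hlev : IsLevy (levyOf kR kL)) (lam : ℝ) (hk : SideOK kR lam)
    (δ : ℝ) (hδ : 0 < δ) :
    SDU ((CP (latm lam δ (levyOf kR kL))).map (fun i : ℕ => (i : ℤ))) := by
  rcases hk with hk | ⟨h0, hk⟩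
  · rw [latm_eq_zero kR kL hk lam δ hδ, CP_zero_measure, map_dirac_cast]
    exact SDU_dirac
  · have := isFinite_latm _ hlev lam δ hδ
    apply SDU_of_LC
    exact LC_CP _ (latm_zero _ lam δ hδ) (Real.exp (-(lam * δ))) (Real.exp_pos _)
      (fun j hj => latm_h1 kR kL lam h0 hk δ hδ j hj)
      (fun j hj => latm_h2 kR kL lam hk δ hδ j hj)

instance isFinite_smul_dirac (c : ℝ) :
    IsFiniteMeasure (ENNReal.ofReal c • Measure.dirac (1 : ℕ)) :=
  ⟨by simp⟩

theorem SDU_poi (c : ℝ) (hc : 0 ≤ c) :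
    SDU ((CP (ENNReal.ofReal c • Measure.dirac (1 : ℕ))).map (fun i : ℕ => (i : ℤ))) := by
  rcases hc.eq_or_lt with h | h
  · rw [← h, ENNReal.ofReal_zero, zero_smul, CP_zero_measure, map_dirac_cast]
    exact SDU_dirac
  · exact SDU_of_LC _ (LC_poisson c h)

/-- The Poisson law with parameter `s2 / (2 δ²)`, on `ℤ`. -/
noncomputable def poiN (s2 : ℝ) (N : ℕ) : Measure ℤ :=
  (CP (ENNReal.ofReal (s2 / (2 * dl N ^ 2)) • Measure.dirac (1 : ℕ))).map
    (fun i : ℕ => (i : ℤ))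

/-- The compound Poisson law of the positive jumps, on `ℤ`. -/
noncomputable def jmpN (lam : ℝ) (ν : Measure ℝ) (N : ℕ) : Measure ℤ :=
  (CP (latm lam (dl N) ν)).map (fun i : ℕ => (i : ℤ))

theorem dl_pos (N : ℕ) : 0 < dl N := by unfold dl; positivity

theorem tendsto_dl : Tendsto dl atTop (𝓝 0) := by
  unfold dl; exact tendsto_one_div_add_atTop_nhds_zero_nat

instance isProb_poiN (s2 : ℝ) (N : ℕ) : IsProbabilityMeasure (poiN s2 N) := by
  unfold poiN; exact Measure.isProbabilityMeasure_map (by fun_prop)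

theorem isProb_jmpN (lam : ℝ) (ν : Measure ℝ) (h : IsLevy ν) (N : ℕ) :
    IsProbabilityMeasure (jmpN lam ν N) := by
  have := isFinite_latm ν h lam (dl N) (dl_pos N)
  unfold jmpN; exact Measure.isProbabilityMeasure_map (by fun_prop)

theorem isProb_mapneg (Q : Measure ℤ) [IsProbabilityMeasure Q] :
    IsProbabilityMeasure (Q.map (fun n : ℤ => -n)) :=
  Measure.isProbabilityMeasure_map (by fun_prop)

theorem zcf_poiN (s2 : ℝ) (hs : 0 ≤ s2) (N : ℕ) (u : ℝ) :
    zcf (poiN s2 N) u =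
      Complex.exp (((s2 / (2 * dl N ^ 2) : ℝ) : ℂ) * (Complex.exp (u * Complex.I) - 1)) := by
  unfold poiN
  rw [zcf_CP_cast, integral_smul_measure, integral_dirac]
  have h : 0 ≤ s2 / (2 * dl N ^ 2) := by positivity
  rw [ENNReal.toReal_ofReal h]
  simp

theorem zcf_jmpN (lam : ℝ) (ν : Measure ℝ) (h : IsLevy ν) (N : ℕ) (u : ℝ) :
    zcf (jmpN lam ν N) u = Complex.exp
      (∫ j : ℕ, (Complex.exp (u * j * Complex.I) - 1) ∂(latm lam (dl N) ν)) := by
  have := isFinite_latm ν h lam (dl N) (dl_pos N)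
  unfold jmpN
  rw [zcf_CP_cast]

/-- The approximating lattice law. -/
noncomputable def YN (lamR lamL s2 : ℝ) (ν G : Measure ℝ) (N : ℕ) : Measure ℤ :=
  jmpN lamR ν N ∗ ((jmpN lamL (ν.map (fun x => -x)) N).map (fun n : ℤ => -n) ∗
    (poiN s2 N ∗ ((poiN s2 N).map (fun n : ℤ => -n) ∗ disc (dl N) G)))

theorem sufficiency (μ : Measure ℝ) [IsProbabilityMeasure μ] (g s2 : ℝ) (kR kL : ℝ → ℝ)
    (h : HasTriple μ g s2 (levyOf kR kL)) (lamR lamL : ℝ) (hR : SideOK kR lamR)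
    (hL : SideOK kL lamL) : StronglyUnimodal μ := by
  intro G hG hGu
  set ν := levyOf kR kL with hν
  have hlev := h.levy
  have hs2 := h.s2_nonneg
  have hneg : ν.map (fun x => -x) = levyOf kL kR := levyOf_neg kR kL
  have hlev' : IsLevy (ν.map (fun x => -x)) := isLevy_neg ν hlev
  have i1 : ∀ N, IsProbabilityMeasure (jmpN lamR ν N) := isProb_jmpN lamR ν hlev
  have i2 : ∀ N, IsProbabilityMeasure (jmpN lamL (ν.map (fun x => -x)) N) :=
    isProb_jmpN lamL _ hlev'
  have i3 : ∀ N, IsProbabilityMeasure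
      ((jmpN lamL (ν.map (fun x => -x)) N).map (fun n : ℤ => -n)) :=
    fun N => isProb_mapneg _
  have i4 : ∀ N, IsProbabilityMeasure ((poiN s2 N).map (fun n : ℤ => -n)) :=
    fun N => isProb_mapneg _
  have iY : ∀ N, IsProbabilityMeasure (YN lamR lamL s2 ν G N) := by
    intro N; unfold YN; infer_instance
  have hDU : ∀ N, DU (YN lamR lamL s2 ν G N) := by
    intro N
    have hc : 0 ≤ s2 / (2 * dl N ^ 2) := by have := dl_pos N; positivity
    have a1 : SDU (jmpN lamR ν N) := SDU_side kR kL hlev lamR hR (dl N) (dl_pos N)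
    have a2 : SDU (jmpN lamL (ν.map (fun x => -x)) N) := by
      unfold jmpN
      rw [hneg]
      exact SDU_side kL kR (hneg ▸ hlev') lamL hL (dl N) (dl_pos N)
    have a3 := SDU_neg _ a2
    have a4 : SDU (poiN s2 N) := SDU_poi _ hc
    have a5 := SDU_neg _ a4
    unfold YN
    refine a1 _ inferInstance (a3 _ inferInstance (a4 _ inferInstance
      (a5 _ inferInstance (DU_disc G hGu (dl N) (dl_pos N)))))
  let b : ℕ → ℝ := fun N => g + bdr lamR (dl N) ν - bdr lamL (dl N) (ν.map (fun x => -x))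
  refine unimodal_of_lattice_limit (fun N => YN lamR lamL s2 ν G N) hDU b dl dl_pos tendsto_dl
    (μ ∗ G) ?_
  intro t
  have hz : ∀ N, charFun ((YN lamR lamL s2 ν G N).map (fun z : ℤ => b N + dl N * (z : ℝ))) t =
      Complex.exp (g * t * Complex.I +
        ((∫ j : ℕ, (Complex.exp (dl N * t * j * Complex.I) - 1) ∂(latm lamR (dl N) ν)) +
          (bdr lamR (dl N) ν : ℂ) * t * Complex.I) +
        ((∫ j : ℕ, (Complex.exp (dl N * ((-t : ℝ) : ℂ) * j * Complex.I) - 1)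
            ∂(latm lamL (dl N) (ν.map (fun x => -x)))) +
          (bdr lamL (dl N) (ν.map (fun x => -x)) : ℂ) * ((-t : ℝ) : ℂ) * Complex.I) +
        (((s2 / (2 * dl N ^ 2) : ℝ) : ℂ) * (Complex.exp (dl N * t * Complex.I) - 1) +
      ((s2 / (2 * dl N ^ 2) : ℝ) : ℂ) * (Complex.exp (dl N * (-t) * Complex.I) - 1))) *
      zcf (disc (dl N) G) (dl N * t) := by
    intro N
    rw [charFun_lattice]
    unfold YN
    rw [zcf_conv, zcf_conv, zcf_conv, zcf_conv, zcf_neg, zcf_neg, zcf_jmpN lamR ν hlev,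
      zcf_jmpN lamL _ hlev', zcf_poiN s2 hs2, zcf_poiN s2 hs2]
    simp only [← mul_assoc, ← Complex.exp_add]
    congr 2
    simp only [b]
    push_cast
    have e1 : ∀ j : ℕ, (-((dl N : ℂ) * (t : ℂ))) * (j : ℂ) * Complex.I =
      (dl N : ℂ) * (-(t : ℂ)) * (j : ℂ) * Complex.I := by intro j; ring
    simp only [e1]
    have e2 : (-((dl N : ℂ) * (t : ℂ))) * Complex.I =
      (dl N : ℂ) * (-(t : ℂ)) * Complex.I := by ring
    rw [e2]
    ring
  simp only [hz]
  have c1 := tendsto_latm ν hlev lamR t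
  have c2 := tendsto_latm (ν.map (fun x => -x)) hlev' lamL (-t)
  have c3 := tendsto_poisson s2 t
  have c4 := tendsto_zcf_disc G t
  have c5 := ((((tendsto_const_nhds (x := (g * t * Complex.I : ℂ))).add c1).add c2).add c3)
  have c6 := (Complex.continuous_exp.tendsto _).comp c5
  have c7 := c6.mul c4
  have e : charFun (μ ∗ G) t = Complex.exp
      ((g * t * Complex.I : ℂ) + (∫ x in Ioi 0, lk t x ∂ν) +
        (∫ x in Ioi 0, lk (-t) x ∂(ν.map (fun x => -x))) + (-(s2 * t ^ 2 / 2) : ℂ)) *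
      charFun G t := by
    rw [charFun_conv, h.cf, integral_lk_split ν hlev t]
    congr 2
    ring
  rw [e]
  exact c7

end Pool.Agent.Lib.MP_a80c92_pr
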