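import Pool.Agent.Lib.MP_a80c92_pr.Defs

/-! # JOB TstA: test laws

PROOF. `tl_prob`: `Real.volume_Ioc`. `dfn (tl ...) x = c1 (min x b1 - a1)^+ + c2 (min x b2 - a2)^+`
(`Ioc a b ∩ Iic x = Ioc a (min b x)`). Same right end point `b`: on `Iio b` it is
`c1 max(x - a1, 0) + c2 max(x - a2, 0)`, convex; on `Ioi b` it is constant. Mode `b`. Same left
end point `a`: on `Iio a` it is `0`; on `Ioi a` it is
`c1 (min x b1 - a) + c2 (min x b2 - a)`, concave. Mode `a`. -/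

open MeasureTheory Set Filter Topology ProbabilityTheory
open scoped ENNReal NNReal

namespace Pool.Agent.Lib.MP_a80c92_pr

private theorem tstA_dfn (c1 a1 b1 c2 a2 b2 : ℝ) (hc1 : 0 ≤ c1) (hc2 : 0 ≤ c2) (x : ℝ) :
    dfn (tl c1 a1 b1 c2 a2 b2) x =
      c1 * max (min x b1 - a1) 0 + c2 * max (min x b2 - a2) 0 := by
  have key : ∀ c a b : ℝ, 0 ≤ c → (ENNReal.ofReal c • volume.restrict (Ioc a b)) (Iic x) =
      ENNReal.ofReal (c * max (min x b - a) 0) := by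
    intro c a b hc
    rw [Measure.smul_apply, Measure.restrict_apply measurableSet_Iic, smul_eq_mul]
    have h1 : Iic x ∩ Ioc a b = Ioc a (min x b) := by
      ext y
      simp only [mem_inter_iff, mem_Iic, mem_Ioc, le_min_iff]
      tauto
    rw [h1, Real.volume_Ioc, ← ENNReal.ofReal_mul hc]
    rcases le_total 0 (min x b - a) with h | h
    · rw [max_eq_left h]
    · rw [max_eq_right h, mul_zero, ENNReal.ofReal_zero, ENNReal.ofReal_eq_zero]
      exact mul_nonpos_of_nonneg_of_nonpos hc h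
  have n1 : 0 ≤ c1 * max (min x b1 - a1) 0 := mul_nonneg hc1 (le_max_right _ _)
  have n2 : 0 ≤ c2 * max (min x b2 - a2) 0 := mul_nonneg hc2 (le_max_right _ _)
  unfold dfn tl Measure.real
  rw [Measure.add_apply, key c1 a1 b1 hc1, key c2 a2 b2 hc2, ← ENNReal.ofReal_add n1 n2,
    ENNReal.toReal_ofReal (add_nonneg n1 n2)]

private theorem tstA_convex (c a : ℝ) (hc : 0 ≤ c) (s : Set ℝ) (hs : Convex ℝ s) :
    ConvexOn ℝ s (fun x => c * max (x - a) 0) := by
  have h : ConvexOn ℝ s (fun x : ℝ => max (x - a) 0) :=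
    ((convexOn_id hs).add_const (-a)).sup (convexOn_const 0 hs)
  exact h.smul hc

private theorem tstA_concave (c a b : ℝ) (hc : 0 ≤ c) (s : Set ℝ) (hs : Convex ℝ s) :
    ConcaveOn ℝ s (fun x => c * (min x b - a)) := by
  have h : ConcaveOn ℝ s (fun x : ℝ => min x b - a) :=
    ((concaveOn_id hs).inf (concaveOn_const b hs)).add_const (-a)
  exact h.smul hc

theorem tl_prob (c1 a1 b1 c2 a2 b2 : ℝ) (h1 : a1 ≤ b1) (h2 : a2 ≤ b2) (hc1 : 0 ≤ c1)
    (hc2 : 0 ≤ c2) (h : c1 * (b1 - a1) + c2 * (b2 - a2) = 1) :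
    IsProbabilityMeasure (tl c1 a1 b1 c2 a2 b2) := by
  refine ⟨?_⟩
  unfold tl
  rw [Measure.add_apply, Measure.smul_apply, Measure.smul_apply, Measure.restrict_apply_univ,
    Measure.restrict_apply_univ, Real.volume_Ioc, Real.volume_Ioc, smul_eq_mul, smul_eq_mul,
    ← ENNReal.ofReal_mul hc1, ← ENNReal.ofReal_mul hc2,
    ← ENNReal.ofReal_add (mul_nonneg hc1 (sub_nonneg.mpr h1)) (mul_nonneg hc2 (sub_nonneg.mpr h2)),
    h, ENNReal.ofReal_one]

theorem tl_unimodal_right (c1 a1 c2 a2 b : ℝ) (h1 : a1 ≤ b) (h2 : a2 ≤ b) (hc1 : 0 ≤ c1)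
    (hc2 : 0 ≤ c2) : Unimodal (tl c1 a1 b c2 a2 b) := by
  refine ⟨b, ?_, ?_⟩
  · refine ((tstA_convex c1 a1 hc1 (Iio b) (convex_Iio b)).add
      (tstA_convex c2 a2 hc2 (Iio b) (convex_Iio b))).congr ?_
    intro x hx
    show c1 * max (x - a1) 0 + c2 * max (x - a2) 0 = _
    rw [tstA_dfn c1 a1 b c2 a2 b hc1 hc2 x, min_eq_left (le_of_lt hx)]
  · refine (concaveOn_const (dfn (tl c1 a1 b c2 a2 b) b) (convex_Ioi b)).congr ?_
    intro x hx
    show dfn (tl c1 a1 b c2 a2 b) b = _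
    have hx' : b < x := hx
    rw [tstA_dfn c1 a1 b c2 a2 b hc1 hc2 x, tstA_dfn c1 a1 b c2 a2 b hc1 hc2 b, min_self,
      min_eq_right (le_of_lt hx')]

theorem tl_unimodal_left (c1 b1 c2 b2 a : ℝ) (h1 : a ≤ b1) (h2 : a ≤ b2) (hc1 : 0 ≤ c1)
    (hc2 : 0 ≤ c2) : Unimodal (tl c1 a b1 c2 a b2) := by
  refine ⟨a, ?_, ?_⟩
  · refine (convexOn_const (0 : ℝ) (convex_Iio a)).congr ?_
    intro x hx
    show (0 : ℝ) = _
    have hx' : x < a := hx
    rw [tstA_dfn c1 a b1 c2 a b2 hc1 hc2 x,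
      max_eq_right (by linarith [min_le_left x b1] : min x b1 - a ≤ 0),
      max_eq_right (by linarith [min_le_left x b2] : min x b2 - a ≤ 0)]
    ring
  · refine ((tstA_concave c1 a b1 hc1 (Ioi a) (convex_Ioi a)).add
      (tstA_concave c2 a b2 hc2 (Ioi a) (convex_Ioi a))).congr ?_
    intro x hx
    show c1 * (min x b1 - a) + c2 * (min x b2 - a) = _
    have hx' : a < x := hx
    rw [tstA_dfn c1 a b1 c2 a b2 hc1 hc2 x,
      max_eq_left (sub_nonneg.mpr (le_min (le_of_lt hx') h1)),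
      max_eq_left (sub_nonneg.mpr (le_min (le_of_lt hx') h2))]

end Pool.Agent.Lib.MP_a80c92_pr
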